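import Pool.Agent.MP_760060_nt.W.Stm

section

/-! The error term of the small primes. -/

open Finset Polynomial Filter Topology

namespace Pool.Agent.MP_760060_nt.W

namespace ErrJ

theorem term {p n : ℕ} (hp : p.Prime) (h : p ^ 2 ≤ n) :
    ((Nat.log p n : ℝ) + 1) * Real.log p ≤ 2 * Real.log n := by
  have h0 : 0 < p := hp.pos
  have h1 : p ≤ n := by nlinarith
  have h2 : (0 : ℝ) < p := by exact_mod_cast h0
  have h3 : Real.log p ≤ Real.log n := Real.log_le_log h2 (by exact_mod_cast h1)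
  have h4 : Real.log ((p : ℝ) ^ Nat.log p n) ≤ Real.log n :=
    Real.log_le_log (by positivity) (by exact_mod_cast Nat.pow_log_le_self p (by omega : n ≠ 0))
  rw [Real.log_pow] at h4
  linarith

theorem sum_le (m n : ℕ) : ∑ p ∈ (Ioc 0 m).filter (fun p => p.Prime ∧ p ^ 2 ≤ n),
    ((Nat.log p n : ℝ) + 1) * Real.log p ≤ √(n : ℝ) * (2 * Real.log n) := by
  refine (sum_le_card_nsmul _ _ (2 * Real.log n) fun p hp =>
    term (mem_filter.1 hp).2.1 (mem_filter.1 hp).2.2).trans ?_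
  rw [nsmul_eq_mul]
  refine mul_le_mul_of_nonneg_right ?_ (mul_nonneg zero_le_two (Real.log_natCast_nonneg n))
  have h : (Ioc 0 m).filter (fun p => p.Prime ∧ p ^ 2 ≤ n) ⊆ Ioc 0 (Nat.sqrt n) := fun p hp => by
    rw [mem_filter, mem_Ioc] at hp
    exact mem_Ioc.2 ⟨hp.1.1, Nat.le_sqrt'.2 hp.2.2⟩
  have h1 := card_le_card h
  rw [Nat.card_Ioc, Nat.sub_zero] at h1
  exact le_trans (by exact_mod_cast h1) Real.nat_sqrt_le_real_sqrt

end ErrJ

theorem stErr : StErr := by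
  intro ε hε
  have h1 := (isLittleO_log_rpow_atTop (r := 1 / 2) (by norm_num)).bound
    (c := ε / 1000) (by positivity)
  have h2 : Tendsto (fun v : ℕ => ((500 * v : ℕ) : ℝ)) atTop atTop :=
    tendsto_natCast_atTop_atTop.comp (tendsto_atTop_mono (fun v => by
      show v ≤ 500 * v
      omega) tendsto_id)
  filter_upwards [h2.eventually h1] with v hv
  refine (ErrJ.sum_le _ _).trans ?_
  rw [← Real.sqrt_eq_rpow, Real.norm_eq_abs, Real.norm_eq_abs,
    abs_of_nonneg (Real.sqrt_nonneg _)] at hv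
  have h3 := (le_abs_self _).trans hv
  have h4 := Real.mul_self_sqrt (Nat.cast_nonneg (500 * v) : (0 : ℝ) ≤ _)
  have h5 := mul_le_mul_of_nonneg_left h3 (Real.sqrt_nonneg ((500 * v : ℕ) : ℝ))
  have h6 : ((500 * v : ℕ) : ℝ) = 500 * v := by push_cast; ring
  generalize √((500 * v : ℕ) : ℝ) = s at *
  rw [h6] at h4
  have h7 : s * (ε / 1000 * s) = ε * v / 2 := by linear_combination (ε / 1000) * h4
  linarith

end Pool.Agent.MP_760060_nt.W

end

section

namespace Pool.Agent.MP_760060_nt.W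

namespace FaBJ

lemma der {b : ℝ} (hb : b ≠ 0) (s : ℝ) : HasDerivAt (fun s => Fa s b) (lg s b) s := by
  have h0 : s ^ 2 + b ^ 2 ≠ 0 := by positivity
  have h1 : HasDerivAt (fun s : ℝ => s ^ 2 + b ^ 2) (2 * s) s := by
    simpa using (hasDerivAt_pow 2 s).add_const (b ^ 2)
  have h2 := (((hasDerivAt_id s).mul ((h1.log h0).div_const 2)).sub (hasDerivAt_id s)).add
    (((hasDerivAt_id s).div_const b).arctan.const_mul b)
  refine h2.congr_deriv ?_
  simp only [lg, id]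
  field_simp
  ring

lemma mono {b s s' : ℝ} (h0 : 0 < s ^ 2 + b ^ 2) (hs : 0 ≤ s) (h : s ≤ s') : lg s b ≤ lg s' b :=
  div_le_div_of_nonneg_right (Real.log_le_log h0 (by nlinarith)) zero_le_two

lemma lg0 (s : ℝ) : lg s 0 = Real.log s := by simp [lg]

lemma Fa0 (s : ℝ) : Fa s 0 = s * Real.log s - s := by simp [Fa, lg0]

lemma key {s t : ℝ} (hs : 0 < s) (ht : 0 < t) : s * (Real.log t - Real.log s) ≤ t - s := by
  have h := Real.log_le_sub_one_of_pos (div_pos ht hs)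
  rw [Real.log_div ht.ne' hs.ne'] at h
  calc _ ≤ s * (t / s - 1) := mul_le_mul_of_nonneg_left h hs.le
    _ = _ := by field_simp

end FaBJ

open FaBJ in
theorem stFaB : StFaB := by
  intro b s s' hs h
  by_cases hb : b = 0
  · subst hb
    rw [Fa0, Fa0, lg0, lg0]
    rcases hs.eq_or_lt with rfl | hs'
    · exact ⟨by linarith, fun h0 => absurd h0 (by simp)⟩
    · have h1 := key hs' (hs'.trans_le h)
      have h2 := key (hs'.trans_le h) hs'
      exact ⟨by linarith, fun _ => by linarith⟩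
  · rcases h.eq_or_lt with rfl | h'
    · simp
    obtain ⟨c, hc, e⟩ := exists_hasDerivAt_eq_slope (fun s => Fa s b) (fun s => lg s b) h'
      (continuous_iff_continuousAt.2 fun s => (der hb s).continuousAt).continuousOn
      fun x _ => der hb x
    rw [eq_div_iff (sub_pos.2 h').ne', mul_comm] at e
    rw [← e]
    exact ⟨mul_le_mul_of_nonneg_left (mono (by positivity) (hs.trans hc.1.le) hc.2.le)
      (sub_nonneg.2 h), fun h0 => mul_le_mul_of_nonneg_left (mono h0 hs hc.1.le) (sub_nonneg.2 h)⟩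

end Pool.Agent.MP_760060_nt.W

end

section

/-! The bound on the line `Re z = 1/2`. -/

open Finset Polynomial Filter Topology

namespace Pool.Agent.MP_760060_nt.W

namespace LineJ

theorem re_zl (ξ : ℝ) : (zl ξ).re = 1 / 2 := by simp [zl]

theorem im_zl (ξ : ℝ) : (zl ξ).im = ξ := by simp [zl]

theorem sep_int (ξ : ℝ) (t : ℤ) : 1 / 2 ≤ ‖zl ξ - t‖ := by
  refine le_trans ?_ (Complex.abs_re_le_norm _)
  rw [Complex.sub_re, re_zl, Complex.intCast_re]
  rcases le_or_gt t 0 with h | h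
  · have h1 : (t : ℝ) ≤ 0 := by exact_mod_cast h
    exact le_trans (by linarith) (le_abs_self _)
  · have h1 : (1 : ℝ) ≤ t := by exact_mod_cast h
    exact le_trans (by linarith) (neg_le_abs _)

theorem sep_nd (ξ : ℝ) (u l : ℕ) : 1 / 2 ≤ ‖zl ξ - nd u l‖ ∧ 1 / 2 ≤ ‖zl ξ + nd u l‖ := by
  unfold nd
  split_ifs
  · refine ⟨by simpa using sep_int ξ (yk u l), by simpa using sep_int ξ (-(yk u l : ℤ))⟩
  · constructor
    · refine le_trans ?_ (Complex.abs_re_le_norm _)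
      simp [re_zl]
    · refine le_trans ?_ (Complex.abs_re_le_norm _)
      simp [re_zl]

theorem norm_zl (ξ : ℝ) : ‖zl ξ‖ ≤ 1 / 2 + |ξ| := by
  have h := Complex.norm_le_abs_re_add_abs_im (zl ξ)
  rw [re_zl, im_zl, abs_of_pos (by norm_num : (0 : ℝ) < 1 / 2)] at h
  exact h

theorem aeval_eq (u : ℕ) (y : Fin 4 → ℕ) (i j : Fin (90 * u) × Fin 2) (z : ℂ) :
    aeval z (zt y * Bs u i * Bs u j) = (∏ k, (z - (y k : ℂ))) * z ^ (i.2 : ℕ) * z ^ (j.2 : ℕ) *
      ((∏ l ∈ (range (90 * u)).erase i.1, (z ^ 2 - (wk u l : ℂ))) *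
        ∏ l ∈ (range (90 * u)).erase j.1, (z ^ 2 - (wk u l : ℂ))) := by
  simp only [zt, Bs, Om, map_mul, map_prod, map_sub, map_pow, aeval_X, aeval_C, eq_ratCast,
    Rat.cast_natCast]
  ring

theorem one_not (v : ℕ) : (XX v).erase 1 = XX v := by
  refine erase_eq_of_notMem fun h => ?_
  rw [mem_XX, mem_XA, mem_XB] at h
  omega

theorem main {K₁ K₂ : ℝ}
    (h1 : ∀ (u : ℕ) (z : ℂ) (x₀ : ℤ) (a b R : ℝ), 1 ≤ u →
      6000 * (u : ℝ) ≤ R → ‖z‖ ≤ R → |(|z.re|) - a| ≤ 1 → |(|z.im|) - b| ≤ 1 →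
      (∀ t ∈ ZZ (10 * u), 1 / 2 ≤ ‖z - t‖) → (∀ x ∈ (XX (10 * u)).erase x₀, 1 / 2 ≤ ‖z - x‖) →
      |Real.log ‖(∏ t ∈ ZZ (10 * u), (z - t)) / ∏ x ∈ (XX (10 * u)).erase x₀, (z - x)‖ -
        (u * ZX (a / u) (b / u) - 400 * u * Real.log u)| ≤ K₁ * Real.log R)
    (h2 : ∀ (u k₀ : ℕ) (z : ℂ) (a b R : ℝ), 1 ≤ u →
      6000 * (u : ℝ) ≤ R → ‖z‖ ≤ R → |(|z.re|) - a| ≤ 1 → |(|z.im|) - b| ≤ 1 →
      (∀ l < 90 * u, l ≠ k₀ → 1 / 2 ≤ ‖z - nd u l‖ ∧ 1 / 2 ≤ ‖z + nd u l‖) →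
      |Real.log ‖∏ l ∈ (range (90 * u)).erase k₀, (z ^ 2 - (wk u l : ℂ))‖ -
        (u * UU (a / u) (b / u) + 180 * u * Real.log u)| ≤ K₂ * Real.log R)
    (u : ℕ) (hu : 1 ≤ u) (y : Fin 4 → ℕ) (hy : ∀ k, y k ≤ 180 * u)
    (i j : Fin (90 * u) × Fin 2) (ξ : ℝ) :
    ‖(∏ t ∈ ZZ (10 * u), (zl ξ - t)) * aeval (zl ξ) (zt y * Bs u i * Bs u j) /
      ∏ x ∈ XX (10 * u), (zl ξ - x)‖ * (1 + ξ ^ 2) ^ 2 ≤
    Real.exp (u * ph 0 (|ξ| / u) - 40 * u * Real.log u +
      (K₁ + 2 * K₂ + 10) * Real.log (6000 * u + |ξ| + 1)) := by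
  obtain ⟨R, hR⟩ : ∃ R : ℝ, R = 6000 * u + |ξ| + 1 := ⟨_, rfl⟩
  rw [← hR]
  have u1 : (1 : ℝ) ≤ u := by exact_mod_cast hu
  have x0 := abs_nonneg ξ
  have hz := norm_zl ξ
  have r1 : 6000 * (u : ℝ) ≤ R := by linarith
  have r2 : ‖zl ξ‖ ≤ R := by linarith
  have r0 : 1 ≤ R := by linarith
  have r3 : |(|(zl ξ).re|) - 0| ≤ 1 := by
    rw [re_zl]
    norm_num [abs_of_pos]
  have r4 : |(|(zl ξ).im|) - (|ξ|)| ≤ 1 := by
    rw [im_zl]
    simp
  have a1 := h1 u (zl ξ) 1 0 |ξ| R hu r1 r2 r3 r4 (fun t _ => sep_int ξ t) fun x _ => sep_int ξ x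
  have a2 := h2 u i.1 (zl ξ) 0 |ξ| R hu r1 r2 r3 r4 fun l _ _ => sep_nd ξ u l
  have a3 := h2 u j.1 (zl ξ) 0 |ξ| R hu r1 r2 r3 r4 fun l _ _ => sep_nd ξ u l
  rw [one_not, zero_div] at a1
  rw [zero_div] at a2 a3
  rw [aeval_eq]
  generalize (∏ t ∈ ZZ (10 * u), (zl ξ - t)) = A at a1 ⊢
  generalize (∏ x ∈ XX (10 * u), (zl ξ - x)) = B at a1 ⊢
  generalize (∏ l ∈ (range (90 * u)).erase i.1, (zl ξ ^ 2 - (wk u l : ℂ))) = P at a2 ⊢
  generalize (∏ l ∈ (range (90 * u)).erase j.1, (zl ξ ^ 2 - (wk u l : ℂ))) = Q at a3 ⊢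
  have b1 : ‖A / B‖ ≤ Real.exp (u * ZX 0 (|ξ| / u) - 400 * u * Real.log u + K₁ * Real.log R) :=
    (Real.le_exp_log _).trans (Real.exp_le_exp.2 (by linarith [(abs_le.1 a1).2]))
  have b2 : ‖P‖ ≤ Real.exp (u * UU 0 (|ξ| / u) + 180 * u * Real.log u + K₂ * Real.log R) :=
    (Real.le_exp_log _).trans (Real.exp_le_exp.2 (by linarith [(abs_le.1 a2).2]))
  have b3 : ‖Q‖ ≤ Real.exp (u * UU 0 (|ξ| / u) + 180 * u * Real.log u + K₂ * Real.log R) :=
    (Real.le_exp_log _).trans (Real.exp_le_exp.2 (by linarith [(abs_le.1 a3).2]))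
  have c1 : ‖∏ k, (zl ξ - (y k : ℂ))‖ ≤ R ^ 4 := by
    rw [norm_prod]
    refine le_trans (prod_le_prod (g := fun _ => R) (fun _ _ => norm_nonneg _) fun k _ => ?_)
      (by simp)
    have h3 : (y k : ℝ) ≤ 180 * u := by exact_mod_cast hy k
    have h4 := norm_sub_le (zl ξ) (y k : ℂ)
    rw [Complex.norm_natCast] at h4
    linarith
  have c2 : ∀ e : Fin 2, ‖zl ξ ^ (e : ℕ)‖ ≤ R := by
    intro e
    rw [norm_pow]
    fin_cases e
    · simpa using r0
    · simpa using r2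
  have c3 : (1 + ξ ^ 2) ^ 2 ≤ R ^ 4 := by
    have h3 : 1 + ξ ^ 2 ≤ R ^ 2 := by
      rw [← sq_abs ξ]
      nlinarith
    calc (1 + ξ ^ 2) ^ 2 ≤ (R ^ 2) ^ 2 := pow_le_pow_left₀ (by positivity) h3 2
      _ = R ^ 4 := by ring
  have e1 : R ^ 10 = Real.exp (10 * Real.log R) := by
    rw [show (10 : ℝ) * Real.log R = ((10 : ℕ) : ℝ) * Real.log R by norm_num, ← Real.log_pow,
      Real.exp_log (by positivity)]
  have e2 : A * ((∏ k, (zl ξ - (y k : ℂ))) * zl ξ ^ (i.2 : ℕ) * zl ξ ^ (j.2 : ℕ) * (P * Q)) / B =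
      A / B * P * Q * ((∏ k, (zl ξ - (y k : ℂ))) * zl ξ ^ (i.2 : ℕ) * zl ξ ^ (j.2 : ℕ)) := by
    ring
  rw [e2, norm_mul, norm_mul, norm_mul, norm_mul, norm_mul]
  calc _ ≤ Real.exp (u * ZX 0 (|ξ| / u) - 400 * u * Real.log u + K₁ * Real.log R) *
        Real.exp (u * UU 0 (|ξ| / u) + 180 * u * Real.log u + K₂ * Real.log R) *
        Real.exp (u * UU 0 (|ξ| / u) + 180 * u * Real.log u + K₂ * Real.log R) *
        (R ^ 4 * R * R) * R ^ 4 := by
        gcongr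
        · exact c2 _
        · exact c2 _
    _ = Real.exp (u * ZX 0 (|ξ| / u) - 400 * u * Real.log u + K₁ * Real.log R) *
        Real.exp (u * UU 0 (|ξ| / u) + 180 * u * Real.log u + K₂ * Real.log R) *
        Real.exp (u * UU 0 (|ξ| / u) + 180 * u * Real.log u + K₂ * Real.log R) * R ^ 10 := by
        ring
    _ = _ := by
        rw [e1, ← Real.exp_add, ← Real.exp_add, ← Real.exp_add, ph]
        exact congrArg Real.exp (by ring)

theorem fin (hCL : StCL) (hTail : StTail) {K : ℝ} (hK : 0 ≤ K) {u : ℕ} (h1 : 20001 ≤ u)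
    (h2 : K ≤ u) (b : ℝ) (hb : 0 ≤ b) :
    u * ph 0 (b / u) + K * Real.log (6000 * u + b + 1) ≤ u * t0 + 2 * K * Real.log u := by
  have u1 : (20001 : ℝ) ≤ u := by exact_mod_cast h1
  have u0 : (0 : ℝ) < u := by linarith
  have l2 : Real.log ((u : ℝ) ^ 2) = 2 * Real.log u := by
    rw [Real.log_pow]
    norm_num
  rcases le_total (b / u) 14000 with h | h
  · have a1 := hCL _ (div_nonneg hb u0.le) h
    rw [div_le_iff₀ u0] at h
    have a2 : Real.log (6000 * u + b + 1) ≤ 2 * Real.log u := by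
      rw [← l2]
      exact Real.log_le_log (by positivity) (by nlinarith)
    have a3 := mul_le_mul_of_nonneg_left a2 hK
    have a4 := mul_le_mul_of_nonneg_left a1 u0.le
    linarith
  · have a1 := hTail _ h
    obtain ⟨t, ht⟩ : ∃ t : ℝ, t = b / u / 14000 := ⟨_, rfl⟩
    rw [← ht] at a1
    have t1 : 1 ≤ t := by
      rw [ht, le_div_iff₀ (by norm_num)]
      linarith
    have hb' : b = 14000 * u * t := by
      rw [ht]
      field_simp
    have l0 : 0 ≤ Real.log t := Real.log_nonneg t1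
    have a2 : Real.log (6000 * u + b + 1) ≤ 2 * Real.log u + Real.log t := by
      rw [← l2, ← Real.log_mul (by positivity) (by positivity)]
      refine Real.log_le_log (by positivity) ?_
      have s1 : (u : ℝ) ≤ u * t := le_mul_of_one_le_right u0.le t1
      have s2 : 20001 * (u * t) ≤ u * (u * t) := mul_le_mul_of_nonneg_right u1 (by positivity)
      nlinarith
    have a3 := mul_le_mul_of_nonneg_left a2 hK
    have a4 := mul_le_mul_of_nonneg_left a1 u0.le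
    have a5 := mul_le_mul_of_nonneg_right h2 l0
    have a6 := mul_nonneg u0.le l0
    nlinarith

end LineJ

theorem stLine (hZX : StZX) (hOm : StOm) (hCL : StCL) (hTail : StTail) : StLine := by
  obtain ⟨K₁, k1, h1⟩ := hZX
  obtain ⟨K₂, k2, h2⟩ := hOm
  refine ⟨2 * (K₁ + 2 * K₂ + 10), ?_⟩
  filter_upwards [eventually_ge_atTop 20001,
    (tendsto_natCast_atTop_atTop (R := ℝ)).eventually_ge_atTop (K₁ + 2 * K₂ + 10)]
    with u hu hK y hy i j ξ
  rw [le_div_iff₀ (by positivity)]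
  refine (LineJ.main h1 h2 u (by omega) y hy i j ξ).trans (Real.exp_le_exp.2 ?_)
  have h := LineJ.fin hCL hTail (by positivity) hu hK |ξ| (abs_nonneg ξ)
  linarith

end Pool.Agent.MP_760060_nt.W

end

section

/-! The local bound, class by class. -/

open Finset Polynomial Filter Topology

namespace Pool.Agent.MP_760060_nt.W

theorem stLoc (hCls : StCls) (hMod : StMod) (hBlkD : StBlkD) : StLoc := by
  intro v p _ y τ g hv hp h5 hτ hc
  have hc' : ∀ m, ∃ (ξ : ℤ) (N : Finset ℤ), m < p → Good v p m ξ N ∧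
      (PhW τ (#(cl p m (XX v)) - #N) #N #(cl p m (ZZ v)) : ℝ) ≤ g m := fun m => by
    by_cases hm : m < p
    · obtain ⟨ξ, N, h⟩ := hc m hm
      exact ⟨ξ, N, fun _ => h⟩
    · exact ⟨0, ∅, fun h => absurd h hm⟩
  choose ξ₀ N hN using hc'
  obtain ⟨μ, hμ⟩ := exists_cls hp
  have ha : ∀ m, ∃ a : ℕ → ℝ, m < p →
      Rep p (fun s t : Fin (18 * v) => ∑ x ∈ cl p m (XX v),
        cw v y (fun t => ξ₀ (μ t)) x * (x : ℚ) ^ (s : ℕ) * (x : ℚ) ^ (t : ℕ)) #(cl p m (XX v)) a ∧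
      ∑ i ∈ range #(cl p m (XX v)), max 0 ((τ : ℝ) - a i) ≤
        g m + if Wf p then 0 else (#(cl p m (XX v)) : ℝ) := fun m => by
    by_cases hm : m < p
    · obtain ⟨a, h1, h2⟩ := hCls v p m y τ (ξ₀ m) (fun t => ξ₀ (μ t)) (N m) hv hp h5 hτ (hN m hm).1
        fun t ht => by rw [((hμ t).2 m hm).1 ht]
      exact ⟨a, fun _ => ⟨h1, h2.trans (add_le_add (hN m hm).2 le_rfl)⟩⟩
    · exact ⟨fun _ => 0, fun h => absurd h hm⟩
  choose a ha using ha
  have h1 := hBlkD p (18 * v) p _ _ a τ fun m hm => (ha m hm).1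
  have e : (KK v y fun i : Fin (18 * v) => X ^ (i : ℕ)) =
      Matrix.of fun s t : Fin (18 * v) => ∑ m ∈ range p, ∑ x ∈ cl p m (XX v),
        cw v y (fun t => ξ₀ (μ t)) x * (x : ℚ) ^ (s : ℕ) * (x : ℚ) ^ (t : ℕ) := by
    ext s t
    simp only [KK, Matrix.of_apply]
    rw [sum_cl hp, hMod v (fun t => ξ₀ (μ t)) _ hv
      (fun t h2 h3 => (hN (μ t) (hμ t).1).1.2.1 t (((hμ t).2 _ (hμ t).1).2 rfl) h2 h3) ?_]
    · refine sum_congr rfl fun x _ => ?_
      simp only [cw, eval_mul, eval_pow, eval_X]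
      ring
    · have h2 := natDegree_mul_le (p := zt y * X ^ (s : ℕ)) (q := X ^ (t : ℕ))
      have h3 := natDegree_mul_le (p := zt y) (q := X ^ (s : ℕ))
      rw [natDegree_X_pow] at h2 h3
      rw [natDegree_zt] at h3
      have := s.2
      have := t.2
      omega
  rw [HH, e]
  refine h1.mono ?_
  have h2 := sum_le_sum fun m (hm : m ∈ range p) => (ha m (mem_range.1 hm)).2
  rw [sum_add_distrib] at h2
  have h3 : ∑ m ∈ range p, (if Wf p then 0 else (#(cl p m (XX v)) : ℝ)) = nw v p := by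
    unfold nw
    split_ifs
    · simp
    · rw [← Nat.cast_sum, sum_card_cl hp, card_XX]
      push_cast
      ring
  push_cast
  linarith

end Pool.Agent.MP_760060_nt.W

end

section

/-! Monotonicity of the potentials of a segment. -/

open Finset Polynomial Filter Topology

namespace Pool.Agent.MP_760060_nt.W

namespace MonoJ

theorem lg_le {a b : ℝ} (ha : 0 < a) (h : a ≤ b) : lg a 0 ≤ lg b 0 := by
  have := Real.log_le_log (x := a ^ 2 + 0 ^ 2) (y := b ^ 2 + 0 ^ 2) (by positivity) (by nlinarith)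
  exact div_le_div_of_nonneg_right this (by norm_num)

theorem cv0 (hFaB : StFaB) {a b d : ℝ} (ha : 0 ≤ a) (hd : 0 ≤ d) (h : a + d ≤ b) :
    Fa (a + d) 0 - Fa a 0 ≤ Fa (b + d) 0 - Fa b 0 := by
  rcases hd.eq_or_lt with rfl | hd'
  · simp
  have hb : 0 < b := by linarith
  have h1 := (hFaB 0 a (a + d) ha (by linarith)).1
  have h2 := (hFaB 0 b (b + d) hb.le (by linarith)).2 (by positivity)
  have h3 := mul_le_mul_of_nonneg_left (lg_le (a := a + d) (by linarith) h) hd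
  rw [add_sub_cancel_left] at h1 h2
  linarith

theorem cv (hFaB : StFaB) {a b d : ℝ} (ha : 0 ≤ a) (hd : 0 ≤ d) (h : a ≤ b) :
    Fa (a + d) 0 - Fa a 0 ≤ Fa (b + d) 0 - Fa b 0 := by
  rcases le_total (a + d) b with h1 | h1
  · exact cv0 hFaB ha hd h1
  · have h2 := cv0 hFaB (b := a + d) (d := b - a) ha (by linarith) (by linarith)
    rw [show a + (b - a) = b by ring, show a + d + (b - a) = b + d by ring] at h2
    linarith

theorem lo (hFaB : StFaB) {β ξ ξ' : ℝ} (h0 : 0 ≤ ξ) (h : ξ ≤ ξ') (h1 : ξ' ≤ β) :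
    Er ξ 0 β ≤ Er ξ' 0 β := by
  have h2 := cv hFaB (a := β - ξ') (b := β + ξ) (d := ξ' - ξ) (by linarith) (by linarith)
    (by linarith)
  rw [show β - ξ' + (ξ' - ξ) = β - ξ by ring, show β + ξ + (ξ' - ξ) = β + ξ' by ring] at h2
  unfold Er
  linarith

theorem up (hFaA : StFaA) (hFaB : StFaB) {β ξ ξ' : ℝ} (h0 : 0 ≤ β) (h : ξ ≤ ξ') (h1 : β ≤ ξ) :
    Er ξ 0 β ≤ Er ξ' 0 β := by
  have h2 := cv hFaB (a := ξ - β) (b := β + ξ) (d := ξ' - ξ) (by linarith) (by linarith)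
    (by linarith)
  rw [show ξ - β + (ξ' - ξ) = ξ' - β by ring, show β + ξ + (ξ' - ξ) = β + ξ' by ring] at h2
  have h3 := hFaA.1 (ξ - β) 0
  have h4 := hFaA.1 (ξ' - β) 0
  rw [neg_sub] at h3 h4
  unfold Er
  linarith

end MonoJ

theorem stMono (hFaA : StFaA) (hFaB : StFaB) : StMono := by
  intro β ξ ξ' hβ hξ h
  refine ⟨?_, ?_⟩
  · rcases le_total ξ' β with h1 | h1
    · exact MonoJ.lo hFaB hξ h h1
    rcases le_total β ξ with h2 | h2
    · exact MonoJ.up hFaA hFaB hβ h h2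
    · exact (MonoJ.lo hFaB hξ h2 le_rfl).trans (MonoJ.up hFaA hFaB hβ h1 le_rfl)
  · have h1 := (hFaA.2.2.2 β ξ ξ' hβ hξ h).1
    simp only [Er, sub_zero, add_zero]
    linarith

end Pool.Agent.MP_760060_nt.W

end

section

/-! A product along a progression is divisible by the `p`-part of the factorial. -/

open Finset

namespace Pool.Agent.MP_760060_nt.W

namespace PlJ

theorem pow_dvd {p : ℕ} [hp : Fact p.Prime] (n : ℕ) (a D : ℤ) (hD : ¬ (p : ℤ) ∣ D) :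
    (p : ℤ) ^ padicValNat p n.factorial ∣ ∏ i ∈ range n, (a + D * i) := by
  obtain ⟨M, hM⟩ : ∃ M : ℤ, M = (p : ℤ) ^ padicValNat p n.factorial := ⟨_, rfl⟩
  have hM0 : 0 < M := hM ▸ pow_pos (by exact_mod_cast hp.out.pos) _
  have hc : IsCoprime M D :=
    hM ▸ ((Nat.prime_iff_prime_int.1 hp.out).irreducible.coprime_iff_not_dvd.2 hD).pow_left
  obtain ⟨x, y, hxy⟩ := hc
  obtain ⟨s, hs⟩ : ∃ s : ℕ, (s : ℤ) = y * a % M :=
    ⟨(y * a % M).toNat, Int.toNat_of_nonneg (Int.emod_nonneg _ hM0.ne')⟩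
  have h1 : ∀ i ∈ range n, a + D * i ≡ D * ((s + i : ℕ) : ℤ) [ZMOD M] := by
    intro i _
    rw [Int.modEq_iff_dvd]
    refine ⟨-(x * a) - D * (y * a / M), ?_⟩
    push_cast
    rw [hs, Int.emod_def]
    linear_combination a * hxy
  have h2 := Int.ModEq.prod h1
  have h3 : M ∣ ∏ i ∈ range n, D * ((s + i : ℕ) : ℤ) := by
    rw [prod_mul_distrib, ← Nat.cast_prod, ← Nat.ascFactorial_eq_prod_range, hM]
    refine Dvd.dvd.mul_left ?_ _
    exact_mod_cast pow_padicValNat_dvd.trans (Nat.factorial_dvd_ascFactorial s n)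
  rw [← hM]
  exact h2.dvd_iff.2 h3

theorem val_ge {p : ℕ} [hp : Fact p.Prime] (n : ℕ) :
    n ≤ (p - 1) * (padicValNat p n.factorial + (Nat.log p n + 1)) := by
  rcases eq_or_ne n 0 with rfl | h0
  · exact Nat.zero_le _
  have h1 := sub_one_mul_padicValNat_factorial (p := p) n
  have h2 : (p.digits n).sum ≤ (p.digits n).length • (p - 1) :=
    List.sum_le_card_nsmul _ _ fun d hd =>
      Nat.le_sub_one_of_lt (Nat.digits_lt_base hp.out.one_lt hd)
  rw [Nat.length_digits p n hp.out.one_lt h0, smul_eq_mul, mul_comm] at h2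
  rw [mul_add, h1]
  omega

end PlJ

open PlJ in
theorem stPl : StPl := by
  intro p n hp a D hD
  have h1 := vb_pow_dvd (pow_dvd n a D hD)
  push_cast at h1
  refine h1.mono ?_
  have h2 : (1 : ℝ) < p := by exact_mod_cast hp.out.one_lt
  have h3 : (n : ℝ) ≤ ((p : ℝ) - 1) * (padicValNat p n.factorial + (Nat.log p n + 1)) := by
    have h4 := (Nat.cast_le (α := ℝ)).2 (val_ge (p := p) n)
    rw [Nat.cast_mul, Nat.cast_sub hp.out.one_le] at h4
    push_cast at h4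
    exact h4
  have h5 : (n : ℝ) / (p - 1) ≤ padicValNat p n.factorial + (Nat.log p n + 1) := by
    rw [div_le_iff₀ (by linarith), mul_comm]
    exact h3
  linarith

end Pool.Agent.MP_760060_nt.W

end

section

open Finset

namespace Pool.Agent.MP_760060_nt.W

namespace SAJ

theorem sum_sym (G : ℝ → ℝ) (h0 : 0 ≤ G 0) (h : ℕ) :
    ∑ j ∈ range (2 * h + 1), G |(-(10 * (h : ℝ)) + 10 * j)| ≤ 2 * ∑ j ∈ range (h + 1), G (10 * j) := by
  have key : ∑ j ∈ range (2 * h + 1), G |(-(10 * (h : ℝ)) + 10 * j)| + G 0 =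
      2 * ∑ j ∈ range (h + 1), G (10 * j) := by
    induction h with
    | zero => simp; ring
    | succ h ih =>
      rw [show 2 * (h + 1) + 1 = (2 * h + 1) + 1 + 1 by ring, sum_range_succ, sum_range_succ',
        sum_range_succ _ (h + 1), mul_add, ← ih]
      have e1 : ∑ j ∈ range (2 * h + 1), G |(-(10 * ((h + 1 : ℕ) : ℝ)) + 10 * ((j + 1 : ℕ) : ℝ))| =
          ∑ j ∈ range (2 * h + 1), G |(-(10 * (h : ℝ)) + 10 * j)| :=
        sum_congr rfl fun j _ => by congr 2; push_cast; ring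
      have hp : (0 : ℝ) ≤ 10 * ((h + 1 : ℕ) : ℝ) := by positivity
      have e2 : |(-(10 * ((h + 1 : ℕ) : ℝ)) + 10 * ((0 : ℕ) : ℝ))| = 10 * ((h + 1 : ℕ) : ℝ) := by
        rw [Nat.cast_zero, mul_zero, add_zero, abs_neg, abs_of_nonneg hp]
      have e3 : |(-(10 * ((h + 1 : ℕ) : ℝ)) + 10 * ((2 * h + 1 + 1 : ℕ) : ℝ))| =
          10 * ((h + 1 : ℕ) : ℝ) := by
        rw [← abs_of_nonneg hp, abs_of_nonneg hp]
        have : (-(10 * ((h + 1 : ℕ) : ℝ)) + 10 * ((2 * h + 1 + 1 : ℕ) : ℝ)) =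
          10 * ((h + 1 : ℕ) : ℝ) := by push_cast; ring
        rw [this, abs_of_nonneg hp]
      rw [e1, e2, e3]
      ring
  linarith

end SAJ

theorem stSA (hCA : StCA) : StSA := by
  obtain ⟨C, hC⟩ := hCA
  refine ⟨2 * C, fun u hu => ?_⟩
  have hu' : (1 : ℝ) ≤ u := by exact_mod_cast hu
  have h1 := hC u 10 0 (range (10 * (10 * u) + 1)) hu' (by norm_num) (fun j hj => by
    have : (j : ℝ) ≤ 100 * u := by
      have := mem_range.1 hj
      exact_mod_cast (by omega : j ≤ 100 * u)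
    have h0 : (0 : ℝ) ≤ j := Nat.cast_nonneg j
    constructor <;> linarith)
  have h2 := SAJ.sum_sym (fun x => max 0 (ph (x / u) 0 - t0)) (le_max_left _ _) (10 * (10 * u))
  rw [XA, sum_AP]
  have e1 : ∑ j ∈ range (2 * (10 * (10 * u)) + 1),
      max 0 (ph (|((-(10 * ((10 * (10 * u) : ℕ) : ℤ)) - 0 + 10 * (j : ℤ) : ℤ) : ℝ)| / u) 0 - t0) =
      ∑ j ∈ range (2 * (10 * (10 * u)) + 1),
        max 0 (ph (|(-(10 * ((10 * (10 * u) : ℕ) : ℝ)) + 10 * j)| / u) 0 - t0) :=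
    sum_congr rfl fun j _ => by congr 5; push_cast; ring
  have e2 : ∑ j ∈ range (10 * (10 * u) + 1), max 0 (ph (10 * (j : ℝ) / u) 0 - t0) =
      ∑ j ∈ range (10 * (10 * u) + 1), max 0 (ph ((0 + (j : ℝ) * 10) / u) 0 - t0) :=
    sum_congr rfl fun j _ => by congr 4; ring
  rw [e1]
  rw [e2] at h2
  linarith

end Pool.Agent.MP_760060_nt.W

end
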