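import Pool.Agent.MP_760060_nt.W.Stm

section

/-! The numerical bounds for the potentials. -/

namespace Pool.Agent.MP_760060_nt.W

namespace CertJ

theorem seg (hE : StEnc) (hA : StAcc) {h q n x x' : ℕ} (h0 : 0 < h) (hn : 0 < n)
    (h1 : en h q n x = x') (h2 : x' ≤ 14500)
    (h3 : acc (phP 0) (phM 0) (-329209600000000000) h q n x = 0) {ξ : ℝ} (a : (x : ℝ) ≤ ξ)
    (b : ξ ≤ x') : ph 0 ξ ≤ t0 := by
  have h4 := (hA (fun ξ => ph 0 ξ - t0) (phP 0) (phM 0) (-329209600000000000) h q n x x' h0 hn h1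
    h2 fun w w' ξ a1 a2 a3 => le_max_of_le_right (by
      have := (hE w w' ξ a1 a2 a3).2.1
      rw [t0]
      push_cast at this ⊢
      linarith)).2 h3 ξ a b
  linarith

theorem l1 : acc (phP 0) (phM 0) (-329209600000000000) 20 100 10 0 = 0 := by decide +kernel

theorem l2 : acc (phP 0) (phM 0) (-329209600000000000) 3 200 60 205 = 0 := by decide +kernel

theorem l3 : acc (phP 0) (phM 0) (-329209600000000000) 1 200 330 455 = 0 := by decide +kernel

theorem l4 : acc (phP 0) (phM 0) (-329209600000000000) 1 100 75 2700 = 0 := by decide +kernel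

theorem l5 : acc (phP 0) (phM 0) (-329209600000000000) 1 200 100 5700 = 0 := by decide +kernel

theorem l6 : acc (phP 0) (phM 0) (-329209600000000000) 1 150 62 9300 = 0 := by decide +kernel

theorem a1 : acc (fun w => phP w 0) (fun w => phM w 0) (-329209600000000000) 4 100000 250 0 ≤
    44700 * 800000000000000 := by decide +kernel

theorem y1 : acc (fun w => uM w 0) (fun w => uP w 0) (-1504003200000000000) 5 100000 108 460 ≤
    268100 * 800000000000000 := by decide +kernel

theorem y2 : acc (uM 0) (uP 0) (-1504003200000000000) 20 100000 72 400 ≤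
    568000 * 800000000000000 := by decide +kernel

theorem y3 : acc (uM 0) (uP 0) (-1504003200000000000) 40 100000 90 1840 ≤
    892800 * 800000000000000 := by decide +kernel

end CertJ

open CertJ

theorem stCL (hE : StEnc) (hA : StAcc) : StCL := by
  intro ξ h0 h1
  by_cases c1 : ξ ≤ 205
  · exact seg hE hA (x' := 205) (by norm_num) (by norm_num) (by decide +kernel) (by norm_num) l1
      (by simpa using h0) (by simpa using c1)
  by_cases c2 : ξ ≤ 456
  · exact seg hE hA (x' := 456) (by norm_num) (by norm_num) (by decide +kernel) (by norm_num) l2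
      (by push_cast; linarith) (by simpa using c2)
  by_cases c3 : ξ ≤ 2764
  · exact seg hE hA (x' := 2764) (by norm_num) (by norm_num) (by decide +kernel) (by norm_num) l3
      (by push_cast; linarith) (by simpa using c3)
  by_cases c4 : ξ ≤ 5752
  · exact seg hE hA (x' := 5752) (by norm_num) (by norm_num) (by decide +kernel) (by norm_num) l4
      (by push_cast; linarith) (by simpa using c4)
  by_cases c5 : ξ ≤ 9453
  · exact seg hE hA (x' := 9453) (by norm_num) (by norm_num) (by decide +kernel) (by norm_num) l5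
      (by push_cast; linarith) (by simpa using c5)
  · exact seg hE hA (x' := 14078) (by norm_num) (by norm_num) (by decide +kernel) (by norm_num) l6
      (by push_cast; linarith) (by push_cast; linarith)

theorem stCA (hE : StEnc) (hA : StAcc) : StCA := by
  have h := (hA (fun ξ => max 0 (ph ξ 0 - t0)) _ _ _ 4 100000 250 0 1000 (by norm_num)
    (by norm_num) (by decide +kernel) (by norm_num) fun w w' ξ a1 a2 a3 => max_le_max_left _ (by
      have := (hE w w' ξ a1 a2 a3).1
      rw [t0]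
      push_cast at this ⊢
      linarith)).1 44700 a1
  simpa [StCA] using h

theorem stCY (hE : StEnc) (hA : StAcc) : StCY := by
  have h1 := (hA (fun ξ => 1700 - UU ξ 0) _ _ _ 5 100000 108 460 1000 (by norm_num)
    (by norm_num) (by decide +kernel) (by norm_num) fun w w' ξ a1 a2 a3 => le_max_of_le_right (by
      have := (hE w w' ξ a1 a2 a3).2.2.1
      push_cast at this ⊢
      linarith)).1 268100 y1
  have h : ∀ (w w' : ℕ) (ξ : ℝ), (w : ℝ) ≤ ξ → ξ ≤ w' → w' ≤ 14500 → 1700 - UU 0 ξ ≤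
      max 0 (((uM 0 w' - uP 0 w - -1504003200000000000 : ℤ) : ℝ) / 800000000000000) :=
    fun w w' ξ a1 a2 a3 => le_max_of_le_right (by
      have := (hE w w' ξ a1 a2 a3).2.2.2
      push_cast at this ⊢
      linarith)
  have h2 := (hA (fun ξ => 1700 - UU 0 ξ) _ _ _ 20 100000 72 400 1840 (by norm_num)
    (by norm_num) (by decide +kernel) (by norm_num) h).1 568000 y2
  have h3 := (hA (fun ξ => 1700 - UU 0 ξ) _ _ _ 40 100000 90 1840 5440 (by norm_num)
    (by norm_num) (by decide +kernel) (by norm_num) h).1 892800 y3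
  exact ⟨by simpa using h1, by simpa using h2, by simpa using h3⟩

end Pool.Agent.MP_760060_nt.W

end

section

/-! The bound at a prime of one cell. -/

open Finset Polynomial Filter Topology

namespace Pool.Agent.MP_760060_nt.W

namespace CellJ

theorem ins_le {x B : ℕ} {l : List ℕ} (hx : x ≤ B) (hl : ∀ M ∈ l, M ≤ B) :
    ∀ M ∈ ins x l, M ≤ B := by
  induction l with
  | nil => simpa [ins] using hx
  | cons y l ih =>
    rw [List.forall_mem_cons] at hl
    rw [ins]
    split_ifs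
    · simp only [List.forall_mem_cons]
      exact ⟨hx, hl⟩
    · rw [List.forall_mem_cons]
      exact ⟨hl.1, ih hl.2⟩

theorem b2_le (H s : ℕ) {l : List ℕ} (hl : ∀ M ∈ l, M ≤ 1000000) : ∀ M ∈ b2 H s l, M ≤ 1000000 :=
  ins_le (Nat.mod_lt _ (by norm_num)).le (ins_le (Nat.sub_le _ _) hl)

theorem up (c : ℕ) {P v p : ℕ} (hP : 0 < P) (h : P * v ≤ 1000 * p) (hp : 1000000 ≤ p) :
    c * v + 900000 ≤ (1000 * c / P + 2) * p := by
  have h1 := Nat.lt_div_mul_add (a := 1000 * c) hP
  generalize 1000 * c / P = q at *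
  have h2 := Nat.mul_le_mul_right v h1.le
  have h3 := Nat.mul_le_mul_left (q + 1) h
  nlinarith

theorem down (c : ℕ) {P v p : ℕ} (hP : P ≤ 1000 * c) (h : 1000 * p ≤ P * v) (hp : 1000000 ≤ p) :
    (1000 * c / P - 1) * p + 900000 ≤ c * v := by
  have h0 : 0 < P := Nat.pos_of_ne_zero fun e => by
    rw [e] at h
    omega
  have h1 := Nat.div_mul_le_self (1000 * c) P
  obtain ⟨q, hq⟩ := Nat.exists_eq_add_of_le' (Nat.div_pos hP h0)
  rw [hq] at h1 ⊢
  rw [Nat.add_sub_cancel]
  have h2 := Nat.mul_le_mul_right v h1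
  have h3 := Nat.mul_le_mul_left (q + 1) h
  nlinarith

end CellJ

open CellJ in
theorem stCell (hLoc : StLoc) (hMu : StMu) (hGo : StGo) : StCell := by
  intro v p s1 s3 s9 e a P₁ P₂ _ y hC hp hv h0 h2 h3 h4
  obtain ⟨g, hg, hs⟩ := hGo p (mu s1 s3 s9 e a (10000000000 / P₁ + 2) (23000000000 / P₁ + 2)
    (2000000000 / P₂ - 1) (6000000000 / P₂ - 1) (5000000000 / P₂ - 1)) _ hp
    (b2_le (10000000000 / P₁ + 2 + 1) 0 (b2_le (23000000000 / P₁ + 2 + 1) s1
      (b2_le (2000000000 / P₂ - 1) s3 (b2_le (6000000000 / P₂ - 1) 5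
        (b2_le (5000000000 / P₂ - 1) s9 (l := []) (by simp))))))
  have v1 : 1 ≤ v := Nat.pos_of_ne_zero fun e => by
    rw [e] at h4
    omega
  have hc : Cop p := by
    unfold Cls at hC
    unfold Cop
    omega
  refine (hLoc v p y (-(a : ℤ)) (fun m => (g m : ℝ)) v1 hc hv (by omega) fun m hm => ?_).mono ?_
  · obtain ⟨M₁, M₂, a1, a2, a3, a4, a5⟩ := hg m hm
    rw [a5]
    exact hMu _ _ _ _ _ _ _ _ _ _ _ _ _ _ _ hC a3 a4 a1 a2 (up 10000000 h0 h3 hp)
      (up 23000000 h0 h3 hp) (down 2000000 (by omega) h4 hp) (down 6000000 (by omega) h4 hp)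
      (down 5000000 (by omega) h4 hp)
  · rw [← cellW] at hs
    rw [cellB]
    generalize cellW _ _ _ _ _ _ _ _ _ _ = W at *
    have b1 : 1000000000 * ∑ m ∈ range p, g m ≤ P₂ * v * W := by
      have := Nat.mul_le_mul_right W h4
      nlinarith
    have b2 : (1000000000 : ℝ) * ∑ m ∈ range p, (g m : ℝ) ≤ P₂ * v * W := by exact_mod_cast b1
    push_cast
    linarith

end Pool.Agent.MP_760060_nt.W

end

section

/-! The contribution of one class mod `p`. -/

open Finset Polynomial Filter Topology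

namespace Pool.Agent.MP_760060_nt.W

namespace ClsJ

theorem sum_aa (τ : ℤ) (k n z : ℕ) (h : n ≤ k) :
    ∑ i ∈ range k, max 0 ((τ : ℝ) - (aa (k - n) n z i : ℝ)) = (Phi τ (k - n) n z : ℝ) := by
  rw [Phi, Nat.sub_add_cancel h]
  push_cast
  rfl

theorem res {v : ℕ} {x : ℤ} (h : x ∈ XX v) : x % 10 = 0 ∨ x % 10 = 9 := by
  rw [mem_XX, mem_XA, mem_XB] at h
  omega

theorem memA {v : ℕ} {x : ℤ} (h : x ∈ XX v) (h0 : x % 10 = 0) : x ∈ XA v := by
  rcases mem_XX.1 h with h | h
  · exact h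
  · rw [mem_XB] at h
    omega

end ClsJ

open ClsJ in
theorem stCls (hBlk : StBlk) (hBlkW : StBlkW) (hLamI : StLamI) (hLamC : StLamC) (hCf : StCf)
    (hCfW : StCfW) (hPair : StPair) (hKap : StKap) (hPhi : StPhi) : StCls := by
  intro v p m _ y τ ξ₀ ξ N hv hc hp hτ hG hξ
  obtain ⟨hN, -, hNP⟩ := hG
  have hle : #N ≤ #(cl p m (XX v)) := card_le_card hN
  have hcong : ∀ x ∈ cl p m (XX v), ∀ x' ∈ cl p m (XX v), (p : ℤ) ∣ x - x' := fun x hx x' hx' => by
    simpa using dvd_sub (mem_cl.1 hx).2 (mem_cl.1 hx').2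
  have hNP' : ∀ x ∈ N, NP p ξ x := fun x hx t ht hw => by
    have h1 : (p : ℤ) ∣ t - 10 * m := by
      simpa using dvd_sub (mem_cl.1 (hN hx)).2 ht
    rw [hξ t h1]
    exact hNP x hx t ht hw
  have hS : ∀ x ∈ cl p m (XX v),
      Vb p ((#(cl p m (XX v)) : ℝ) - #(cl p m (ZZ v))) (cw v y ξ x) := fun x hx => by
    have h1 := ((hLamI v p ξ x hv hp (mem_cl.1 hx).1).1.mul (hCf v p m x hv hp hx)).mul (vb_zt y x)
    exact h1.mono (by linarith)
  have hS' : ∀ x ∈ N,
      Vb p ((#(cl p m (XX v)) : ℝ) - #(cl p m (ZZ v)) - 1) (cw v y ξ x) := fun x hx => by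
    have h1 := (((hLamI v p ξ x hv hp (mem_cl.1 (hN hx)).1).2 (hNP' x hx)).mul
      (hCf v p m x hv hp (hN hx))).mul (vb_zt y x)
    exact h1.mono (by linarith)
  by_cases hcase : (#(cl p m (XX v)) - #N = 0 ∧ #N = 2) ∧ Wf p
  · obtain ⟨⟨h0, h2⟩, hW⟩ := hcase
    have hk : #(cl p m (XX v)) = 2 := by omega
    have hE : N = cl p m (XX v) := eq_of_subset_of_card_le hN (by omega)
    have key : ∀ x x' : ℤ, x ≠ x' → cl p m (XX v) = {x, x'} → x % 10 = 0 → x' = x + dl p * p →
        Rep p (fun s t : Fin (18 * v) => ∑ w ∈ cl p m (XX v),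
          cw v y ξ w * (w : ℚ) ^ (s : ℕ) * (w : ℚ) ^ (t : ℕ)) 2 fun _ => 0 := by
      intro x x' hne he hx0 hx'
      have m1 : x ∈ cl p m (XX v) := by simp [he]
      have m2 : x' ∈ cl p m (XX v) := by simp [he]
      have n1 : x ∈ N := hE ▸ m1
      have n2 : x' ∈ N := hE ▸ m2
      have hd := hcong x m1 x' m2
      have l1 := hLamC v p ξ x x' hv (memA (mem_cl.1 m1).1 hx0) (mem_cl.1 m2).1 hd (hNP' x n1)
      have l2 := hKap p hc hW
      rw [show x' - x = dl p * p by omega] at l1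
      have l3 : Vb p (-1) (lamS v ξ x - lamS v ξ x') := by simpa using l1.sub l2
      have l4 := hCfW v p m y x x' (lamS v ξ) hv hp hne he
        ((hLamI v p ξ x hv hp (mem_cl.1 m1).1).2 (hNP' x n1))
        ((hLamI v p ξ x' hv hp (mem_cl.1 m2).1).2 (hNP' x' n2)) l3
      have l5 : Vb p 1 (cw v y ξ x') := (hS' x' n2).mono (by
        rw [hk]
        have : (0 : ℝ) ≤ #(cl p m (ZZ v)) := Nat.cast_nonneg _
        push_cast
        linarith)
      rw [he]
      exact hBlkW p (18 * v) x x' (cw v y ξ) hne hd l5 l4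
    refine ⟨fun _ => 0, ?_, ?_⟩
    · obtain ⟨x, x', hne, he⟩ := card_eq_two.1 hk
      have m1 : x ∈ cl p m (XX v) := by simp [he]
      have m2 : x' ∈ cl p m (XX v) := by simp [he]
      rw [hk]
      rcases hPair p ξ₀ x x' hc hne (res (mem_cl.1 m1).1) (res (mem_cl.1 m2).1) (hcong x m1 x' m2)
        (hNP x (hE ▸ m1)) (hNP x' (hE ▸ m2)) with ⟨a1, a2⟩ | ⟨a1, a2⟩
      · exact key x x' hne he a1 a2
      · exact key x' x hne.symm (he.trans (pair_comm _ _)) a1 a2
    · have hτ' : (τ : ℝ) ≤ 0 := by exact_mod_cast hτ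
      rw [PhW, if_pos ⟨h0, h2⟩, if_pos hW, sum_eq_zero fun i _ => max_eq_left (by linarith)]
      simp
  · refine ⟨_, hBlk p (18 * v) (cl p m (XX v)) N #(cl p m (ZZ v)) (cw v y ξ) hN hcong hS hS', ?_⟩
    rw [sum_aa τ _ _ _ hle, PhW]
    by_cases h1 : #(cl p m (XX v)) - #N = 0 ∧ #N = 2
    · have hW : ¬ Wf p := fun hW => hcase ⟨h1, hW⟩
      rw [if_pos h1, if_neg hW, h1.1, h1.2]
      have h2 : (Phi τ 0 2 #(cl p m (ZZ v)) : ℝ) ≤ 1 := by
        exact_mod_cast hPhi.2.2.2 τ #(cl p m (ZZ v)) hτ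
      have h3 : (2 : ℝ) ≤ #(cl p m (XX v)) := by exact_mod_cast h1.2 ▸ hle
      push_cast
      linarith
    · rw [if_neg h1]
      split_ifs
      · simp
      · simp

end Pool.Agent.MP_760060_nt.W

end

section

/-! The value of `lam` at the critical multiple of a Wieferich prime. -/

open Finset Polynomial Filter Topology

namespace Pool.Agent.MP_760060_nt.W

namespace KapJ

/-- reciprocals in a class mod ten -/
def SS (N c : ℕ) : ℚ := ∑ m ∈ (Ioo 0 N).filter (fun m => m % 10 = c), ((m : ℕ) : ℚ)⁻¹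

theorem lam_pos {N : ℕ} (hN : N % 10 = 9) :
    lam N = -3 * SS N 2 + 8 * SS N 4 - 10 * SS N 8 := by
  rw [lam, Ioo_eq_empty (a := (N : ℤ)) (by omega), sum_empty, sub_zero]
  simp only [SS, sum_filter, mul_sum, ← sum_add_distrib, ← sum_sub_distrib]
  symm
  refine sum_nbij' (fun m : ℕ => (N : ℤ) - m) (fun t => ((N : ℤ) - t).toNat) ?_ ?_ ?_ ?_ ?_
  · intro m hm
    rw [mem_Ioo] at hm ⊢
    omega
  · intro m hm
    rw [mem_Ioo] at hm ⊢
    omega
  · intro m hm
    rw [mem_Ioo] at hm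
    omega
  · intro m hm
    rw [mem_Ioo] at hm
    omega
  · intro m _
    unfold wt
    push_cast
    rw [sub_sub_cancel]
    split_ifs <;> first | omega | ring

theorem lam_neg {N : ℕ} (hN : N % 10 = 1) :
    lam (-N) = -3 * SS N 8 + 8 * SS N 6 - 10 * SS N 2 := by
  rw [lam, Ioo_eq_empty (b := -(N : ℤ)) (by omega), sum_empty, zero_sub, ← sum_neg_distrib]
  simp only [SS, sum_filter, mul_sum, ← sum_add_distrib, ← sum_sub_distrib]
  symm
  refine sum_nbij' (fun m : ℕ => (m : ℤ) - N) (fun t => (t + N).toNat) ?_ ?_ ?_ ?_ ?_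
  · intro m hm
    rw [mem_Ioo] at hm ⊢
    omega
  · intro m hm
    rw [mem_Ioo] at hm ⊢
    omega
  · intro m hm
    rw [mem_Ioo] at hm
    omega
  · intro m hm
    rw [mem_Ioo] at hm
    omega
  · intro m _
    unfold wt
    push_cast
    rw [show -(N : ℚ) - (m - N) = -m by ring, div_neg, neg_neg]
    split_ifs <;> first | omega | ring

variable {p : ℕ} [hp : Fact p.Prime]

theorem zmul (k : ℤ) {q : ℚ} (h : Vb p (-1) q) : Vb p (-1) (k * q) := (vb_int k).mul0 h

theorem rel (hLer : StLer) (hHs : StHs) (hc : Cop p) (hw : Wf p) :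
    Vb p (-1) (-3 * (harmonic (3 * p / 10) - harmonic (2 * p / 10)) +
      8 * (harmonic (5 * p / 10) - harmonic (4 * p / 10)) -
      10 * (harmonic (9 * p / 10) - harmonic (8 * p / 10))) ∧
    Vb p (-1) (-3 * (harmonic (9 * p / 10) - harmonic (6 * p / 10)) +
      8 * (harmonic (5 * p / 10) - harmonic (2 * p / 10)) -
      10 * (harmonic (7 * p / 10) - harmonic (4 * p / 10))) := by
  have L := hLer p hc hw
  unfold Cop at hc
  have m1 := (hHs p (1 * p / 10) (by omega) (by omega)).1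
  obtain ⟨m2, A⟩ := hHs p (2 * p / 10) (by omega) (by omega)
  have m3 := (hHs p (3 * p / 10) (by omega) (by omega)).1
  obtain ⟨m4, B⟩ := hHs p (4 * p / 10) (by omega) (by omega)
  rw [show p - 1 - 1 * p / 10 = 9 * p / 10 by omega] at m1
  rw [show p - 1 - 2 * p / 10 = 8 * p / 10 by omega] at m2
  rw [show p - 1 - 3 * p / 10 = 7 * p / 10 by omega] at m3
  rw [show p - 1 - 4 * p / 10 = 6 * p / 10 by omega] at m4
  rw [show (p - 1 - 2 * p / 10) / 2 = 4 * p / 10 by omega,
    show 2 * p / 10 / 2 = 1 * p / 10 by omega, show p / 2 = 5 * p / 10 by omega] at A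
  rw [show (p - 1 - 4 * p / 10) / 2 = 3 * p / 10 by omega,
    show 4 * p / 10 / 2 = 2 * p / 10 by omega, show p / 2 = 5 * p / 10 by omega] at B
  rw [show Icc 1 9 = ({1, 2, 3, 4, 5, 6, 7, 8, 9} : Finset ℕ) by decide, sum_insert (by decide),
    sum_insert (by decide), sum_insert (by decide), sum_insert (by decide), sum_insert (by decide),
    sum_insert (by decide), sum_insert (by decide), sum_insert (by decide), sum_singleton] at L
  constructor
  · convert ((((((zmul 8 A).add B).sub L).add (zmul (-9) m1)).add (zmul 11 m2)).add m3).add m4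
      using 1
    push_cast
    ring
  · convert (((((A.add (zmul 8 B)).sub L).add (zmul (-2) m1)).add m2).add (zmul (-9) m3)).add
      (zmul 4 m4) using 1
    push_cast
    ring

theorem fin (hc : Cop p) {x s₁ s₂ s₃ d₁ d₂ d₃ : ℚ} (hx : x = -3 * s₁ + 8 * s₂ - 10 * s₃)
    (h1 : Vb p (-1) (10 * s₁ - d₁)) (h2 : Vb p (-1) (10 * s₂ - d₂))
    (h3 : Vb p (-1) (10 * s₃ - d₃)) (h : Vb p (-1) (-3 * d₁ + 8 * d₂ - 10 * d₃)) :
    Vb p (-1) x := by
  convert (vb_inv_unit (hc.not_dvd hp.out)).mul0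
    ((((zmul (-3) h1).add (zmul 8 h2)).add (zmul (-10) h3)).add h) using 1
  rw [hx]
  push_cast
  ring

end KapJ

open KapJ in
theorem stKap (hLer : StLer) (hHs : StHs) (hHres : StHres) : StKap := by
  intro p _ hc hw
  obtain ⟨r1, r3⟩ := rel hLer hHs hc hw
  have H := fun e j c => hHres p e j c hc
  unfold dl
  rcases id hc with h | h | h | h
  · rw [if_pos h, show (-1 : ℤ) * p = -(1 * p : ℕ) by omega]
    exact fin hc (lam_neg (by omega)) (H 1 2 8 (by omega) (by omega) (by omega))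
      (H 1 4 6 (by omega) (by omega) (by omega)) (H 1 8 2 (by omega) (by omega) (by omega)) r1
  · rw [if_neg (by omega), if_pos h, show (3 : ℤ) * p = (3 * p : ℕ) by omega]
    exact fin hc (lam_pos (by omega)) (H 3 6 2 (by omega) (by omega) (by omega))
      (H 3 2 4 (by omega) (by omega) (by omega)) (H 3 4 8 (by omega) (by omega) (by omega)) r3
  · rw [if_neg (by omega), if_neg (by omega), if_pos h,
      show (-3 : ℤ) * p = -(3 * p : ℕ) by omega]
    exact fin hc (lam_neg (by omega)) (H 3 6 8 (by omega) (by omega) (by omega))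
      (H 3 2 6 (by omega) (by omega) (by omega)) (H 3 4 2 (by omega) (by omega) (by omega)) r3
  · rw [if_neg (by omega), if_neg (by omega), if_neg (by omega),
      show (1 : ℤ) * p = (1 * p : ℕ) by omega]
    exact fin hc (lam_pos (by omega)) (H 1 2 2 (by omega) (by omega) (by omega))
      (H 1 4 4 (by omega) (by omega) (by omega)) (H 1 8 8 (by omega) (by omega) (by omega)) r1

end Pool.Agent.MP_760060_nt.W

end

section

open Finset Filter Topology

namespace Pool.Agent.MP_760060_nt.W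

namespace LowJ

lemma pt (hMid : StMid) (hSmall : StSmall) (hTwo : StTwo) (hFive : StFive) {v p : ℕ}
    (hv : 1 ≤ v) (hp : p.Prime) {y : Fin 4 → ℕ} (h0 : HH v y ≠ 0) :
    ex v y p ≤ 396 * (v : ℝ) ^ 2 * (if p ^ 2 ≤ 500 * v then 1 / ((p : ℝ) - 1) else 1 / p) +
      (if p = 2 then -196 * (v : ℝ) ^ 2 else 0) + (if p = 5 then -79 * (v : ℝ) ^ 2 else 0) +
      200 * v * (if p ^ 2 ≤ 500 * v then (Nat.log p (500 * v) : ℝ) + 1 else 0) +
      (18 * (v : ℝ) + 13 * p / 8) := by
  have := Fact.mk hp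
  have n1 := nw_nonneg v p
  have n2 : (0 : ℝ) ≤ 18 * (v : ℝ) + 13 * p / 8 := by positivity
  refine ex_le h0 ?_
  by_cases h2 : p = 2
  · subst h2
    refine (hTwo v y hv).mono ?_
    rw [if_pos (by omega), if_pos rfl, if_neg (by norm_num), if_pos (by omega)]
    norm_num at n2 ⊢
    linarith
  by_cases h5 : p = 5
  · subst h5
    refine (hFive v y hv).mono ?_
    rw [if_pos (by omega), if_neg h2, if_pos rfl, if_pos (by omega)]
    norm_num at n2 ⊢
    linarith
  have hc := cop_of_prime hp h2 h5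
  rw [if_neg h2, if_neg h5]
  by_cases h : p ^ 2 ≤ 500 * v
  · refine (hSmall v p y hv hc).mono ?_
    rw [if_pos h, if_pos h, mul_one_div]
    linarith
  · refine (hMid v p y hv hc (not_le.1 h)).mono ?_
    rw [if_neg h, if_neg h, mul_one_div]
    linarith

end LowJ

open LowJ in
theorem stLow (hMid : StMid) (hSmall : StSmall) (hTwo : StTwo) (hFive : StFive) (hThL : StThL)
    (hMert : StMert) (hErr : StErr) : StLow := by
  intro ε hε
  filter_upwards [hMert, hErr (ε / 400) (by positivity), eventually_ge_atTop 1,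
    hThL.eventually_le_const (show (1765 / 16 : ℝ) < 1765 / 16 + ε / 2 by linarith)]
    with v h1 h2 hv h3 y h0
  have v0 : (0 : ℝ) < v := by exact_mod_cast hv
  rw [div_le_iff₀ (by positivity)] at h3
  have m : ∀ q : ℕ, q.Prime → q ≤ 5 → q ∈ (Ioc 0 (5 * v)).filter Nat.Prime := fun q hq h =>
    mem_filter.2 ⟨mem_Ioc.2 ⟨hq.pos, by omega⟩, hq⟩
  have h4 := sum_le_sum (s := (Ioc 0 (5 * v)).filter Nat.Prime) fun p hp =>
    mul_le_mul_of_nonneg_right (pt hMid hSmall hTwo hFive hv (mem_filter.1 hp).2 h0)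
      (Real.log_natCast_nonneg p)
  rw [← filter_filter, sum_filter] at h2
  simp only [add_mul _ _ (Real.log _), sum_add_distrib, mul_assoc _ _ (Real.log _), ← mul_sum,
    ite_mul, zero_mul, sum_ite_eq', if_pos (m 2 Nat.prime_two (by norm_num)),
    if_pos (m 5 Nat.prime_five le_rfl)] at h1 h2 h3 h4
  have h5 := mul_le_mul_of_nonneg_left h1 (show 0 ≤ 396 * (v : ℝ) ^ 2 by positivity)
  have h6 := mul_le_mul_of_nonneg_left h2 (show 0 ≤ 200 * (v : ℝ) by positivity)
  refine h4.trans ?_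
  push_cast at h5 h6 h3 ⊢
  linarith

end Pool.Agent.MP_760060_nt.W

end

section

open Finset Polynomial Filter Topology

namespace Pool.Agent.MP_760060_nt.W

namespace OmJ

theorem log_norm (w : ℂ) : Real.log ‖w‖ = lg w.re w.im := by
  unfold lg
  have h : w.re ^ 2 + w.im ^ 2 = ‖w‖ ^ 2 := by
    rw [Complex.sq_norm, Complex.normSq_apply]; ring
  rw [h, Real.log_pow]
  push_cast
  ring

theorem quarter {w : ℂ} (h : 1 / 2 ≤ ‖w‖) : 1 / 4 ≤ w.re ^ 2 + w.im ^ 2 := by
  have h1 : w.re ^ 2 + w.im ^ 2 = ‖w‖ ^ 2 := by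
    rw [Complex.sq_norm, Complex.normSq_apply]; ring
  rw [h1]
  nlinarith

/-- the two logarithms of a pair of nodes -/
noncomputable def pr (Y A B : ℝ) : ℝ := lg (Y - A) B + lg (Y + A) B

/-- the point is far from both nodes -/
def Fr (Y A B : ℝ) : Prop := 1 / 4 ≤ (Y - A) ^ 2 + B ^ 2 ∧ 1 / 4 ≤ (Y + A) ^ 2 + B ^ 2

theorem pr_abs (Y A B : ℝ) : pr Y |A| |B| = pr Y A B := by
  unfold pr lg
  rw [sq_abs]
  rcases abs_choice A with h | h <;> rw [h]
  rw [sub_neg_eq_add, ← sub_eq_add_neg, add_comm]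

theorem Fr.abs {Y A B : ℝ} (h : Fr Y A B) : Fr Y |A| |B| := by
  unfold Fr
  rw [sq_abs]
  rcases abs_choice A with h1 | h1 <;> rw [h1]
  · exact h
  · rw [sub_neg_eq_add, ← sub_eq_add_neg]; exact ⟨h.2, h.1⟩

theorem node_re {u l : ℕ} (hl : l < 54 * u) (z : ℂ) :
    Real.log ‖z - nd u l‖ + Real.log ‖z + nd u l‖ = pr (yk u l) |z.re| |z.im| ∧
      (1 / 2 ≤ ‖z - nd u l‖ ∧ 1 / 2 ≤ ‖z + nd u l‖ → Fr (yk u l) |z.re| |z.im|) := by
  have h : nd u l = (yk u l : ℂ) := if_pos hl
  rw [h]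
  refine ⟨?_, fun h1 => Fr.abs ?_⟩
  · rw [pr_abs, log_norm, log_norm]
    unfold pr lg
    simp only [Complex.sub_re, Complex.natCast_re, Complex.sub_im, Complex.natCast_im, sub_zero,
      Complex.add_re, Complex.add_im, add_zero]
    congr 3 <;> ring
  · have h2 := quarter h1.1
    have h3 := quarter h1.2
    simp only [Complex.sub_re, Complex.natCast_re, Complex.sub_im, Complex.natCast_im, sub_zero,
      Complex.add_re, Complex.add_im, add_zero] at h2 h3
    constructor <;> nlinarith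

theorem node_im {u l : ℕ} (hl : 54 * u ≤ l) (z : ℂ) :
    Real.log ‖z - nd u l‖ + Real.log ‖z + nd u l‖ = pr (yk u l) |z.im| |z.re| ∧
      (1 / 2 ≤ ‖z - nd u l‖ ∧ 1 / 2 ≤ ‖z + nd u l‖ → Fr (yk u l) |z.im| |z.re|) := by
  have h : nd u l = Complex.I * (yk u l : ℂ) := if_neg (by omega)
  rw [h]
  refine ⟨?_, fun h1 => Fr.abs ?_⟩
  · rw [pr_abs, log_norm, log_norm]
    unfold pr lg
    simp only [Complex.sub_re, Complex.natCast_re, Complex.sub_im, Complex.natCast_im, sub_zero,
      Complex.add_re, Complex.add_im, add_zero, Complex.mul_re, Complex.mul_im, Complex.I_re,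
      Complex.I_im, zero_mul, one_mul, mul_zero, zero_add]
    congr 3 <;> ring
  · have h2 := quarter h1.1
    have h3 := quarter h1.2
    simp only [Complex.sub_re, Complex.natCast_re, Complex.sub_im, Complex.natCast_im, sub_zero,
      Complex.add_re, Complex.add_im, add_zero, Complex.mul_re, Complex.mul_im, Complex.I_re,
      Complex.I_im, zero_mul, one_mul, mul_zero, zero_add] at h2 h3
    constructor <;> nlinarith

theorem scale (hFaA : StFaA) {u : ℝ} (hu : 0 < u) (a b β : ℝ) :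
    Er a b (β * u) = u * Er (a / u) (b / u) β + 2 * β * (u * Real.log u) := by
  have h1 := hFaA.2.2.1 u (β - a / u) (b / u) hu
  have h2 := hFaA.2.2.1 u (β + a / u) (b / u) hu
  have e1 : u * (β - a / u) = β * u - a := by field_simp
  have e2 : u * (β + a / u) = β * u + a := by field_simp
  have e3 : u * (b / u) = b := by field_simp
  rw [e1, e3] at h1
  rw [e2, e3] at h2
  unfold Er
  rw [h1, h2]
  ring

theorem block (hSum : StSum) : ∃ K : ℝ, 0 ≤ K ∧ ∀ (R D y A B a b e₁ e₂ : ℝ) (n off k₀ : ℕ)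
    (F : ℕ → ℝ), 3 ≤ R → 1 ≤ D → D ≤ 200 → 0 ≤ y → y + n * D ≤ R → 0 ≤ e₁ → e₁ ≤ R → 0 ≤ e₂ →
    e₂ ≤ R → |y - e₁| ≤ 5 → |y + n * D - e₂| ≤ 5 → 0 ≤ A → A ≤ R → 0 ≤ B → B ≤ R →
    |A - a| ≤ 1 → |B - b| ≤ 1 →
    (∀ j < n, off + j ≠ k₀ → F (off + j) = pr (y + j * D) A B ∧ Fr (y + j * D) A B) →
    |∑ j ∈ range n, (if off + j = k₀ then 0 else F (off + j)) - (Er a b e₂ - Er a b e₁) / D| ≤
      K * Real.log R := by
  obtain ⟨K, hK, h⟩ := hSum
  refine ⟨4 * K, by positivity, ?_⟩
  intro R D y A B a b e₁ e₂ n off k₀ F hR hD hD' hy hyn h1 h1' h2 h2' hs ht hA hA' hB hB' ha hb hF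
  obtain ⟨j₀, hj⟩ : ∃ j₀, ∀ j < n, (j ≠ j₀ ↔ off + j ≠ k₀) := by
    by_cases hc : off ≤ k₀
    · exact ⟨k₀ - off, fun j _ => by omega⟩
    · exact ⟨n, fun j _ => by omega⟩
  have hnD : (0 : ℝ) ≤ n * D := by positivity
  obtain ⟨ha1, ha2⟩ := abs_le.1 ha
  obtain ⟨hb1, hb2⟩ := abs_le.1 hb
  obtain ⟨hs1, hs2⟩ := abs_le.1 hs
  obtain ⟨ht1, ht2⟩ := abs_le.1 ht
  have hbb : |(|B|) - (|b|)| ≤ 1 := (abs_abs_sub_abs_le B b).trans hb
  have k1 := h (3 * R) D (y - A) B (e₁ - a) (e₂ - a) b n j₀ (by linarith) hD hD'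
    (abs_le.2 ⟨by linarith, by linarith⟩) (abs_le.2 ⟨by linarith, by linarith⟩)
    (abs_le.2 ⟨by linarith, by linarith⟩) (abs_le.2 ⟨by linarith, by linarith⟩)
    (abs_le.2 ⟨by linarith, by linarith⟩) (abs_le.2 ⟨by linarith, by linarith⟩)
    (abs_le.2 ⟨by linarith, by linarith⟩) (abs_le.2 ⟨by linarith, by linarith⟩) hbb
    (fun j hn hne => by
      have := (hF j hn ((hj j hn).1 hne)).2.1
      rwa [show y + j * D - A = y - A + j * D by ring] at this)
  have k2 := h (3 * R) D (y + A) B (e₁ + a) (e₂ + a) b n j₀ (by linarith) hD hD'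
    (abs_le.2 ⟨by linarith, by linarith⟩) (abs_le.2 ⟨by linarith, by linarith⟩)
    (abs_le.2 ⟨by linarith, by linarith⟩) (abs_le.2 ⟨by linarith, by linarith⟩)
    (abs_le.2 ⟨by linarith, by linarith⟩) (abs_le.2 ⟨by linarith, by linarith⟩)
    (abs_le.2 ⟨by linarith, by linarith⟩) (abs_le.2 ⟨by linarith, by linarith⟩) hbb
    (fun j hn hne => by
      have := (hF j hn ((hj j hn).1 hne)).2.2
      rwa [show y + j * D + A = y + A + j * D by ring] at this)
  have e : ∑ j ∈ range n, (if off + j = k₀ then 0 else F (off + j)) =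
      ∑ j ∈ (range n).erase j₀, lg (y - A + j * D) B +
        ∑ j ∈ (range n).erase j₀, lg (y + A + j * D) B := by
    rw [← Finset.sum_add_distrib, ← Finset.filter_ne', Finset.sum_filter]
    refine Finset.sum_congr rfl fun j hn => ?_
    have hn' := Finset.mem_range.1 hn
    by_cases hc : off + j = k₀
    · rw [if_pos hc, if_neg fun hne => (hj j hn').1 hne hc]
    · rw [if_neg hc, if_pos ((hj j hn').2 hc), (hF j hn' hc).1]
      unfold pr
      congr 2 <;> ring
  have hl : Real.log (3 * R) ≤ 2 * Real.log R := by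
    have : Real.log (R ^ 2) = 2 * Real.log R := by rw [Real.log_pow]; norm_num
    rw [← this]
    exact Real.log_le_log (by linarith) (by nlinarith)
  have hl' := mul_le_mul_of_nonneg_left hl hK
  obtain ⟨k3, k4⟩ := abs_le.1 k1
  obtain ⟨k5, k6⟩ := abs_le.1 k2
  have e2 : (Er a b e₂ - Er a b e₁) / D =
      (Fa (e₂ - a) b - Fa (e₁ - a) b) / D + (Fa (e₂ + a) b - Fa (e₁ + a) b) / D := by
    unfold Er; ring
  rw [e, e2]
  exact abs_le.2 ⟨by linarith, by linarith⟩

end OmJ

open OmJ in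
theorem stOm (hFaA : StFaA) (hSum : StSum) : StOm := by
  obtain ⟨K, hK, h⟩ := block hSum
  refine ⟨3 * K, by positivity, ?_⟩
  intro u k₀ z a b R hu hR hz ha hb hf
  have hu' : (1 : ℝ) ≤ u := by exact_mod_cast hu
  have hre : |z.re| ≤ R := (Complex.abs_re_le_norm z).trans hz
  have him : |z.im| ≤ R := (Complex.abs_im_le_norm z).trans hz
  obtain ⟨F, hF⟩ : ∃ F : ℕ → ℝ, F = fun l => Real.log ‖z - nd u l‖ + Real.log ‖z + nd u l‖ :=
    ⟨_, rfl⟩
  have e : Real.log ‖∏ l ∈ (range (90 * u)).erase k₀, (z ^ 2 - (wk u l : ℂ))‖ =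
      ∑ l ∈ range (54 * u + 18 * u + 18 * u), if l = k₀ then 0 else F l := by
    have hp : ∀ l ∈ (range (90 * u)).erase k₀, 0 < ‖z - nd u l‖ ∧ 0 < ‖z + nd u l‖ := fun l hl => by
      have := hf l (Finset.mem_range.1 (Finset.mem_erase.1 hl).2) (Finset.mem_erase.1 hl).1
      constructor <;> linarith [this.1, this.2]
    have hq : ∀ l, ‖z ^ 2 - (wk u l : ℂ)‖ = ‖z - nd u l‖ * ‖z + nd u l‖ := fun l => by
      rw [← norm_mul, ← nd_sq]; congr 1; ring
    rw [norm_prod, Real.log_prod fun l hl => by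
      rw [hq]; exact (mul_pos (hp l hl).1 (hp l hl).2).ne']
    rw [show 54 * u + 18 * u + 18 * u = 90 * u by ring]
    rw [Finset.sum_congr rfl (g := F) fun l hl => by
      rw [hq, Real.log_mul (hp l hl).1.ne' (hp l hl).2.ne', hF]]
    rw [← Finset.filter_ne', Finset.sum_filter]
    exact Finset.sum_congr rfl fun l _ => by by_cases hc : l = k₀ <;> simp [hc]
  have k1 := h R 10 (460 * u + 5) |z.re| |z.im| a b (460 * u) (1000 * u) (54 * u) 0 k₀ F
    (by linarith) (by norm_num) (by norm_num) (by positivity) (by push_cast; linarith)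
    (by positivity) (by linarith) (by positivity) (by linarith)
    (abs_le.2 ⟨by linarith, by linarith⟩)
    (abs_le.2 ⟨by push_cast; linarith, by push_cast; linarith⟩)
    (abs_nonneg _) hre (abs_nonneg _) him ha hb (fun j hj hne => by
      have hy : (yk u (0 + j) : ℝ) = 460 * u + 5 + j * 10 := by
        unfold yk; rw [if_pos (by omega)]; push_cast; ring
      have h1 := node_re (u := u) (l := 0 + j) (by omega) z
      rw [hy] at h1
      exact ⟨by rw [hF]; exact h1.1, h1.2 (hf _ (by omega) hne)⟩)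
  have k2 := h R 80 (400 * u) |z.im| |z.re| b a (400 * u) (1840 * u) (18 * u) (54 * u) k₀ F
    (by linarith) (by norm_num) (by norm_num) (by positivity) (by push_cast; linarith)
    (by positivity) (by linarith) (by positivity) (by linarith)
    (abs_le.2 ⟨by linarith, by linarith⟩)
    (abs_le.2 ⟨by push_cast; linarith, by push_cast; linarith⟩)
    (abs_nonneg _) him (abs_nonneg _) hre hb ha (fun j hj hne => by
      have hy : (yk u (54 * u + j) : ℝ) = 400 * u + j * 80 := by
        unfold yk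
        rw [if_neg (by omega), if_pos (by omega), Nat.add_sub_cancel_left]; push_cast; ring
      have h1 := node_im (u := u) (l := 54 * u + j) (by omega) z
      rw [hy] at h1
      exact ⟨by rw [hF]; exact h1.1, h1.2 (hf _ (by omega) hne)⟩)
  have k3 := h R 200 (1840 * u) |z.im| |z.re| b a (1840 * u) (5440 * u) (18 * u)
    (54 * u + 18 * u) k₀ F
    (by linarith) (by norm_num) (by norm_num) (by positivity) (by push_cast; linarith)
    (by positivity) (by linarith) (by positivity) (by linarith)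
    (abs_le.2 ⟨by linarith, by linarith⟩)
    (abs_le.2 ⟨by push_cast; linarith, by push_cast; linarith⟩)
    (abs_nonneg _) him (abs_nonneg _) hre hb ha (fun j hj hne => by
      have hy : (yk u (54 * u + 18 * u + j) : ℝ) = 1840 * u + j * 200 := by
        unfold yk
        rw [if_neg (by omega), if_neg (by omega), show 54 * u + 18 * u + j - 72 * u = j by omega]
        push_cast; ring
      have h1 := node_im (u := u) (l := 54 * u + 18 * u + j) (by omega) z
      rw [hy] at h1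
      exact ⟨by rw [hF]; exact h1.1, h1.2 (hf _ (by omega) hne)⟩)
  have hu0 : (0 : ℝ) < u := by linarith
  rw [scale hFaA hu0, scale hFaA hu0] at k1 k2 k3
  simp only [zero_add] at k1
  rw [e, Finset.sum_range_add, Finset.sum_range_add]
  obtain ⟨a1, a2⟩ := abs_le.1 k1
  obtain ⟨a3, a4⟩ := abs_le.1 k2
  obtain ⟨a5, a6⟩ := abs_le.1 k3
  unfold UU
  exact abs_le.2 ⟨by linarith, by linarith⟩

end Pool.Agent.MP_760060_nt.W

end
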