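import Pool.Agent.MP_760060_nt.W.Stm

section

/-! The size of the rank one weights at the points of `XA`. -/

open Finset Polynomial Filter Topology

namespace Pool.Agent.MP_760060_nt.W

namespace AptJ

theorem half_le {m : ℤ} (h : m ≠ 0) : (1 / 2 : ℝ) ≤ ‖(m : ℂ)‖ := by
  rw [Complex.norm_intCast]
  have h1 : (1 : ℝ) ≤ |(m : ℝ)| := by exact_mod_cast Int.one_le_abs h
  linarith

theorem sep {s t : ℤ} (h : s ≠ t) : (1 / 2 : ℝ) ≤ ‖(s : ℂ) - t‖ := by
  have h1 := half_le (sub_ne_zero.2 h)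
  rwa [Int.cast_sub] at h1

theorem node {u l : ℕ} {s : ℤ} (hu : 1 ≤ u) (hs : s % 10 = 0) :
    1 / 2 ≤ ‖(s : ℂ) - nd u l‖ ∧ 1 / 2 ≤ ‖(s : ℂ) + nd u l‖ := by
  unfold nd
  split_ifs with h
  · have h1 : yk u l = 460 * u + 5 + 10 * l := by rw [yk, if_pos h]
    have a1 := half_le (m := s - yk u l) (by omega)
    have a2 := half_le (m := s + yk u l) (by omega)
    push_cast at a1 a2
    exact ⟨a1, a2⟩
  · have h1 : (400 : ℝ) ≤ yk u l := by exact_mod_cast yk_pos hu l
    have a1 := Complex.abs_im_le_norm ((s : ℂ) - Complex.I * yk u l)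
    have a2 := Complex.abs_im_le_norm ((s : ℂ) + Complex.I * yk u l)
    simp only [Complex.sub_im, Complex.add_im, Complex.intCast_im, Complex.mul_im, Complex.I_re,
      Complex.I_im, Complex.natCast_re, Complex.natCast_im, mul_zero, one_mul, zero_add,
      zero_sub, abs_neg, Nat.abs_cast] at a1 a2
    constructor <;> linarith

theorem norm_rat (q : ℚ) : |(q : ℝ)| = ‖(q : ℂ)‖ := by
  rw [← Complex.ofReal_ratCast, Complex.norm_real, Real.norm_eq_abs]

theorem le_exp {x a b : ℝ} (h : |Real.log x - a| ≤ b) : x ≤ Real.exp (a + b) :=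
  (Real.le_exp_log x).trans (Real.exp_le_exp.2 (by linarith [(abs_le.1 h).2]))

end AptJ

open AptJ in
theorem stApt (hZX : StZX) (hOm : StOm) : StApt := by
  obtain ⟨K₁, hK₁, h1⟩ := hZX
  obtain ⟨K₂, hK₂, h2⟩ := hOm
  refine ⟨2 * (K₁ + 2 * K₂ + 4), (eventually_ge_atTop 6000).mono fun u hu y hy s hs => ?_⟩
  have hu1 : 1 ≤ u := by omega
  have hu' : (6000 : ℝ) ≤ u := by exact_mod_cast hu
  have hsA := mem_XA.1 hs
  have hsX : s ∈ XX (10 * u) := mem_XX.2 (Or.inl hs)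
  have habs : |(s : ℝ)| ≤ 1000 * u := by
    have h : |s| ≤ 1000 * (u : ℤ) := abs_le.2 ⟨by omega, by omega⟩
    exact_mod_cast h
  have hn : ‖(s : ℂ)‖ ≤ 6000 * (u : ℝ) := by
    rw [Complex.norm_intCast]
    linarith
  have hre : |(|(s : ℂ).re|) - (|(s : ℝ)|)| ≤ 1 := by simp
  have him : |(|(s : ℂ).im|) - 0| ≤ 1 := by simp
  have a1 := le_exp (h1 u s s |(s : ℝ)| 0 _ hu1 le_rfl hn hre him
    (fun t ht => sep fun h => XX_not_ZZ hsX (h ▸ ht)) fun x hx => sep (mem_erase.1 hx).1.symm)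
  have a2 := le_exp (h2 u (90 * u) s |(s : ℝ)| 0 _ hu1 le_rfl hn hre him
    fun l _ _ => node hu1 hsA.1)
  rw [erase_eq_of_notMem notMem_range_self] at a2
  rw [zero_div] at a1 a2
  have hR : (0 : ℝ) < 6000 * u := by linarith
  have a3 : |(((zt y).eval (s : ℚ) : ℚ) : ℝ)| ≤ Real.exp (4 * Real.log (6000 * u)) := by
    have e : Real.exp (4 * Real.log (6000 * u)) = ∏ _k : Fin 4, (6000 * (u : ℝ)) := by
      rw [show (4 : ℝ) = ((4 : ℕ) : ℝ) by norm_num, Real.exp_nat_mul, Real.exp_log hR]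
      simp
    rw [e, eval_zt]
    push_cast
    rw [abs_prod]
    refine prod_le_prod (fun _ _ => abs_nonneg _) fun k _ => ?_
    have b1 : (y k : ℝ) ≤ 180 * u := by exact_mod_cast hy k
    have b2 : (0 : ℝ) ≤ y k := Nat.cast_nonneg _
    have b3 := abs_le.1 habs
    exact abs_le.2 ⟨by linarith, by linarith⟩
  have e1 : |((cf (10 * u) s : ℚ) : ℝ)| = ‖(∏ t ∈ ZZ (10 * u), ((s : ℂ) - t)) /
      ∏ x ∈ (XX (10 * u)).erase s, ((s : ℂ) - x)‖ := by
    rw [norm_rat, cf, Zf, om]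
    push_cast
    rfl
  have e2 : |((∏ l ∈ range (90 * u), ((s : ℚ) ^ 2 - wk u l) : ℚ) : ℝ)| =
      ‖∏ l ∈ range (90 * u), ((s : ℂ) ^ 2 - (wk u l : ℂ))‖ := by
    rw [norm_rat]
    push_cast
    rfl
  rw [← e1] at a1
  rw [← e2] at a2
  have hlog : Real.log (6000 * u) ≤ 2 * Real.log u := by
    rw [Real.log_mul (by norm_num) (by linarith)]
    linarith [Real.log_le_log (by norm_num) hu']
  rw [gA, Rat.cast_mul, Rat.cast_mul, Rat.cast_pow, abs_mul, abs_mul, abs_pow]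
  refine (mul_le_mul (mul_le_mul a1 a3 (abs_nonneg _) (Real.exp_pos _).le)
    (pow_le_pow_left₀ (abs_nonneg _) a2 2) (by positivity) (by positivity)).trans ?_
  rw [sq, ← Real.exp_add, ← Real.exp_add, ← Real.exp_add, Real.exp_le_exp, ph]
  nlinarith [mul_le_mul_of_nonneg_left hlog (show 0 ≤ K₁ + 2 * K₂ + 4 by linarith)]

end Pool.Agent.MP_760060_nt.W

end

section

/-! Variation of the primitive of the logarithm. -/

open Finset Polynomial Filter Topology

namespace Pool.Agent.MP_760060_nt.W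

namespace LipJ

variable {R a a' b b' s s' : ℝ}

theorem half_le (hR : 2 ≤ R) : 1 / 2 ≤ Real.log R := by
  have h1 := Real.log_le_log two_pos hR
  have h2 := Real.log_two_gt_d9
  linarith

theorem lg_le (hR : 2 ≤ R) (h0 : 0 ≤ s) (hs : s ≤ R) (h1 : 0 ≤ b) (hb : b ≤ R) :
    lg s b ≤ 2 * Real.log R := by
  have h2 := half_le hR
  rcases (show 0 ≤ s ^ 2 + b ^ 2 by positivity).eq_or_lt with e | e
  · rw [lg, ← e, Real.log_zero]
    linarith
  have h3 : s ^ 2 + b ^ 2 ≤ R ^ 4 := by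
    have a1 := pow_le_pow_left₀ h0 hs 2
    have a2 := pow_le_pow_left₀ h1 hb 2
    have a3 : 2 ≤ R ^ 2 := by nlinarith
    nlinarith
  have h4 := Real.log_le_log e h3
  rw [Real.log_pow] at h4
  rw [lg]
  push_cast at h4
  linarith

theorem Fa_zero (b : ℝ) : Fa 0 b = 0 := by simp [Fa]

theorem mono (hB : StFaB) (h1 : 1 ≤ s) (h : s ≤ s') : Fa s b ≤ Fa s' b := by
  have h2 : 1 ≤ s ^ 2 + b ^ 2 := by nlinarith [sq_nonneg b]
  have h3 := (hB b s s' (by linarith) h).2 (by linarith)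
  have h4 : 0 ≤ lg s b := div_nonneg (Real.log_nonneg h2) two_pos.le
  linarith [mul_nonneg (sub_nonneg.2 h) h4]

theorem low (hA : StFaA) (h0 : 0 ≤ s) (hb : 0 ≤ b) : -1 ≤ Fa s b := by
  refine le_trans ?_ (hA.2.2.2 s 0 b h0 le_rfl hb).1
  have := Real.self_sub_one_le_mul_log h0
  rw [Fa, lg, zero_mul, add_zero, zero_pow two_ne_zero, add_zero, Real.log_pow]
  push_cast
  linarith

theorem step (hA : StFaA) (hB : StFaB) (hR : 2 ≤ R) (h0 : 0 ≤ s) (h : s ≤ s') (hs : s' ≤ R)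
    (hd : s' - s ≤ 200) (h1 : 0 ≤ b) (hb : b ≤ R) : |Fa s' b - Fa s b| ≤ 400 * Real.log R := by
  have h2 := half_le hR
  have up : ∀ u v : ℝ, 0 ≤ u → u ≤ v → v ≤ R → Fa v b - Fa u b ≤ (v - u) * (2 * Real.log R) :=
    fun u v hu huv hv => (hB b u v hu huv).1.trans
      (mul_le_mul_of_nonneg_left (lg_le hR (hu.trans huv) hv h1 hb) (sub_nonneg.2 huv))
  rw [abs_le]
  constructor
  · rcases le_total 1 s with e | e
    · linarith [mono (b := b) hB e h]
    · have a1 := up 0 s le_rfl h0 (h.trans hs)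
      rw [Fa_zero, sub_zero, sub_zero] at a1
      have a2 := low hA (h0.trans h) h1
      have a3 := mul_le_mul_of_nonneg_right e (show 0 ≤ 2 * Real.log R by linarith)
      linarith
  · have a1 := up s s' h0 h hs
    have a2 := mul_le_mul_of_nonneg_right hd (show 0 ≤ 2 * Real.log R by linarith)
    linarith

theorem pos (hA : StFaA) (hB : StFaB) (hR : 2 ≤ R) (h0 : 0 ≤ a) (h0' : 0 ≤ a') (ha : a ≤ R)
    (ha' : a' ≤ R) (hd : |a - a'| ≤ 200) (h1 : 0 ≤ b) (hb : b ≤ R) :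
    |Fa a b - Fa a' b| ≤ 400 * Real.log R := by
  rw [abs_le] at hd
  rcases le_total a a' with e | e
  · rw [abs_sub_comm]
    exact step hA hB hR h0 e ha' (by linarith) h1 hb
  · exact step hA hB hR h0' e ha (by linarith) h1 hb

theorem mix (hA : StFaA) (hB : StFaB) (hR : 2 ≤ R) (h0 : 0 ≤ a) (h0' : a' ≤ 0) (ha : a ≤ R)
    (ha' : -a' ≤ R) (hd : a - a' ≤ 200) (h1 : 0 ≤ b) (hb : b ≤ R) :
    |Fa a b - Fa a' b| ≤ 800 * Real.log R := by
  have a1 := step hA hB hR le_rfl h0 ha (by linarith) h1 hb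
  have a2 := step hA hB hR le_rfl (neg_nonneg.2 h0') ha' (by linarith) h1 hb
  rw [Fa_zero, sub_zero] at a1 a2
  rw [hA.1, abs_neg] at a2
  linarith [abs_sub (Fa a b) (Fa a' b)]

theorem ava (hA : StFaA) (hB : StFaB) (hR : 2 ≤ R) (ha : |a| ≤ R) (ha' : |a'| ≤ R)
    (hd : |a - a'| ≤ 200) (h1 : 0 ≤ b) (hb : b ≤ R) : |Fa a b - Fa a' b| ≤ 800 * Real.log R := by
  have h2 := half_le hR
  have hd' := abs_le.1 hd
  rw [abs_le] at ha ha'
  rcases le_total 0 a with e | e <;> rcases le_total 0 a' with e' | e'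
  · linarith [pos hA hB hR e e' ha.2 ha'.2 hd h1 hb]
  · exact mix hA hB hR e e' ha.2 (by linarith) hd'.2 h1 hb
  · rw [abs_sub_comm]
    exact mix hA hB hR e' e ha'.2 (by linarith) (by linarith) h1 hb
  · have := pos hA hB hR (neg_nonneg.2 e) (neg_nonneg.2 e') (by linarith) (by linarith)
      (by rwa [neg_sub_neg, abs_sub_comm]) h1 hb
    rw [hA.1, hA.1, neg_sub_neg, abs_sub_comm] at this
    linarith

theorem bva0 (hA : StFaA) (h0 : 0 ≤ a) (h1 : 0 ≤ b) (h1' : 0 ≤ b') (hd : |b - b'| ≤ 1) :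
    |Fa a b - Fa a b'| ≤ 2 := by
  rw [abs_le] at hd ⊢
  rcases le_total b b' with e | e
  · have := hA.2.2.2 a b b' h0 h1 e
    constructor <;> linarith [this.1, this.2]
  · have := hA.2.2.2 a b' b h0 h1' e
    constructor <;> linarith [this.1, this.2]

theorem bva (hA : StFaA) (h1 : 0 ≤ b) (h1' : 0 ≤ b') (hd : |b - b'| ≤ 1) :
    |Fa a b - Fa a b'| ≤ 2 := by
  rcases le_total 0 a with e | e
  · exact bva0 hA e h1 h1' hd
  · have := bva0 hA (neg_nonneg.2 e) h1 h1' hd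
    rwa [hA.1, hA.1, neg_sub_neg, abs_sub_comm] at this

theorem Fa_abs (hA : StFaA) (a b : ℝ) : Fa a |b| = Fa a b := by
  rcases abs_choice b with e | e <;> rw [e]
  exact hA.2.1 a b

end LipJ

open LipJ in
theorem stLip (hFaA : StFaA) (hFaB : StFaB) : StLip := by
  refine ⟨804, by norm_num, fun R a a' b b' hR ha ha' hb _ hd he => ?_⟩
  have h1 := ava hFaA hFaB hR ha ha' hd (abs_nonneg b) hb
  have h2 := bva (a := a') hFaA (abs_nonneg b) (abs_nonneg b') he
  rw [Fa_abs hFaA, Fa_abs hFaA] at h1 h2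
  have h3 := half_le hR
  linarith [abs_sub_le (Fa a b) (Fa a' b) (Fa a' b')]

end Pool.Agent.MP_760060_nt.W

end

section

/-! Primes of middle size. -/

open Finset Polynomial Filter Topology

namespace Pool.Agent.MP_760060_nt.W

namespace MidJ

theorem key {p : ℕ} (hp : 0 < p) {e : ℕ → ℝ} {v c : ℝ} (hv : 1 ≤ v)
    (h1 : ∑ m ∈ range p, e m = 40 * v - 1) (h2 : ∀ m, c ≤ e m ∧ e m ≤ c + 5) :
    ∃ τ : ℤ, τ ≤ 0 ∧ ∑ m ∈ range p, (τ + e m + 1) ^ 2 / 4 - 18 * v * τ ≤
      396 * v ^ 2 / p + 18 * v + 13 * p / 8 := by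
  have p0 : (0 : ℝ) < p := by exact_mod_cast hp
  obtain ⟨w, rfl⟩ : ∃ w, v = w * p := ⟨v / p, by field_simp⟩
  obtain ⟨μ, hμ⟩ : ∃ μ, 40 * (w * p) - 1 = μ * p := ⟨(40 * (w * p) - 1) / p, by field_simp⟩
  have w0 : 0 < w := by nlinarith
  have m1 : μ ≤ 40 * w := by nlinarith
  have m2 : 36 * w ≤ μ := by nlinarith
  obtain ⟨τ, hτ⟩ : ∃ τ : ℤ, |36 * w - 1 - μ - τ| ≤ 1 / 2 := ⟨_, abs_sub_round _⟩
  rw [abs_le] at hτ
  refine ⟨τ, by exact_mod_cast (show (τ : ℝ) ≤ 0 by linarith), ?_⟩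
  have h3 : ∑ m ∈ range p, (τ + e m + 1) ^ 2 / 4 ≤
      ∑ m ∈ range p, (((τ + 1) ^ 2 - c * (c + 5)) / 4 + (2 * (τ + 1) + 2 * c + 5) / 4 * e m) :=
    sum_le_sum fun m _ => by nlinarith [mul_nonneg (sub_nonneg.2 (h2 m).1) (sub_nonneg.2 (h2 m).2)]
  rw [sum_add_distrib, ← mul_sum, h1, hμ, sum_const, card_range, nsmul_eq_mul] at h3
  have h4 : ((τ + 1) ^ 2 - c * (c + 5)) / 4 + (2 * (τ + 1) + 2 * c + 5) / 4 * μ - 18 * w * τ ≤
      396 * w ^ 2 + 18 * w + 13 / 8 := by
    nlinarith [mul_nonneg (sub_nonneg.2 hτ.1) (sub_nonneg.2 hτ.2), sq_nonneg (μ - c - 5 / 2),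
      mul_le_mul_of_nonneg_left m1 w0.le]
  rw [show 396 * (w * p) ^ 2 / p = 396 * w ^ 2 * p by field_simp]
  linarith [mul_le_mul_of_nonneg_right h4 p0.le]

end MidJ

theorem stMid (hLoc : StLoc) (hPhi : StPhi) (hWin : StWin) : StMid := by
  intro v p hp y hv hc h5
  obtain ⟨c, h2⟩ : ∃ c : ℤ, ∀ m, c ≤ (#(cl p m (XX v)) : ℤ) - #(cl p m (ZZ v)) ∧
      (#(cl p m (XX v)) : ℤ) - #(cl p m (ZZ v)) ≤ c + 5 := by
    refine ⟨((2 * (10 * v) + 1) / p + (2 * (23 * v) + 1) / p : ℕ) - ((2 * (2 * v) + 1) / p +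
      (2 * (6 * v) + 1) / p + (2 * (5 * v) + 1) / p + 3 : ℕ), fun m => ?_⟩
    have a1 := hWin p m (10 * v) 0 hc
    have a2 := hWin p m (23 * v) 1 hc
    have a3 := hWin p m (2 * v) 3 hc
    have a4 := hWin p m (6 * v) 5 hc
    have a5 := hWin p m (5 * v) 9 hc
    rw [card_cl_XX, card_cl_ZZ]
    generalize (2 * (10 * v) + 1) / p = b1 at *
    generalize (2 * (23 * v) + 1) / p = b2 at *
    generalize (2 * (2 * v) + 1) / p = b3 at *
    generalize (2 * (6 * v) + 1) / p = b4 at *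
    generalize (2 * (5 * v) + 1) / p = b5 at *
    omega
  obtain ⟨τ, t0, ht⟩ := MidJ.key hp.out.pos (v := v) (c := c)
    (e := fun m => (#(cl p m (XX v)) : ℝ) - #(cl p m (ZZ v))) (by exact_mod_cast hv)
    (by
      rw [sum_sub_distrib, ← Nat.cast_sum, ← Nat.cast_sum, sum_card_cl hc, sum_card_cl hc, card_XX,
        card_ZZ]
      push_cast
      ring)
    fun m => by exact_mod_cast h2 m
  refine (hLoc v p y τ _ hv hc h5 t0 fun m _ => ⟨0, ∅, ⟨empty_subset _, fun _ _ _ _ => Iff.rfl,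
    by simp⟩, ?_⟩).mono (add_le_add_left ht _)
  have h3 : (4 : ℝ) * PhW τ #(cl p m (XX v)) 0 #(cl p m (ZZ v)) ≤
      (τ + #(cl p m (XX v)) - #(cl p m (ZZ v)) + 1) ^ 2 := by exact_mod_cast hPhi.2.2.1 τ _ _
  rw [card_empty, Nat.sub_zero, ← add_sub_assoc]
  linarith

end Pool.Agent.MP_760060_nt.W

end

section

/-! The form `LL` has no kernel. -/

open Finset Polynomial

namespace Pool.Agent.MP_760060_nt.W

namespace N4J

/-- the monic polynomial with the roots `S` -/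
noncomputable def P (S : Finset ℤ) : ℚ[X] := ∏ t ∈ S, (X - C (t : ℚ))

theorem P_monic (S : Finset ℤ) : (P S).Monic := monic_prod_of_monic _ _ fun _ _ => monic_X_sub_C _

theorem P_deg (S : Finset ℤ) : (P S).natDegree = #S := by
  rw [P, natDegree_prod_of_monic _ _ fun k _ => monic_X_sub_C _]
  simp only [natDegree_X_sub_C]
  simp

theorem P_split {S T : Finset ℤ} (h : T ⊆ S) : P S = P T * P (S \ T) := by
  rw [P, P, P, mul_comm, prod_sdiff h]

theorem P_comp (S : Finset ℤ) : (P S).comp (X + 10) = P (S.image fun t => t - 10) := by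
  rw [P, P, prod_image fun a _ b _ hab => by omega, Polynomial.prod_comp]
  refine prod_congr rfl fun t _ => ?_
  rw [sub_comp, X_comp, C_comp]
  push_cast
  rw [map_sub, show (C (10 : ℚ) : ℚ[X]) = 10 from rfl]
  ring

theorem P_three : P {-3, -5, -9} = (X + 3) * (X + 5) * (X + 9) := by
  rw [P, prod_insert (by decide), prod_insert (by decide), prod_singleton]
  push_cast
  rw [map_neg, map_neg, map_neg, show (C (3 : ℚ) : ℚ[X]) = 3 from rfl,
    show (C (5 : ℚ) : ℚ[X]) = 5 from rfl, show (C (9 : ℚ) : ℚ[X]) = 9 from rfl]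
  ring

theorem P_eval (v : ℕ) (x : ℤ) : (P (ZZ v)).eval (x : ℚ) = Zf v x := by
  simp [P, Zf, eval_prod]

theorem comp_deg (Q : ℚ[X]) : (Q.comp (X + 10)).natDegree = Q.natDegree := by
  rw [natDegree_comp, show (10 : ℚ[X]) = C 10 from rfl, natDegree_X_add_C, mul_one]

theorem card_I (v : ℕ) : 26 * v ≤ #((ZZ v).filter fun t => t + 10 ∈ ZZ v) := by
  have h1 : ZZ v ⊆ ((ZZ v).filter fun t => t + 10 ∈ ZZ v) ∪
      {20 * (v : ℤ) - 3, 60 * (v : ℤ) - 5, 50 * (v : ℤ) - 9} := by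
    intro t ht
    simp only [mem_union, mem_filter, mem_insert, mem_singleton, mem_ZZ] at ht ⊢
    omega
  have h2 := (card_le_card h1).trans (card_union_le _ _)
  have h3 : #({20 * (v : ℤ) - 3, 60 * (v : ℤ) - 5, 50 * (v : ℤ) - 9} : Finset ℤ) ≤ 3 :=
    card_le_three
  rw [card_ZZ] at h2
  omega

theorem card_J (v : ℕ) : 66 * v ≤ #((XX v).filter fun t => t + 10 ∈ XX v) := by
  have h1 : XX v ⊆ ((XX v).filter fun t => t + 10 ∈ XX v) ∪
      {100 * (v : ℤ), 230 * (v : ℤ) - 1} := by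
    intro t ht
    simp only [mem_union, mem_filter, mem_insert, mem_singleton, mem_XX, mem_XA, mem_XB] at ht ⊢
    omega
  have h2 := (card_le_card h1).trans (card_union_le _ _)
  have h3 : #({100 * (v : ℤ), 230 * (v : ℤ) - 1} : Finset ℤ) ≤ 2 := card_le_two
  rw [card_XX] at h2
  omega

theorem N_deg : (8 * (X + 3) * (X + 9) - 10 * (X + 3) * (X + 5) - 3 * (X + 5) * (X + 9) :
    ℚ[X]).natDegree ≤ 2 := by
  compute_degree

end N4J

open N4J in
theorem stN4 (hN1 : StN1) (hN3 : StN3) : StN4 := by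
  intro v hv f hf h
  by_contra hf0
  have hfd : f.natDegree < 18 * v := (natDegree_lt_iff_degree_lt hf0).2 hf
  obtain ⟨Q, hQd, hQ⟩ := hN1 (XX v) (fun x => lam x * Zf v x * f.eval (x : ℚ)) (18 * v + 4)
    (by rw [card_XX]; omega) fun j hj => by
      rw [← h j hj, dd, LL]
      refine sum_congr rfl fun x _ => ?_
      rw [cf, eval_mul, eval_pow, eval_X]
      ring
  have hQn : Q.natDegree < 48 * v - 2 := by
    rcases eq_or_ne Q 0 with rfl | h0
    · rw [natDegree_zero]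
      omega
    · have h1 := (natDegree_lt_iff_degree_lt h0).2 hQd
      rw [card_XX] at h1
      omega
  obtain ⟨I, hI⟩ : ∃ I, I = (ZZ v).filter fun t => t + 10 ∈ ZZ v := ⟨_, rfl⟩
  have hIc : 26 * v ≤ #I := hI ▸ card_I v
  have hI1 : I ⊆ ZZ v := hI ▸ filter_subset _ _
  have hI2 : I ⊆ (ZZ v).image fun t => t - 10 := by
    intro t ht
    rw [hI, mem_filter] at ht
    exact mem_image.2 ⟨t + 10, ht.2, by ring⟩
  have hD : ({-3, -5, -9} : Finset ℤ) ⊆ ZZ v := by
    intro t ht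
    simp only [mem_insert, mem_singleton, mem_ZZ] at ht ⊢
    omega
  obtain ⟨R, hR⟩ : ∃ R, R = P (ZZ v) * f := ⟨_, rfl⟩
  obtain ⟨R1, hR1⟩ : ∃ R1, R1 = P (ZZ v \ I) * f := ⟨_, rfl⟩
  obtain ⟨R2, hR2⟩ : ∃ R2, R2 = P (((ZZ v).image fun t => t - 10) \ I) * f.comp (X + 10) :=
    ⟨_, rfl⟩
  obtain ⟨R3, hR3⟩ : ∃ R3, R3 = P (ZZ v \ {-3, -5, -9}) * f := ⟨_, rfl⟩
  obtain ⟨N, hN⟩ : ∃ N : ℚ[X],
      N = 8 * (X + 3) * (X + 9) - 10 * (X + 3) * (X + 5) - 3 * (X + 5) * (X + 9) := ⟨_, rfl⟩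
  have e1 : R = P I * R1 := by rw [hR, hR1, P_split hI1, mul_assoc]
  have e2 : R.comp (X + 10) = P I * R2 := by
    rw [hR, hR2, mul_comp, P_comp, P_split hI2, mul_assoc]
  have e3 : R = (X + 3) * (X + 5) * (X + 9) * R3 := by
    rw [hR, hR3, P_split hD, P_three, mul_assoc _ _ f]
  have d1 : R1.natDegree ≤ 18 * v + 2 := by
    have h1 := natDegree_mul_le (p := P (ZZ v \ I)) (q := f)
    rw [P_deg, card_sdiff_of_subset hI1, card_ZZ, ← hR1] at h1
    omega
  have d2 : R2.natDegree ≤ 18 * v + 2 := by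
    have h1 := natDegree_mul_le (p := P (((ZZ v).image fun t => t - 10) \ I))
      (q := f.comp (X + 10))
    have h2 : #((ZZ v).image fun t => t - 10) ≤ 26 * v + 3 := card_ZZ v ▸ card_image_le
    rw [P_deg, card_sdiff_of_subset hI2, comp_deg, ← hR2] at h1
    omega
  have d3 : R3.natDegree ≤ 44 * v - 1 := by
    have h1 := natDegree_mul_le (p := P (ZZ v \ {-3, -5, -9})) (q := f)
    have h2 : #({-3, -5, -9} : Finset ℤ) = 3 := by decide
    rw [P_deg, card_sdiff_of_subset hD, card_ZZ, h2, ← hR3] at h1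
    omega
  have d4 : N.natDegree ≤ 2 := hN ▸ N_deg
  have hW : Q.comp (X + 10) * R1 - Q * R2 - N * R3 * R2 = 0 := by
    refine eq_zero_of_natDegree_lt_card_of_eval_eq_zero' _
      (((XX v).filter fun t => t + 10 ∈ XX v).image fun t : ℤ => (t : ℚ)) (fun y hy => ?_) ?_
    · obtain ⟨x, hx, rfl⟩ := mem_image.1 hy
      rw [mem_filter] at hx
      have hz := XX_not_ZZ hx.1
      have a3 : (x : ℚ) + 3 ≠ 0 := by
        have : x + 3 ≠ 0 := fun h0 => hz (hD (by simp only [mem_insert, mem_singleton]; omega))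
        exact_mod_cast this
      have a5 : (x : ℚ) + 5 ≠ 0 := by
        have : x + 5 ≠ 0 := fun h0 => hz (hD (by simp only [mem_insert, mem_singleton]; omega))
        exact_mod_cast this
      have a9 : (x : ℚ) + 9 ≠ 0 := by
        have : x + 9 ≠ 0 := fun h0 => hz (hD (by simp only [mem_insert, mem_singleton]; omega))
        exact_mod_cast this
      have hRe : ∀ y : ℤ, R.eval (y : ℚ) = Zf v y * f.eval (y : ℚ) := fun y => by
        rw [hR, eval_mul, P_eval]
      have b1 : Q.eval (x : ℚ) = lam x * ((P I).eval (x : ℚ) * R1.eval (x : ℚ)) := by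
        rw [hQ x hx.1, ← eval_mul, ← e1, hRe, mul_assoc]
      have b0 : ∀ T : ℚ[X], (T.comp (X + 10)).eval (x : ℚ) = T.eval ((x + 10 : ℤ) : ℚ) := by
        intro T
        rw [eval_comp]
        simp
      have b2 : (Q.comp (X + 10)).eval (x : ℚ) =
          lam (x + 10) * ((P I).eval (x : ℚ) * R2.eval (x : ℚ)) := by
        rw [b0, hQ _ hx.2, ← eval_mul, ← e2, b0, hRe, mul_assoc]
      have b3 : (P I).eval (x : ℚ) * R1.eval (x : ℚ) =
          ((x : ℚ) + 3) * (x + 5) * (x + 9) * R3.eval (x : ℚ) := by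
        rw [← eval_mul, ← e1, e3]
        simp
      have b4 : N.eval (x : ℚ) = ((x : ℚ) + 3) * (x + 5) * (x + 9) * (lam (x + 10) - lam x) := by
        rw [lam_shift, hN]
        simp only [eval_sub, eval_mul, eval_add, eval_X, eval_ofNat]
        field_simp
      rw [eval_sub, eval_sub, eval_mul, eval_mul, eval_mul, eval_mul, b1, b2, b4]
      linear_combination (R2.eval (x : ℚ) * (lam (x + 10) - lam x)) * b3
    · rw [card_image_of_injective _ Int.cast_injective]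
      have c1 := natDegree_mul_le (p := Q.comp (X + 10)) (q := R1)
      have c2 := natDegree_mul_le (p := Q) (q := R2)
      have c3 := natDegree_mul_le (p := N * R3) (q := R2)
      have c4 := natDegree_mul_le (p := N) (q := R3)
      have c5 := natDegree_sub_le (Q.comp (X + 10) * R1 - Q * R2) (N * R3 * R2)
      have c6 := natDegree_sub_le (Q.comp (X + 10) * R1) (Q * R2)
      have c7 := card_J v
      rw [comp_deg] at c1
      omega
  have hR0 : R = 0 := by
    refine hN3 Q R ?_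
    rw [← hN, e2]
    linear_combination ((X + 3) * (X + 5) * (X + 9) * P I) * hW +
      ((X + 3) * (X + 5) * (X + 9) * Q.comp (X + 10)) * e1 - (N * P I * R2) * e3
  rw [hR] at hR0
  exact mul_ne_zero (P_monic _).ne_zero hf0 hR0

end Pool.Agent.MP_760060_nt.W

end

section

open Finset Polynomial Filter Topology

namespace Pool.Agent.MP_760060_nt.W

namespace NWJ

/-- the primes up to `n` that are not Wieferich -/
def SS (n : ℕ) : Finset ℕ := (Ioc 0 n).filter fun p => p.Prime ∧ ¬ Wf p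

lemma SS_mono {m n : ℕ} (h : m ≤ n) : SS m ⊆ SS n :=
  filter_subset_filter _ (Ioc_subset_Ioc_right h)

lemma up (n : ℕ) : ∑ p ∈ SS n, Real.log p ≤ 1.4 * n := by
  have h1 := Chebyshev.theta_le_log4_mul_x (x := n) (Nat.cast_nonneg n)
  have h2 : ∑ p ∈ SS n, Real.log p ≤ Chebyshev.theta n := by
    unfold Chebyshev.theta
    rw [Nat.floor_natCast]
    exact sum_le_sum_of_subset_of_nonneg (monotone_filter_right _ fun p _ h => h.1)
      fun p _ _ => Real.log_natCast_nonneg p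
  have h3 : Real.log 4 ≤ 1.4 := by
    have : Real.log 4 = 2 * Real.log 2 := by
      rw [show (4 : ℝ) = 2 ^ 2 by norm_num, Real.log_pow]; norm_num
    have := Real.log_two_lt_d9
    linarith
  have h4 := mul_le_mul_of_nonneg_right h3 (Nat.cast_nonneg (α := ℝ) n)
  linarith

lemma Lpos : 0 < Real.log 10000 := Real.log_pos (by norm_num)

lemma block (k : ℕ)
    (h : ((2 * 10000 ^ k : ℕ) : ℝ) ≤ ∑ p ∈ SS (10000 ^ (k + 1)), Real.log p) :
    ∑ p ∈ SS (10000 ^ k), (1 : ℝ) / p + 0.6 / (10000 * Real.log 10000) * (1 / (k + 1)) ≤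
      ∑ p ∈ SS (10000 ^ (k + 1)), (1 : ℝ) / p := by
  have hs : SS (10000 ^ k) ⊆ SS (10000 ^ (k + 1)) :=
    SS_mono (Nat.pow_le_pow_right (by norm_num) (Nat.le_succ k))
  rw [← sum_sdiff hs] at h ⊢
  have h1 := up (10000 ^ k)
  push_cast at h h1
  have hL := Lpos
  have hD : (0 : ℝ) < 10000 ^ (k + 1) * ((k + 1) * Real.log 10000) := by positivity
  have h2 : ∑ p ∈ SS (10000 ^ (k + 1)) \ SS (10000 ^ k), Real.log p ≤
      10000 ^ (k + 1) * ((k + 1) * Real.log 10000) *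
        ∑ p ∈ SS (10000 ^ (k + 1)) \ SS (10000 ^ k), (1 : ℝ) / p := by
    rw [mul_sum]
    refine sum_le_sum fun p hp => ?_
    obtain ⟨h3, h4⟩ := mem_Ioc.1 (mem_filter.1 (mem_sdiff.1 hp).1).1
    have h5 : (0 : ℝ) < p := by exact_mod_cast h3
    have h6 : (p : ℝ) ≤ 10000 ^ (k + 1) := by exact_mod_cast h4
    have h7 : Real.log p ≤ (k + 1) * Real.log 10000 := by
      have := Real.log_le_log h5 h6
      rwa [Real.log_pow, Nat.cast_succ] at this
    rw [mul_one_div, le_div_iff₀ h5, mul_comm]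
    exact mul_le_mul h6 h7 (Real.log_natCast_nonneg p) (by positivity)
  have h3 : 0.6 / (10000 * Real.log 10000) * (1 / ((k : ℝ) + 1)) =
      0.6 * 10000 ^ k / (10000 ^ (k + 1) * ((k + 1) * Real.log 10000)) := by
    field_simp
    ring
  rw [h3, add_comm]
  refine add_le_add_left ?_ _
  rw [div_le_iff₀' hD]
  linarith

lemma ind (k0 : ℕ) (h : ∀ k, k0 ≤ k →
    ((2 * 10000 ^ k : ℕ) : ℝ) ≤ ∑ p ∈ SS (10000 ^ (k + 1)), Real.log p) (k : ℕ) (hk : k0 ≤ k) :
    0.6 / (10000 * Real.log 10000) * (Real.log (k + 1) - Real.log (k0 + 1)) ≤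
      ∑ p ∈ SS (10000 ^ k), (1 : ℝ) / p := by
  have hL := Lpos
  induction k, hk using Nat.le_induction with
  | base =>
    rw [sub_self, mul_zero]
    exact sum_nonneg fun p _ => by positivity
  | succ k hk ih =>
    have h1 := block k (h k hk)
    have h2 : Real.log ((k + 1 : ℕ) + 1) - Real.log (k + 1) ≤ 1 / ((k : ℝ) + 1) := by
      rw [← Real.log_div (by positivity) (by positivity)]
      refine (Real.log_le_sub_one_of_pos (by positivity)).trans (le_of_eq ?_)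
      push_cast
      field_simp
      ring
    have h3 := mul_le_mul_of_nonneg_left h2
      (by positivity : (0 : ℝ) ≤ 0.6 / (10000 * Real.log 10000))
    linarith

end NWJ

open NWJ in
theorem stNW (hMain : StMain) : StNW := by
  obtain ⟨k0, h0⟩ := eventually_atTop.1 hMain
  have hL := Lpos
  have h1 := ind k0 fun k hk => by
    have h2 := h0 (2 * 10000 ^ k) (by
      have := Nat.lt_pow_self (n := k) (show 1 < 10000 by norm_num)
      omega)
    rwa [show 5000 * (2 * 10000 ^ k) = 10000 ^ (k + 1) by ring] at h2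
  refine ⟨0.6 / (10000 * Real.log 10000), 0.6 / (10000 * Real.log 10000) *
    (Real.log (Real.log 10000) + Real.log (k0 + 1)), by positivity, ?_⟩
  filter_upwards [eventually_ge_atTop (10000 ^ k0), eventually_ge_atTop 2] with M hM hM2
  have h2 := h1 (Nat.log 10000 M) (Nat.le_log_of_pow_le (by norm_num) hM)
  have h3 : 10000 ^ Nat.log 10000 M ≤ M := Nat.pow_log_le_self _ (by omega)
  have h4 : M < 10000 ^ (Nat.log 10000 M + 1) := Nat.lt_pow_succ_log_self (by norm_num) M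
  generalize Nat.log 10000 M = k at h2 h3 h4
  have h5 : ∑ p ∈ SS (10000 ^ k), (1 : ℝ) / p ≤ ∑ p ∈ (Icc 1 M).filter
      (fun p => p.Prime ∧ ¬ p ^ 2 ∣ 10 ^ (p - 1) - 1), (1 : ℝ) / p := by
    refine sum_le_sum_of_subset_of_nonneg (fun p hp => ?_) fun p _ _ => by positivity
    obtain ⟨h6, h7⟩ := mem_filter.1 (SS_mono h3 hp)
    exact mem_filter.2 ⟨mem_Icc.2 (mem_Ioc.1 h6), h7⟩
  have h6 : (1 : ℝ) < M := by exact_mod_cast hM2
  have h7 : Real.log M ≤ (k + 1) * Real.log 10000 := by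
    have := Real.log_le_log (by linarith) (show (M : ℝ) ≤ 10000 ^ (k + 1) by exact_mod_cast h4.le)
    rwa [Real.log_pow, Nat.cast_succ] at this
  have h8 := Real.log_le_log (Real.log_pos h6) h7
  rw [Real.log_mul (by positivity) hL.ne'] at h8
  have h9 := mul_le_mul_of_nonneg_left h8
    (by positivity : (0 : ℝ) ≤ 0.6 / (10000 * Real.log 10000))
  linarith

end Pool.Agent.MP_760060_nt.W

end

section

/-! The cost function of a class. -/

open Finset Polynomial Filter Topology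

namespace Pool.Agent.MP_760060_nt.W

namespace PhiJ

theorem Fq_add (x : ℕ) : Fq (x + 2) = Fq x + (x + 2) := by
  rw [Fq, Fq, show (x + 2 + 1) * (x + 2 + 1) = (x + 1) * (x + 1) + (x + 2) * 4 by ring,
    Nat.add_mul_div_right _ _ (by norm_num)]

theorem step (y : ℤ) : max 0 y + (Fq (y - 2).toNat : ℤ) = Fq y.toNat := by
  have f0 : Fq 0 = 0 := rfl
  have f1 : Fq 1 = 1 := rfl
  rcases lt_trichotomy y 1 with h | rfl | h
  · rw [show (y - 2).toNat = 0 by omega, show y.toNat = 0 by omega]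
    omega
  · rw [show ((1 : ℤ) - 2).toNat = 0 from rfl, show (1 : ℤ).toNat = 1 from rfl]
    omega
  · have := Fq_add (y - 2).toNat
    rw [show (y - 2).toNat + 2 = y.toNat by omega] at this
    omega

theorem tele (y : ℤ) (N : ℕ) :
    ∑ i ∈ range N, max 0 (y - 2 * (i : ℤ)) + (Fq (y - 2 * N).toNat : ℤ) = Fq y.toNat := by
  induction N with
  | zero => simp
  | succ N ih =>
    rw [sum_range_succ, add_assoc, show y - 2 * ((N + 1 : ℕ) : ℤ) = y - 2 * N - 2 by omega, step, ih]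

theorem Phi_eq (τ : ℤ) (ρ n z : ℕ) : Phi τ ρ n z =
    ∑ i ∈ range ρ, max 0 (τ + ρ + n - z - 2 * (i : ℤ)) +
      ∑ i ∈ range n, max 0 (τ + ρ + n - z - 2 * ρ - 1 - 2 * (i : ℤ)) := by
  rw [Phi, sum_range_add]
  congr 1
  · refine sum_congr rfl fun i hi => ?_
    rw [aa, if_neg (not_le.2 (mem_range.1 hi))]
    omega
  · refine sum_congr rfl fun i _ => ?_
    rw [aa, if_pos (Nat.le_add_right _ _)]
    omega

theorem Phi_nonneg (τ : ℤ) (ρ n z : ℕ) : 0 ≤ Phi τ ρ n z := sum_nonneg fun _ _ => le_max_left _ _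

theorem Phi_mono {τ : ℤ} {ρ n z ρ' n' z' : ℕ} (h1 : ρ ≤ ρ') (h2 : n ≤ n') (h3 : z' ≤ z) :
    Phi τ ρ n z ≤ Phi τ ρ' n' z' := by
  refine le_trans (sum_le_sum fun i _ => ?_) (sum_le_sum_of_subset_of_nonneg
    (range_subset_range.2 (Nat.add_le_add h1 h2)) fun _ _ _ => le_max_left _ _)
  unfold aa
  split_ifs <;> omega

end PhiJ

open PhiJ in
theorem stPhi : StPhi := by
  refine ⟨fun a ρ n z => ?_, fun τ ρ n z ρ' n' z' h0 h1 h2 h3 => ?_, fun τ k z => ?_,
    fun τ z h0 => ?_⟩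
  · unfold PhW phN
    split_ifs
    · simp
    · have t1 := tele (-(a : ℤ) + ρ + n - z) ρ
      have t2 := tele (-(a : ℤ) + ρ + n - z - 2 * ρ - 1) n
      rw [show (-(a : ℤ) + ρ + n - z - 2 * ρ).toNat = ρ + n - (z + a) - 2 * ρ by omega,
        show (-(a : ℤ) + ρ + n - z).toNat = ρ + n - (z + a) by omega] at t1
      rw [show (-(a : ℤ) + ρ + n - z - 2 * ρ - 1).toNat = ρ + n - (z + a) - 2 * ρ - 1 by omega] at t2
      rw [Phi_eq, phx]
      omega
  · unfold PhW
    split_ifs with c1 c2 c2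
    · exact le_rfl
    · exact Phi_nonneg _ _ _ _
    · refine (Phi_mono (ρ' := 0) (n' := 1) (z' := 0) (by omega) (by omega) (Nat.zero_le _)).trans ?_
      simp [Phi, aa, h0]
    · exact Phi_mono h1 h2 h3
  · have t1 := tele (τ + k + (0 : ℕ) - z) k
    rw [PhW, if_neg (by omega), Phi_eq, range_zero, sum_empty, add_zero]
    refine le_trans (b := 4 * (Fq (τ + k + (0 : ℕ) - z).toNat : ℤ)) (by omega) ?_
    rw [Nat.cast_zero, add_zero]
    rcases le_total (τ + k - z) 0 with h | h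
    · rw [Int.toNat_of_nonpos h]
      exact sq_nonneg _
    · obtain ⟨x, hx⟩ := Int.eq_ofNat_of_zero_le h
      rw [hx, Int.toNat_natCast, sq]
      exact_mod_cast Nat.mul_div_le ((x + 1) * (x + 1)) 4
  · simp only [Phi_eq, range_zero, sum_empty, sum_range_succ]
    omega

end Pool.Agent.MP_760060_nt.W

end

section

/-! The product formula. -/

open Finset Filter Topology

namespace Pool.Agent.MP_760060_nt.W

namespace MainJ

theorem log_five : Real.log 5 ≤ 16096 / 10000 := by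
  have h1 : Real.log (125 / 128) ≤ 125 / 128 - 1 := Real.log_le_sub_one_of_pos (by norm_num)
  rw [Real.log_div (by norm_num) (by norm_num), show (125 : ℝ) = 5 ^ 3 by norm_num,
    show (128 : ℝ) = 2 ^ 7 by norm_num, Real.log_pow, Real.log_pow] at h1
  have := Real.log_two_lt_d9
  push_cast at h1
  linarith

theorem small (K : ℝ) : ∀ᶠ u : ℕ in atTop, K * Real.log u ≤ u := by
  have h := (Real.isLittleO_log_id_atTop.const_mul_left K).bound one_pos
  filter_upwards [tendsto_natCast_atTop_atTop.eventually h] with u hu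
  simp only [id, one_mul, Real.norm_eq_abs, Nat.abs_cast] at hu
  exact (le_abs_self _).trans hu

end MainJ

open MainJ in
theorem stMain (hNZ : StNZ) (hBig : StBig) (hHigh : StHigh) (hPF : StPF) (hLow : StLow)
    (hReal : StReal) : StMain := by
  obtain ⟨K, hK⟩ := hReal
  have ht : Tendsto (fun u : ℕ => 10 * u) atTop atTop :=
    tendsto_id.const_mul_atTop' (by norm_num)
  filter_upwards [hK, ht.eventually (hHigh 1 one_pos), ht.eventually (hLow 1 one_pos), small K,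
    eventually_ge_atTop 1] with u h1 h2 h3 h4 hu
  obtain ⟨y, hy, h0⟩ := hNZ (10 * u) (by omega)
  replace h1 := h1 y (fun k => by have := hy k; omega) h0
  replace h2 := h2 y h0
  replace h3 := h3 y h0
  have h5 := hPF _ (500 * (10 * u)) h0 fun p hp hN =>
    haveI := Fact.mk hp
    hBig (10 * u) p y (by omega) (by omega)
  have hu1 : (1 : ℝ) ≤ u := by exact_mod_cast hu
  set S := ∑ p ∈ (Ioc 0 (5000 * u)).filter (fun p => p.Prime ∧ ¬ Wf p), Real.log p with hS
  have e1 : ∑ p ∈ (Ioc 0 (500 * (10 * u))).filter Nat.Prime,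
      (padicValRat p (HH (10 * u) y) : ℝ) * Real.log p =
      -(∑ p ∈ (Ioc 0 (5 * (10 * u))).filter Nat.Prime, ex (10 * u) y p * Real.log p +
        ∑ p ∈ (Ioc (5 * (10 * u)) (500 * (10 * u))).filter Nat.Prime,
          ex (10 * u) y p * Real.log p) - (660 * u + 2) * S := by
    rw [hS, show 5000 * u = 500 * (10 * u) by ring]
    simp only [sum_filter]
    rw [sum_Ioc_consecutive _ (Nat.zero_le _) (by omega), mul_sum, ← sum_neg_distrib,
      ← sum_sub_distrib]
    refine sum_congr rfl fun p _ => ?_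
    by_cases a1 : p.Prime <;> by_cases a2 : Wf p <;> simp [a1, a2, ex, nw]
    ring
  have e2 : Real.log (250 * ((10 * u : ℕ) : ℝ)) =
      2 * Real.log 2 + 4 * Real.log 5 + Real.log u := by
    rw [show 250 * ((10 * u : ℕ) : ℝ) = 2 ^ 2 * 5 ^ 4 * u by push_cast; ring,
      Real.log_mul (by norm_num) (by positivity), Real.log_mul (by norm_num) (by norm_num),
      Real.log_pow, Real.log_pow]
    push_cast
    ring
  rw [e2] at h3
  rw [e1] at h5
  push_cast at h2 h3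
  have l2 := Real.log_two_lt_d9
  have l5 := log_five
  have u2 : (0 : ℝ) < (u : ℝ) ^ 2 := by positivity
  have b1 : K * u * Real.log u ≤ (u : ℝ) ^ 2 := by nlinarith
  have b2 : Real.log 2 * (u : ℝ) ^ 2 ≤ 0.6931471808 * (u : ℝ) ^ 2 := by gcongr
  have b3 : Real.log 5 * (u : ℝ) ^ 2 ≤ 16096 / 10000 * (u : ℝ) ^ 2 := by gcongr
  have b4 : 1000 * (u : ℝ) ^ 2 ≤ (660 * u + 2) * S := by nlinarith
  by_contra hc
  have b5 : (660 * (u : ℝ) + 2) * S ≤ (660 * u + 2) * u :=
    mul_le_mul_of_nonneg_left (not_le.1 hc).le (by positivity)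
  nlinarith

end Pool.Agent.MP_760060_nt.W

end
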