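import Pool.Agent.MP_760060_nt.W.Stm

section

/-! The primes between `5 v` and `500 v`. -/

open Finset Filter Topology

namespace Pool.Agent.MP_760060_nt.W

namespace HighJ

def A1 (P : ℕ) : ℕ :=
  if P < 6310 then 2 else if P < 6790 then 1 else if P < 8670 then 2 else if P < 9440 then 1
  else if P < 11360 then 2 else if P < 12320 then 1 else if P < 12830 then 2
  else if P < 27900 then 1 else 0

def A3 (P : ℕ) : ℕ :=
  if P < 6835 then 2 else if P < 7195 then 1 else if P < 7880 then 2 else if P < 11800 then 1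
  else if P < 12450 then 2 else if P < 25400 then 1 else 0

theorem e1 : en 1 200 620 5000 = 112287 := by decide +kernel

theorem e2 : en 1 20 30 112287 = 485336 := by decide +kernel

theorem c1 : ch 9 7 1 1 A1 200 620 5000 ≤ 451 * 4000000000000 := by decide +kernel

theorem c3 : ch 3 9 7 0 A3 200 620 5000 ≤ 387 * 4000000000000 := by decide +kernel

theorem c7 : ch 7 1 3 1 A3 200 620 5000 ≤ 387 * 4000000000000 := by decide +kernel

theorem c9 : ch 1 3 9 0 A1 200 620 5000 ≤ 451 * 4000000000000 := by decide +kernel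

theorem d1 : ch 9 7 1 1 A1 20 30 112287 ≤ 0 * 4000000000000 := by decide +kernel

theorem d3 : ch 3 9 7 0 A3 20 30 112287 ≤ 0 * 4000000000000 := by decide +kernel

theorem d7 : ch 7 1 3 1 A3 20 30 112287 ≤ 0 * 4000000000000 := by decide +kernel

theorem d9 : ch 1 3 9 0 A1 20 30 112287 ≤ 0 * 4000000000000 := by decide +kernel

theorem one (h : StCh) {r s1 s3 s9 e c : ℕ} {A : ℕ → ℕ} (hc : Cls r s1 s3 s9 e)
    (h1 : ch s1 s3 s9 e A 200 620 5000 ≤ c * 4000000000000)
    (h2 : ch s1 s3 s9 e A 20 30 112287 ≤ 0 * 4000000000000) : Rg r 5000 500000 c := by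
  have a1 := (h.2.2 r s1 s3 s9 e A 200 620 5000 _ c hc le_rfl e1 (by norm_num) h1).2
  have a2 := (h.2.2 r s1 s3 s9 e A 20 30 112287 _ 0 hc (by norm_num) e2 (by norm_num) h2).2
  have a3 := h.1 r _ _ _ _ _ (by norm_num) (by norm_num)
    (h.1 r _ _ _ _ _ (by norm_num) (by norm_num) a1 a2) (h.2.1 r 485336 (by norm_num))
  simpa using a3

end HighJ

open HighJ in
theorem stHigh (h : StCh) : StHigh := by
  intro ε hε
  have a1 := one h (r := 1) (by simp [Cls]) c1 d1 (ε / 4) (by positivity)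
  have a3 := one h (r := 3) (by simp [Cls]) c3 d3 (ε / 4) (by positivity)
  have a7 := one h (r := 7) (by simp [Cls]) c7 d7 (ε / 4) (by positivity)
  have a9 := one h (r := 9) (by simp [Cls]) c9 d9 (ε / 4) (by positivity)
  filter_upwards [a1, a3, a7, a9, eventually_ge_atTop 1] with v b1 b3 b7 b9 hv y hy
  replace b1 := b1 y hy
  replace b3 := b3 y hy
  replace b7 := b7 y hy
  replace b9 := b9 y hy
  rw [show 5000 * v / 1000 = 5 * v by omega, show 500000 * v / 1000 = 500 * v by omega,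
    sum_filter] at b1 b3 b7 b9
  have e : ∑ p ∈ (Ioc (5 * v) (500 * v)).filter Nat.Prime, ex v y p * Real.log p =
      ∑ p ∈ Ioc (5 * v) (500 * v), ((if p.Prime ∧ p % 10 = 1 then ex v y p * Real.log p else 0) +
        (if p.Prime ∧ p % 10 = 3 then ex v y p * Real.log p else 0) +
        (if p.Prime ∧ p % 10 = 7 then ex v y p * Real.log p else 0) +
        if p.Prime ∧ p % 10 = 9 then ex v y p * Real.log p else 0) := by
    rw [sum_filter]
    refine sum_congr rfl fun p hp => ?_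
    by_cases h1 : p.Prime
    · have h2 := (mem_Ioc.1 hp).1
      rcases cop_of_prime h1 (by omega) (by omega) with h3 | h3 | h3 | h3 <;> simp [h1, h3]
    · simp [h1]
  rw [e, sum_add_distrib, sum_add_distrib, sum_add_distrib]
  push_cast at b1 b3 b7 b9
  nlinarith [sq_nonneg (v : ℝ)]

end Pool.Agent.MP_760060_nt.W

end

section

/-! A class of two points. -/

open Finset Polynomial Filter Topology

namespace Pool.Agent.MP_760060_nt.W

namespace CfWJ

/-- integral and congruent mod `p` -/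
def Cg (p : ℕ) (q r : ℚ) : Prop := Vb p 0 q ∧ Vb p 0 r ∧ Vb p (-1) (q - r)

variable {p : ℕ} [Fact p.Prime]

theorem Cg.mul {q r q' r' : ℚ} (h : Cg p q r) (h' : Cg p q' r') : Cg p (q * q') (r * r') :=
  ⟨h.1.mul0 h'.1, h.2.1.mul0 h'.2.1, by
    rw [show q * q' - r * r' = q * (q' - r') + r' * (q - r) by ring]
    exact (h.1.mul0 h'.2.2).add (h'.2.1.mul0 h.2.2)⟩

theorem Cg.prod {ι : Type} {s : Finset ι} {f g : ι → ℚ} (h : ∀ i ∈ s, Cg p (f i) (g i)) :
    Cg p (∏ i ∈ s, f i) (∏ i ∈ s, g i) := by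
  induction s using Finset.cons_induction with
  | empty => exact ⟨vb_one, vb_one, by simpa using vb_zero _⟩
  | cons i s hi ih =>
    rw [prod_cons, prod_cons]
    exact (h i (mem_cons_self _ _)).mul (ih fun j hj => h j (mem_cons_of_mem hj))

theorem cg_sub {x x' : ℤ} (h : (p : ℤ) ∣ x - x') (t : ℤ) : Cg p (x - t) (x' - t) :=
  ⟨(vb_int x).sub (vb_int t), (vb_int x').sub (vb_int t), by simpa using vb_dvd h⟩

theorem cg_inv {x x' w : ℤ} (h : (p : ℤ) ∣ x - x') (hw : ¬ (p : ℤ) ∣ x - w) :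
    Cg p ((x : ℚ) - w)⁻¹ ((x' : ℚ) - w)⁻¹ := by
  have h1 : (p : ℤ) ∣ x - w - (x' - w) := by simpa using h
  have h2 : ¬ (p : ℤ) ∣ x' - w := fun e => hw (by simpa using dvd_add h1 e)
  exact ⟨by simpa using vb_inv_unit hw, by simpa using vb_inv_unit h2,
    by simpa using vb_inv_sub hw h1⟩

end CfWJ

open CfWJ in
theorem stCfW : StCfW := by
  intro v p m _ y x x' F hv hp hx hc f1 f2 f3
  have m1 : x ∈ XX v ∧ (p : ℤ) ∣ x - 10 * m := mem_cl.1 (by simp [hc])
  have m2 : x' ∈ XX v ∧ (p : ℤ) ∣ x' - 10 * m := mem_cl.1 (by simp [hc])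
  have hd : (p : ℤ) ∣ x - x' := by simpa using dvd_sub m1.2 m2.2
  have c1 : Cg p (Zf v x) (Zf v x') := Cg.prod fun t _ => cg_sub hd t
  have c2 : Cg p ((zt y).eval (x : ℚ)) ((zt y).eval (x' : ℚ)) := by
    rw [eval_zt, eval_zt]
    exact Cg.prod fun k _ => by simpa using cg_sub hd (y k)
  have c3 : Cg p (∏ w ∈ ((XX v).erase x).erase x', ((x : ℚ) - w)⁻¹)
      (∏ w ∈ ((XX v).erase x).erase x', ((x' : ℚ) - w)⁻¹) := Cg.prod fun w hw => cg_inv hd fun e => by
    rw [mem_erase, mem_erase] at hw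
    have : w ∈ cl p m (XX v) := mem_cl.2 ⟨hw.2.2, by simpa using dvd_sub m1.2 e⟩
    simp [hc, hw.1, hw.2.1] at this
  have c4 := ((Cg.mul (p := p) ⟨f1, f2, f3⟩ c1).mul c3).mul c2
  have c5 : Vb p (1 : ℕ) ((x - x' : ℤ) : ℚ)⁻¹ := vb_inv_lt (by
    have a1 := m1.1
    have a2 := m2.1
    rw [mem_XX, mem_XA, mem_XB] at a1 a2
    have a3 : 500 * (v : ℤ) < (p : ℤ) ^ (1 + 1) := by exact_mod_cast hp
    rw [abs_lt]
    omega)
  have c6 := c5.mul c4.2.2
  rw [cf, cf, om, om, ← mul_prod_erase _ _ (mem_erase.2 ⟨hx.symm, m2.1⟩),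
    ← mul_prod_erase _ _ (mem_erase.2 ⟨hx, m1.1⟩), erase_right_comm (a := x') (b := x),
    ← neg_sub (x : ℚ) x']
  simp only [prod_inv_distrib] at c6
  convert c6 using 1
  · simp
  · push_cast
    simp only [div_eq_mul_inv, mul_inv, inv_neg]
    ring

end Pool.Agent.MP_760060_nt.W

end

section

open Finset Polynomial Filter Topology

namespace Pool.Agent.MP_760060_nt.W

namespace ChJ

theorem add (r P₁ P₂ P₃ : ℕ) (c c' : ℝ) (h12 : P₁ ≤ P₂) (h23 : P₂ ≤ P₃) (h : Rg r P₁ P₂ c)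
    (h' : Rg r P₂ P₃ c') : Rg r P₁ P₃ (c + c') := by
  intro ε hε
  filter_upwards [h (ε / 2) (by linarith), h' (ε / 2) (by linarith)] with v h1 h2 y hy
  have a1 := h1 y hy
  have a2 := h2 y hy
  rw [sum_filter] at a1 a2 ⊢
  rw [← sum_Ioc_consecutive _ (Nat.div_le_div_right (Nat.mul_le_mul_right v h12))
    (Nat.div_le_div_right (Nat.mul_le_mul_right v h23))]
  linarith

theorem mono {r P₁ P₂ : ℕ} {c c' : ℝ} (h : Rg r P₁ P₂ c) (hc : c ≤ c') : Rg r P₁ P₂ c' := by
  intro ε hε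
  filter_upwards [h ε hε] with v h1 y hy
  exact (h1 y hy).trans (mul_le_mul_of_nonneg_right (by linarith) (by positivity))

theorem self (r P : ℕ) : Rg r P P 0 := by
  intro ε hε
  refine Eventually.of_forall fun v y _ => ?_
  rw [Ioc_self, filter_empty, sum_empty]
  positivity

theorem big (hBig : StBig) (r P : ℕ) (hP : 461000 ≤ P) : Rg r P 500000 0 := by
  intro ε hε
  filter_upwards [eventually_ge_atTop 1] with v hv y hy
  refine le_trans (sum_nonpos fun p hp => ?_) (by positivity)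
  rw [mem_filter, mem_Ioc] at hp
  haveI : Fact p.Prime := ⟨hp.2.1⟩
  have h1 : 461 * v ≤ P * v / 1000 := by
    rw [Nat.le_div_iff_mul_le (by norm_num)]
    nlinarith
  have h2 : ex v y p ≤ 0 :=
    ex_le hy ((hBig v p y hv (by omega)).mono (by linarith [nw_nonneg v p]))
  exact mul_nonpos_of_nonpos_of_nonneg h2 (Real.log_natCast_nonneg p)

theorem chain (hRg : StRg) (r s1 s3 s9 e : ℕ) (A : ℕ → ℕ) (q : ℕ) (hc : Cls r s1 s3 s9 e) :
    ∀ n P : ℕ, 5000 ≤ P → en 1 q n P ≤ 1000000 → P ≤ en 1 q n P ∧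
      Rg r P (en 1 q n P) ((ch s1 s3 s9 e A q n P : ℕ) / 4000000000000) := by
  intro n
  induction n with
  | zero =>
    intro P _ _
    refine ⟨le_rfl, ?_⟩
    simpa [en, ch] using self r P
  | succ n ih =>
    intro P h1 h2
    rw [en] at h2 ⊢
    have h0 : P ≤ P + (1 + P / q) := Nat.le_add_right _ _
    obtain ⟨h3, h4⟩ := ih (P + (1 + P / q)) (h1.trans h0) h2
    have h5 := hRg r s1 s3 s9 e (A P) P (P + (1 + P / q)) hc h1 h0 (h3.trans h2)
    rw [Nat.add_sub_cancel_left] at h5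
    refine ⟨h0.trans h3, mono (add _ _ _ _ _ _ h0 h3 h5 h4) (le_of_eq ?_)⟩
    rw [ch, Nat.cast_add, add_div]

end ChJ

open ChJ in
theorem stCh (hBig : StBig) (hRg : StRg) : StCh := by
  refine ⟨add, big hBig, ?_⟩
  intro r s1 s3 s9 e A q n P P' c hc h1 h2 h3 h4
  subst h2
  obtain ⟨h5, h6⟩ := chain hRg r s1 s3 s9 e A q hc n P h1 h3
  refine ⟨h5, mono h6 ?_⟩
  rw [div_le_iff₀ (by norm_num)]
  exact_mod_cast h4

end Pool.Agent.MP_760060_nt.W

end

section

/-! The fixed point value of the potential of a segment. -/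

open Finset Polynomial Filter Topology

namespace Pool.Agent.MP_760060_nt.W

namespace ENJ

theorem gn (hLn : StLn) (hAt : StAt) {a b : ℕ} (ha : a ≤ 20000) (hb : b ≤ 20000) :
    |2000000000000 * (Fa a b + a) - (GN a b : ℝ)| ≤ 12000000000 := by
  have ha' : (a : ℝ) ≤ 20000 := by exact_mod_cast ha
  have hb' : (b : ℝ) ≤ 20000 := by exact_mod_cast hb
  have a0 : (0 : ℝ) ≤ a := Nat.cast_nonneg _
  have b0 : (0 : ℝ) ≤ b := Nat.cast_nonneg _
  have h1 : |(a : ℝ) * (1000000000000 * Real.log ((a : ℝ) ^ 2 + (b : ℝ) ^ 2) -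
      lnC (a * a + b * b))| ≤ 4000000000 := by
    rcases Nat.eq_zero_or_pos a with rfl | h
    · simp
    · have t := hLn (a * a + b * b) (by nlinarith) (by nlinarith)
      have e : ((a * a + b * b : ℕ) : ℝ) = (a : ℝ) ^ 2 + (b : ℝ) ^ 2 := by
        push_cast
        ring
      rw [e] at t
      rw [abs_mul, abs_of_nonneg a0]
      calc _ ≤ (20000 : ℝ) * 200000 := mul_le_mul ha' t (abs_nonneg _) (by norm_num)
        _ = _ := by norm_num
  have h2 : |(b : ℝ) * (2000000000000 * Real.arctan ((a : ℝ) / b)) -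
      ((if b = 0 then 0 else 2 * b * atC a b : ℕ) : ℝ)| ≤ 8000000000 := by
    rcases Nat.eq_zero_or_pos b with rfl | h
    · simp
    · have t := hAt a b h
      rw [if_neg h.ne']
      have e : (b : ℝ) * (2000000000000 * Real.arctan ((a : ℝ) / b)) -
          ((2 * b * atC a b : ℕ) : ℝ) =
          2 * b * (1000000000000 * Real.arctan ((a : ℝ) / b) - atC a b) := by
        push_cast
        ring
      rw [e, abs_mul, abs_of_nonneg (by linarith)]
      calc _ ≤ (2 * 20000 : ℝ) * 200000 :=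
            mul_le_mul (by linarith) t (abs_nonneg _) (by norm_num)
        _ = _ := by norm_num
  rw [GN, Nat.cast_add, Nat.cast_mul, Fa, lg]
  rw [abs_le] at h1 h2 ⊢
  constructor <;> linarith [h1.1, h1.2, h2.1, h2.2]

end ENJ

theorem stEN (hFaA : StFaA) (hLn : StLn) (hAt : StAt) : StEN := by
  intro a b β h hb
  have g1 := ENJ.gn hLn hAt (a := β + a) (by omega) hb
  rw [Nat.cast_add, abs_le] at g1
  rw [EN, Er, abs_le]
  split_ifs with h0 h1
  · subst h0
    simp only [Nat.cast_zero, add_zero, sub_zero] at g1 ⊢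
    push_cast
    constructor <;> linarith [g1.1, g1.2]
  · have g2 := ENJ.gn hLn hAt (a := β - a) (by omega) hb
    rw [Nat.cast_sub h1, abs_le] at g2
    push_cast
    constructor <;> linarith [g1.1, g1.2, g2.1, g2.2]
  · have g2 := ENJ.gn hLn hAt (a := a - β) (by omega) hb
    rw [Nat.cast_sub (by omega), abs_le] at g2
    have e : Fa ((β : ℝ) - a) b = -Fa ((a : ℝ) - β) b := by rw [← hFaA.1, neg_sub]
    rw [e]
    push_cast
    constructor <;> linarith [g1.1, g1.2, g2.1, g2.2]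

end Pool.Agent.MP_760060_nt.W

end

section

/-! Symmetries, scaling and monotonicity of `Fa`. -/

namespace Pool.Agent.MP_760060_nt.W

namespace FaAJ

noncomputable def G (a b : ℝ) : ℝ :=
  a * (Real.log (a ^ 2 + b ^ 2) / 2) - a + b * (Real.pi / 2 - Real.arctan (b / a))

theorem Fa_eq {a b : ℝ} (ha : 0 < a) (hb : 0 ≤ b) : Fa a b = G a b := by
  rw [Fa, G, lg]
  rcases hb.eq_or_lt with rfl | hb
  · simp
  · rw [← Real.arctan_inv_of_pos (div_pos hb ha), inv_div]

theorem G_deriv {a : ℝ} (ha : 0 < a) (b : ℝ) :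
    HasDerivAt (G a) (Real.pi / 2 - Real.arctan (b / a)) b := by
  have h0 : a ^ 2 + b ^ 2 ≠ 0 := by positivity
  have h1 : HasDerivAt (fun b : ℝ => a ^ 2 + b ^ 2) (2 * b) b := by
    simpa using (hasDerivAt_pow 2 b).const_add (a ^ 2)
  have h2 : HasDerivAt (fun b : ℝ => Real.arctan (b / a)) (1 / (1 + (b / a) ^ 2) * (1 / a)) b :=
    ((hasDerivAt_id b).div_const a).arctan
  have h3 := ((((h1.log h0).div_const 2).const_mul a).sub_const a).add
    ((hasDerivAt_id b).mul (h2.const_sub (Real.pi / 2)))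
  refine HasDerivAt.congr_deriv h3 ?_
  simp only [id]
  field_simp
  ring

theorem G_mono {a : ℝ} (ha : 0 < a) : Monotone (G a) :=
  monotone_of_deriv_nonneg (fun b => (G_deriv ha b).differentiableAt) fun b => by
    rw [(G_deriv ha b).deriv]
    linarith [Real.arctan_lt_pi_div_two (b / a)]

theorem G_lip {a b b' : ℝ} (ha : 0 < a) (hb : 0 ≤ b) (h : b ≤ b') :
    G a b' ≤ G a b + 2 * (b' - b) := by
  have hd : ∀ x, HasDerivAt (fun x => 2 * x - G a x)
      (2 * 1 - (Real.pi / 2 - Real.arctan (x / a))) x := fun x =>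
    ((hasDerivAt_id x).const_mul 2).sub (G_deriv ha x)
  have hm : MonotoneOn (fun x => 2 * x - G a x) (Set.Ici 0) :=
    monotoneOn_of_deriv_nonneg (convex_Ici 0)
      (fun x _ => (hd x).continuousAt.continuousWithinAt)
      (fun x _ => (hd x).differentiableAt.differentiableWithinAt) fun x hx => by
        rw [(hd x).deriv]
        rw [interior_Ici] at hx
        have h1 : 0 ≤ Real.arctan (x / a) :=
          Real.arctan_nonneg.2 (div_nonneg (le_of_lt hx) ha.le)
        linarith [Real.pi_le_four]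
  have := hm (show b ∈ Set.Ici 0 from hb) (show b' ∈ Set.Ici 0 from hb.trans h) h
  simp only at this
  linarith

end FaAJ

open FaAJ

theorem stFaA : StFaA := by
  refine ⟨fun a b => ?_, fun a b => ?_, fun u a b hu => ?_, fun a b b' ha hb h => ?_⟩
  · simp only [Fa, lg, neg_div, Real.arctan_neg, even_two, Even.neg_pow]
    ring
  · simp only [Fa, lg, div_neg, Real.arctan_neg, even_two, Even.neg_pow]
    ring
  · rcases eq_or_ne a 0 with rfl | ha
    · simp [Fa]
    have h0 : a ^ 2 + b ^ 2 ≠ 0 := by positivity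
    rw [Fa, Fa, lg, lg, mul_div_mul_left _ _ hu.ne',
      show (u * a) ^ 2 + (u * b) ^ 2 = u ^ 2 * (a ^ 2 + b ^ 2) by ring,
      Real.log_mul (by positivity) h0, Real.log_pow]
    push_cast
    ring
  · rcases ha.eq_or_lt with rfl | ha
    · simp only [Fa, zero_mul, zero_div, Real.arctan_zero, mul_zero]
      constructor <;> linarith
    rw [Fa_eq ha hb, Fa_eq ha (hb.trans h)]
    exact ⟨G_mono ha h, G_lip ha hb h⟩

end Pool.Agent.MP_760060_nt.W

end

section

/-! One family of points in a class mod `p`. -/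

open Finset Polynomial Filter Topology

namespace Pool.Agent.MP_760060_nt.W

theorem stFam : StFam := by
  intro p m s h H M₁ M₂ u hp u0 u9 s9 hs h1 h2 m1 m2
  have p0 : (0 : ℤ) < p := by
    have : 0 < p := by unfold Cop at hp; omega
    exact_mod_cast this
  have a1 : (M₁ : ℤ) * p ≤ 1000000 * m := by exact_mod_cast h1
  have a2 : 1000000 * (m : ℤ) ≤ M₂ * p := by exact_mod_cast h2
  refine ⟨fun t => ⟨?_, ?_⟩, fun hH i hi' => ?_, fun hH i => ⟨fun hi' => ?_, fun hi' => ?_⟩⟩
  · rintro ⟨⟨k, hk⟩, ht⟩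
    have e : (p : ℤ) * (k - s) = p * k - p * s := by ring
    have d : (10 : ℤ) ∣ p * (k - s) := by omega
    obtain ⟨i, hi⟩ := hp.isCoprime.symm.dvd_of_dvd_mul_left d
    exact ⟨i, by rw [show (s : ℤ) + 10 * i = k by omega]; omega⟩
  · rintro ⟨i, rfl⟩
    refine ⟨⟨s + 10 * i, by ring⟩, ?_⟩
    have e : (p : ℤ) * (s + 10 * i) = p * s + 10 * (p * i) := by ring
    omega
  · have a3 : 1000000 * (h : ℤ) + 900000 ≤ H * p := by exact_mod_cast hH
    rw [mem_AP] at hi'
    obtain ⟨-, b1, b2⟩ := hi'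
    have c1 : -(H : ℤ) ≤ M₂ + 100000 * (s + 10 * i) :=
      le_of_mul_le_mul_right (by nlinarith) p0
    have c2 : (M₁ : ℤ) + 100000 * (s + 10 * i) ≤ H :=
      le_of_mul_le_mul_right (by nlinarith) p0
    unfold lo hi
    omega
  · have a3 : (H : ℤ) * p + 900000 ≤ 1000000 * h := by exact_mod_cast hH
    have c1 : -(H : ℤ) ≤ M₁ + 100000 * (s + 10 * i) := by
      unfold lo at hi'
      omega
    have c2 := mul_le_mul_of_nonneg_right c1 p0.le
    nlinarith
  · have a3 : (H : ℤ) * p + 900000 ≤ 1000000 * h := by exact_mod_cast hH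
    have c1 : (M₂ : ℤ) + 100000 * (s + 10 * i) ≤ H := by
      unfold hi at hi'
      omega
    have c2 := mul_le_mul_of_nonneg_right c1 p0.le
    nlinarith

end Pool.Agent.MP_760060_nt.W

end

section

open Finset

namespace Pool.Agent.MP_760060_nt.W

namespace PuJ

lemma one {p R : ℕ} [Fact p.Prime] {w : ℤ} (h : |w| ≤ R) :
    Vb p (#((range (Nat.log p R)).filter fun j => (p : ℤ) ^ (j + 1) ∣ w) : ℕ) (w : ℚ)⁻¹ := by
  obtain ⟨k, hk⟩ : ∃ k, k = #((range (Nat.log p R)).filter fun j => (p : ℤ) ^ (j + 1) ∣ w) :=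
    ⟨_, rfl⟩
  rw [← hk]
  by_cases h1 : Nat.log p R ≤ k
  · exact (vb_inv_log h).mono (by exact_mod_cast h1)
  refine vb_inv_pow fun h2 => ?_
  have h3 : range (k + 1) ⊆ (range (Nat.log p R)).filter fun j => (p : ℤ) ^ (j + 1) ∣ w :=
    fun j hj => by
      have := mem_range.1 hj
      exact mem_filter.2 ⟨mem_range.2 (by omega), (pow_dvd_pow _ (by omega)).trans h2⟩
  have := card_le_card h3
  rw [card_range] at this
  omega

lemma cnt {q n : ℕ} {a D : ℤ} (h : IsCoprime (q : ℤ) D) {I : Finset ℕ}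
    (hI : I ⊆ range n) : #(I.filter fun i : ℕ => (q : ℤ) ∣ a + D * i) ≤ n / q + 1 := by
  rw [← card_range (n / q + 1)]
  refine card_le_card_of_injOn (· / q) (fun i hi => ?_) fun i hi j hj e => ?_
  · exact mem_coe.2 (mem_range.2 (Nat.lt_succ_of_le (Nat.div_le_div_right
      (mem_range.1 (hI (mem_filter.1 (mem_coe.1 hi)).1)).le)))
  · have h1 := dvd_sub (mem_filter.1 (mem_coe.1 hj)).2 (mem_filter.1 (mem_coe.1 hi)).2
    rw [add_sub_add_left_eq_sub, ← mul_sub] at h1
    have h2 : i % q = j % q := Nat.modEq_iff_dvd.2 (h.dvd_of_dvd_mul_left h1)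
    have e' : i / q = j / q := e
    rw [← Nat.div_add_mod i q, ← Nat.div_add_mod j q, h2, e']

lemma geo {p : ℝ} (hp : 1 < p) (x : ℝ) (L : ℕ) :
    ∑ j ∈ range L, x / p ^ (j + 1) = x / (p - 1) - x / (p - 1) / p ^ L := by
  have h1 : p - 1 ≠ 0 := (sub_pos.2 hp).ne'
  have h2 : p ≠ 0 := by positivity
  induction L with
  | zero => simp
  | succ L ih =>
    rw [sum_range_succ, ih]
    field_simp
    ring

end PuJ

open PuJ in
theorem stPu : StPu := by
  intro p n R hp a D I hD hI hR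
  have h1 : (1 : ℝ) < p := by exact_mod_cast hp.out.one_lt
  have h2 := Vb.prod (p := p) (s := I) fun i hi => one (hR i hi)
  rw [prod_inv_distrib] at h2
  push_cast at h2
  refine h2.mono ?_
  have h3 : ∑ i ∈ I, #((range (Nat.log p R)).filter fun j => (p : ℤ) ^ (j + 1) ∣ a + D * i) =
      ∑ j ∈ range (Nat.log p R), #(I.filter fun i : ℕ => (p : ℤ) ^ (j + 1) ∣ a + D * i) := by
    simp only [card_filter]
    exact sum_comm
  have h4 : IsCoprime (p : ℤ) D :=
    (Nat.prime_iff_prime_int.1 hp.out).irreducible.coprime_iff_not_dvd.2 hD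
  rw [← Nat.cast_sum, h3, Nat.cast_sum]
  calc _ ≤ ∑ j ∈ range (Nat.log p R), ((n : ℝ) / p ^ (j + 1) + 1) := sum_le_sum fun j _ => by
        have h5 := cnt (q := p ^ (j + 1)) (n := n) (a := a)
          (by rw [Nat.cast_pow]; exact h4.pow_left) hI
        rw [Nat.cast_pow] at h5
        have h6 : ((n / p ^ (j + 1) : ℕ) : ℝ) ≤ n / p ^ (j + 1) := by
          simpa using Nat.cast_div_le (α := ℝ) (m := n) (n := p ^ (j + 1))
        exact (Nat.cast_le.2 h5).trans (by rw [Nat.cast_add, Nat.cast_one]; linarith)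
    _ ≤ _ := by
        rw [sum_add_distrib, geo h1, sum_const, card_range, nsmul_eq_mul, mul_one]
        have : 0 ≤ (n : ℝ) / (p - 1) / p ^ Nat.log p R :=
          div_nonneg (div_nonneg n.cast_nonneg (sub_pos.2 h1).le) (by positivity)
        linarith

end Pool.Agent.MP_760060_nt.W

end

section

/-! The linear form as an integral on a line plus point masses. -/

open Finset

namespace Pool.Agent.MP_760060_nt.W

namespace RepJ

theorem disj (v T : ℕ) : Disjoint (XX v) (TT T) := by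
  unfold XX TT XA XB
  simp only [disjoint_union_left, disjoint_union_right]
  exact ⟨⟨⟨AP_disj _ _ (by decide), AP_disj _ _ (by decide)⟩,
    ⟨AP_disj _ _ (by decide), AP_disj _ _ (by decide)⟩⟩,
    ⟨AP_disj _ _ (by decide), AP_disj _ _ (by decide)⟩⟩

end RepJ

theorem stRep (hInt : StInt) (hJT : StJT) (hCst : StCst) : StRep := by
  obtain ⟨K, hK, hC⟩ := hCst
  refine ⟨301 + K, by linarith, fun v η hη => ?_⟩
  obtain ⟨T, c, c₀, a, hc, ha, hl⟩ := hC v η hη
  refine ⟨a, fun x => (ha x).trans (by linarith), fun g κ hg hκ => ?_⟩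
  have hκ0 : 0 ≤ κ := by
    have := (norm_nonneg _).trans (hκ 0)
    simpa using this
  have h1 := hInt (XX v) (TT T) g (fun t => ((wt t : ℤ) : ℝ)) c ((300 + K) * κ) (RepJ.disj v T)
    (fun ξ => by
      have hx : (1 : ℝ) ≤ 1 + ξ ^ 2 := by nlinarith [sq_nonneg ξ]
      have h2 : ‖∑ t ∈ TT T, (((wt t : ℤ) : ℝ) : ℂ) / (zl ξ - t) + c‖ ≤
          (300 + K) * (1 + ξ ^ 2) := by
        refine (norm_add_le _ _).trans ?_
        have h3 := hJT T ξ
        rw [Complex.norm_real, Real.norm_eq_abs]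
        nlinarith
      rw [norm_mul]
      refine (mul_le_mul (hκ ξ) h2 (norm_nonneg _) (by positivity)).trans (le_of_eq ?_)
      field_simp)
  set A : ℤ → ℝ := fun x => ∑ t ∈ TT T, ((wt t : ℤ) : ℝ) * (sg x - sg t) / (x - t) + c * sg x
    with hA
  have e1 : ∑ x ∈ XA v, a x * g x = ∑ x ∈ XX v, (if x ∈ XA v then a x else 0) * g x := by
    simp only [ite_mul, zero_mul]
    rw [sum_ite_mem, inter_eq_right.2 (show XA v ⊆ XX v from subset_union_left)]
  have e2 : ∑ x ∈ XX v, (lam x : ℝ) * g x - ∑ x ∈ XA v, a x * g x =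
      (∑ x ∈ XX v, g x * A x) / 2 + c₀ * ∑ x ∈ XX v, g x +
        ∑ x ∈ XX v, ((lam x : ℝ) - (A x / 2 + c₀ + if x ∈ XA v then a x else 0)) * g x := by
    rw [e1, sum_div, mul_sum, ← sum_sub_distrib, ← sum_add_distrib, ← sum_add_distrib]
    exact sum_congr rfl fun x _ => by ring
  have h4 : |∑ x ∈ XX v, ((lam x : ℝ) - (A x / 2 + c₀ + if x ∈ XA v then a x else 0)) * g x| ≤
      η * ∑ x ∈ XX v, |g x| := by
    rw [mul_sum]
    refine (abs_sum_le_sum_abs _ _).trans (sum_le_sum fun x hx => ?_)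
    rw [abs_mul]
    exact mul_le_mul_of_nonneg_right (hl x hx) (abs_nonneg _)
  rw [e2, hg, mul_zero, add_zero]
  refine (abs_add_le _ _).trans (add_le_add ?_ h4)
  rw [abs_div, abs_two]
  have h5 : |∑ x ∈ XX v, g x * A x| ≤ (300 + K) * κ := h1
  nlinarith [mul_nonneg hK hκ0]

end Pool.Agent.MP_760060_nt.W

end
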