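import Pool.Agent.MP_760060_nt.W.Stm

section

/-! The fixed point value of the arctangent. -/

open Finset Polynomial Filter Topology

namespace Pool.Agent.MP_760060_nt.W

namespace AtJ

/-- the truncated series -/
noncomputable def S (x : ℝ) : ℝ :=
  x - x ^ 3 / 3 + x ^ 5 / 5 - x ^ 7 / 7 + x ^ 9 / 9 - x ^ 11 / 11 + x ^ 13 / 13

theorem S_der (x : ℝ) : HasDerivAt S ((1 + x ^ 14) / (1 + x ^ 2)) x := by
  have h := fun (n : ℕ) (c : ℝ) => (hasDerivAt_pow n x).div_const c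
  have h1 : HasDerivAt S _ x := ((((((hasDerivAt_id x).sub (h 3 3)).add (h 5 5)).sub (h 7 7)).add
    (h 9 9)).sub (h 11 11)).add (h 13 13)
  refine h1.congr_deriv ?_
  have : (1 + x ^ 2) ≠ 0 := by positivity
  push_cast
  field_simp
  ring

theorem S_bd {x : ℝ} (hx : 0 ≤ x) :
    Real.arctan x ≤ S x ∧ S x ≤ Real.arctan x + x ^ 15 / 15 := by
  have h1 : Monotone fun x => S x - Real.arctan x :=
    monotone_of_hasDerivAt_nonneg (f' := fun x => x ^ 14 / (1 + x ^ 2)) (fun x => by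
      refine ((S_der x).sub (Real.hasDerivAt_arctan x)).congr_deriv ?_
      ring) fun x => by positivity
  have h2 : Monotone fun x => Real.arctan x + x ^ 15 / 15 - S x :=
    monotone_of_hasDerivAt_nonneg (f' := fun x => x ^ 16 / (1 + x ^ 2)) (fun x => by
      refine (((Real.hasDerivAt_arctan x).add ((hasDerivAt_pow 15 x).div_const 15)).sub
        (S_der x)).congr_deriv ?_
      have : (1 + x ^ 2) ≠ 0 := by positivity
      push_cast
      field_simp
      ring) fun x => by positivity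
  have h3 := h1 hx
  have h4 := h2 hx
  simp only [S, Real.arctan_zero] at h3 h4 ⊢
  constructor <;> linarith

theorem alt_bd {a b : ℕ} (hb : 0 < b) (h : a ≤ b) :
    (alt a b : ℝ) ≤ 1000000000000 * S (a / b) ∧ 1000000000000 * S (a / b) ≤ alt a b + 1 := by
  have hp : ∀ i j, a ^ i * b ^ j ≤ b ^ (i + j) := fun i j => by
    rw [pow_add]
    exact Nat.mul_le_mul_right _ (Nat.pow_le_pow_left h i)
  have h1 : 15015 * a ^ 2 * b ^ 10 + 6435 * a ^ 6 * b ^ 6 + 4095 * a ^ 10 * b ^ 2 ≤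
      45045 * b ^ 12 + 9009 * a ^ 4 * b ^ 8 + 5005 * a ^ 8 * b ^ 4 + 3465 * a ^ 12 := by
    have h2 := hp 2 10
    have h3 := hp 6 6
    have h4 := hp 10 2
    simp only [mul_assoc, Nat.reduceAdd] at h2 h3 h4 ⊢
    omega
  have hb' : (b : ℝ) ≠ 0 := by positivity
  have key : ∀ m n : ℕ, ((m / n : ℕ) : ℝ) ≤ (m : ℝ) / n ∧ (m : ℝ) / n ≤ (m / n : ℕ) + 1 :=
    fun m n => ⟨Nat.cast_div_le, by
      rw [← Nat.floor_div_eq_div (K := ℝ)]
      exact (Nat.lt_floor_add_one _).le⟩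
  unfold alt
  convert key _ _ using 2 <;>
  · push_cast [Nat.cast_sub h1]
    unfold S
    field_simp
    ring

theorem alt_at {a b : ℕ} (hb : 0 < b) (h : 12 * a ≤ 5 * b) :
    1000000000000 * Real.arctan (a / b) - 1 ≤ alt a b ∧
      alt a b ≤ 1000000000000 * Real.arctan (a / b) + 140000 ∧ alt a b ≤ 500000000000 := by
  have hb' : (0 : ℝ) < b := by positivity
  have h0 : (0 : ℝ) ≤ a / b := by positivity
  have h1 : (a : ℝ) / b ≤ 5 / 12 := by
    rw [div_le_div_iff₀ hb' (by norm_num)]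
    exact_mod_cast (by omega : a * 12 ≤ 5 * b)
  obtain ⟨h2, h3⟩ := S_bd h0
  obtain ⟨h4, h5⟩ := alt_bd hb (show a ≤ b by omega)
  have h6 := pow_le_pow_left₀ h0 h1 15
  have h7 := Real.le_tan (Real.arctan_nonneg.2 h0) (Real.arctan_lt_pi_div_two _)
  rw [Real.tan_arctan] at h7
  norm_num at h6
  refine ⟨by linarith, by linarith, ?_⟩
  have : (alt a b : ℝ) ≤ 500000000000 := by linarith
  exact_mod_cast this

theorem quarter {a b : ℝ} (ha : 0 ≤ a) (hb : 0 < b) :
    Real.arctan (a / b) = Real.pi / 4 + Real.arctan ((a - b) / (a + b)) := by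
  have h : 0 < a + b := by linarith
  rw [← Real.arctan_one, Real.arctan_add (by rw [one_mul, div_lt_one h]; linarith)]
  congr 1
  have : 1 - 1 * ((a - b) / (a + b)) = 2 * b / (a + b) := by field_simp; ring
  rw [this]
  field_simp
  ring

end AtJ

open AtJ in
theorem stAt : StAt := by
  intro a b hb
  have p1 := Real.pi_gt_d20
  have p2 := Real.pi_lt_d20
  have hb' : (0 : ℝ) < b := by positivity
  rw [atC, abs_le]
  split_ifs with h1 h2 h3
  · obtain ⟨h, h', -⟩ := alt_at hb h1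
    constructor <;> linarith
  · have ha : 0 < a := by omega
    obtain ⟨h, h', h''⟩ := alt_at ha h2
    rw [← inv_div, Real.arctan_inv_of_pos (by positivity), Nat.cast_sub (by omega)]
    push_cast
    constructor <;> linarith
  · obtain ⟨h, h', h''⟩ := alt_at (a := b - a) (b := a + b) (by omega) (by omega)
    rw [quarter (Nat.cast_nonneg a) hb', Nat.cast_sub (by omega), ← neg_sub (b : ℝ), neg_div,
      Real.arctan_neg]
    push_cast [Nat.cast_sub h3] at h h' ⊢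
    constructor <;> linarith
  · obtain ⟨h, h', -⟩ := alt_at (a := a - b) (b := a + b) (by omega) (by omega)
    rw [quarter (Nat.cast_nonneg a) hb']
    push_cast [Nat.cast_sub (not_le.1 h3).le] at h h' ⊢
    constructor <;> linarith

end Pool.Agent.MP_760060_nt.W

end

section

/-! The bound at the prime five. -/

open Finset Polynomial Filter Topology

namespace Pool.Agent.MP_760060_nt.W

namespace FiveJ

/-- the monic basis with zeros at the multiples of ten -/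
noncomputable def PP (i : ℕ) : ℚ[X] := ∏ j ∈ range i, (X - C (((10 * j : ℤ) : ℤ) : ℚ))

theorem PP_monic (i : ℕ) : (PP i).Monic ∧ (PP i).natDegree = i := by
  refine ⟨monic_prod_of_monic _ _ fun j _ => monic_X_sub_C _, ?_⟩
  rw [PP, natDegree_prod_of_monic _ _ fun j _ => monic_X_sub_C _]
  simp only [natDegree_X_sub_C]
  simp

theorem PP_eval (i : ℕ) (x : ℚ) :
    (PP i).eval x = ∏ j ∈ range i, (x - (((10 * j : ℤ) : ℤ) : ℚ)) := by
  simp only [PP, eval_prod, eval_sub, eval_X, eval_C]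

theorem ms_prod {ι : Type} (s : Finset ι) (f : ι → ℤ) (x : ℚ) :
    ((s.val.map f).map fun t : ℤ => x - t).prod = ∏ i ∈ s, (x - f i) := by
  rw [Multiset.map_map]
  rfl

theorem om_union {S T : Finset ℤ} (h : Disjoint S T) {x : ℤ} (hx : x ∈ S) :
    om (S ∪ T) x = om S x * ∏ w ∈ T, ((x : ℚ) - w) := by
  rw [om, om, erase_union_distrib, erase_eq_of_notMem (disjoint_left.1 h hx),
    prod_union (h.mono_left (erase_subset _ _))]

theorem tri (m : ℕ) : ∀ n : ℕ, ∑ i ∈ range n, max ((m : ℝ) - i) 0 ≤ m * (m + 1) / 2 := by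
  induction m with
  | zero =>
    intro n
    refine (sum_nonpos fun i _ => max_le ?_ le_rfl).trans (by simp)
    simp
  | succ m ih =>
    rintro (_ | n)
    · simp only [range_zero, sum_empty]
      positivity
    · rw [sum_range_succ']
      have h := ih n
      have e : ∑ i ∈ range n, max (((m + 1 : ℕ) : ℝ) - ((i + 1 : ℕ) : ℝ)) 0 =
          ∑ i ∈ range n, max ((m : ℝ) - i) 0 := sum_congr rfl fun i _ => by
        push_cast
        rw [add_sub_add_right_eq_sub]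
      rw [e, max_eq_left (by simp; positivity)]
      push_cast
      nlinarith

variable [Fact (Nat.Prime 5)]

theorem num (hPl : StPl) {n R : ℕ} (hn : n ≤ R) (c a D : ℤ) (hc : ((5 : ℕ) : ℤ) ∣ c)
    (hD : ¬ ((5 : ℕ) : ℤ) ∣ D) (f : ℕ → ℚ) (hf : ∀ j, f j = c * (a + D * j)) :
    Vb 5 (-(5 * (n : ℝ) / 4) + Nat.log 5 R + 1) (∏ j ∈ range n, f j) := by
  rw [prod_congr rfl fun j _ => hf j, prod_mul_distrib, prod_const, card_range]
  refine (((vb_dvd hc).pow n).mul (hPl 5 n a D hD)).mono ?_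
  have h : (Nat.log 5 n : ℝ) ≤ Nat.log 5 R := by exact_mod_cast Nat.log_mono_right hn
  push_cast
  linarith

theorem den (hPu : StPu) {v : ℕ} (k : ℤ) (hk : 10 * k ∈ XA v) :
    Vb 5 (5 * (20 * (v : ℝ) + 1) / 4 + Nat.log 5 (500 * v)) (om (XA v) (10 * k))⁻¹ := by
  rw [mem_XA] at hk
  rw [om, ← filter_ne', prod_filter, XA, prod_AP, ← prod_filter]
  generalize hI : (range (2 * (10 * v) + 1)).filter
    (fun j : ℕ => -(10 * ((10 * v : ℕ) : ℤ)) - 0 + 10 * (j : ℤ) ≠ 10 * k) = I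
  have hs : I ⊆ range (2 * (10 * v) + 1) := hI ▸ filter_subset _ _
  have e : ∀ j ∈ I, (((10 * k : ℤ) : ℚ) -
      ((-(10 * ((10 * v : ℕ) : ℤ)) - 0 + 10 * (j : ℕ) : ℤ) : ℚ)) =
      ((10 : ℤ) : ℚ) * (((k + 10 * v : ℤ) : ℚ) + ((-1 : ℤ) : ℚ) * j) := fun j _ => by
    push_cast
    ring
  rw [prod_congr rfl e, prod_mul_distrib, prod_const, mul_inv, ← inv_pow]
  have h1 : Vb 5 ((1 : ℕ) : ℝ) ((10 : ℤ) : ℚ)⁻¹ := vb_inv_pow (by decide)
  refine ((h1.pow #I).mul (hPu 5 _ (500 * v) (k + 10 * v) (-1) I (by decide) hs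
    fun i hi => ?_)).mono ?_
  · have := mem_range.1 (hs hi)
    rw [abs_le]
    push_cast
    omega
  · have h2 : (#I : ℝ) ≤ ((2 * (10 * v) + 1 : ℕ) : ℝ) := by
      exact_mod_cast (card_le_card hs).trans (card_range _).le
    push_cast at h2 ⊢
    linarith

theorem partA (hPl : StPl) (hPu : StPu) (hLamL : StLamL) {v : ℕ} (hv : 1 ≤ v) (y : Fin 4 → ℕ)
    {a b : ℕ} (ha : a < 18 * v) (hb : b < 18 * v) {x : ℤ} (hx : x ∈ XA v) :
    Vb 5 (10 * v - 5 * (a : ℝ) / 4 - 5 * (b : ℝ) / 4 + 5 * (Nat.log 5 (500 * v) + 1))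
      (lam x * cf v x * (zt y * PP a * PP b).eval (x : ℚ)) := by
  obtain ⟨k, rfl⟩ : ∃ k, x = 10 * k := ⟨x / 10, by rw [mem_XA] at hx; omega⟩
  have hP : ∀ i < 18 * v, Vb 5 (-(5 * (i : ℝ) / 4) + Nat.log 5 (500 * v) + 1)
      ((PP i).eval ((10 * k : ℤ) : ℚ)) := fun i hi => by
    rw [PP_eval]
    exact num hPl (by omega) 10 k (-1) (by decide) (by decide) _ fun j => by
      push_cast
      ring
  have hZ : Vb 5 (-(5 * ((2 * (6 * v) + 1 : ℕ) : ℝ) / 4) + Nat.log 5 (500 * v) + 1)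
      (Zf v (10 * k)) := by
    have h0 : ∀ S : Finset ℤ, Vb 5 0 (∏ t ∈ S, (((10 * k : ℤ) : ℚ) - t)) := fun S =>
      Vb.prod0 fun t _ => (vb_int _).sub (vb_int _)
    rw [Zf, ZZ, prod_union (disj_359 _ _ _), prod_union (disj_35 _ _),
      mul_comm (_ * _ : ℚ)]
    refine (h0 _).mul0 ((h0 _).mul0 ?_)
    rw [prod_AP]
    exact num hPl (by omega) 5 (2 * k + 12 * v + 1) (-2) (by decide) (by decide) _ fun j => by
      push_cast
      ring
  have hB : Vb 5 0 (∏ w ∈ XB v, (((10 * k : ℤ) : ℚ) - w))⁻¹ := by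
    rw [← prod_inv_distrib]
    refine Vb.prod0 fun w hw => ?_
    rw [← Int.cast_sub]
    rw [mem_XB] at hw
    exact vb_inv_unit (by push_cast; omega)
  rw [cf, XX, om_union (disj_AB v) hx, div_eq_mul_inv (Zf _ _), mul_inv, eval_mul, eval_mul]
  refine (((hLamL v 5 _ hv (mem_XX.2 (Or.inl hx))).mul (hZ.mul ((den hPu k hx).mul hB))).mul
    (((vb_zt y _).mul (hP a ha)).mul (hP b hb))).mono ?_
  push_cast
  linarith

theorem partB (hAna : StAna) (v : ℕ) (y : Fin 4 → ℕ) (a b : ℕ) :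
    Vb 5 (1 + Nat.log 5 (500 * v))
      (∑ x ∈ XB v, lam x * cf v x * (zt y * PP a * PP b).eval (x : ℚ)) := by
  have h := hAna 5 (23 * v) 1 ((ZZ v).val.map id + (univ.val.map (fun k => (y k : ℤ)) +
    (range a).val.map (fun j : ℕ => (10 * j : ℤ)) + (range b).val.map (fun j : ℕ => (10 * j : ℤ))))
    (XA v) (by decide) (by decide) (by decide) (by decide) fun w hw => by
      rw [mem_XA] at hw
      push_cast
      omega
  have h2 : (Nat.log 5 (2 * (23 * v)) : ℝ) ≤ Nat.log 5 (500 * v) := by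
    exact_mod_cast Nat.log_mono_right (by omega)
  refine Vb.mono ?_ (add_le_add_right h2 1)
  convert h using 1
  refine sum_congr rfl fun x hx => ?_
  simp only [Multiset.map_add, Multiset.prod_add, ms_prod]
  rw [cf, XX, union_comm, om_union (disj_AB v).symm hx, eval_mul, eval_mul, eval_zt, PP_eval,
    PP_eval, Zf, XB]
  simp only [id, Int.cast_natCast]
  ring

end FiveJ

theorem stFive (hPl : StPl) (hPu : StPu) (hChg : StChg) (hLamL : StLamL) (hAna : StAna) :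
    StFive := by
  intro v y hv
  have : Fact (Nat.Prime 5) := ⟨Nat.prime_five⟩
  rw [← (hChg v y fun i => FiveJ.PP i).2 fun i => FiveJ.PP_monic i]
  obtain ⟨L, hL⟩ : ∃ L : ℝ, L = Nat.log 5 (500 * v) := ⟨_, rfl⟩
  have hL0 : 0 ≤ L := hL ▸ Nat.cast_nonneg _
  let s : ℕ → ℝ := fun i => 5 / 4 * max (((4 * v : ℕ) : ℝ) - i) 0 + 5 / 2 * (L + 1)
  refine (vb_det _ (fun i : Fin (18 * v) => s i) (fun i => s i) fun i j => ?_).mono ?_
  · have hi := le_max_left (((4 * v : ℕ) : ℝ) - (i : ℕ)) 0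
    have hj := le_max_left (((4 * v : ℕ) : ℝ) - (j : ℕ)) 0
    have hi' := le_max_right (((4 * v : ℕ) : ℝ) - (i : ℕ)) 0
    have hj' := le_max_right (((4 * v : ℕ) : ℝ) - (j : ℕ)) 0
    rw [KK, Matrix.of_apply, LL, XX, sum_union (disj_AB v)]
    refine (Vb.sum fun x hx => (FiveJ.partA hPl hPu hLamL hv y i.2 j.2 hx).mono ?_).add
      ((FiveJ.partB hAna v y i j).mono ?_)
    · simp only [s, ← hL]
      push_cast at hi hj ⊢
      linarith
    · simp only [s, ← hL]
      linarith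
  · rw [Fin.sum_univ_eq_sum_range s]
    simp only [s, sum_add_distrib, ← mul_sum, sum_const, card_range, nsmul_eq_mul, ← hL]
    have h := FiveJ.tri (4 * v) (18 * v)
    have hv0 : (0 : ℝ) ≤ v := Nat.cast_nonneg v
    push_cast at h ⊢
    nlinarith [mul_nonneg hv0 hL0]

end Pool.Agent.MP_760060_nt.W

end

section

/-! The bound at the small primes. -/

open Finset Polynomial Filter Topology

namespace Pool.Agent.MP_760060_nt.W

namespace SmallJ

variable {p : ℕ} [hp : Fact p.Prime]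

omit hp in
theorem log_le {n R : ℕ} (h : n ≤ R) : (Nat.log p n : ℝ) ≤ Nat.log p R := by
  exact_mod_cast Nat.log_mono_right h

theorem ap_low (hPl : StPl) (h10 : ¬ (p : ℤ) ∣ -10) (c x : ℤ) {h R : ℕ} (hR : 2 * h + 1 ≤ R) :
    Vb p (-((2 * h + 1 : ℝ) / (p - 1)) + Nat.log p R + 1) (∏ t ∈ AP c h, ((x : ℚ) - t)) := by
  rw [prod_AP]
  have h1 := hPl p (2 * h + 1) (x + 10 * h + c) (-10) h10
  have e : ∏ j ∈ range (2 * h + 1), ((x : ℚ) - ((-(10 * (h : ℤ)) - c + 10 * j : ℤ) : ℚ)) =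
      ∏ i ∈ range (2 * h + 1), (((x + 10 * h + c : ℤ) : ℚ) + ((-10 : ℤ) : ℚ) * i) :=
    prod_congr rfl fun j _ => by push_cast; ring
  rw [e]
  refine h1.mono ?_
  have := log_le (p := p) hR
  push_cast at this ⊢
  linarith

theorem ap_up (hPu : StPu) (h10 : ¬ (p : ℤ) ∣ -10) (c x : ℤ) {h R : ℕ}
    (hR : ∀ y ∈ AP c h, |x - y| ≤ R) :
    Vb p ((2 * h + 1 : ℝ) / (p - 1) + Nat.log p R) (∏ t ∈ (AP c h).erase x, ((x : ℚ) - t))⁻¹ := by
  have e0 : (AP c h).erase x = ((range (2 * h + 1)).filter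
      fun j : ℕ => -(10 * (h : ℤ)) - c + 10 * j ≠ x).image
        fun j : ℕ => -(10 * (h : ℤ)) - c + 10 * j := by
    rw [AP_eq_range]
    ext t
    simp only [mem_erase, mem_image, mem_filter]
    constructor
    · rintro ⟨h1, j, h2, rfl⟩
      exact ⟨j, ⟨h2, h1⟩, rfl⟩
    · rintro ⟨j, ⟨h2, h1⟩, rfl⟩
      exact ⟨h1, j, h2, rfl⟩
  rw [e0, prod_image fun a _ b _ hab => by omega]
  have h1 := hPu p (2 * h + 1) R (x + 10 * h + c) (-10) ((range (2 * h + 1)).filter
      fun j : ℕ => -(10 * (h : ℤ)) - c + 10 * j ≠ x) h10 (filter_subset _ _) fun i hi => by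
    have h2 := hR (-(10 * (h : ℤ)) - c + 10 * i) (by
      rw [AP_eq_range]
      exact mem_image_of_mem _ (mem_filter.1 hi).1)
    rwa [show x - (-(10 * (h : ℤ)) - c + 10 * i) = x + 10 * h + c + -10 * i by ring] at h2
  have e : ∀ I : Finset ℕ, ∏ j ∈ I, ((x : ℚ) - ((-(10 * (h : ℤ)) - c + 10 * j : ℤ) : ℚ)) =
      ∏ i ∈ I, (((x + 10 * h + c : ℤ) : ℚ) + ((-10 : ℤ) : ℚ) * i) := fun I =>
    prod_congr rfl fun j _ => by push_cast; ring
  rw [e]
  refine h1.mono (le_of_eq ?_)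
  push_cast
  ring

theorem cf_le (hPl : StPl) (hPu : StPu) (h10 : ¬ (p : ℤ) ∣ -10) {v : ℕ} (hv : 1 ≤ v) {x : ℤ}
    (hx : x ∈ XX v) :
    Vb p ((40 * v - 1 : ℝ) / (p - 1) + 5 * Nat.log p (500 * v) + 3) (cf v x) := by
  rw [mem_XX, mem_XA, mem_XB] at hx
  have a1 := ap_low hPl h10 3 x (h := 2 * v) (R := 500 * v) (by omega)
  have a2 := ap_low hPl h10 5 x (h := 6 * v) (R := 500 * v) (by omega)
  have a3 := ap_low hPl h10 9 x (h := 5 * v) (R := 500 * v) (by omega)
  have b1 := ap_up hPu h10 0 x (h := 10 * v) (R := 500 * v) fun y hy => by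
    rw [mem_AP] at hy
    rw [abs_le]
    omega
  have b2 := ap_up hPu h10 1 x (h := 23 * v) (R := 500 * v) fun y hy => by
    rw [mem_AP] at hy
    rw [abs_le]
    omega
  have e : cf v x = (∏ t ∈ AP 3 (2 * v), ((x : ℚ) - t)) * (∏ t ∈ AP 5 (6 * v), ((x : ℚ) - t)) *
      (∏ t ∈ AP 9 (5 * v), ((x : ℚ) - t)) * ((∏ t ∈ (AP 0 (10 * v)).erase x, ((x : ℚ) - t))⁻¹ *
        (∏ t ∈ (AP 1 (23 * v)).erase x, ((x : ℚ) - t))⁻¹) := by
    rw [cf, Zf, ZZ, prod_union (disj_359 _ _ _), prod_union (disj_35 _ _), om, XX,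
      erase_union_distrib,
      prod_union ((disj_AB v).mono (erase_subset _ _) (erase_subset _ _)), div_eq_mul_inv, mul_inv,
      XA, XB]
  rw [e]
  refine (((a1.mul a2).mul a3).mul (b1.mul b2)).mono (le_of_eq ?_)
  push_cast
  ring

/-- the Newton basis -/
noncomputable def PB (i : ℕ) : ℚ[X] := ∏ j ∈ range i, (X - C (10 * (j : ℚ)))

theorem PB_monic (i : ℕ) : (PB i).Monic ∧ (PB i).natDegree = i := by
  refine ⟨monic_prod_of_monic _ _ fun j _ => monic_X_sub_C _, ?_⟩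
  rw [PB, natDegree_prod_of_monic _ _ fun k _ => monic_X_sub_C _]
  simp only [natDegree_X_sub_C]
  simp

theorem PB_le (hPl : StPl) (h10 : ¬ (p : ℤ) ∣ -10) (x : ℤ) {i R : ℕ} (hi : i ≤ R) :
    Vb p (-((i : ℝ) / (p - 1)) + Nat.log p R + 1) ((PB i).eval (x : ℚ)) := by
  have e : (PB i).eval (x : ℚ) = ∏ j ∈ range i, ((x : ℚ) + ((-10 : ℤ) : ℚ) * j) := by
    rw [PB, eval_prod]
    refine prod_congr rfl fun j _ => ?_
    rw [eval_sub, eval_X, eval_C]
    push_cast
    ring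
  rw [e]
  refine (hPl p i x (-10) h10).mono ?_
  have := log_le (p := p) hi
  linarith

theorem sum_fin (n : ℕ) (a b c : ℝ) :
    ∑ i : Fin n, ((a - (i : ℕ)) / b + c) = (n * a - n * (n - 1) / 2) / b + n * c := by
  rw [Fin.sum_univ_eq_sum_range (fun i : ℕ => (a - i) / b + c)]
  induction n with
  | zero => simp
  | succ n ih =>
    rw [sum_range_succ, ih]
    push_cast
    ring

end SmallJ

open SmallJ in
theorem stSmall (hPl : StPl) (hPu : StPu) (hChg : StChg) (hLamL : StLamL) : StSmall := by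
  intro v p hp y hv hc
  have h10 : ¬ (p : ℤ) ∣ -10 := fun h => hc.not_dvd hp.out ((dvd_neg).1 h)
  rw [← (hChg v y fun i => PB i).2 fun i => PB_monic i]
  have hd := vb_det (p := p) (KK v y fun i : Fin (18 * v) => PB i)
    (fun i => (20 * v - (i : ℕ) : ℝ) / (p - 1) + 4 * (Nat.log p (500 * v) + 1))
    (fun i => (20 * v - (i : ℕ) : ℝ) / (p - 1) + 4 * (Nat.log p (500 * v) + 1)) fun i j => by
      rw [KK, Matrix.of_apply, LL]
      refine Vb.sum fun x hx => ?_
      rw [eval_mul, eval_mul]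
      have h1 := ((hLamL v p x hv hx).mul (cf_le hPl hPu h10 hv hx)).mul
        (((vb_zt y x).mul (PB_le hPl h10 x (i := i) (R := 500 * v) (by omega))).mul
          (PB_le hPl h10 x (i := j) (R := 500 * v) (by omega)))
      refine h1.mono ?_
      have h2 : (2 : ℝ) ≤ p := by exact_mod_cast hp.out.two_le
      have h3 : (0 : ℝ) ≤ 1 / (p - 1) := div_nonneg zero_le_one (by linarith)
      have e1 : (40 * v - 1 : ℝ) / (p - 1) = 40 * (v / (p - 1)) - 1 / (p - 1) := by ring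
      have e2 : ∀ t : ℝ, (20 * v - t) / (p - 1) = 20 * (v / (p - 1)) - t / (p - 1) :=
        fun t => by ring
      rw [e1, e2, e2]
      linarith
  refine hd.mono ?_
  rw [sum_fin]
  have h2 : (2 : ℝ) ≤ p := by exact_mod_cast hp.out.two_le
  have h4 : (0 : ℝ) ≤ v := Nat.cast_nonneg _
  have h5 : (v : ℝ) / (p - 1) ≤ v := div_le_self h4 (by linarith)
  have h6 : (0 : ℝ) ≤ v * Nat.log p (500 * v) := by positivity
  have e : (((18 * v : ℕ) : ℝ) * (20 * v) - ((18 * v : ℕ) : ℝ) * (((18 * v : ℕ) : ℝ) - 1) / 2) /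
      (p - 1) = 198 * ((v : ℝ) ^ 2 / (p - 1)) + 9 * (v / (p - 1)) := by
    push_cast
    ring
  rw [e, mul_div_assoc]
  push_cast
  nlinarith

end Pool.Agent.MP_760060_nt.W

end

section

open Finset Polynomial Filter Topology

namespace Pool.Agent.MP_760060_nt.W

namespace SumJ

theorem lg_neg (a b : ℝ) : lg (-a) b = lg a b := by simp [lg]

theorem lg_mono {a a' : ℝ} (b : ℝ) (h1 : 1 ≤ a) (h : a ≤ a') : lg a b ≤ lg a' b := by
  unfold lg
  have := Real.log_le_log (x := a ^ 2 + b ^ 2) (y := a' ^ 2 + b ^ 2) (by positivity)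
    (by nlinarith)
  linarith

theorem lg_nonneg {a : ℝ} (b : ℝ) (h1 : 1 ≤ a) : 0 ≤ lg a b := by
  unfold lg
  have := Real.log_nonneg (x := a ^ 2 + b ^ 2) (by nlinarith [sq_nonneg b])
  linarith

theorem lg_abs {R a b : ℝ} (hR : 2 ≤ R) (ha : |a| ≤ R) (hb : |b| ≤ R)
    (h : 1 / 4 ≤ a ^ 2 + b ^ 2) : |lg a b| ≤ 2 * Real.log R := by
  have a2 : a ^ 2 ≤ R ^ 2 := by rw [← sq_abs a]; exact pow_le_pow_left₀ (abs_nonneg _) ha 2
  have b2 : b ^ 2 ≤ R ^ 2 := by rw [← sq_abs b]; exact pow_le_pow_left₀ (abs_nonneg _) hb 2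
  have hR2 : 4 ≤ R ^ 2 := by nlinarith
  have h1 := Real.log_le_log (x := a ^ 2 + b ^ 2) (y := R ^ 4) (by linarith) (by nlinarith)
  have h2 := Real.log_le_log (x := (R ^ 2)⁻¹) (y := a ^ 2 + b ^ 2) (by positivity)
    (le_trans (by rw [one_div]; exact inv_anti₀ (by norm_num) hR2) h)
  rw [Real.log_pow] at h1
  rw [Real.log_inv, Real.log_pow] at h2
  have h3 := Real.log_nonneg (x := R) (by linarith)
  push_cast at h1 h2
  unfold lg
  rw [abs_le]; constructor <;> linarith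

/-- the monotone potential -/
noncomputable def Ph (M b x : ℝ) : ℝ :=
  lg (max x 1) b - lg (max (-x) 1) b + M * max (-201) (min x 201)

theorem cl_mono {x y : ℝ} (h : x ≤ y) : max (-201 : ℝ) (min x 201) ≤ max (-201) (min y 201) :=
  max_le_max le_rfl (min_le_min h le_rfl)

theorem ph_mono {M : ℝ} (hM : 0 ≤ M) (b : ℝ) {x y : ℝ} (h : x ≤ y) : Ph M b x ≤ Ph M b y := by
  unfold Ph
  have h1 := lg_mono b (le_max_right x 1) (max_le_max h le_rfl)
  have h2 := lg_mono b (le_max_right (-y) 1) (max_le_max (neg_le_neg h) le_rfl)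
  have h3 := mul_le_mul_of_nonneg_left (cl_mono h) hM
  linarith

theorem ph_abs {M R b x : ℝ} (hM : 0 ≤ M) (hR : 2 ≤ R) (hx : |x| ≤ R) (hb : |b| ≤ R) :
    |Ph M b x| ≤ 2 * Real.log R + 201 * M := by
  have key : ∀ y : ℝ, |y| ≤ R → 0 ≤ lg (max y 1) b ∧ lg (max y 1) b ≤ 2 * Real.log R := by
    intro y hy
    have h1 : 1 ≤ max y 1 := le_max_right _ _
    refine ⟨lg_nonneg b h1, (le_abs_self _).trans (lg_abs hR ?_ hb ?_)⟩
    · rw [abs_of_nonneg (by linarith)]
      exact max_le ((le_abs_self _).trans hy) (by linarith)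
    · nlinarith [sq_nonneg b]
  obtain ⟨a1, a2⟩ := key x hx
  obtain ⟨a3, a4⟩ := key (-x) (by rwa [abs_neg])
  have c1 : (-201 : ℝ) ≤ max (-201) (min x 201) := le_max_left _ _
  have c2 : max (-201 : ℝ) (min x 201) ≤ 201 := max_le (by norm_num) (min_le_right _ _)
  have c3 := mul_le_mul_of_nonneg_left c1 hM
  have c4 := mul_le_mul_of_nonneg_left c2 hM
  unfold Ph
  rw [abs_le]; constructor <;> linarith

theorem good (hFaB : StFaB) {b x D : ℝ} (hD : 1 ≤ D) (hx : 1 ≤ x) :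
    lg x b ≤ (Fa (x + D) b - Fa x b) / D ∧ (Fa (x + D) b - Fa x b) / D ≤ lg (x + D) b := by
  obtain ⟨h1, h2⟩ := hFaB b x (x + D) (by linarith) (by linarith)
  have h3 := h2 (by positivity)
  rw [add_sub_cancel_left] at h1 h3
  have hD' : 0 < D := by linarith
  rw [le_div_iff₀ hD', div_le_iff₀ hD']
  constructor <;> linarith

theorem step (hFaA : StFaA) (hFaB : StFaB) {L R b x D : ℝ} (hR : 2 ≤ R) (hD : 1 ≤ D)
    (hD2 : D ≤ 200) (hx : |x| ≤ R) (hb : |b| ≤ R) (h : 1 / 4 ≤ x ^ 2 + b ^ 2)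
    (hL : |(Fa (x + D) b - Fa x b) / D| ≤ L) :
    |lg x b - (Fa (x + D) b - Fa x b) / D| ≤
      Ph (2 * Real.log R + L) b (x + D) - Ph (2 * Real.log R + L) b x := by
  have hl := Real.log_nonneg (x := R) (by linarith)
  have hM : 0 ≤ 2 * Real.log R + L := by have := (abs_nonneg _).trans hL; linarith
  have c := mul_le_mul_of_nonneg_left (cl_mono (x := x) (y := x + D) (by linarith)) hM
  by_cases h1 : 1 ≤ x
  · obtain ⟨g1, g2⟩ := good hFaB (b := b) hD h1
    unfold Ph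
    rw [max_eq_left h1, max_eq_left (by linarith : 1 ≤ x + D),
      max_eq_right (by linarith : -x ≤ 1), max_eq_right (by linarith : -(x + D) ≤ 1), abs_le]
    constructor <;> linarith
  by_cases h2 : 1 ≤ -(x + D)
  · obtain ⟨g1, g2⟩ := good hFaB (b := b) hD h2
    have e : -(x + D) + D = -x := by ring
    rw [e, hFaA.1, hFaA.1] at g1 g2
    have e2 : -Fa x b - -Fa (x + D) b = Fa (x + D) b - Fa x b := by ring
    rw [e2] at g1 g2
    unfold Ph
    rw [max_eq_left h2, max_eq_left (by linarith : 1 ≤ -x),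
      max_eq_right (by linarith : x ≤ 1), max_eq_right (by linarith : x + D ≤ 1), abs_le]
    have e3 := lg_neg x b
    constructor <;> linarith
  push Not at h1 h2
  have a1 := lg_abs hR hx hb h
  have a2 := (abs_sub _ _).trans (add_le_add a1 hL)
  have a3 := lg_mono b (le_max_right x 1) (max_le_max (by linarith : x ≤ x + D) le_rfl)
  have a4 := lg_mono b (le_max_right (-(x + D)) 1)
    (max_le_max (by linarith : -(x + D) ≤ -x) le_rfl)
  unfold Ph
  rw [min_eq_left (by linarith : x ≤ 201), min_eq_left (by linarith : x + D ≤ 201),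
    max_eq_right (by linarith : -201 ≤ x), max_eq_right (by linarith : -201 ≤ x + D)]
  have a5 := mul_le_mul_of_nonneg_left hD hM
  nlinarith

end SumJ

open SumJ in
theorem stSum (hFaA : StFaA) (hFaB : StFaB) (hLip : StLip) : StSum := by
  obtain ⟨K, hK, hL⟩ := hLip
  refine ⟨4 + 402 * (2 + K) + 3 * K, by positivity, ?_⟩
  intro R D s b e₁ e₂ b' n j₀ hR hD hD2 hs hsn hb he1 he2 hb' d1 d2 d3 hsep
  have hl := Real.log_nonneg (x := R) (by linarith)
  have hD' : 0 < D := by linarith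
  have hdiv : ∀ y L : ℝ, |y| ≤ L → |y / D| ≤ L := fun y L h => by
    rw [abs_div, abs_of_pos hD']
    exact (div_le_self (abs_nonneg _) hD).trans h
  have hin : ∀ j : ℕ, j ≤ n → |s + j * D| ≤ R := fun j hj => by
    have h1 : (j : ℝ) ≤ n := by exact_mod_cast hj
    have h2 := mul_le_mul_of_nonneg_right h1 hD'.le
    have h3 : 0 ≤ (j : ℝ) * D := by positivity
    rw [abs_le] at hs hsn ⊢
    constructor <;> linarith [hs.1, hsn.2]
  set G : ℕ → ℝ := fun j => (Fa (s + j * D + D) b - Fa (s + j * D) b) / D with hG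
  have e1 : ∀ j : ℕ, s + ((j + 1 : ℕ) : ℝ) * D = s + j * D + D := fun j => by push_cast; ring
  have hGb : ∀ j < n, |G j| ≤ K * Real.log R := fun j hj => by
    refine hdiv _ _ (hL R _ _ b b hR ?_ (hin j hj.le) hb hb ?_ (by simp))
    · rw [← e1]; exact hin _ hj
    · rw [add_sub_cancel_left, abs_of_pos hD']; exact hD2
  have hGs : ∑ j ∈ range n, G j = (Fa (s + n * D) b - Fa s b) / D := by
    have := sum_range_sub (fun j : ℕ => Fa (s + j * D) b) n
    simp only [e1] at this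
    simp only [hG]
    rw [← sum_div, this]; simp
  set M := 2 * Real.log R + K * Real.log R with hM
  have hM0 : 0 ≤ M := by positivity
  have h1 : |∑ j ∈ (range n).erase j₀, (lg (s + j * D) b - G j)| ≤
      Ph M b (s + n * D) - Ph M b s := by
    refine (abs_sum_le_sum_abs _ _).trans ?_
    have := sum_range_sub (fun j : ℕ => Ph M b (s + j * D)) n
    simp only [e1, Nat.cast_zero, zero_mul, add_zero] at this
    rw [← this]
    refine le_trans (sum_le_sum fun j hj => ?_)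
      (sum_le_sum_of_subset_of_nonneg (erase_subset j₀ _) fun j _ _ => ?_)
    · obtain ⟨a, c⟩ := mem_erase.1 hj
      rw [mem_range] at c
      exact step hFaA hFaB hR hD hD2 (hin j c.le) hb (hsep j c a) (hGb j c)
    · exact sub_nonneg.2 (ph_mono hM0 b (by linarith))
  have h2 : |∑ j ∈ (range n).erase j₀, G j - ∑ j ∈ range n, G j| ≤ K * Real.log R := by
    by_cases hj : j₀ ∈ range n
    · rw [← add_sum_erase _ _ hj, sub_add_cancel_right, abs_neg]
      exact hGb _ (mem_range.1 hj)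
    · rw [erase_eq_of_notMem hj, sub_self, abs_zero]; positivity
  have h3 := hdiv _ _ (hL R _ _ b b' hR hs he1 hb hb' d1 d3)
  have h4 := hdiv _ _ (hL R _ _ b b' hR hsn he2 hb hb' d2 d3)
  have h5 := ph_abs hM0 hR hs hb
  have h6 := ph_abs hM0 hR hsn hb
  rw [sum_sub_distrib] at h1
  rw [hGs] at h2
  rw [sub_div] at h2 h3 h4 ⊢
  rw [abs_le] at h1 h2 h3 h4 h5 h6 ⊢
  constructor <;> nlinarith [h1.1, h1.2, h2.1, h2.2, h3.1, h3.2, h4.1, h4.2, h5.1, h5.2, h6.1,
    h6.2]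

end Pool.Agent.MP_760060_nt.W

end

section

open Finset Polynomial Filter Topology

namespace Pool.Agent.MP_760060_nt.W

namespace TailJ

theorem lg0 (a : ℝ) : lg a 0 = Real.log a := by
  rw [lg, zero_pow two_ne_zero, add_zero, Real.log_pow]
  push_cast
  ring

theorem lg1 (a : ℝ) : lg 0 a = Real.log a := by
  rw [lg, zero_pow two_ne_zero, zero_add, Real.log_pow]
  push_cast
  ring

theorem fa0 (b : ℝ) : Fa 0 b = 0 := by simp [Fa]

theorem q_lo (hB : StFaB) {β ξ : ℝ} (hβ : 0 ≤ β) (hξ : 14000 ≤ ξ) :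
    2 * β * Real.log ξ ≤ Er 0 ξ β := by
  have h := (hB ξ 0 β le_rfl hβ).2 (by positivity)
  rw [fa0, lg1] at h
  rw [Er, sub_zero, add_zero]
  linarith

theorem q_hi (hB : StFaB) {β ξ : ℝ} (hβ : 0 ≤ β) (h1 : β ≤ 1000) (hξ : 14000 ≤ ξ) :
    Er 0 ξ β ≤ 2 * β * Real.log ξ + β / 196 := by
  have h := (hB ξ 0 β le_rfl hβ).1
  have h2 : lg β ξ ≤ Real.log ξ + 1 / 392 := by
    have a1 : β ^ 2 + ξ ^ 2 ≤ ξ ^ 2 * (1 + 1 / 196) := by nlinarith
    have a2 := Real.log_le_log (by positivity) a1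
    have a3 := Real.log_le_sub_one_of_pos (show (0 : ℝ) < 1 + 1 / 196 by norm_num)
    rw [Real.log_mul (by positivity) (by norm_num), Real.log_pow] at a2
    rw [lg]
    push_cast at a2
    linarith
  rw [fa0] at h
  rw [Er, sub_zero, add_zero]
  nlinarith [mul_le_mul_of_nonneg_left h2 hβ]

theorem p_lo (hA : StFaA) (hB : StFaB) {ξ : ℝ} (hξ : 14000 ≤ ξ) :
    800 * Real.log ξ - 24 ≤ Er ξ 0 400 := by
  have h0 : 0 < ξ - 400 := by linarith
  have h := (hB 0 (ξ - 400) (400 + ξ) h0.le (by linarith)).2 (by positivity)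
  have h2 := Real.log_le_sub_one_of_pos (show 0 < ξ / (ξ - 400) by positivity)
  have h3 : ξ / (ξ - 400) ≤ 1 + 3 / 100 := by
    rw [div_le_iff₀ h0]
    linarith
  rw [Real.log_div (by positivity) h0.ne'] at h2
  rw [lg0] at h
  rw [Er, ← neg_sub ξ 400, hA.1]
  linarith

theorem up {x : ℝ} (h0 : 0 ≤ x) (h1 : x ≤ 39 / 100) :
    Real.log (1 + x) - Real.log (1 - x) + x * (Real.log (1 + x) + Real.log (1 - x)) ≤
      2 * x + x / 50 := by
  have a1 := Real.log_div_le_sum_range_add h0 (by linarith) 2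
  have a0 : 0 < 1 - x := by linarith
  have a2 : x ^ 2 ≤ 1521 / 10000 := by nlinarith
  have a3 := Real.log_le_sub_one_of_pos (show 0 < (1 + x) * (1 - x) by positivity)
  rw [Real.log_mul (by positivity) a0.ne'] at a3
  rw [Real.log_div (by positivity) a0.ne'] at a1
  simp only [sum_range_succ, sum_range_zero] at a1
  have a4 : x ^ (2 * 2 + 1) / (1 - x ^ 2) ≤ x ^ 3 / 5 := by
    rw [div_le_iff₀ (by linarith)]
    have := mul_le_mul_of_nonneg_left a2 (pow_nonneg h0 3)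
    nlinarith [pow_nonneg h0 3]
  have a5 := mul_le_mul_of_nonneg_left a3 h0
  have a6 := mul_le_mul_of_nonneg_left a2 h0
  norm_num at a1 a4
  nlinarith

theorem p_hi {β ξ : ℝ} (hβ : 0 ≤ β) (h1 : β ≤ 5440) (hξ : 14000 ≤ ξ) :
    Er ξ 0 β ≤ 2 * β * Real.log ξ + β / 50 := by
  have hξ0 : 0 < ξ := by linarith
  obtain ⟨x, rfl⟩ : ∃ x, β = ξ * x := ⟨β / ξ, by field_simp⟩
  have h0 : 0 ≤ x := nonneg_of_mul_nonneg_right hβ hξ0
  have h2 : x ≤ 39 / 100 := le_of_mul_le_mul_left (by linarith) hξ0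
  have e1 : Real.log (ξ * x - ξ) = Real.log ξ + Real.log (1 - x) := by
    rw [← Real.log_neg_eq_log, ← Real.log_mul hξ0.ne' (by linarith)]
    congr 1
    ring
  have e2 : Real.log (ξ * x + ξ) = Real.log ξ + Real.log (1 + x) := by
    rw [← Real.log_mul hξ0.ne' (by linarith)]
    congr 1
    ring
  have h3 := mul_le_mul_of_nonneg_left (up h0 h2) hξ0.le
  rw [Er, Fa, Fa, lg0, lg0, e1, e2]
  linarith

theorem l14 : 47 / 5 ≤ Real.log 14000 := by
  have h1 := Real.log_le_sub_one_of_pos (show (0 : ℝ) < 2 ^ 13 / 14000 by norm_num)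
  rw [Real.log_div (by norm_num) (by norm_num), Real.log_pow] at h1
  have h2 := Real.log_two_gt_d9
  push_cast at h1
  linarith

end TailJ

theorem stTail (hFaA : StFaA) (hFaB : StFaB) : StTail := by
  intro ξ hξ
  have a1 := TailJ.q_hi hFaB (β := 200) (by norm_num) (by norm_num) hξ
  have a2 := TailJ.q_hi hFaB (β := 600) (by norm_num) (by norm_num) hξ
  have a3 := TailJ.q_hi hFaB (β := 500) (by norm_num) (by norm_num) hξ
  have a4 := TailJ.q_hi hFaB (β := 1000) (by norm_num) (by norm_num) hξ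
  have a5 := TailJ.q_lo hFaB (β := 2300) (by norm_num) hξ
  have a6 := TailJ.q_lo hFaB (β := 460) (by norm_num) hξ
  have a7 := TailJ.p_lo hFaA hFaB hξ
  have a8 := TailJ.p_hi (β := 1840) (by norm_num) (by norm_num) hξ
  have a9 := TailJ.p_hi (β := 5440) (by norm_num) (by norm_num) hξ
  have b := TailJ.l14
  rw [ph, ZX, UU, t0, Real.log_div (by linarith) (by norm_num)]
  linarith

end Pool.Agent.MP_760060_nt.W

end

section

/-! The size of the determinant at the prime two. -/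

open Finset Polynomial Filter Topology

namespace Pool.Agent.MP_760060_nt.W

namespace TwoJ

/-- the basis with zeros `10 j - 1` -/
noncomputable def P (i : ℕ) : ℚ[X] := ∏ j ∈ range i, (X - C ((10 * (j : ℤ) - 1 : ℤ) : ℚ))

theorem P_monic (i : ℕ) : (P i).Monic ∧ (P i).natDegree = i := by
  refine ⟨monic_prod_of_monic _ _ fun _ _ => monic_X_sub_C _, ?_⟩
  rw [P, natDegree_prod_of_monic _ _ fun _ _ => monic_X_sub_C _]
  simp only [natDegree_X_sub_C]
  simp

theorem P_eval (i : ℕ) (x : ℚ) :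
    (P i).eval x = ∏ j ∈ range i, (x - ((10 * (j : ℤ) - 1 : ℤ) : ℚ)) := by
  simp only [P, eval_prod, eval_sub, eval_X, eval_C]

theorem log_le {n v : ℕ} (h : n ≤ 500 * v) : (Nat.log 2 n : ℝ) ≤ Nat.log 2 (500 * v) := by
  exact_mod_cast Nat.log_mono_right h

theorem pl2 (hPl : StPl) {n v : ℕ} (hn : n ≤ 500 * v) (c a D : ℤ) (hc : (2 : ℤ) ∣ c)
    (hD : ¬ (2 : ℤ) ∣ D) {f : ℕ → ℚ} (hf : ∀ i : ℕ, f i = c * (a + D * i)) :
    Vb 2 (-2 * n + (Nat.log 2 (500 * v) + 1)) (∏ i ∈ range n, f i) := by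
  simp only [hf, prod_mul_distrib]
  refine ((Vb.prod (p := 2) (s := range n) (c := fun _ => -1) fun _ _ => vb_dvd hc).mul
    (hPl 2 n a D hD)).mono ?_
  have := log_le hn
  simp only [sum_const, card_range, nsmul_eq_mul]
  norm_num
  linarith

theorem P_vb (hPl : StPl) {i v : ℕ} (hi : i ≤ 500 * v) (k : ℤ) :
    Vb 2 (-2 * i + (Nat.log 2 (500 * v) + 1)) ((P i).eval ((10 * k - 1 : ℤ) : ℚ)) := by
  rw [P_eval]
  exact pl2 hPl hi 10 k (-1) (by decide) (by decide) fun j => by push_cast; ring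

theorem AP_vb (hPl : StPl) {h v : ℕ} (hh : 2 * h + 1 ≤ 500 * v) (k e : ℤ) :
    Vb 2 (-2 * (2 * h + 1) + (Nat.log 2 (500 * v) + 1))
      (∏ t ∈ AP (2 * e + 1) h, (((10 * k - 1 : ℤ) : ℚ) - t)) := by
  rw [prod_AP]
  exact_mod_cast pl2 hPl hh 2 (5 * k + 5 * h + e) (-5) (by decide) (by decide)
    (f := fun j => ((10 * k - 1 : ℤ) : ℚ) - ((-(10 * (h : ℤ)) - (2 * e + 1) + 10 * j : ℤ) : ℚ))
    fun j => by push_cast; ring

theorem Zf_vb (hPl : StPl) {v : ℕ} (hv : 1 ≤ v) (k : ℤ) :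
    Vb 2 (-52 * v - 6 + 3 * (Nat.log 2 (500 * v) + 1)) (Zf v (10 * k - 1)) := by
  rw [Zf, ZZ, prod_union (disj_359 _ _ _), prod_union (disj_35 _ _)]
  refine (((AP_vb hPl (h := 2 * v) (v := v) (by omega) k 1).mul
    (AP_vb hPl (h := 6 * v) (v := v) (by omega) k 2)).mul
    (AP_vb hPl (h := 5 * v) (v := v) (by omega) k 4)).mono (le_of_eq ?_)
  push_cast
  ring

theorem om_vb (hPu : StPu) {v : ℕ} {k : ℤ} (hk : 10 * k - 1 ∈ XB v) :
    Vb 2 (92 * v + 2 + Nat.log 2 (500 * v)) (om (XX v) (10 * k - 1))⁻¹ := by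
  have hA : 10 * k - 1 ∉ XA v := fun h => disjoint_left.1 (disj_AB v) h hk
  rw [om, XX, erase_union_distrib, erase_eq_of_notMem hA,
    prod_union ((disj_AB v).mono_right (erase_subset _ _)), mul_inv, ← prod_inv_distrib]
  refine Vb.mul0 (Vb.prod0 fun w hw => ?_) ?_
  · rw [← Int.cast_sub]
    refine vb_inv_unit ?_
    rw [mem_XA] at hw
    omega
  rw [← filter_ne', prod_filter, XB, prod_AP, ← prod_filter]
  set I := (range (2 * (23 * v) + 1)).filter
    fun j : ℕ => -(10 * ((23 * v : ℕ) : ℤ)) - 1 + 10 * j ≠ 10 * k - 1 with hI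
  have hsub : I ⊆ range (2 * (23 * v) + 1) := filter_subset _ _
  have e : ∏ j ∈ I, (((10 * k - 1 : ℤ) : ℚ) - ((-(10 * ((23 * v : ℕ) : ℤ)) - 1 + 10 * j : ℤ) : ℚ)) =
      (∏ _j ∈ I, ((10 : ℤ) : ℚ)) * ∏ j ∈ I, (((k + 23 * v : ℤ) : ℚ) + ((-1 : ℤ) : ℚ) * j) := by
    rw [← prod_mul_distrib]
    exact prod_congr rfl fun j _ => by push_cast; ring
  rw [e, mul_inv, ← prod_inv_distrib]
  refine ((Vb.prod (p := 2) (s := I) (c := fun _ => ((1 : ℕ) : ℝ)) fun _ _ =>
    vb_inv_pow (by decide)).mul (hPu 2 _ (500 * v) (k + 23 * v) (-1) I (by decide) hsub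
      fun j hj => ?_)).mono ?_
  · have h1 := mem_range.1 (hsub hj)
    rw [mem_XB] at hk
    rw [abs_le]
    omega
  · have h1 : (#I : ℝ) ≤ (2 * (23 * v) + 1 : ℕ) := by
      exact_mod_cast (card_le_card hsub).trans_eq (card_range _)
    simp only [sum_const, nsmul_eq_mul]
    push_cast at h1 ⊢
    norm_num
    linarith

theorem partB (hPl : StPl) (hPu : StPu) (hLamL : StLamL) {v : ℕ} (hv : 1 ≤ v) (y : Fin 4 → ℕ)
    {i j : ℕ} (hi : i ≤ 500 * v) (hj : j ≤ 500 * v) {x : ℤ} (hx : x ∈ XB v) :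
    Vb 2 (40 * v - 2 * i - 2 * j + 7 * (Nat.log 2 (500 * v) + 1))
      (lam x * cf v x * (zt y * P i * P j).eval (x : ℚ)) := by
  obtain ⟨k, rfl⟩ : ∃ k : ℤ, x = 10 * k - 1 := ⟨(x + 1) / 10, by rw [mem_XB] at hx; omega⟩
  rw [cf, div_eq_mul_inv, eval_mul, eval_mul]
  refine (((hLamL v 2 _ hv (mem_XX.2 (Or.inr hx))).mul ((Zf_vb hPl hv k).mul (om_vb hPu hx))).mul
    (((vb_zt y _).mul0 (P_vb hPl hi k)).mul (P_vb hPl hj k))).mono ?_
  linarith

theorem partA (hAna : StAna) (v : ℕ) (y : Fin 4 → ℕ) (i j : ℕ) :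
    Vb 2 (Nat.log 2 (500 * v) + 1)
      (∑ x ∈ XA v, lam x * cf v x * (zt y * P i * P j).eval (x : ℚ)) := by
  have h := hAna 2 (10 * v) 0 ((ZZ v).val + (univ : Finset (Fin 4)).val.map (fun k => (y k : ℤ)) +
    (range i).val.map (fun l : ℕ => 10 * (l : ℤ) - 1) +
    (range j).val.map (fun l : ℕ => 10 * (l : ℤ) - 1)) (XB v) (by decide) (by decide) (by decide)
    (by decide) fun w hw => by rw [mem_XB] at hw; omega
  have h1 := log_le (show 2 * (10 * v) ≤ 500 * v by omega)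
  refine Vb.mono ?_ (show 1 + (Nat.log 2 (2 * (10 * v)) : ℝ) ≤ _ by linarith)
  convert h using 1
  refine sum_congr rfl fun x hx => ?_
  have hB : x ∉ XB v := disjoint_left.1 (disj_AB v) hx
  have e : om (XX v) x = om (XA v) x * ∏ w ∈ XB v, ((x : ℚ) - w) := by
    rw [om, XX, erase_union_distrib, erase_eq_of_notMem hB,
      prod_union ((disj_AB v).mono_left (erase_subset _ _)), om]
  simp only [Multiset.map_add, Multiset.prod_add, Multiset.map_map, Function.comp_def,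
    ← prod_eq_multiset_prod]
  rw [cf, e, eval_mul, eval_mul, eval_zt, P_eval, P_eval, Zf, XA]
  simp only [Int.cast_natCast]
  ring

theorem sum_le (m n : ℕ) : ∑ i ∈ range n, 2 * (m - i) + (m - n) * (m - n + 1) = m * (m + 1) := by
  induction n with
  | zero => simp
  | succ n ih =>
    rw [sum_range_succ, ← ih, add_assoc]
    rcases le_or_gt m n with h | h
    · rw [Nat.sub_eq_zero_of_le h, Nat.sub_eq_zero_of_le (h.trans (Nat.le_succ n))]
    · obtain ⟨d, hd⟩ : ∃ d, m - n = d + 1 := ⟨m - n - 1, by omega⟩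
      rw [hd, show m - (n + 1) = d by omega]
      ring

end TwoJ

open TwoJ in
theorem stTwo (hPl : StPl) (hPu : StPu) (hChg : StChg) (hLamL : StLamL) (hAna : StAna) :
    StTwo := by
  intro v y hv
  rw [← (hChg v y fun i => P i).2 fun i => P_monic i]
  have hL : (0 : ℝ) ≤ Nat.log 2 (500 * v) := Nat.cast_nonneg _
  have key : ∀ i : ℕ, (0 : ℝ) ≤ (2 * (10 * v - i) : ℕ) ∧
      20 * (v : ℝ) - 2 * i ≤ (2 * (10 * v - i) : ℕ) := fun i => by
    refine ⟨Nat.cast_nonneg _, ?_⟩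
    have : 20 * v ≤ 2 * (10 * v - i) + 2 * i := by omega
    rw [sub_le_iff_le_add]
    exact_mod_cast this
  refine (vb_det (p := 2) _
    (fun i : Fin (18 * v) => ((2 * (10 * v - i) : ℕ) : ℝ) + 7 / 2 * (Nat.log 2 (500 * v) + 1))
    (fun i : Fin (18 * v) => ((2 * (10 * v - i) : ℕ) : ℝ) + 7 / 2 * (Nat.log 2 (500 * v) + 1))
    fun i j => ?_).mono ?_
  · have hi := key i
    have hj := key j
    rw [KK, Matrix.of_apply, LL, XX, sum_union (disj_AB v)]
    refine ((partA hAna v y i j).mono (by linarith)).add (Vb.sum fun x hx =>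
      (partB hPl hPu hLamL hv y (by omega) (by omega) hx).mono (by linarith))
  · have h1 : ∑ i ∈ range (18 * v), 2 * (10 * v - i) ≤ 10 * v * (10 * v + 1) :=
      (Nat.le_add_right _ _).trans_eq (sum_le _ _)
    have h2 : ∑ i : Fin (18 * v), ((2 * (10 * v - i) : ℕ) : ℝ) ≤ 10 * v * (10 * v + 1) := by
      rw [Fin.sum_univ_eq_sum_range (fun i => ((2 * (10 * v - i) : ℕ) : ℝ))]
      exact_mod_cast h1
    have h3 : (0 : ℝ) ≤ v * Nat.log 2 (500 * v) := by positivity
    have h4 : (0 : ℝ) ≤ v := Nat.cast_nonneg _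
    rw [sum_add_distrib, sum_const, card_univ, Fintype.card_fin, nsmul_eq_mul]
    push_cast at h2 ⊢
    nlinarith

end Pool.Agent.MP_760060_nt.W

end

section

/-! A lower bound for the product of the differences of the squares of the nodes. -/

open Finset Polynomial Filter Topology

namespace Pool.Agent.MP_760060_nt.W

namespace VYJ

/-- the potential at the node `k` -/
noncomputable def FF (u k : ℕ) : ℝ :=
  if k < 54 * u then UU ((yk u k : ℝ) / u) 0 else UU 0 ((yk u k : ℝ) / u)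

theorem gap {u k l : ℕ} (h : l ≠ k) (h1 : (k < 54 * u ∧ l < 54 * u) ∨ (54 * u ≤ k ∧ 54 * u ≤ l)) :
    (10 : ℝ) ≤ |(yk u k : ℝ) - yk u l| := by
  rcases lt_or_gt_of_ne h with h2 | h2
  · have a : (yk u l : ℝ) + 10 ≤ yk u k := by exact_mod_cast yk_lt h2 (by omega)
    exact le_abs.2 (Or.inl (by linarith))
  · have a : (yk u k : ℝ) + 10 ≤ yk u l := by exact_mod_cast yk_lt h2 (by omega)
    exact le_abs.2 (Or.inr (by linarith))

theorem sep {u k l : ℕ} (hu : 1 ≤ u) (h : l ≠ k) :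
    1 / 2 ≤ ‖nd u k - nd u l‖ ∧ 1 / 2 ≤ ‖nd u k + nd u l‖ := by
  have a1 : (400 : ℝ) ≤ yk u k := by exact_mod_cast yk_pos hu k
  have a2 : (400 : ℝ) ≤ yk u l := by exact_mod_cast yk_pos hu l
  have r1 := Complex.abs_re_le_norm (nd u k - nd u l)
  have r2 := Complex.abs_re_le_norm (nd u k + nd u l)
  have i1 := Complex.abs_im_le_norm (nd u k - nd u l)
  have i2 := Complex.abs_im_le_norm (nd u k + nd u l)
  by_cases hk : k < 54 * u <;> by_cases hl : l < 54 * u
  · have g := gap (u := u) h (Or.inl ⟨hk, hl⟩)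
    have e1 : (nd u k - nd u l).re = (yk u k : ℝ) - yk u l := by simp [nd, hk, hl]
    have e2 : (nd u k + nd u l).re = (yk u k : ℝ) + yk u l := by simp [nd, hk, hl]
    rw [e1] at r1
    rw [e2, abs_of_nonneg (by linarith)] at r2
    exact ⟨by linarith, by linarith⟩
  · have e1 : (nd u k - nd u l).re = (yk u k : ℝ) := by simp [nd, hk, hl]
    have e2 : (nd u k + nd u l).re = (yk u k : ℝ) := by simp [nd, hk, hl]
    rw [e1, abs_of_nonneg (by linarith)] at r1
    rw [e2, abs_of_nonneg (by linarith)] at r2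
    exact ⟨by linarith, by linarith⟩
  · have e1 : (nd u k - nd u l).im = (yk u k : ℝ) := by simp [nd, hk, hl]
    have e2 : (nd u k + nd u l).im = (yk u k : ℝ) := by simp [nd, hk, hl]
    rw [e1, abs_of_nonneg (by linarith)] at i1
    rw [e2, abs_of_nonneg (by linarith)] at i2
    exact ⟨by linarith, by linarith⟩
  · have g := gap (u := u) h (Or.inr ⟨by omega, by omega⟩)
    have e1 : (nd u k - nd u l).im = (yk u k : ℝ) - yk u l := by simp [nd, hk, hl]
    have e2 : (nd u k + nd u l).im = (yk u k : ℝ) + yk u l := by simp [nd, hk, hl]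
    rw [e1] at i1
    rw [e2, abs_of_nonneg (by linarith)] at i2
    exact ⟨by linarith, by linarith⟩

theorem nrm (u k : ℕ) : ‖∏ l ∈ (range (90 * u)).erase k, (nd u k ^ 2 - (wk u l : ℂ))‖ =
    ((∏ l ∈ (range (90 * u)).erase k, |wk u k - wk u l| : ℚ) : ℝ) := by
  rw [nd_sq, norm_prod, Rat.cast_prod]
  refine prod_congr rfl fun l _ => ?_
  rw [← Rat.cast_sub, Complex.norm_ratCast, Rat.cast_abs]

theorem one (hOm : StOm) : ∃ K : ℝ, 0 ≤ K ∧ ∀ u k : ℕ, 1 ≤ u → k < 90 * u →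
    u * FF u k + 180 * u * Real.log u - K * Real.log (6000 * u) ≤
      Real.log ((∏ l ∈ (range (90 * u)).erase k, |wk u k - wk u l| : ℚ) : ℝ) := by
  obtain ⟨K, hK, h⟩ := hOm
  refine ⟨K, hK, fun u k hu hk => ?_⟩
  have a0 : (0 : ℝ) ≤ yk u k := Nat.cast_nonneg _
  have a1 : (yk u k : ℝ) ≤ 5440 * u := by exact_mod_cast yk_le hk
  have a2 : (0 : ℝ) ≤ u := Nat.cast_nonneg _
  have hn : ‖nd u k‖ ≤ 6000 * (u : ℝ) := by
    have : ‖nd u k‖ = yk u k := by
      unfold nd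
      split_ifs <;> simp
    linarith
  rw [← nrm]
  by_cases h54 : k < 54 * u
  · have := h u k (nd u k) (yk u k) 0 (6000 * u) hu le_rfl hn (by simp [nd, h54])
      (by simp [nd, h54]) fun l _ hl => sep hu hl
    rw [zero_div] at this
    rw [FF, if_pos h54]
    linarith [(abs_le.1 this).1]
  · have := h u k (nd u k) 0 (yk u k) (6000 * u) hu le_rfl hn (by simp [nd, h54])
      (by simp [nd, h54]) fun l _ hl => sep hu hl
    rw [zero_div] at this
    rw [FF, if_neg h54]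
    linarith [(abs_le.1 this).1]

theorem tot (hCY : StCY) : ∃ C : ℝ, 0 ≤ C ∧ ∀ u : ℕ, 1 ≤ u →
    114626 * (u : ℝ) - C ≤ ∑ k ∈ range (90 * u), FF u k := by
  obtain ⟨⟨C1, h1⟩, ⟨C2, h2⟩, ⟨C3, h3⟩⟩ := hCY
  refine ⟨|C1 + C2 + C3|, abs_nonneg _, fun u hu => ?_⟩
  have hu' : (1 : ℝ) ≤ u := by exact_mod_cast hu
  have b1 := h1 u 10 (460 * u + 5) (range (54 * u)) hu' (by norm_num) fun j hj => by
    have a : (j : ℝ) + 1 ≤ 54 * u := by exact_mod_cast mem_range.1 hj
    have b : (0 : ℝ) ≤ j := Nat.cast_nonneg _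
    exact ⟨by linarith, by linarith⟩
  have b2 := h2 u 80 (400 * u) (range (18 * u)) hu' (by norm_num) fun j hj => by
    have a : (j : ℝ) + 1 ≤ 18 * u := by exact_mod_cast mem_range.1 hj
    have b : (0 : ℝ) ≤ j := Nat.cast_nonneg _
    exact ⟨by linarith, by linarith⟩
  have b3 := h3 u 200 (1840 * u) (range (18 * u)) hu' (by norm_num) fun j hj => by
    have a : (j : ℝ) + 1 ≤ 18 * u := by exact_mod_cast mem_range.1 hj
    have b : (0 : ℝ) ≤ j := Nat.cast_nonneg _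
    exact ⟨by linarith, by linarith⟩
  have e1 : ∑ k ∈ range (54 * u), FF u k =
      ∑ j ∈ range (54 * u), UU ((460 * (u : ℝ) + 5 + j * 10) / u) 0 := by
    refine sum_congr rfl fun j hj => ?_
    have hj' := mem_range.1 hj
    rw [FF, if_pos hj', yk, if_pos hj']
    push_cast
    rw [mul_comm (10 : ℝ)]
  have e2 : ∑ k ∈ range (18 * u), FF u (54 * u + k) =
      ∑ j ∈ range (18 * u), UU 0 ((400 * (u : ℝ) + j * 80) / u) := by
    refine sum_congr rfl fun j hj => ?_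
    have hj' := mem_range.1 hj
    rw [FF, if_neg (by omega), yk, if_neg (by omega), if_pos (by omega), Nat.add_sub_cancel_left]
    push_cast
    rw [mul_comm (80 : ℝ)]
  have e3 : ∑ k ∈ range (18 * u), FF u (54 * u + 18 * u + k) =
      ∑ j ∈ range (18 * u), UU 0 ((1840 * (u : ℝ) + j * 200) / u) := by
    refine sum_congr rfl fun j hj => ?_
    rw [FF, if_neg (by omega), yk, if_neg (by omega), if_neg (by omega),
      show 54 * u + 18 * u + j - 72 * u = j by omega]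
    push_cast
    rw [mul_comm (200 : ℝ)]
  rw [show 90 * u = 54 * u + 18 * u + 18 * u by omega, sum_range_add, sum_range_add, e1, e2, e3]
  simp only [sum_sub_distrib, sum_const, card_range, nsmul_eq_mul] at b1 b2 b3
  push_cast at b1 b2 b3
  linarith [le_abs_self (C1 + C2 + C3)]

end VYJ

theorem stVY (hOm : StOm) (hCY : StCY) : StVY := by
  obtain ⟨K, hK, h1⟩ := VYJ.one hOm
  obtain ⟨C, hC, h2⟩ := VYJ.tot hCY
  refine ⟨180 * K + C, ?_⟩
  filter_upwards [eventually_ge_atTop 6000] with u hu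
  have hu1 : 1 ≤ u := by omega
  have hu' : (6000 : ℝ) ≤ u := by exact_mod_cast hu
  have hpos : ∀ k ∈ range (90 * u),
      (0 : ℝ) < ((∏ l ∈ (range (90 * u)).erase k, |wk u k - wk u l| : ℚ) : ℝ) := by
    intro k _
    have : (0 : ℚ) < ∏ l ∈ (range (90 * u)).erase k, |wk u k - wk u l| :=
      prod_pos fun l hl => abs_pos.2 (sub_ne_zero.2 fun e => (mem_erase.1 hl).1 (wk_inj hu1 e).symm)
    exact_mod_cast this
  rw [Rat.cast_prod, ← Real.le_log_iff_exp_le (prod_pos hpos),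
    Real.log_prod fun k hk => (hpos k hk).ne']
  have s1 := sum_le_sum fun k (hk : k ∈ range (90 * u)) => h1 u k hu1 (mem_range.1 hk)
  refine le_trans ?_ s1
  simp only [sum_sub_distrib, sum_add_distrib, sum_const, card_range, nsmul_eq_mul, ← mul_sum]
  push_cast
  have l1 : Real.log (6000 * u) ≤ 2 * Real.log u := by
    rw [Real.log_mul (by norm_num) (by linarith)]
    linarith [Real.log_le_log (by norm_num) hu']
  have l2 : 1 ≤ Real.log u := by
    rw [Real.le_log_iff_exp_le (by linarith)]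
    linarith [Real.exp_one_lt_d9]
  have u0 : (0 : ℝ) ≤ u := by linarith
  have t1 := mul_le_mul_of_nonneg_left (h2 u hu1) u0
  have t2 := mul_le_mul_of_nonneg_left l1 (mul_nonneg u0 hK)
  have t3 := mul_le_mul_of_nonneg_left l2 (mul_nonneg u0 hC)
  nlinarith

end Pool.Agent.MP_760060_nt.W

end

section

/-! The potential of the zeros and the poles. -/

open Finset Polynomial Filter Topology

namespace Pool.Agent.MP_760060_nt.W

namespace ZXJ

theorem sq_norm (z : ℂ) (t : ℤ) : ‖z - t‖ ^ 2 = ((t : ℝ) - z.re) ^ 2 + z.im ^ 2 := by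
  rw [Complex.sq_norm, Complex.normSq_apply]
  simp
  ring

theorem log_norm (z : ℂ) (t : ℤ) : Real.log ‖z - t‖ = lg ((t : ℝ) - z.re) z.im := by
  rw [lg, ← sq_norm, Real.log_pow]
  push_cast
  ring

theorem scale (hFaA : StFaA) {u : ℝ} (hu : 0 < u) (a b β : ℝ) :
    Er a b (β * u) = u * Er (a / u) (b / u) β + 2 * β * u * Real.log u := by
  have h1 := hFaA.2.2.1 u (β - a / u) (b / u) hu
  have h2 := hFaA.2.2.1 u (β + a / u) (b / u) hu
  rw [show u * (b / u) = b by field_simp] at h1 h2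
  rw [show u * (β - a / u) = β * u - a by field_simp] at h1
  rw [show u * (β + a / u) = β * u + a by field_simp] at h2
  rw [Er, Er, h1, h2]
  ring

theorem ap (hFaA : StFaA) (hSum : StSum) : ∃ K : ℝ, 0 ≤ K ∧ ∀ (c x₀ : ℤ) (h : ℕ) (z : ℂ)
    (a b R : ℝ), 0 ≤ c → c ≤ 9 → 10 * (h : ℝ) ≤ R → 6000 ≤ R → ‖z‖ ≤ R → |(|z.re|) - a| ≤ 1 →
    |(|z.im|) - b| ≤ 1 → (∀ t ∈ (AP c h).erase x₀, 1 / 2 ≤ ‖z - t‖) →
    |∑ t ∈ (AP c h).erase x₀, Real.log ‖z - t‖ - Er a b (10 * h) / 10| ≤ K * Real.log R := by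
  obtain ⟨K, hK, H⟩ := hSum
  refine ⟨2 * K, by positivity, fun c x₀ h z a b R c0 c9 hh hR hz ha hb ht => ?_⟩
  have hi : Function.Injective fun j : ℕ => -(10 * (h : ℤ)) - c + 10 * j := fun i j e => by
    simp only at e
    omega
  obtain ⟨j₀, hj⟩ : ∃ j₀, (AP c h).erase x₀ =
      ((range (2 * h + 1)).erase j₀).image fun j : ℕ => -(10 * (h : ℤ)) - c + 10 * j := by
    by_cases hx : x₀ ∈ AP c h
    · rw [AP_eq_range] at hx ⊢
      obtain ⟨j, -, rfl⟩ := mem_image.1 hx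
      exact ⟨j, (image_erase hi _ j).symm⟩
    · exact ⟨2 * h + 1, by
        rw [erase_eq_of_notMem hx, erase_eq_of_notMem notMem_range_self, AP_eq_range]⟩
  obtain ⟨a', h1, h2⟩ : ∃ a', |z.re - a'| ≤ 1 ∧ Er a' b (10 * h) = Er a b (10 * h) := by
    rcases abs_cases z.re with e | e
    · exact ⟨a, by rwa [e.1] at ha, rfl⟩
    · refine ⟨-a, ?_, by rw [Er, Er, sub_neg_eq_add, ← sub_eq_add_neg, add_comm]⟩
      rw [e.1, ← abs_neg] at ha
      convert ha using 2
      ring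
  have r1 := abs_le.1 ((Complex.abs_re_le_norm z).trans hz)
  have r2 := (Complex.abs_im_le_norm z).trans hz
  have r3 := abs_le.1 h1
  have r4 := abs_le.1 hb
  have r5 := abs_nonneg z.im
  have r6 : (0 : ℝ) ≤ h := Nat.cast_nonneg _
  have c0' : (0 : ℝ) ≤ c := by exact_mod_cast c0
  have c9' : (c : ℝ) ≤ 9 := by exact_mod_cast c9
  have e1 : ∀ j : ℕ, ((-(10 * (h : ℤ)) - c + 10 * j : ℤ) : ℝ) - z.re =
      -(10 * h) - c - z.re + j * 10 := fun j => by
    push_cast
    ring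
  have e2 : ((2 * h + 1 : ℕ) : ℝ) = 2 * h + 1 := by push_cast; ring
  have key := H (3 * R) 10 (-(10 * h) - c - z.re) z.im (-(10 * h + a')) (10 * h - a') b (2 * h + 1)
    j₀ (by linarith) (by norm_num) (by norm_num) (abs_le.2 ⟨by linarith, by linarith⟩)
    (by rw [e2]; exact abs_le.2 ⟨by linarith, by linarith⟩) (by linarith)
    (abs_le.2 ⟨by linarith, by linarith⟩) (abs_le.2 ⟨by linarith, by linarith⟩)
    (abs_le.2 ⟨by linarith, by linarith⟩) (abs_le.2 ⟨by linarith, by linarith⟩)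
    (by rw [e2]; exact abs_le.2 ⟨by linarith, by linarith⟩)
    (by simpa only [abs_abs] using (abs_abs_sub_abs_le_abs_sub |z.im| b).trans hb)
    (fun j h3 h4 => by
      have h5 := ht _ (hj ▸ mem_image_of_mem _ (mem_erase.2 ⟨h4, mem_range.2 h3⟩))
      rw [← e1, ← sq_norm]
      nlinarith)
  rw [hFaA.1, sub_neg_eq_add, ← Er, h2] at key
  rw [hj, sum_image hi.injOn]
  simp only [log_norm, e1]
  refine key.trans ?_
  have l1 : Real.log (3 * R) ≤ Real.log (R ^ 2) := Real.log_le_log (by linarith) (by nlinarith)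
  rw [Real.log_pow] at l1
  have := mul_le_mul_of_nonneg_left l1 hK
  push_cast at this
  linarith

theorem log_prod {S : Finset ℤ} {z : ℂ} (h : ∀ t ∈ S, 1 / 2 ≤ ‖z - t‖) :
    ‖∏ t ∈ S, (z - t)‖ ≠ 0 ∧ Real.log ‖∏ t ∈ S, (z - t)‖ = ∑ t ∈ S, Real.log ‖z - t‖ := by
  have h1 : ∀ t ∈ S, ‖z - t‖ ≠ 0 := fun t ht => (lt_of_lt_of_le (by norm_num) (h t ht)).ne'
  rw [norm_prod]
  exact ⟨prod_ne_zero_iff.2 h1, Real.log_prod h1⟩

theorem erase_AP (c : ℤ) (h : ℕ) : (AP c h).erase (1 - c) = AP c h :=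
  erase_eq_of_notMem (by rw [mem_AP]; omega)

end ZXJ

open ZXJ in
theorem stZX (hFaA : StFaA) (hSum : StSum) : StZX := by
  obtain ⟨K, hK, H⟩ := ap hFaA hSum
  refine ⟨5 * K, by positivity, fun u z x₀ a b R hu hR hz ha hb hZ hX => ?_⟩
  have u1 : (1 : ℝ) ≤ u := by exact_mod_cast hu
  have H' : ∀ (c x : ℤ) (k : ℕ), 0 ≤ c → c ≤ 9 → k ≤ 23 →
      (∀ t ∈ (AP c (k * (10 * u))).erase x, 1 / 2 ≤ ‖z - t‖) →
      |∑ t ∈ (AP c (k * (10 * u))).erase x, Real.log ‖z - t‖ -
        (u * Er (a / u) (b / u) (100 * k) + 2 * (100 * k) * u * Real.log u) / 10| ≤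
        K * Real.log R := by
    intro c x k c0 c9 hk ht
    have k1 : (k : ℝ) ≤ 23 := by exact_mod_cast hk
    have e : 10 * ((k * (10 * u) : ℕ) : ℝ) = 100 * k * u := by push_cast; ring
    have := H c x (k * (10 * u)) z a b R c0 c9 (by rw [e]; nlinarith) (by linarith) hz ha hb ht
    rwa [e, scale hFaA (by linarith)] at this
  have s1 := H' 3 (1 - 3) 2 (by norm_num) (by norm_num) (by norm_num) fun t ht =>
    hZ t (mem_union_left _ (mem_union_left _ (mem_of_mem_erase ht)))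
  have s2 := H' 5 (1 - 5) 6 (by norm_num) (by norm_num) (by norm_num) fun t ht =>
    hZ t (mem_union_left _ (mem_union_right _ (mem_of_mem_erase ht)))
  have s3 := H' 9 (1 - 9) 5 (by norm_num) (by norm_num) (by norm_num) fun t ht =>
    hZ t (mem_union_right _ (mem_of_mem_erase ht))
  have s4 := H' 0 x₀ 10 (by norm_num) (by norm_num) (by norm_num) fun t ht =>
    hX t (erase_subset_erase _ subset_union_left ht)
  have s5 := H' 1 x₀ 23 (by norm_num) (by norm_num) (by norm_num) fun t ht =>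
    hX t (erase_subset_erase _ subset_union_right ht)
  rw [erase_AP] at s1 s2 s3
  rw [norm_div, Real.log_div (log_prod hZ).1 (log_prod hX).1, (log_prod hZ).2, (log_prod hX).2,
    ZZ, sum_union (disj_359 _ _ _), sum_union (disj_35 _ _), XX, erase_union_distrib,
    sum_union ((disj_AB _).mono (erase_subset _ _) (erase_subset _ _)), XA, XB, ZX]
  norm_num at s1 s2 s3 s4 s5
  rw [abs_le] at s1 s2 s3 s4 s5 ⊢
  constructor <;> linarith [s1.1, s1.2, s2.1, s2.2, s3.1, s3.2, s4.1, s4.2, s5.1, s5.2]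

end Pool.Agent.MP_760060_nt.W

end
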