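import Pool.Agent.MP_760060_nt.W.Stm

section

/-! Soundness of the upper sums. -/

open Finset Polynomial Filter Topology

namespace Pool.Agent.MP_760060_nt.W

namespace AccJ

theorem le_en (h q n x : ℕ) : x ≤ en h q n x := by
  induction n generalizing x with
  | zero => exact le_rfl
  | succ n ih => exact (Nat.le_add_right _ _).trans (ih _)

theorem max_eq (z : ℤ) :
    max 0 ((z : ℝ) / 800000000000000) = (z.toNat : ℝ) / 800000000000000 := by
  rcases le_total 0 z with hz | hz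
  · have h1 : (0 : ℝ) ≤ z := by exact_mod_cast hz
    have h2 : ((z.toNat : ℕ) : ℝ) = z := by exact_mod_cast congrArg (Int.cast (R := ℝ)) (Int.toNat_of_nonneg hz)
    rw [h2, max_eq_right (by positivity)]
  · have h1 : (z : ℝ) ≤ 0 := by exact_mod_cast hz
    rw [Int.toNat_of_nonpos hz, max_eq_left (by linarith [div_nonpos_of_nonpos_of_nonneg h1 (show (0 : ℝ) ≤ 800000000000000 by norm_num)])]
    simp

theorem main (hUB : StUB) (F : ℝ → ℝ) (f g : ℕ → ℤ) (c : ℤ) (h q : ℕ) (hh : 0 < h)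
    (hF : ∀ (w w' : ℕ) (ξ : ℝ), (w : ℝ) ≤ ξ → ξ ≤ w' → w' ≤ 14500 →
      F ξ ≤ max 0 (((f w' - g w - c : ℤ) : ℝ) / 800000000000000)) (n x : ℕ)
    (hx : en h q n x ≤ 14500) :
    UB F x (en h q n x) ((acc f g c h q n x : ℝ) / 800000000000000) ∧
      (acc f g c h q n x = 0 → 0 < n → ∀ ξ : ℝ, (x : ℝ) ≤ ξ → ξ ≤ en h q n x → F ξ ≤ 0) := by
  induction n generalizing x with
  | zero =>
    refine ⟨?_, fun _ h0 => absurd h0 (lt_irrefl 0)⟩
    have := hUB.1 F x x (max 0 (F x)) le_rfl (le_max_left _ _) fun ξ h1 h2 => by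
      rw [le_antisymm h2 h1]; exact le_max_right _ _
    simpa [en, acc] using this
  | succ n ih =>
    have e1 : en h q (n + 1) x = en h q n (x + (h + x / q)) := rfl
    have e2 : acc f g c h q (n + 1) x = (h + x / q) * (f (x + (h + x / q)) - g x - c).toNat +
      acc f g c h q n (x + (h + x / q)) := rfl
    rw [e1] at hx ⊢
    rw [e2]
    have hs : 0 < h + x / q := Nat.add_pos_left hh _
    generalize h + x / q = s at *
    have h1 := ih (x + s) hx
    have h2 : ∀ ξ : ℝ, (x : ℝ) ≤ ξ → ξ ≤ ((x + s : ℕ) : ℝ) →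
        F ξ ≤ ((f (x + s) - g x - c).toNat : ℝ) / 800000000000000 := fun ξ a b => by
      rw [← max_eq]
      exact hF x (x + s) ξ a b ((le_en h q n _).trans hx)
    constructor
    · have h3 := hUB.1 F x ((x + s : ℕ) : ℝ) _ (by exact_mod_cast Nat.le_add_right x s)
        (by positivity) h2
      refine hUB.2.2 F _ _ _ _ (le_of_eq ?_) (hUB.2.1 F _ _ _ _ _ h3 h1.1)
      push_cast
      ring
    · intro h0 _ ξ a b
      obtain ⟨h3, h4⟩ := Nat.add_eq_zero_iff.1 h0
      rcases le_or_gt ξ ((x + s : ℕ) : ℝ) with hc | hc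
      · have h5 := h2 ξ a hc
        rw [(Nat.mul_eq_zero.1 h3).resolve_left hs.ne'] at h5
        simpa using h5
      · rcases Nat.eq_zero_or_pos n with hn | hn
        · subst hn
          exact absurd b (not_le.2 hc)
        · exact h1.2 h4 hn ξ hc.le b

end AccJ

theorem stAcc (hUB : StUB) : StAcc := by
  intro F f g c h q n x x' hh hn he hx hF
  subst he
  have h1 := AccJ.main hUB F f g c h q hh hF n x hx
  refine ⟨fun b hb => hUB.2.2 F _ _ _ _ ?_ h1.1, fun h0 => h1.2 h0 hn⟩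
  rw [div_le_iff₀ (by norm_num)]
  exact_mod_cast hb

end Pool.Agent.MP_760060_nt.W

end

section

/-! The sweep over the break points. -/

open Finset Polynomial Filter Topology

namespace Pool.Agent.MP_760060_nt.W

namespace GoJ

theorem cnt {N p M M' : ℕ} (h : N ≤ p) (s : Finset ℕ) (c : ℕ)
    (hs : ∀ m ∈ s, M * p ≤ N * m ∧ N * m ≤ M' * p) :
    N * ∑ _m ∈ s, c ≤ p * (c * (M' - M + 1)) := by
  rcases s.eq_empty_or_nonempty with rfl | hne
  · simp
  have h1 : #s ≤ s.max' hne - s.min' hne + 1 := by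
    have h2 := card_le_card (s := s) (t := Icc (s.min' hne) (s.max' hne)) fun m hm =>
      mem_Icc.2 ⟨s.min'_le m hm, s.le_max' m hm⟩
    rw [Nat.card_Icc] at h2
    omega
  have h2 : N * (s.max' hne - s.min' hne) ≤ (M' - M) * p := by
    have a1 := (hs _ (s.min'_mem hne)).1
    have a2 := (hs _ (s.max'_mem hne)).2
    rw [Nat.mul_sub, Nat.sub_mul]
    omega
  have h3 : N * #s ≤ (M' - M + 1) * p := by
    refine (Nat.mul_le_mul_left N h1).trans ?_
    rw [mul_add, add_mul, mul_one, one_mul]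
    exact add_le_add h2 h
  rw [sum_const, smul_eq_mul, ← mul_assoc]
  exact (Nat.mul_le_mul_right c h3).trans (le_of_eq (by ring))

theorem main (p : ℕ) (F : ℕ → ℕ → ℕ) (hp : 1000000 ≤ p) (l : List ℕ) :
    (∀ M ∈ l, M ≤ 1000000) → ∀ M, M ≤ 1000000 → ∃ g : ℕ → ℕ,
      (∀ m < p, M * p ≤ 1000000 * m → ∃ M₁ M₂, M₁ ≤ 1000000 ∧ M₂ ≤ 1000000 ∧
        M₁ * p ≤ 1000000 * m ∧ 1000000 * m ≤ M₂ * p ∧ g m = F M₁ M₂) ∧
      1000000 * ∑ m ∈ (range p).filter (fun m => M * p ≤ 1000000 * m), g m ≤ p * go F M l := by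
  induction l with
  | nil =>
    intro _ M hM
    refine ⟨fun _ => F M 1000000, fun m hm h => ⟨M, 1000000, hM, le_rfl, h, by omega, rfl⟩, ?_⟩
    refine cnt hp _ _ fun m hm => ⟨(mem_filter.1 hm).2, ?_⟩
    have := mem_range.1 (mem_filter.1 hm).1
    omega
  | cons M' l ih =>
    intro hl M hM
    have hM' := hl M' List.mem_cons_self
    obtain ⟨g, h1, h2⟩ := ih (fun x hx => hl x (List.mem_cons_of_mem _ hx)) M' hM'
    refine ⟨fun m => if 1000000 * m ≤ M' * p then F M M' else g m, fun m hm h => ?_, ?_⟩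
    · by_cases e : 1000000 * m ≤ M' * p
      · exact ⟨M, M', hM, hM', h, e, if_pos e⟩
      · obtain ⟨M₁, M₂, a1, a2, a3, a4, a5⟩ := h1 m hm (not_le.1 e).le
        exact ⟨M₁, M₂, a1, a2, a3, a4, (if_neg e).trans a5⟩
    · rw [sum_ite, mul_add, go, mul_add p]
      refine add_le_add (cnt hp _ _ fun m hm =>
        ⟨(mem_filter.1 (mem_filter.1 hm).1).2, (mem_filter.1 hm).2⟩)
        (le_trans (Nat.mul_le_mul_left _ (sum_le_sum_of_subset fun m hm => ?_)) h2)
      exact mem_filter.2 ⟨(mem_filter.1 (mem_filter.1 hm).1).1, (not_le.1 (mem_filter.1 hm).2).le⟩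

end GoJ

theorem stGo : StGo := by
  intro p F l hp hl
  obtain ⟨g, h1, h2⟩ := GoJ.main p F hp l hl 0 (Nat.zero_le _)
  refine ⟨g, fun m hm => h1 m hm (by simp), ?_⟩
  rwa [filter_true_of_mem fun m _ => by simp] at h2

end Pool.Agent.MP_760060_nt.W

end

section

open Finset

namespace Pool.Agent.MP_760060_nt.W

namespace LamCJ

theorem lam_diff {v : ℕ} {x x' : ℤ} (hv : 1 ≤ v) (hx : x ∈ XA v) (hx' : x' ∈ XX v) :
    lam (x' - x) = ∑ t ∈ Icc (-(231 * v : ℤ)) (231 * v),
      (wt t : ℚ) * ((if t < x' then 1 else 0) - if t < x then 1 else 0) / (x' - t) := by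
  rw [mem_XA] at hx
  rw [mem_XX, mem_XA, mem_XB] at hx'
  rw [lam_eq (R := 700 * v) (by omega) (by omega)]
  have e : Icc (-(700 * (v : ℤ))) (700 * v) =
      (Icc (-(700 * (v : ℤ)) + x) (700 * v + x)).map (addRightEmbedding (-x)) := by
    rw [map_add_right_Icc]
    congr 1 <;> ring
  rw [e, sum_map]
  symm
  refine sum_subset_zero_on_sdiff (Icc_subset_Icc (by omega) (by omega)) (fun t ht => ?_)
    fun t _ => ?_
  · rw [Finset.mem_sdiff, mem_Icc, mem_Icc] at ht
    simp only [addRightEmbedding_apply]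
    rw [if_congr (show t + -x < x' - x ↔ t + -x < 0 by omega) rfl rfl, sub_self]
    simp
  · simp only [addRightEmbedding_apply]
    rw [wt_congr (s := t + -x) (t := t) (by omega),
      if_congr (show t + -x < x' - x ↔ t < x' by omega) rfl rfl,
      if_congr (show t + -x < 0 ↔ t < x by omega) rfl rfl]
    push_cast
    ring

end LamCJ

theorem stLamC : StLamC := by
  intro v p _ ξ x x' hv hx hx' hd hN
  rw [LamCJ.lam_diff hv hx hx', lamS, lamS, ← sum_sub_distrib, ← sum_add_distrib]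
  refine Vb.sum fun t _ => ?_
  have e : (wt t : ℚ) * ((if t < x then 1 else 0) - if t < ξ t then 1 else 0) / (x - t) -
      (wt t : ℚ) * ((if t < x' then 1 else 0) - if t < ξ t then 1 else 0) / (x' - t) +
      (wt t : ℚ) * ((if t < x' then 1 else 0) - if t < x then 1 else 0) / (x' - t) =
      ((wt t * ((if t < x then 1 else 0) - if t < ξ t then 1 else 0) : ℤ) : ℚ) *
        (((x - t : ℤ) : ℚ)⁻¹ - ((x' - t : ℤ) : ℚ)⁻¹) := by
    push_cast
    ring
  rw [e]
  by_cases h : (p : ℤ) ∣ x - t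
  · by_cases hw : wt t = 0
    · rw [hw]; simpa using vb_zero _
    · rw [if_congr (hN t h hw) rfl rfl, sub_self]; simpa using vb_zero _
  · exact (vb_int _).mul0 (vb_inv_sub h (by rwa [sub_sub_sub_cancel_right]))

end Pool.Agent.MP_760060_nt.W

end

section

/-! An explicit form of the first theorem of Mertens. -/

open Finset Polynomial Filter Topology

namespace Pool.Agent.MP_760060_nt.W

namespace MertJ

lemma log_fac (n : ℕ) (hn : 1 ≤ n) :
    Real.log (n.factorial : ℕ) ≤ n * Real.log n - n + Real.log n + 1 := by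
  induction n, hn using Nat.le_induction with
  | base => simp
  | succ n hn ih =>
    have h0 : (0 : ℝ) < n := by exact_mod_cast hn
    have h1 : (0 : ℝ) < (n.factorial : ℕ) := by exact_mod_cast n.factorial_pos
    have h2 := Real.log_le_sub_one_of_pos (show (0 : ℝ) < n / (n + 1) by positivity)
    rw [Real.log_div h0.ne' (by positivity)] at h2
    have h3 := mul_le_mul_of_nonneg_left h2 (show (0 : ℝ) ≤ n + 1 by positivity)
    have h4 : ((n : ℝ) + 1) * (n / (n + 1) - 1) = -1 := by field_simp; ring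
    rw [Nat.factorial_succ, Nat.cast_mul, Real.log_mul (by positivity) h1.ne']
    push_cast
    linarith

lemma log_sum (n : ℕ) : Real.log (n.factorial : ℕ) =
    ∑ p ∈ (Ioc 0 n).filter Nat.Prime, (n.factorial.factorization p : ℝ) * Real.log p := by
  rw [Real.log_nat_eq_sum_factorization]
  refine Finsupp.sum_of_support_subset _ (fun p hp => ?_) _ fun _ _ => by simp
  rw [Nat.support_factorization] at hp
  have h1 := Nat.prime_of_mem_primeFactors hp
  exact mem_filter.2 ⟨mem_Ioc.2 ⟨h1.pos, h1.dvd_factorial.1 (Nat.dvd_of_mem_primeFactors hp)⟩, h1⟩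

lemma val_div {p : ℕ} (hp : p.Prime) (n : ℕ) : n / p ≤ n.factorial.factorization p := by
  rw [Nat.factorization_factorial hp (b := Nat.log p n + 2) (by omega)]
  have := single_le_sum (f := fun i => n / p ^ i) (s := Ico 1 (Nat.log p n + 2))
    (fun _ _ => Nat.zero_le _) (a := 1) (mem_Ico.2 ⟨le_rfl, by omega⟩)
  simpa using this

lemma val_one {p : ℕ} (hp : p.Prime) (n : ℕ) :
    (n : ℝ) * (1 / p) - 1 ≤ n.factorial.factorization p := by
  have h0 : (0 : ℝ) < p := by exact_mod_cast hp.pos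
  have h1 : ((n / p : ℕ) : ℝ) ≤ n.factorial.factorization p := by exact_mod_cast val_div hp n
  have h2 : (n : ℝ) ≤ ((n / p : ℕ) + 1) * p := by
    have := (Nat.lt_mul_div_succ n hp.pos).le
    rw [mul_comm] at this
    exact_mod_cast this
  have h3 : (n : ℝ) * (1 / p) ≤ (n / p : ℕ) + 1 := by rwa [mul_one_div, div_le_iff₀ h0]
  linarith

lemma val_all {p : ℕ} (hp : p.Prime) {n : ℕ} (hn : n ≠ 0) :
    (n : ℝ) * (1 / ((p : ℝ) - 1)) - (Nat.log p n + 1) ≤ n.factorial.factorization p := by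
  have h1 := Nat.sub_one_mul_factorization_factorial (n := n) hp
  have h2 : (p.digits n).sum ≤ (p.digits n).length • (p - 1) :=
    List.sum_le_card_nsmul _ _ fun x hx => Nat.le_sub_one_of_lt (Nat.digits_lt_base hp.one_lt hx)
  rw [Nat.length_digits p n hp.one_lt hn, smul_eq_mul] at h2
  have h3 : n ≤ (n.factorial.factorization p + (Nat.log p n + 1)) * (p - 1) := by
    rw [add_mul, mul_comm _ (p - 1), h1]
    omega
  have h4 : (1 : ℝ) < p := by exact_mod_cast hp.one_lt
  have h5 : (n : ℝ) ≤ (n.factorial.factorization p + (Nat.log p n + 1)) * ((p : ℝ) - 1) := by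
    have := (Nat.cast_le (α := ℝ)).2 h3
    rwa [Nat.cast_mul, Nat.cast_pred hp.pos, Nat.cast_add, Nat.cast_add, Nat.cast_one] at this
  have h6 : (n : ℝ) * (1 / ((p : ℝ) - 1)) ≤ n.factorial.factorization p + (Nat.log p n + 1) := by
    rwa [mul_one_div, div_le_iff₀ (by linarith)]
  linarith

lemma log_log {p n : ℕ} (hp : p.Prime) (hn : n ≠ 0) :
    (Nat.log p n : ℝ) * Real.log p ≤ Real.log n := by
  rw [← Real.log_pow]
  refine Real.log_le_log (pow_pos (by exact_mod_cast hp.pos) _) ?_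
  exact_mod_cast Nat.pow_log_le_self p hn

lemma filt {m n : ℕ} (h : m ≤ n) (g : ℕ → ℝ) :
    ∑ p ∈ (Ioc 0 n).filter Nat.Prime, (if p ≤ m then g p else 0) =
      ∑ p ∈ (Ioc 0 m).filter Nat.Prime, g p := by
  rw [← sum_filter]
  refine sum_congr ?_ fun _ _ => rfl
  ext p
  simp only [mem_filter, mem_Ioc]
  exact ⟨fun h1 => ⟨⟨h1.1.1.1, h1.2⟩, h1.1.2⟩, fun h1 => ⟨⟨⟨h1.1.1, h1.1.2.trans h⟩, h1.2⟩, h1.1.2⟩⟩

/-- the weight -/
noncomputable def cc (v p : ℕ) : ℝ := if p ^ 2 ≤ 500 * v then 1 / ((p : ℝ) - 1) else 1 / p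

lemma term {v p n : ℕ} (hp : p.Prime) (hn : n ≠ 0) :
    (if p ≤ 5 * v then n * (cc v p * Real.log p) - 51 * Real.log p -
      (if p ^ 2 ≤ 500 * v then Real.log n else 0) else 0) +
      ∑ j ∈ Icc 1 50, (if p ≤ n / j then Real.log p else 0) ≤
      (n.factorial.factorization p : ℝ) * Real.log p := by
  have hl : 0 ≤ Real.log p := Real.log_natCast_nonneg p
  rw [← sum_filter, sum_const, nsmul_eq_mul]
  split_ifs with h1 h2
  · have a1 : (#((Icc 1 50).filter fun j => p ≤ n / j) : ℝ) ≤ 50 := by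
      exact_mod_cast (card_filter_le _ _).trans (by simp)
    have a2 := mul_le_mul_of_nonneg_right a1 hl
    have a3 := mul_le_mul_of_nonneg_right (val_all hp hn) hl
    have a4 := log_log hp hn
    rw [cc, if_pos h2]
    linarith
  · have a1 : (#((Icc 1 50).filter fun j => p ≤ n / j) : ℝ) ≤ 50 := by
      exact_mod_cast (card_filter_le _ _).trans (by simp)
    have a2 := mul_le_mul_of_nonneg_right a1 hl
    have a3 := mul_le_mul_of_nonneg_right (val_one hp n) hl
    rw [cc, if_neg h2]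
    linarith
  · have a1 : #((Icc 1 50).filter fun j => p ≤ n / j) ≤ n / p := by
      refine (card_le_card (t := Icc 1 (n / p)) fun j hj => ?_).trans (by simp)
      obtain ⟨b1, b2⟩ := mem_filter.1 hj
      have b3 := (mem_Icc.1 b1).1
      refine mem_Icc.2 ⟨b3, (Nat.le_div_iff_mul_le hp.pos).2 ?_⟩
      rw [mul_comm]
      exact (Nat.le_div_iff_mul_le b3).1 b2
    rw [zero_add]
    exact mul_le_mul_of_nonneg_right (by exact_mod_cast a1.trans (val_div hp n)) hl

lemma cnt (v : ℕ) {L : ℝ} (hL : 0 ≤ L) :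
    ∑ p ∈ (Ioc 0 (5 * v)).filter Nat.Prime, (if p ^ 2 ≤ 500 * v then L else 0) ≤
      Nat.sqrt (500 * v) * L := by
  rw [← sum_filter, sum_const, nsmul_eq_mul]
  refine mul_le_mul_of_nonneg_right (Nat.cast_le.2 ?_) hL
  refine (card_le_card (t := Ioc 0 (Nat.sqrt (500 * v))) fun p hp => ?_).trans (by simp)
  obtain ⟨b1, b2⟩ := mem_filter.1 hp
  exact mem_Ioc.2 ⟨(mem_filter.1 b1).2.pos, Nat.le_sqrt'.2 b2⟩

lemma main (v : ℕ) (hv : 1 ≤ v) :
    250 * v * ∑ p ∈ (Ioc 0 (5 * v)).filter Nat.Prime, cc v p * Real.log p ≤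
      250 * v * Real.log (250 * v) - 250 * v +
        (Real.log (250 * v) + 1 + Nat.sqrt (500 * v) * Real.log (250 * v)) +
        (51 * Chebyshev.theta (5 * v) - ∑ j ∈ Icc 1 50, Chebyshev.theta (250 / (j : ℕ) * v)) := by
  have hn : 250 * v ≠ 0 := by omega
  have h1 := log_fac (250 * v) (by omega)
  have h2 := sum_le_sum fun p (hp : p ∈ (Ioc 0 (250 * v)).filter Nat.Prime) =>
    term (v := v) (mem_filter.1 hp).2 hn
  rw [← log_sum, sum_add_distrib, filt (by omega), sum_comm, sum_sub_distrib, sum_sub_distrib,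
    ← mul_sum, ← mul_sum] at h2
  have h3 : ∀ j ∈ Icc 1 50, ∑ p ∈ (Ioc 0 (250 * v)).filter Nat.Prime,
      (if p ≤ 250 * v / j then Real.log p else 0) = Chebyshev.theta (250 / (j : ℕ) * v) := by
    intro j _
    rw [filt (Nat.div_le_self _ _), Chebyshev.theta, ← Nat.floor_div_eq_div (K := ℝ)]
    congr 4
    push_cast
    ring
  have h4 : Chebyshev.theta (5 * v) = ∑ p ∈ (Ioc 0 (5 * v)).filter Nat.Prime, Real.log p := by
    rw [Chebyshev.theta, show (5 * v : ℝ) = (5 * v : ℕ) by push_cast; ring, Nat.floor_natCast]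
  rw [sum_congr rfl h3, ← h4] at h2
  have h5 := cnt v (Real.log_natCast_nonneg (250 * v))
  push_cast at h1 h2 h5
  linarith

lemma err (x K : ℝ) (hx : 10 ^ 24 ≤ x) (h0 : 0 ≤ K) (hK : K ^ 2 ≤ 2 * x) :
    Real.log x + 1 + K * Real.log x ≤ x / 25000 := by
  obtain ⟨t, ht, rfl⟩ : ∃ t : ℝ, 0 ≤ t ∧ x = t ^ 4 := by
    refine ⟨√(√x), Real.sqrt_nonneg _, ?_⟩
    rw [show √(√x) ^ 4 = (√(√x) ^ 2) ^ 2 by ring, Real.sq_sqrt (Real.sqrt_nonneg _),
      Real.sq_sqrt (by linarith)]
  have h1 : (10 : ℝ) ^ 6 ≤ t := by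
    refine le_of_pow_le_pow_left₀ (n := 4) (by norm_num) ht ?_
    linarith
  have h2 : Real.log t ≤ t := (Real.log_le_sub_one_of_pos (by linarith)).trans (by linarith)
  have h3 : K ≤ 2 * t ^ 2 := by
    refine le_of_pow_le_pow_left₀ (n := 2) (by norm_num) (by positivity) ?_
    have : 0 ≤ t ^ 4 := by positivity
    linarith
  have h4 : 0 ≤ Real.log t := Real.log_nonneg (by linarith)
  have h5 : K * Real.log t ≤ 2 * t ^ 2 * t := mul_le_mul h3 h2 h4 (by positivity)
  have h6 : 1 ≤ t ^ 2 := one_le_pow₀ (by linarith)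
  have h7 : t * 1 ≤ t * t ^ 2 := mul_le_mul_of_nonneg_left h6 ht
  have h8 : 10 ^ 6 * t ^ 3 ≤ t * t ^ 3 := mul_le_mul_of_nonneg_right h1 (by positivity)
  have h9 : 0 ≤ t ^ 3 := by positivity
  rw [Real.log_pow]
  push_cast
  linarith

lemma lim (hTh : StTh) : ∀ᶠ v : ℕ in atTop, 51 * (Chebyshev.theta (5 * v) / v) -
    ∑ j ∈ Icc 1 50, Chebyshev.theta (250 / (j : ℕ) * v) / v < -86978 / 100 := by
  have h1 := ((hTh 5 (by norm_num)).const_mul 51).sub
    (tendsto_finsetSum (Icc 1 50) fun (j : ℕ) hj => hTh (250 / j) (by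
      have : 0 < j := (mem_Icc.1 hj).1
      positivity))
  refine (h1.comp tendsto_natCast_atTop_atTop).eventually_lt_const ?_
  rw [show Icc 1 50 = (range 51).erase 0 by decide, sum_erase _ (by simp)]
  norm_num [sum_range_succ]

end MertJ

theorem stMert (hTh : StTh) : StMert := by
  filter_upwards [MertJ.lim hTh, eventually_ge_atTop (10 ^ 24)] with v h1 h2
  have h3 : (10 : ℝ) ^ 24 ≤ v := by exact_mod_cast h2
  have h0 : (0 : ℝ) < v := by linarith
  have h4 := MertJ.main v (by omega)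
  have h5 := MertJ.err (250 * v) (Nat.sqrt (500 * v)) (by linarith) (Nat.cast_nonneg _) (by
    have : ((Nat.sqrt (500 * v) ^ 2 : ℕ) : ℝ) ≤ (500 * v : ℕ) := Nat.cast_le.2 (Nat.sqrt_le' _)
    push_cast at this
    linarith)
  rw [← sum_div, ← mul_div_assoc, ← sub_div, div_lt_iff₀ h0] at h1
  refine le_of_mul_le_mul_left (a := 250 * (v : ℝ)) ?_ (by linarith)
  refine h4.trans ?_
  linarith

end Pool.Agent.MP_760060_nt.W

end

section

/-! The cost of one cell of primes. -/

open Finset Filter Topology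

namespace Pool.Agent.MP_760060_nt.W

namespace RgJ

theorem split (q : ℕ → Prop) [DecidablePred q] (f : ℕ → ℝ) {a b : ℕ} (h : a ≤ b) :
    ∑ p ∈ (Ioc a b).filter q, f p =
      ∑ p ∈ (Ioc 0 b).filter q, f p - ∑ p ∈ (Ioc 0 a).filter q, f p := by
  simp only [sum_filter]
  rw [← sum_Ioc_consecutive _ (Nat.zero_le a) h]
  ring

end RgJ

theorem stRg (hCell : StCell) (hThC : StThC) : StRg := by
  intro r s1 s3 s9 e a P₁ P₂ hc h1 h12 h2 ε hε
  have hr : Cop r ∧ r < 10 := by
    unfold Cls at hc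
    unfold Cop
    omega
  have hl := ((hThC r P₂ hr.1 hr.2).sub (hThC r P₁ hr.1 hr.2)).const_mul
    ((cellB s1 s3 s9 e a P₁ P₂ : ℝ) / 1000000000)
  have e1 : (cellB s1 s3 s9 e a P₁ P₂ : ℝ) / 1000000000 * ((P₂ : ℝ) / 4000 - (P₁ : ℝ) / 4000) <
      ((cellB s1 s3 s9 e a P₁ P₂ * (P₂ - P₁) : ℕ) : ℝ) / 4000000000000 + ε := by
    rw [Nat.cast_mul, Nat.cast_sub h12]
    linarith
  filter_upwards [hl.eventually_le_const e1, eventually_ge_atTop 200000] with v hv hv0 y hy
  have v0 : (0 : ℝ) < v := by exact_mod_cast (by omega : 0 < v)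
  have key : ∀ p ∈ (Ioc (P₁ * v / 1000) (P₂ * v / 1000)).filter (fun p => p.Prime ∧ p % 10 = r),
      ex v y p * Real.log p ≤
        (v : ℝ) * cellB s1 s3 s9 e a P₁ P₂ / 1000000000 * Real.log p := fun p hp => by
    obtain ⟨h3, h4, h5⟩ := mem_filter.1 hp
    rw [mem_Ioc] at h3
    have : Fact p.Prime := ⟨h4⟩
    have h6 : 5000 * v ≤ P₁ * v := Nat.mul_le_mul_right v h1
    have h7 : 1000000 ≤ p := by omega
    have h8 : 500 * v < p ^ 2 := by
      have : 1000000 * p ≤ p * p := Nat.mul_le_mul_right p h7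
      rw [sq]
      omega
    exact mul_le_mul_of_nonneg_right (ex_le hy (hCell v p s1 s3 s9 e a P₁ P₂ y (h5 ▸ hc) h7 h8
      (by omega) h2 (by omega) (by omega))) (Real.log_natCast_nonneg p)
  refine (sum_le_sum key).trans ?_
  rw [← mul_sum, RgJ.split _ _ (Nat.div_le_div_right (Nat.mul_le_mul_right v h12))]
  refine le_trans (le_of_eq ?_) (mul_le_mul_of_nonneg_right hv (sq_nonneg _))
  field_simp

end Pool.Agent.MP_760060_nt.W

end

section

/-! Upper bounds for sums along progressions. -/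

open Finset

namespace Pool.Agent.MP_760060_nt.W

namespace UBJ

theorem card_le {D x₀ A B : ℝ} {I : Finset ℕ} (hD : 0 < D) (hAB : A ≤ B)
    (h : ∀ j ∈ I, A ≤ x₀ + j * D ∧ x₀ + j * D ≤ B) : (#I : ℝ) ≤ (B - A) / D + 1 := by
  rcases I.eq_empty_or_nonempty with rfl | hI
  · have : 0 ≤ (B - A) / D := div_nonneg (sub_nonneg.2 hAB) hD.le
    simp only [card_empty, Nat.cast_zero]
    linarith
  have h1 : I ⊆ Icc (I.min' hI) (I.max' hI) := fun j hj =>
    mem_Icc.2 ⟨min'_le _ _ hj, le_max' _ _ hj⟩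
  have h2 := card_le_card h1
  have h3 : I.min' hI ≤ I.max' hI := min'_le _ _ (max'_mem _ hI)
  rw [Nat.card_Icc] at h2
  have h4 : #I + I.min' hI ≤ I.max' hI + 1 := by omega
  have h5 : (#I : ℝ) + (I.min' hI : ℕ) ≤ (I.max' hI : ℕ) + 1 := by exact_mod_cast h4
  have h6 := (h _ (min'_mem _ hI)).1
  have h7 := (h _ (max'_mem _ hI)).2
  have h8 : ((I.max' hI : ℕ) : ℝ) - (I.min' hI : ℕ) ≤ (B - A) / D := by
    rw [le_div_iff₀ hD]
    linarith
  linarith

end UBJ

open UBJ in
theorem stUB : StUB := by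
  refine ⟨fun f x x' b hx hb hf => ⟨b, fun u D x₀ I hu hD hI => ?_⟩,
    fun f x x' x'' c c' h1 h2 => ?_, fun f x x' c c' hc h1 => ?_⟩
  · have u0 : 0 < u := by linarith
    have D0 : 0 < D := by linarith
    have h1 := card_le D0 (mul_le_mul_of_nonneg_right hx u0.le) hI
    have h2 : ∑ j ∈ I, f ((x₀ + j * D) / u) ≤ #I • b :=
      sum_le_card_nsmul _ _ _ fun j hj =>
        hf _ ((le_div_iff₀ u0).2 (hI j hj).1) ((div_le_iff₀ u0).2 (hI j hj).2)
    rw [nsmul_eq_mul] at h2
    have h3 := mul_le_mul_of_nonneg_right h1 hb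
    have h4 : ((x' * u - x * u) / D + 1) * b = u * (b * (x' - x)) / D + b := by ring
    linarith
  · obtain ⟨C, hC⟩ := h1
    obtain ⟨C', hC'⟩ := h2
    refine ⟨C + C', fun u D x₀ I hu hD hI => ?_⟩
    have a1 := hC u D x₀ (I.filter fun j => x₀ + j * D ≤ x' * u) hu hD fun j hj =>
      ⟨(hI j (mem_filter.1 hj).1).1, (mem_filter.1 hj).2⟩
    have a2 := hC' u D x₀ (I.filter fun j => ¬ x₀ + j * D ≤ x' * u) hu hD fun j hj =>
      ⟨(not_le.1 (mem_filter.1 hj).2).le, (hI j (mem_filter.1 hj).1).2⟩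
    rw [← sum_filter_add_sum_filter_not I fun j => x₀ + j * D ≤ x' * u]
    have h4 : u * (c + c') / D = u * c / D + u * c' / D := by ring
    linarith
  · obtain ⟨C, hC⟩ := h1
    refine ⟨C, fun u D x₀ I hu hD hI => (hC u D x₀ I hu hD hI).trans ?_⟩
    have : u * c / D ≤ u * c' / D := by gcongr
    linarith

end Pool.Agent.MP_760060_nt.W

end

section

/-! The vectors of the rank one terms. -/

open Finset Polynomial Filter Topology

namespace Pool.Agent.MP_760060_nt.W

namespace UsJ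

theorem one_le {u k : ℕ} (hu : 1 ≤ u) {s : ℤ} (hs : s % 10 = 0) :
    1 ≤ |(s : ℚ) ^ 2 - wk u k| := by
  unfold wk
  split_ifs with h
  · have h5 : (yk u k : ℤ) % 10 = 5 := by
      unfold yk
      rw [if_pos h]
      omega
    have h1 : (s - yk u k) * (s + yk u k) ≠ 0 := mul_ne_zero (by omega) (by omega)
    have h2 := Int.one_le_abs h1
    have e : (s : ℚ) ^ 2 - (yk u k : ℚ) ^ 2 = (((s - yk u k) * (s + yk u k) : ℤ) : ℚ) := by
      push_cast
      ring
    rw [e]
    exact_mod_cast h2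
  · have a1 : (400 : ℚ) ≤ yk u k := by exact_mod_cast yk_pos hu k
    refine le_trans ?_ (le_abs_self _)
    nlinarith [sq_nonneg (s : ℚ)]

end UsJ

theorem stUs : StUs := by
  rintro u s ⟨k, e⟩ hs
  have hk := k.2
  have he := e.2
  have hu : 1 ≤ u := by omega
  rw [mem_XA] at hs
  have h1 := UsJ.one_le (k := k) hu hs.1
  have h0 : (s : ℚ) ^ 2 - wk u k ≠ 0 := fun h => by
    rw [h, abs_zero] at h1
    exact absurd h1 (by norm_num)
  refine ⟨?_, ?_, ?_⟩
  · simp only [Bs, Om, Us, eval_mul, eval_pow, eval_X, eval_prod, eval_sub, eval_C]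
    rw [← mul_prod_erase (range (90 * u)) (fun l => (s : ℚ) ^ 2 - wk u l) (mem_range.2 hk)]
    field_simp
  · have hu' : (1 : ℚ) ≤ u := by exact_mod_cast hu
    have h2 : |(s : ℚ)| ≤ 1000 * u := by
      have : |s| ≤ 1000 * (u : ℤ) := by
        rw [abs_le]
        push_cast at hs
        omega
      exact_mod_cast this
    have h3 : |(s : ℚ) ^ (e : ℕ)| ≤ 1000 * u := by
      obtain h | h : (e : ℕ) = 0 ∨ (e : ℕ) = 1 := by omega
      · rw [h, pow_zero, abs_one]
        linarith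
      · rwa [h, pow_one]
    simp only [Us]
    rw [abs_div]
    exact (div_le_self (abs_nonneg _) h1).trans h3
  · have h2 : (Om u k).natDegree ≤ ∑ _l ∈ (range (90 * u)).erase k, 2 :=
      (natDegree_prod_le _ _).trans (sum_le_sum fun l _ => (natDegree_X_pow_sub_C).le)
    rw [sum_const, card_erase_of_mem (mem_range.2 hk), card_range, smul_eq_mul] at h2
    have h3 : (Bs u (k, e)).natDegree ≤ e + (Om u k).natDegree := by
      refine natDegree_mul_le.trans ?_
      rw [natDegree_X_pow]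
    omega

end Pool.Agent.MP_760060_nt.W

end
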