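import Pool.Agent.MP_760060_nt.W.Stm

section

/-! The constants in the real representation of `lam`. -/

open Finset Polynomial Filter Topology

namespace Pool.Agent.MP_760060_nt.W

namespace CstJ

/-- finite sums along a progression of step ten -/
noncomputable def G (d : ℝ) (N : ℕ) : ℝ := ∑ k ∈ range N, 1 / (10 * (k : ℝ) + d)

theorem G_sub_le {d d' : ℝ} (h1 : 1 ≤ d) (h1' : 1 ≤ d') (h2' : d' ≤ 11) (N : ℕ) :
    G d N - G d' N ≤ 1 - 1 / (10 * (N : ℝ) + 1) := by
  induction N with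
  | zero => simp [G]
  | succ n ih =>
    have hn : (0 : ℝ) ≤ n := Nat.cast_nonneg n
    have a1 : 1 / (10 * (n : ℝ) + d) ≤ 1 / (10 * (n : ℝ) + 1) :=
      one_div_le_one_div_of_le (by linarith) (by linarith)
    have a2 : 1 / (10 * ((n : ℝ) + 1) + 1) ≤ 1 / (10 * (n : ℝ) + d') :=
      one_div_le_one_div_of_le (by linarith) (by linarith)
    simp only [G, sum_range_succ] at ih ⊢
    push_cast
    linarith

theorem G_abs {d d' : ℝ} (h1 : 1 ≤ d) (h2 : d ≤ 11) (h1' : 1 ≤ d') (h2' : d' ≤ 11) (N : ℕ) :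
    |G d N - G d' N| ≤ 1 := by
  have hn : (0 : ℝ) ≤ 1 / (10 * (N : ℝ) + 1) := by positivity
  have a1 := G_sub_le h1 h1' h2' N
  have a2 := G_sub_le h1' h1 h2 N
  rw [abs_le]
  constructor <;> linarith

theorem G_tail {d : ℝ} (h1 : 1 ≤ d) {T : ℕ} (hT : 1 ≤ T) (n : ℕ) :
    0 ≤ G d (T + n) - G d T ∧ G d (T + n) - G d T ≤ n / T := by
  have hT' : (1 : ℝ) ≤ T := by exact_mod_cast hT
  induction n with
  | zero => simp
  | succ n ih =>
    have hn : (0 : ℝ) ≤ n := Nat.cast_nonneg n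
    have a1 : 1 / (10 * ((T : ℝ) + n) + d) ≤ 1 / (T : ℝ) :=
      one_div_le_one_div_of_le (by linarith) (by linarith)
    have a2 : 0 ≤ 1 / (10 * ((T : ℝ) + n) + d) := by positivity
    have e : G d (T + (n + 1)) = G d (T + n) + 1 / (10 * ((T : ℝ) + n) + d) := by
      rw [← add_assoc, G, sum_range_succ, ← G]
      push_cast
      rfl
    have e2 : ((n + 1 : ℕ) : ℝ) / T = n / T + 1 / T := by
      push_cast
      ring
    rw [e, e2]
    constructor <;> linarith [ih.1, ih.2]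

theorem G_near {d : ℝ} (h1 : 1 ≤ d) {T N J : ℕ} (hT : 1 ≤ T) (h2 : T ≤ N) (h3 : N ≤ T + J) :
    |G d N - G d T| ≤ J / T := by
  obtain ⟨n, rfl⟩ := Nat.exists_eq_add_of_le h2
  obtain ⟨a1, a2⟩ := G_tail h1 hT n
  rw [abs_of_nonneg a1]
  refine a2.trans (div_le_div_of_nonneg_right ?_ (Nat.cast_nonneg T))
  exact_mod_cast (by omega : n ≤ J)

theorem sum_pos {c d x : ℤ} {T N : ℕ} (d1 : 1 ≤ d) (d2 : d ≤ 9) (h1 : (x + c - d) % 10 = 0)
    (h2 : x + c - d ≤ 10 * T) (h3 : x + c - d + 10 * T + 10 = 10 * N) :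
    ∑ t ∈ AP c T, ((if t < x then 1 else 0) : ℝ) / (x - t) = G d N := by
  symm
  refine sum_of_injOn (fun k : ℕ => x - (10 * k + d)) ?_ ?_ ?_ ?_
  · intro a _ b _ h
    simp only at h
    omega
  · intro k hk
    rw [coe_range, Set.mem_Iio] at hk
    rw [mem_coe, mem_AP]
    beta_reduce
    omega
  · intro t ht hn
    rw [if_neg, zero_div]
    intro hlt
    apply hn
    rw [mem_AP] at ht
    refine ⟨((x - t - d) / 10).toNat, ?_, ?_⟩
    · rw [coe_range, Set.mem_Iio]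
      omega
    · simp only
      omega
  · intro k _
    rw [if_pos (by omega)]
    push_cast
    congr 1
    ring

theorem sum_neg {c d x : ℤ} {T N : ℕ} (d1 : 1 ≤ d) (d2 : d ≤ 9) (h1 : (x + c + d) % 10 = 0)
    (h2 : -(10 * (T : ℤ)) ≤ x + c + d) (h3 : 10 * T + 10 - (x + c + d) = 10 * N) :
    ∑ t ∈ AP c T, (((if t < x then 1 else 0) : ℝ) - 1) / (x - t) = G d N := by
  symm
  refine sum_of_injOn (fun k : ℕ => x + (10 * k + d)) ?_ ?_ ?_ ?_
  · intro a _ b _ h
    simp only at h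
    omega
  · intro k hk
    rw [coe_range, Set.mem_Iio] at hk
    rw [mem_coe, mem_AP]
    beta_reduce
    omega
  · intro t ht hn
    rw [if_pos, sub_self, zero_div]
    by_contra hlt
    apply hn
    rw [mem_AP] at ht
    refine ⟨((t - x - d) / 10).toNat, ?_, ?_⟩
    · rw [coe_range, Set.mem_Iio]
      omega
    · simp only
      omega
  · intro k _
    rw [if_neg (by omega)]
    push_cast
    rw [show (x : ℝ) - (x + (10 * k + d)) = -(10 * k + d) by ring, zero_sub, neg_div_neg_eq]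

theorem mem_TT {T : ℕ} {t : ℤ} : t ∈ TT T ↔
    (t % 10 = 7 ∧ -(10 * (T : ℤ)) ≤ t + 3 ∧ t + 3 ≤ 10 * T) ∨
    (t % 10 = 5 ∧ -(10 * (T : ℤ)) ≤ t + 5 ∧ t + 5 ≤ 10 * T) ∨
    (t % 10 = 1 ∧ -(10 * (T : ℤ)) ≤ t + 9 ∧ t + 9 ≤ 10 * T) := by
  simp only [TT, mem_union, mem_AP]
  omega

theorem sum_TT (T : ℕ) (f : ℤ → ℝ) : ∑ t ∈ TT T, (wt t : ℝ) * f t =
    -3 * ∑ t ∈ AP 3 T, f t + 8 * ∑ t ∈ AP 5 T, f t - 10 * ∑ t ∈ AP 9 T, f t := by
  rw [TT, sum_union (disj_359 _ _ _), sum_union (disj_35 _ _), mul_sum, mul_sum, sub_eq_add_neg,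
    ← neg_mul, mul_sum]
  congr 1
  · congr 1
    · refine sum_congr rfl fun t ht => ?_
      rw [mem_AP] at ht
      rw [wt, if_pos (by omega)]
      norm_num
    · refine sum_congr rfl fun t ht => ?_
      rw [mem_AP] at ht
      rw [wt, if_neg (by omega), if_pos (by omega)]
      norm_num
  · refine sum_congr rfl fun t ht => ?_
    rw [mem_AP] at ht
    rw [wt, if_neg (by omega), if_neg (by omega), if_pos (by omega)]
    norm_num

theorem lam_TT {T : ℕ} {x : ℤ} (h1 : -(10 * (T : ℤ)) ≤ x) (h2 : x ≤ 10 * T) :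
    (lam x : ℝ) = ∑ t ∈ TT T,
      (wt t : ℝ) * (((if t < x then 1 else 0) - if t < 0 then 1 else 0) / (x - t)) := by
  rw [lam_eq (R := 10 * T + 10) (by omega) (by omega), ← sum_subset (s₁ := TT T)]
  · push_cast
    refine sum_congr rfl fun t _ => ?_
    split_ifs <;> push_cast <;> ring
  · intro t ht
    rw [mem_TT] at ht
    rw [mem_Icc]
    omega
  · intro t _ ht
    by_cases h : wt t = 0
    · simp [h]
    rw [← Ne, wt_ne] at h
    rw [mem_TT] at ht
    rw [if_congr (show t < x ↔ t < 0 by omega) rfl rfl, sub_self, mul_zero, zero_div]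

/-- the difference between `lam` and the sum over the long progressions -/
noncomputable def D (T : ℕ) (x : ℤ) : ℝ :=
  (lam x : ℝ) - (∑ t ∈ TT T, (wt t : ℝ) * (sg x - sg t) / (x - t)) / 2

theorem D_eq {T : ℕ} {x : ℤ} (h1 : -(10 * (T : ℤ)) ≤ x) (h2 : x ≤ 10 * T) :
    D T x = ∑ t ∈ TT T,
      (wt t : ℝ) * (((if t < x then 1 else 0) - if x ≤ 0 then 1 else 0) / (x - t)) := by
  rw [D, lam_TT h1 h2, sum_div, ← sum_sub_distrib]
  refine sum_congr rfl fun t ht => ?_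
  rw [mem_TT] at ht
  have e : sg t = 2 * (if t < 0 then 1 else 0) - 1 := by
    unfold sg
    split_ifs <;> first | omega | norm_num
  have e' : sg x = 2 * (if x ≤ 0 then 1 else 0) - 1 := by
    unfold sg
    split_ifs <;> norm_num
  rw [e, e']
  ring

/-- the weighted finite sums -/
noncomputable def H (a b c : ℝ) (N : ℕ) : ℝ := -3 * G a N + 8 * G b N - 10 * G c N

theorem D_pos {T : ℕ} {x e : ℤ} {N : ℕ} (e1 : 0 ≤ e) (e2 : e ≤ 1) (h0 : 1 ≤ x)
    (h1 : (x + e) % 10 = 0) (h2 : x + e ≤ 10 * T) (h3 : x + e + 10 * T + 10 = 10 * N) :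
    D T x = H (3 - e) (5 - e) (9 - e) N := by
  rw [D_eq (by omega) (by omega), if_neg (by omega), sum_TT]
  simp only [sub_zero]
  rw [sum_pos (d := 3 - e) (N := N) (by omega) (by omega) (by omega) (by omega) (by omega),
    sum_pos (d := 5 - e) (N := N) (by omega) (by omega) (by omega) (by omega) (by omega),
    sum_pos (d := 9 - e) (N := N) (by omega) (by omega) (by omega) (by omega) (by omega), H]
  push_cast
  rfl

theorem D_neg {T : ℕ} {x e : ℤ} {N : ℕ} (e1 : 0 ≤ e) (e2 : e ≤ 1) (h0 : x ≤ 0)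
    (h1 : (x + e) % 10 = 0) (h2 : -(10 * (T : ℤ)) ≤ x) (h3 : 10 * T - (x + e) = 10 * N) :
    D T x = H (7 + e) (5 + e) (1 + e) N := by
  rw [D_eq (by omega) (by omega), if_pos h0, sum_TT]
  rw [sum_neg (d := 7 + e) (N := N) (by omega) (by omega) (by omega) (by omega) (by omega),
    sum_neg (d := 5 + e) (N := N) (by omega) (by omega) (by omega) (by omega) (by omega),
    sum_neg (d := 1 + e) (N := N) (by omega) (by omega) (by omega) (by omega) (by omega), H]
  push_cast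
  rfl

theorem H_sub {a b c a' b' c' B : ℝ} {N N' : ℕ} (h1 : |G a N - G a' N'| ≤ B)
    (h2 : |G b N - G b' N'| ≤ B) (h3 : |G c N - G c' N'| ≤ B) :
    |H a b c N - H a' b' c' N'| ≤ 21 * B := by
  rw [abs_le] at h1 h2 h3 ⊢
  unfold H
  constructor <;> linarith [h1.1, h1.2, h2.1, h2.2, h3.1, h3.2]

theorem G_far {d d' : ℝ} (h1 : 1 ≤ d) (h2 : d ≤ 11) (h1' : 1 ≤ d') (h2' : d' ≤ 11) {T N J : ℕ}
    (hT : 1 ≤ T) (hJ : J ≤ T) (h3 : T ≤ N) (h4 : N ≤ T + J) : |G d N - G d' T| ≤ 2 := by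
  have a1 := G_near h1 hT h3 h4
  have a2 := G_abs h1 h2 h1' h2' T
  have hT' : (0 : ℝ) < T := by exact_mod_cast hT
  have a3 : (J : ℝ) / T ≤ 1 := by
    rw [div_le_one hT']
    exact_mod_cast hJ
  have a4 := abs_sub_le (G d N) (G d T) (G d' T)
  linarith

end CstJ

open CstJ in
theorem stCst : StCst := by
  refine ⟨42, by norm_num, fun v η hη => ?_⟩
  obtain ⟨T, hT1, hT2⟩ : ∃ T : ℕ, 23 * v + 1 ≤ T ∧ 21 * (((23 * v + 1 : ℕ) : ℝ) / T) ≤ η := by
    obtain ⟨n, hn⟩ := exists_nat_ge (21 * ((23 * v + 1 : ℕ) : ℝ) / η)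
    refine ⟨n + (23 * v + 1), by omega, ?_⟩
    have h0 : (0 : ℝ) < ((n + (23 * v + 1) : ℕ) : ℝ) := by positivity
    have h1 : (n : ℝ) ≤ ((n + (23 * v + 1) : ℕ) : ℝ) := by exact_mod_cast Nat.le_add_right _ _
    rw [div_le_iff₀ hη] at hn
    rw [← mul_div_assoc, div_le_iff₀ h0]
    nlinarith
  have hT : 1 ≤ T := by omega
  set P := H 2 4 8 T with hP
  set Q := H 8 6 2 T with hQ
  have hs : ∀ x : ℤ, (Q - P) * sg x / 2 + (P + Q) / 2 = if x ≤ 0 then Q else P := by
    intro x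
    unfold sg
    split_ifs <;> ring
  refine ⟨T, Q - P, (P + Q) / 2,
    fun x => if x ∈ XA v then D T x - (if x ≤ 0 then Q else P) else 0, ?_, fun x => ?_,
    fun x hx => ?_⟩
  · have := H_sub (G_abs (d := 8) (d' := 2) (by norm_num) (by norm_num) (by norm_num)
      (by norm_num) T) (G_abs (d := 6) (d' := 4) (by norm_num) (by norm_num) (by norm_num)
      (by norm_num) T) (G_abs (d := 2) (d' := 8) (by norm_num) (by norm_num) (by norm_num)
      (by norm_num) T)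
    linarith
  · by_cases hx : x ∈ XA v
    · simp only [if_pos hx]
      rw [mem_XA] at hx
      have key : ∀ {a b c a' b' c' : ℝ} {N : ℕ}, 1 ≤ a → a ≤ 11 → 1 ≤ b → b ≤ 11 → 1 ≤ c →
          c ≤ 11 → 1 ≤ a' → a' ≤ 11 → 1 ≤ b' → b' ≤ 11 → 1 ≤ c' → c' ≤ 11 → T ≤ N →
          N ≤ T + (23 * v + 1) → |H a b c N - H a' b' c' T| ≤ 42 := by
        intro a b c a' b' c' N a1 a2 b1 b2 c1 c2 a3 a4 b3 b4 c3 c4 n1 n2
        have := H_sub (G_far a1 a2 a3 a4 hT hT1 n1 n2) (G_far b1 b2 b3 b4 hT hT1 n1 n2)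
          (G_far c1 c2 c3 c4 hT hT1 n1 n2)
        linarith
      by_cases h0 : x ≤ 0
      · rw [if_pos h0, D_neg (e := 0) (N := (T - x / 10).toNat) le_rfl (by norm_num) h0
          (by omega) (by omega) (by omega)]
        refine key ?_ ?_ ?_ ?_ ?_ ?_ ?_ ?_ ?_ ?_ ?_ ?_ (by omega) (by omega) <;> norm_num
      · rw [if_neg h0, D_pos (e := 0) (N := (T + x / 10 + 1).toNat) le_rfl (by norm_num)
          (by omega) (by omega) (by omega) (by omega)]
        refine key ?_ ?_ ?_ ?_ ?_ ?_ ?_ ?_ ?_ ?_ ?_ ?_ (by omega) (by omega) <;> norm_num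
    · simp only [if_neg hx]
      norm_num
  · have e : (lam x : ℝ) - ((∑ t ∈ TT T, (wt t : ℝ) * (sg x - sg t) / (x - t) +
        (Q - P) * sg x) / 2 + (P + Q) / 2 +
        if x ∈ XA v then (if x ∈ XA v then D T x - (if x ≤ 0 then Q else P) else 0) else 0) =
        D T x - (if x ≤ 0 then Q else P) -
          if x ∈ XA v then D T x - (if x ≤ 0 then Q else P) else 0 := by
      rw [← hs x]
      unfold D
      split_ifs <;> ring
    rw [e]
    by_cases hA : x ∈ XA v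
    · rw [if_pos hA, sub_self, abs_zero]
      exact hη.le
    rw [if_neg hA, sub_zero]
    have hB : x ∈ XB v := (mem_XX.1 hx).resolve_left hA
    rw [mem_XB] at hB
    have key : ∀ {a b c : ℝ} {N : ℕ}, 1 ≤ a → 1 ≤ b → 1 ≤ c → T ≤ N →
        N ≤ T + (23 * v + 1) → |H a b c N - H a b c T| ≤ η := by
      intro a b c N a1 b1 c1 n1 n2
      exact (H_sub (G_near a1 hT n1 n2) (G_near b1 hT n1 n2) (G_near c1 hT n1 n2)).trans hT2
    by_cases h0 : x ≤ 0
    · rw [if_pos h0, D_neg (e := 1) (N := (T - (x + 1) / 10).toNat) (by norm_num) le_rfl h0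
        (by omega) (by omega) (by omega), hQ]
      norm_num only [Int.cast_one]
      exact key (by norm_num) (by norm_num) (by norm_num) (by omega) (by omega)
    · rw [if_neg h0, D_pos (e := 1) (N := (T + (x + 1) / 10 + 1).toNat) (by norm_num) le_rfl
        (by omega) (by omega) (by omega) (by omega), hP]
      norm_num only [Int.cast_one]
      exact key (by norm_num) (by norm_num) (by norm_num) (by omega) (by omega)

end Pool.Agent.MP_760060_nt.W

end

section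

/-! Sums of inverses along a class mod ten, mod `p`. -/

open Finset Polynomial Filter Topology

namespace Pool.Agent.MP_760060_nt.W

namespace HresJ

theorem harm {a b : ℕ} (h : a ≤ b) :
    harmonic b - harmonic a = ∑ k ∈ Ioc a b, ((k : ℕ) : ℚ)⁻¹ := by
  induction b, h using Nat.le_induction with
  | base => simp
  | succ b h ih =>
    rw [sum_Ioc_succ_top h, harmonic_succ, ← ih]
    ring

theorem ten {p s : ℕ} (hp : Cop p) (hs : s ≤ 9) : s * p % 10 ≠ 0 ∨ s * p = 0 := by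
  unfold Cop at hp
  interval_cases s <;> omega

end HresJ

theorem stHres : StHres := by
  intro p e j c hp0 hp hje hc hj
  have h10 := HresJ.ten hp hje
  have h9 : (j + e) * p ≤ 9 * p := Nat.mul_le_mul_right p hje
  have hpp := hp0.out.pos
  rw [add_mul] at h10 h9 ⊢
  obtain ⟨P, hP⟩ : ∃ P, P = j * p := ⟨_, rfl⟩
  obtain ⟨Q, hQ⟩ : ∃ Q, Q = e * p := ⟨_, rfl⟩
  rw [← hP, ← hQ] at h10 h9 ⊢
  rw [← hP] at hj
  have e1 : ∑ k ∈ Ioc (P / 10) ((P + Q) / 10), ((k : ℕ) : ℚ)⁻¹ =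
      ∑ m ∈ (Ioo 0 Q).filter (fun m => m % 10 = c), (((P + m) / 10 : ℕ) : ℚ)⁻¹ := by
    refine (sum_nbij' (fun m => (P + m) / 10) (fun k => 10 * k - P) ?_ ?_ ?_ ?_ ?_).symm
    · intro m hm
      simp only [mem_filter, mem_Ioo, mem_Ioc] at hm ⊢
      omega
    · intro k hk
      simp only [mem_filter, mem_Ioo, mem_Ioc] at hk ⊢
      omega
    · intro m hm
      simp only [mem_filter, mem_Ioo] at hm ⊢
      omega
    · intro k hk
      simp only [mem_Ioc] at hk ⊢
      omega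
    · intro m _
      rfl
  rw [HresJ.harm (by omega), e1, mul_sum, ← sum_sub_distrib]
  refine Vb.sum fun m hm => ?_
  simp only [mem_filter, mem_Ioo] at hm
  obtain ⟨k, hk⟩ : ∃ k, k = (P + m) / 10 := ⟨_, rfl⟩
  rw [← hk]
  have k1 : 10 * k = P + m := by omega
  have k2 : ¬ (p : ℤ) ∣ 10 * (k : ℤ) := fun h => by
    rcases (Nat.prime_iff_prime_int.1 hp0.out).dvd_or_dvd h with h | h
    · exact hp.not_dvd hp0.out h
    · have := Nat.le_of_dvd (by omega) (Int.natCast_dvd_natCast.1 h)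
      omega
  have k3 : (p : ℤ) ∣ 10 * (k : ℤ) - m := by
    refine ⟨j, ?_⟩
    have : (10 * k : ℤ) = j * p + m := by exact_mod_cast hP ▸ k1
    linear_combination this
  have k4 := (vb_nat (p := p) 10).mul0 (vb_inv_sub k2 k3).neg
  have k0 : (k : ℚ) ≠ 0 := by exact_mod_cast (by omega : k ≠ 0)
  have e2 : 10 * ((m : ℕ) : ℚ)⁻¹ - ((k : ℕ) : ℚ)⁻¹ =
      ((10 : ℕ) : ℚ) * -(((10 * (k : ℤ) : ℤ) : ℚ)⁻¹ - (((m : ℕ) : ℤ) : ℚ)⁻¹) := by
    push_cast
    field_simp
    ring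
  rw [e2]
  exact k4

end Pool.Agent.MP_760060_nt.W

end

section

/-! Two congruences for harmonic numbers. -/

namespace Pool.Agent.MP_760060_nt.W

namespace HsJ

variable {p : ℕ} [hp : Fact p.Prime]

theorem pair {a b : ℕ} (hb : 0 < b) (ha : 0 < a) (h : a + b = p) :
    Vb p (-1) ((a : ℚ)⁻¹ + (b : ℚ)⁻¹) := by
  have hm : ¬ (p : ℤ) ∣ (a : ℤ) := fun hd =>
    absurd (Nat.le_of_dvd ha (Int.natCast_dvd_natCast.1 hd)) (by omega)
  have hd : (p : ℤ) ∣ (a : ℤ) - (-(b : ℤ)) := ⟨1, by rw [← h]; push_cast; ring⟩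
  have := vb_inv_sub hm hd
  simpa [sub_eq_add_neg] using this

theorem first_aux (n : ℕ) (hn : n < p) :
    Vb p (-1) (harmonic (p - 1) - (harmonic (p - 1 - n) - harmonic n)) := by
  induction n with
  | zero => simpa using vb_zero (p := p) (-1)
  | succ n ih =>
    obtain ⟨m, hm⟩ : ∃ m, p - 1 - n = m + 1 := ⟨p - 2 - n, by omega⟩
    have e : p - 1 - (n + 1) = m := by omega
    have h1 := ih (by omega)
    have h2 := pair (p := p) (a := m + 1) (b := n + 1) (by omega) (by omega) (by omega)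
    rw [hm, harmonic_succ] at h1
    rw [e, harmonic_succ]
    convert h1.add h2 using 1
    ring

theorem first (h2 : p ≠ 2) (n : ℕ) (hn : n < p) :
    Vb p (-1) (harmonic (p - 1 - n) - harmonic n) := by
  obtain ⟨k, hk⟩ := hp.out.odd_of_ne_two h2
  have h0 := first_aux (p := p) k (by omega)
  have e : p - 1 - k = k := by omega
  rw [e, sub_self, sub_zero] at h0
  convert h0.sub (first_aux n hn) using 1
  ring

theorem second (h2 : p ≠ 2) (n : ℕ) (hn : n < p) :
    Vb p (-1) (2 * harmonic n - harmonic (n / 2) + harmonic (p / 2) -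
      harmonic ((p - 1 - n) / 2)) := by
  obtain ⟨k, hk⟩ := hp.out.odd_of_ne_two h2
  induction n with
  | zero =>
    have e : (p - 1 - 0) / 2 = p / 2 := by omega
    rw [e]
    simpa using vb_zero (p := p) (-1)
  | succ n ih =>
    have h1 := ih (by omega)
    rcases Nat.even_or_odd' n with ⟨l, rfl | rfl⟩
    · obtain ⟨m, hm⟩ : ∃ m, k = l + m + 1 := ⟨k - l - 1, by omega⟩
      have e1 : (2 * l + 1) / 2 = 2 * l / 2 := by omega
      have e2 : (p - 1 - 2 * l) / 2 = m + 1 := by omega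
      have e3 : (p - 1 - (2 * l + 1)) / 2 = m := by omega
      have h3 := (vb_nat (p := p) 2).mul0
        (pair (p := p) (a := 2 * l + 1) (b := 2 * (m + 1)) (by omega) (by omega) (by omega))
      rw [e2, harmonic_succ] at h1
      rw [e1, e3, harmonic_succ]
      convert h1.add h3 using 1
      have : ((m : ℚ) + 1) ≠ 0 := by positivity
      push_cast
      field_simp
      ring
    · have e1 : (2 * l + 1 + 1) / 2 = l + 1 := by omega
      have e2 : (2 * l + 1) / 2 = l := by omega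
      have e3 : (p - 1 - (2 * l + 1 + 1)) / 2 = (p - 1 - (2 * l + 1)) / 2 := by omega
      rw [e2] at h1
      rw [e1, e3, harmonic_succ (2 * l + 1), harmonic_succ l]
      convert h1 using 1
      have : ((l : ℚ) + 1) ≠ 0 := by positivity
      have h4 : (2 * (l : ℚ) + 1 + 1) ≠ 0 := by positivity
      push_cast
      field_simp
      ring

end HsJ

theorem stHs : StHs := fun _ n _ h2 hn => ⟨HsJ.first h2 n hn, HsJ.second h2 n hn⟩

end Pool.Agent.MP_760060_nt.W

end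

section

/-! The truncated sum on the line is of polynomial size. -/

open Finset Polynomial Filter Topology

namespace Pool.Agent.MP_760060_nt.W

namespace JTJ

theorem pair (w : ℂ) (M i : ℝ) (h1 : 1 / 2 ≤ w.re) (h2 : w.re ≤ 19 / 2) (hM : ‖w‖ ≤ M)
    (hi : 1 ≤ i) : ‖1 / (w - 10 * i) + 1 / (w + 10 * i)‖ ≤ 2 * M / (9 * i ^ 2) := by
  have a1 : 10 * i - w.re ≤ ‖w - 10 * i‖ := by
    have := Complex.abs_re_le_norm (w - 10 * i)
    have e : (w - 10 * i).re = w.re - 10 * i := by simp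
    rw [e] at this
    linarith [neg_abs_le (w.re - 10 * i)]
  have a2 : 10 * i + w.re ≤ ‖w + 10 * i‖ := by
    have := Complex.abs_re_le_norm (w + 10 * i)
    have e : (w + 10 * i).re = w.re + 10 * i := by simp
    rw [e] at this
    linarith [le_abs_self (w.re + 10 * i)]
  have p1 : 0 < 10 * i - w.re := by linarith
  have p2 : 0 < 10 * i + w.re := by linarith
  have n1 : w - 10 * i ≠ 0 := norm_pos_iff.1 (p1.trans_le a1)
  have n2 : w + 10 * i ≠ 0 := norm_pos_iff.1 (p2.trans_le a2)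
  have e : 1 / (w - 10 * i) + 1 / (w + 10 * i) = 2 * w / ((w - 10 * i) * (w + 10 * i)) := by
    field_simp
    ring
  rw [e, norm_div, norm_mul, norm_mul, Complex.norm_two]
  have a3 := mul_le_mul a1 a2 p2.le (norm_nonneg _)
  have a4 : 9 * i ^ 2 ≤ (10 * i - w.re) * (10 * i + w.re) := by nlinarith
  exact div_le_div₀ (by linarith [norm_nonneg w]) (by linarith) (by positivity) (a4.trans a3)

theorem sym (w : ℂ) (M : ℝ) (h1 : 1 / 2 ≤ w.re) (h2 : w.re ≤ 19 / 2) (hM : ‖w‖ ≤ M) (T : ℕ) :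
    ‖∑ i ∈ Icc (-(T : ℤ)) T, 1 / (w - 10 * (i : ℂ))‖ ≤ 2 + 4 / 9 * M * (1 - 1 / ((T : ℝ) + 1)) := by
  have hM0 : 0 ≤ M := (norm_nonneg _).trans hM
  induction T with
  | zero =>
    have a : 1 / 2 ≤ ‖w‖ := h1.trans ((le_abs_self _).trans (Complex.abs_re_le_norm w))
    simp only [Nat.cast_zero, neg_zero, Icc_self, sum_singleton, Int.cast_zero, mul_zero, sub_zero,
      norm_div, norm_one, zero_add, div_one, sub_self, add_zero]
    rw [div_le_iff₀ (by linarith)]
    linarith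
  | succ T ih =>
    have e : Icc (-((T + 1 : ℕ) : ℤ)) ((T + 1 : ℕ) : ℤ) =
        insert ((T : ℤ) + 1) (insert (-((T : ℤ) + 1)) (Icc (-(T : ℤ)) T)) := by
      ext x
      simp only [mem_Icc, mem_insert]
      omega
    have hT : (0 : ℝ) ≤ T := Nat.cast_nonneg T
    rw [e, sum_insert (by simp only [mem_Icc, mem_insert]; omega),
      sum_insert (by simp only [mem_Icc]; omega), ← add_assoc]
    have h3 := pair w M ((T : ℝ) + 1) h1 h2 hM (by linarith)
    have e2 : 1 / (w - 10 * (((T : ℤ) + 1 : ℤ) : ℂ)) + 1 / (w - 10 * ((-((T : ℤ) + 1) : ℤ) : ℂ)) =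
        1 / (w - 10 * (((T : ℝ) + 1 : ℝ) : ℂ)) + 1 / (w + 10 * (((T : ℝ) + 1 : ℝ) : ℂ)) := by
      push_cast
      ring_nf
    rw [e2]
    refine (norm_add_le _ _).trans ((add_le_add h3 ih).trans ?_)
    have h4 : 2 * M / (9 * ((T : ℝ) + 1) ^ 2) ≤
        4 / 9 * M * (1 / ((T : ℝ) + 1) - 1 / ((T : ℝ) + 1 + 1)) := by
      have e3 : 4 / 9 * M * (1 / ((T : ℝ) + 1) - 1 / ((T : ℝ) + 1 + 1)) =
          2 * M / (9 * (((T : ℝ) + 1) * ((T : ℝ) + 2) / 2)) := by
        field_simp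
        ring
      rw [e3]
      exact div_le_div_of_nonneg_left (by linarith) (by positivity) (by nlinarith)
    push_cast
    linarith

theorem ap (c : ℤ) (a : ℝ) (h0 : 0 ≤ c) (h9 : c ≤ 9) (T : ℕ) (ξ : ℝ)
    (ha : ∀ t ∈ AP c T, ((wt t : ℤ) : ℝ) = a) :
    ‖∑ t ∈ AP c T, (((wt t : ℤ) : ℝ) : ℂ) / (zl ξ - t)‖ ≤ |a| * (2 + 4 / 9 * (10 + |ξ|)) := by
  have c0 : (0 : ℝ) ≤ c := by exact_mod_cast h0
  have c9 : (c : ℝ) ≤ 9 := by exact_mod_cast h9
  have hre : (zl ξ + c).re = 1 / 2 + c := by simp [zl]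
  have him : (zl ξ + c).im = ξ := by simp [zl]
  have hM : ‖zl ξ + c‖ ≤ 10 + |ξ| := by
    have := Complex.norm_le_abs_re_add_abs_im (zl ξ + c)
    rw [hre, him, abs_of_nonneg (by linarith)] at this
    linarith
  have h1 := sym (zl ξ + c) (10 + |ξ|) (by linarith) (by linarith) hM T
  have e : ∑ t ∈ AP c T, (((wt t : ℤ) : ℝ) : ℂ) / (zl ξ - t) =
      (a : ℂ) * ∑ i ∈ Icc (-(T : ℤ)) T, 1 / (zl ξ + c - 10 * (i : ℂ)) := by
    rw [sum_congr rfl fun t ht => by rw [ha t ht], AP, sum_image fun x _ y _ h => AP_inj c h,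
      mul_sum]
    refine sum_congr rfl fun i _ => ?_
    push_cast
    rw [mul_one_div]
    congr 1
    ring
  rw [e, norm_mul, Complex.norm_real, Real.norm_eq_abs]
  refine mul_le_mul_of_nonneg_left (h1.trans ?_) (abs_nonneg _)
  have h2 : (0 : ℝ) ≤ 1 / ((T : ℝ) + 1) := by positivity
  have h3 : (0 : ℝ) ≤ 4 / 9 * (10 + |ξ|) := by positivity
  nlinarith

end JTJ

theorem stJT : StJT := by
  intro T ξ
  rw [TT, sum_union (disj_359 _ _ _), sum_union (disj_35 _ _)]
  have h3 := JTJ.ap 3 (-3) (by norm_num) (by norm_num) T ξ fun t ht => by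
    rw [mem_AP] at ht
    rw [wt, if_pos (by omega)]
    norm_num
  have h5 := JTJ.ap 5 8 (by norm_num) (by norm_num) T ξ fun t ht => by
    rw [mem_AP] at ht
    rw [wt, if_neg (by omega), if_pos (by omega)]
    norm_num
  have h9 := JTJ.ap 9 (-10) (by norm_num) (by norm_num) T ξ fun t ht => by
    rw [mem_AP] at ht
    rw [wt, if_neg (by omega), if_neg (by omega), if_pos (by omega)]
    norm_num
  refine (norm_add_le _ _).trans ((add_le_add ((norm_add_le _ _).trans (add_le_add h3 h5)) h9).trans ?_)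
  have a1 : |(-3 : ℝ)| = 3 := by norm_num
  have a2 : |(8 : ℝ)| = 8 := by norm_num
  have a3 : |(-10 : ℝ)| = 10 := by norm_num
  rw [a1, a2, a3]
  have a4 : |ξ| ≤ 1 + ξ ^ 2 := by nlinarith [sq_abs ξ, sq_nonneg (|ξ| - 1)]
  nlinarith [sq_nonneg ξ]

end Pool.Agent.MP_760060_nt.W

end

section

/-! The Fermat quotient of ten as a sum of harmonic numbers. -/

open Finset Polynomial Filter Topology

namespace Pool.Agent.MP_760060_nt.W

namespace LerJ

variable {p : ℕ} [hp : Fact p.Prime]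

theorem vb_p : Vb p (-1) (p : ℚ) := by simpa using vb_dvd (p := p) (n := p) dvd_rfl

theorem prod_one_add (s : Finset ℕ) (a : ℕ → ℚ) (h : ∀ k ∈ s, Vb p 0 (a k)) :
    Vb p (-2) (∏ k ∈ s, (1 + p * a k) - 1 - p * ∑ k ∈ s, a k) := by
  induction s using Finset.induction_on with
  | empty => simpa using vb_zero _
  | insert i s hi ih =>
    have h1 := h i (mem_insert_self _ _)
    have h2 : ∀ k ∈ s, Vb p 0 (a k) := fun k hk => h k (mem_insert_of_mem hk)
    rw [prod_insert hi, sum_insert hi, show (1 + p * a i) * ∏ k ∈ s, (1 + p * a k) - 1 -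
      p * (a i + ∑ k ∈ s, a k) = (1 + p * a i) * (∏ k ∈ s, (1 + p * a k) - 1 - p * ∑ k ∈ s, a k) +
        a i * ((∑ k ∈ s, a k) * (p * p)) by ring]
    exact ((vb_one.add ((vb_nat p).mul0 h1)).mul0 (ih h2)).add
      (h1.mul0 ((Vb.sum h2).mul0 ((vb_p.mul vb_p).mono (by norm_num))))

theorem not_dvd (h : Cop p) {k : ℕ} (hk : k ∈ Ico 1 p) : ¬ p ∣ 10 * k := fun hd => by
  rw [mem_Ico] at hk
  rcases (Nat.Prime.dvd_mul hp.out).1 hd with h1 | h1
  · exact h.not_dvd hp.out (by exact_mod_cast h1)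
  · exact absurd (Nat.le_of_dvd hk.1 h1) (not_le.2 hk.2)

theorem mem_r (h : Cop p) {k : ℕ} (hk : k ∈ Ico 1 p) : 10 * k % p ∈ Ico 1 p :=
  mem_Ico.2 ⟨Nat.pos_of_ne_zero fun h0 => not_dvd h hk (Nat.dvd_of_mod_eq_zero h0),
    Nat.mod_lt _ hp.out.pos⟩

omit hp in
theorem inj_r (h : Cop p) : Set.InjOn (fun k => 10 * k % p) (Ico 1 p : Finset ℕ) :=
  fun a ha b hb hab => by
    rw [mem_coe, mem_Ico] at ha hb
    have hc : Nat.Coprime p 10 := Nat.isCoprime_iff_coprime.1 (by exact_mod_cast h.isCoprime)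
    exact Nat.ModEq.eq_of_lt_of_lt (Nat.ModEq.cancel_left_of_coprime hc hab) ha.2 hb.2

theorem image_r (h : Cop p) : (Ico 1 p).image (fun k => 10 * k % p) = Ico 1 p :=
  eq_of_subset_of_card_le (fun _ hx => by
    obtain ⟨k, hk, rfl⟩ := mem_image.1 hx
    exact mem_r h hk) (card_image_of_injOn (inj_r h)).ge

theorem unit_r (h : Cop p) {k : ℕ} (hk : k ∈ Ico 1 p) : ¬ (p : ℤ) ∣ (10 * k % p : ℕ) := fun hd => by
  have h1 := mem_Ico.1 (mem_r h hk)
  exact absurd (Nat.le_of_dvd h1.1 (Int.natCast_dvd_natCast.1 hd)) (not_le.2 h1.2)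

theorem inv_r (h : Cop p) {k : ℕ} (hk : k ∈ Ico 1 p) :
    Vb p (-1) (10 * ((10 * k % p : ℕ) : ℚ)⁻¹ - (k : ℚ)⁻¹) := by
  have h1 := vb_inv_sub (n := (10 * k : ℕ)) (unit_r h hk) (Nat.mod_modEq (10 * k) p).symm.dvd
  have h2 := (vb_nat 10).mul0 h1
  rw [Int.cast_natCast, Int.cast_natCast, Nat.cast_mul, mul_inv, mul_sub,
    mul_inv_cancel_left₀ (by norm_num)] at h2
  exact_mod_cast h2

theorem pow_eq (h : Cop p) : (10 : ℚ) ^ (p - 1) =
    ∏ k ∈ Ico 1 p, (1 + p * (((10 * k / p : ℕ) : ℚ) * ((10 * k % p : ℕ) : ℚ)⁻¹)) := by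
  have h0 : ∀ k ∈ Ico 1 p, (k : ℚ) ≠ 0 := fun k hk => by
    have := (mem_Ico.1 hk).1
    positivity
  have h1 : ∏ k ∈ Ico 1 p, (k : ℚ) = ∏ k ∈ Ico 1 p, ((10 * k % p : ℕ) : ℚ) := by
    conv_lhs => rw [← image_r h, prod_image (inj_r h)]
  refine mul_right_cancel₀ (prod_ne_zero_iff.2 h0) ?_
  conv_rhs => rw [h1, ← prod_mul_distrib]
  rw [← Nat.card_Ico 1 p, ← prod_const, ← prod_mul_distrib]
  refine prod_congr rfl fun k hk => ?_
  have h2 := h0 _ (mem_r h hk)
  have h3 : ((10 * k % p : ℕ) : ℚ) + p * (10 * k / p : ℕ) = 10 * k := by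
    exact_mod_cast Nat.mod_add_div (10 * k) p
  rw [← h3]
  field_simp

theorem q_eq (h : Cop p) {k : ℕ} (hk : k ∈ Ico 1 p) :
    10 * k / p = #((Icc 1 9).filter fun j => j * p / 10 < k) := by
  have h1 := mem_Ico.1 hk
  have e : ((Icc 1 9).filter fun j => j * p / 10 < k) = Icc 1 (10 * k / p) := by
    ext j
    rw [mem_filter, mem_Icc, mem_Icc, Nat.le_div_iff_mul_le hp.out.pos]
    have h2 : j * p ≠ 10 * k := fun h2 => not_dvd h hk (h2 ▸ dvd_mul_left p j)
    refine ⟨fun h3 => ⟨h3.1.1, by omega⟩, fun h3 => ⟨⟨h3.1, ?_⟩, by omega⟩⟩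
    by_contra h4
    have := Nat.mul_le_mul_right p (show 10 ≤ j by omega)
    omega
  rw [e, Nat.card_Icc, Nat.add_sub_cancel]

theorem sum_q (h : Cop p) : ∑ j ∈ Icc 1 9, harmonic (j * p / 10) =
    9 * ∑ k ∈ Ico 1 p, (k : ℚ)⁻¹ - ∑ k ∈ Ico 1 p, ((10 * k / p : ℕ) : ℚ) * (k : ℚ)⁻¹ := by
  have e : ∀ j ∈ Icc 1 9, harmonic (j * p / 10) =
      ∑ k ∈ Ico 1 p, ((k : ℚ)⁻¹ - if j * p / 10 < k then (k : ℚ)⁻¹ else 0) := fun j hj => by
    have h1 := Nat.mul_le_mul_right p (mem_Icc.1 hj).2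
    have h2 := hp.out.pos
    rw [sum_sub_distrib, ← sum_filter, eq_sub_iff_add_eq', harmonic_eq_sum_Icc,
      ← sum_filter_add_sum_filter_not (Ico 1 p) (fun k => j * p / 10 < k)]
    congr 2
    ext k
    simp only [mem_filter, mem_Icc, mem_Ico]
    omega
  rw [sum_congr rfl e, sum_comm, mul_sum, ← sum_sub_distrib]
  refine sum_congr rfl fun k hk => ?_
  rw [sum_sub_distrib, ← sum_filter, sum_const, sum_const, q_eq h hk]
  simp

end LerJ

open LerJ in
theorem stLer : StLer := by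
  intro p hp h hW
  have h1 : Vb p (-2) ((10 : ℚ) ^ (p - 1) - 1) := by
    have h2 : (p : ℤ) ^ 2 ∣ 10 ^ (p - 1) - 1 := by
      have h3 := Int.natCast_dvd_natCast.2 hW
      rwa [Nat.cast_sub (Nat.one_le_pow _ _ (by norm_num))] at h3
    exact_mod_cast vb_pow_dvd h2
  have h2 := prod_one_add (p := p) (Ico 1 p) _ fun k hk =>
    (vb_nat (10 * k / p)).mul0 (vb_inv_unit (unit_r h hk))
  simp only [Int.cast_natCast] at h2
  rw [← pow_eq h] at h2
  have h3 := h1.sub h2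
  rw [sub_sub_cancel] at h3
  have hp0 : (p : ℚ) ≠ 0 := by exact_mod_cast hp.out.ne_zero
  have h4 : Vb p (1 : ℕ) ((p : ℤ) : ℚ)⁻¹ := vb_inv_lt (by
    have : (2 : ℤ) ≤ p := by exact_mod_cast hp.out.two_le
    rw [abs_of_nonneg (by positivity), pow_succ, pow_one]
    nlinarith)
  have h5 := (vb_nat 10).mul0 (h4.mul h3)
  rw [Int.cast_natCast, inv_mul_cancel_left₀ hp0] at h5
  have h6 := Vb.sum fun k hk => (vb_nat (10 * k / p)).mul0 (inv_r h hk)
  have h7 := Vb.sum fun k hk => inv_r h hk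
  have h8 : ∑ k ∈ Ico 1 p, (k : ℚ)⁻¹ = ∑ k ∈ Ico 1 p, ((10 * k % p : ℕ) : ℚ)⁻¹ := by
    conv_lhs => rw [← image_r h, sum_image (inj_r h)]
  rw [sum_sub_distrib, ← mul_sum, ← h8] at h7
  have h9 := (h7.add h6).sub (h5.mono (by norm_num))
  rw [sum_q h]
  convert h9 using 1
  simp only [mul_sub, sum_sub_distrib, mul_left_comm _ (10 : ℚ), ← mul_sum]
  push_cast
  ring

end Pool.Agent.MP_760060_nt.W

end

section

/-! The fixed point logarithm. -/

open Finset Polynomial Filter Topology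

namespace Pool.Agent.MP_760060_nt.W

namespace LnJ

theorem ser_near (a b : ℕ) (hb : 0 < b) (h : 3 * a ≤ b) :
    |1000000000000 * Real.log ((1 + (a : ℝ) / b) / (1 - a / b)) - ser a b| ≤ 160000 := by
  have b0 : (0 : ℝ) < b := by exact_mod_cast hb
  have x0 : (0 : ℝ) ≤ a / b := by positivity
  have x1 : (a : ℝ) / b ≤ 1 / 3 := by
    rw [div_le_div_iff₀ b0 (by norm_num)]
    exact_mod_cast (by omega)
  have h1 := Real.sum_range_le_log_div x0 (by linarith) 7
  have h2 := Real.log_div_le_sum_range_add x0 (by linarith) 7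
  have e : ser a b =
      ⌊2000000000000 * ∑ i ∈ range 7, ((a : ℝ) / b) ^ (2 * i + 1) / (2 * i + 1)⌋₊ := by
    rw [ser, ← Nat.floor_div_eq_div (K := ℝ)]
    congr 1
    simp only [sum_range_succ, sum_range_zero]
    push_cast
    field_simp
    ring
  have h3 : ((a : ℝ) / b) ^ (2 * 7 + 1) / (1 - (a / b) ^ 2) ≤
      (1 / 3) ^ (2 * 7 + 1) / (1 - (1 / 3) ^ 2) := by
    gcongr
  have h4 : 0 ≤ ∑ i ∈ range 7, ((a : ℝ) / b) ^ (2 * i + 1) / (2 * i + 1) := by positivity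
  rw [e]
  generalize ∑ i ∈ range 7, ((a : ℝ) / b) ^ (2 * i + 1) / (2 * i + 1) = s at *
  have h5 := Nat.floor_le (a := 2000000000000 * s) (by positivity)
  have h6 := Nat.lt_floor_add_one (2000000000000 * s)
  norm_num at h3
  rw [abs_le]
  constructor <;> linarith

end LnJ

theorem stLn : StLn := by
  intro n h1 h2
  have a1 := Nat.log2_self_le (n := n) (by omega)
  have a2 := Nat.lt_log2_self (n := n)
  have a3 : n.log2 < 30 := (Nat.log2_lt (by omega)).2 (by omega)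
  have h := LnJ.ser_near (n - 2 ^ n.log2) (n + 2 ^ n.log2) (by omega) (by rw [pow_succ] at a2; omega)
  have n0 : (0 : ℝ) < n := by exact_mod_cast h1
  have e : (1 + ((n - 2 ^ n.log2 : ℕ) : ℝ) / (n + 2 ^ n.log2 : ℕ)) /
      (1 - ((n - 2 ^ n.log2 : ℕ) : ℝ) / (n + 2 ^ n.log2 : ℕ)) = n / 2 ^ n.log2 := by
    rw [Nat.cast_sub a1]
    push_cast
    rw [one_add_div (by positivity), one_sub_div (by positivity),
      div_div_div_cancel_right₀ (by positivity), div_eq_div_iff (by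
        rw [add_sub_sub_cancel]; positivity) (by positivity)]
    ring
  rw [e, Real.log_div n0.ne' (by positivity), Real.log_pow, abs_le] at h
  have l := abs_le.1 Real.log_two_near_10
  have k0 : (0 : ℝ) ≤ n.log2 := Nat.cast_nonneg _
  have k1 : (n.log2 : ℝ) ≤ 30 := by exact_mod_cast a3.le
  rw [lnC, abs_le]
  push_cast
  constructor <;> nlinarith

end Pool.Agent.MP_760060_nt.W

end

section

/-! Two points of a class that are not polar for the same cut. -/

open Finset Polynomial Filter Topology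

namespace Pool.Agent.MP_760060_nt.W

namespace PairJ

theorem asym {p : ℕ} {ξ x x' : ℤ} (hp : Cop p) (hlt : x < x') (hx : x % 10 = 0 ∨ x % 10 = 9)
    (hx' : x' % 10 = 0 ∨ x' % 10 = 9) (hd : (p : ℤ) ∣ x' - x) (h1 : NP p (fun _ => ξ) x)
    (h2 : NP p (fun _ => ξ) x') :
    (x % 10 = 0 ∧ x' = x + dl p * p) ∨ (x' % 10 = 0 ∧ x = x' + dl p * p) := by
  obtain ⟨j, hj⟩ := hd
  obtain rfl : x' = x + p * j := by linarith
  have hp0 : (0 : ℤ) < p := by
    unfold Cop at hp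
    omega
  have j0 : 0 < j := by
    by_contra h
    nlinarith
  have key : ∀ i : ℤ, 0 ≤ i → i < j →
      ¬ ((x + p * i) % 10 = 7 ∨ (x + p * i) % 10 = 5 ∨ (x + p * i) % 10 = 1) := by
    intro i i0 ij hw
    have a1 := h1 (x + p * i) ⟨-i, by ring⟩ (wt_ne.2 hw)
    have a2 := h2 (x + p * i) ⟨j - i, by ring⟩ (wt_ne.2 hw)
    have a3 : x + p * i < x + p * j := by nlinarith
    have a4 := a1.2 (a2.1 a3)
    nlinarith
  have ub : ∀ i : ℤ, 0 ≤ i →
      ((x + p * i) % 10 = 7 ∨ (x + p * i) % 10 = 5 ∨ (x + p * i) % 10 = 1) → j ≤ i :=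
    fun i i0 hw => not_lt.1 fun ij => key i i0 ij hw
  clear key h1 h2 hj hlt
  rcases hp with hp | hp | hp | hp <;> rcases hx with hx | hx
  · have := ub 1 (by decide) (by omega)
    clear ub; interval_cases j; omega
  · have := ub 2 (by decide) (by omega)
    have hd : dl p = -1 := by simp [dl, hp]
    clear ub; rw [hd]; interval_cases j <;> omega
  · have := ub 5 (by decide) (by omega)
    have hd : dl p = 3 := by simp [dl, hp]
    clear ub; rw [hd]; interval_cases j <;> omega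
  · have := ub 2 (by decide) (by omega)
    clear ub; interval_cases j <;> omega
  · have := ub 1 (by decide) (by omega)
    clear ub; interval_cases j; omega
  · have := ub 4 (by decide) (by omega)
    have hd : dl p = -3 := by simp [dl, hp]
    clear ub; rw [hd]; interval_cases j <;> omega
  · have := ub 3 (by decide) (by omega)
    have hd : dl p = 1 := by simp [dl, hp]
    clear ub; rw [hd]; interval_cases j <;> omega
  · have := ub 2 (by decide) (by omega)
    clear ub; interval_cases j <;> omega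

end PairJ

theorem stPair : StPair := by
  intro p ξ x x' hp hne hx hx' hd h1 h2
  rcases lt_or_gt_of_ne hne with h | h
  · exact PairJ.asym hp h hx hx' (dvd_sub_comm.1 hd) h1 h2
  · exact (PairJ.asym hp h hx' hx hd h2 h1).symm

end Pool.Agent.MP_760060_nt.W

end
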