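import Pool.Agent.MP_760060_nt.W.Stm

section

/-! The real size of the determinant in the Lagrange basis. -/

open Finset Polynomial Filter Topology

namespace Pool.Agent.MP_760060_nt.W

theorem stDK (hDR : StDR) (hK0 : StK0) (hApt : StApt) (hSA : StSA) (hUs : StUs) : StDK := by
  obtain ⟨K0, h0⟩ := hK0
  obtain ⟨K1, h1⟩ := hApt
  obtain ⟨K3, h3⟩ := hSA
  refine ⟨180 * (8 + K0) + |K3| + 201 * |1 + K1 - K0|, ?_⟩
  filter_upwards [h0, h1, eventually_ge_atTop 1000] with u h0 h1 hu y hy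
  obtain ⟨M, a, ha, hM, hK⟩ := h0 y hy
  have hU : (1000 : ℝ) ≤ u := by exact_mod_cast hu
  have hE : Real.exp (Real.log u) = u := Real.exp_log (by linarith)
  have hL : 1 ≤ Real.log u := by
    rw [Real.le_log_iff_exp_le (by linarith)]
    linarith [Real.exp_one_lt_three]
  have h3 := h3 u (by omega)
  have h1 := h1 y hy
  generalize Real.log u = L at *
  have hE2 : Real.exp (2 * L) = u * u := by rw [two_mul, Real.exp_add, hE]
  have hS : #(XA (10 * u)) = 200 * u + 1 := by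
    rw [XA, card_AP]
    ring
  have hc : Fintype.card (Fin (90 * u) × Fin 2) = 180 * u := by
    simp only [Fintype.card_prod, Fintype.card_fin]
    ring
  have key := hDR _ (XA (10 * u)) M (fun s => a s * gA u y s) (fun s i => Us u s i) _ (1000 * u)
    (Real.exp_pos _) (by linarith) hM fun s hs i => by exact_mod_cast (hUs u s i hs).2.1
  have e : ((KK (10 * u) y (Bs u)).det : ℝ) = (Matrix.of fun i j => M i j +
      ∑ s ∈ XA (10 * u), a s * gA u y s * Us u s i * Us u s j).det := by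
    rw [show ((KK (10 * u) y (Bs u)).det : ℝ) = _ from RingHom.map_det (Rat.castHom ℝ) _]
    congr 1
    ext i j
    exact hK i j
  rw [e]
  refine key.trans ?_
  rw [hc, hS]
  have b1 : ((180 * u).factorial : ℝ) ≤ Real.exp (2 * L) ^ (180 * u) := by
    refine le_trans (by exact_mod_cast Nat.factorial_le_pow _) (pow_le_pow_left₀
      (a := ((180 * u : ℕ) : ℝ)) (Nat.cast_nonneg _) ?_ _)
    rw [hE2]
    push_cast
    nlinarith
  have b2 : ((200 * u + 1 : ℕ) : ℝ) + 1 ≤ Real.exp (2 * L) := by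
    rw [hE2]
    push_cast
    nlinarith
  have b3 : (1000 * (u : ℝ)) ^ 2 ≤ Real.exp (2 * L) ^ 2 := by
    rw [hE2]
    gcongr
  have b4 : ∏ s ∈ XA (10 * u), max 1 (|a s * gA u y s| / Real.exp (u * t0 - 40 * u * L + K0 * L)) ≤
      Real.exp (u * (8940 * u + K3) + (200 * u + 1) * (|1 + K1 - K0| * L)) := by
    calc _ ≤ ∏ s ∈ XA (10 * u),
          Real.exp (u * max 0 (ph (|(s : ℝ)| / u) 0 - t0) + |1 + K1 - K0| * L) := by
          refine prod_le_prod (fun s _ => by positivity) fun s hs => max_le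
            (Real.one_le_exp (by positivity)) ?_
          rw [div_le_iff₀ (Real.exp_pos _), abs_mul]
          refine (mul_le_mul ((ha s).trans hE.ge) (h1 s hs) (abs_nonneg _)
            (Real.exp_pos _).le).trans ?_
          rw [← Real.exp_add, ← Real.exp_add, Real.exp_le_exp]
          have c1 := mul_le_mul_of_nonneg_left (le_max_right 0 (ph (|(s : ℝ)| / u) 0 - t0))
            (Nat.cast_nonneg (α := ℝ) u)
          have c2 := mul_le_mul_of_nonneg_right (le_abs_self (1 + K1 - K0)) (zero_le_one.trans hL)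
          linarith
      _ ≤ _ := by
          rw [← Real.exp_sum, Real.exp_le_exp, sum_add_distrib, ← mul_sum, sum_const, hS,
            nsmul_eq_mul]
          push_cast
          gcongr
  calc _ ≤ Real.exp (2 * L) ^ (180 * u) * Real.exp (2 * L) ^ (180 * u) *
        (Real.exp (u * t0 - 40 * u * L + K0 * L) * Real.exp (2 * L) ^ 2) ^ (180 * u) *
        Real.exp (u * (8940 * u + K3) + (200 * u + 1) * (|1 + K1 - K0| * L)) := by gcongr
    _ ≤ _ := by
        simp only [← Real.exp_nat_mul, ← Real.exp_add, Real.exp_le_exp, t0]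
        push_cast
        have c1 : K3 * u ≤ |K3| * u * L := (mul_le_mul_of_nonneg_right (le_abs_self _)
          (Nat.cast_nonneg u)).trans (le_mul_of_one_le_right (by positivity) hL)
        have c2 : |1 + K1 - K0| * L ≤ |1 + K1 - K0| * L * u :=
          le_mul_of_one_le_right (by positivity) (by linarith)
        linarith

end Pool.Agent.MP_760060_nt.W

end

section

/-! A determinant bound for a bounded matrix plus rank one terms. -/

open Finset

namespace Pool.Agent.MP_760060_nt.W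

namespace DRJ

theorem prod_le {ι α : Type} [Fintype ι] [Fintype α] (m : Option α → ℝ) (h0 : m none = 1)
    (h1 : ∀ o, 1 ≤ m o) (φ : ι → Option α)
    (hφ : ∀ i i', φ i ≠ none → φ i = φ i' → i = i') :
    ∏ i, m (φ i) ≤ ∏ s : α, m (some s) := by
  classical
  have e1 : ∏ i, m (φ i) = ∏ i ∈ univ.filter (fun i => φ i ≠ none), m (φ i) := by
    symm
    refine Finset.prod_subset (filter_subset _ _) fun i _ hi => ?_
    have : φ i = none := by simpa using hi
    rw [this, h0]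
  have e2 : ∏ i ∈ univ.filter (fun i => φ i ≠ none), m (φ i) =
      ∏ o ∈ (univ.filter (fun i => φ i ≠ none)).image φ, m o := by
    rw [Finset.prod_image]
    intro i hi i' _ h
    exact hφ i i' (by simpa using hi) h
  have e3 : ∏ o : Option α, m o = ∏ s : α, m (some s) := by
    rw [Fintype.prod_option, h0, one_mul]
  rw [e1, e2, ← e3]
  exact Finset.prod_le_prod_of_subset_of_one_le (subset_univ _)
    (fun o _ => zero_le_one.trans (h1 o)) (fun o _ _ => h1 o)

end DRJ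

theorem stDR : StDR := by
  intro ι _ _ S M g U κ η hκ hη hM hU
  classical
  let c : ι → Option S → ℝ := fun i o => o.elim κ fun s => g s * U s i
  let w : ι → Option S → ι → ℝ := fun i o j => o.elim (M i j / κ) fun s => U s j
  let m : Option S → ℝ := fun o => o.elim 1 fun s => max 1 (|g s| / κ)
  have hη0 : 0 ≤ η := zero_le_one.trans hη
  have hrow : (Matrix.of fun i j => M i j + ∑ s ∈ S, g s * U s i * U s j) =
      fun i => ∑ o : Option S, fun j => c i o * w i o j := by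
    funext i j
    rw [Finset.sum_apply, Fintype.sum_option]
    simp only [c, w, Option.elim, Matrix.of_apply]
    rw [mul_div_cancel₀ _ hκ.ne', ← Finset.sum_coe_sort S]
  have hdet : (Matrix.of fun i j => M i j + ∑ s ∈ S, g s * U s i * U s j).det =
      ∑ φ : ι → Option S, (Matrix.of fun i j => c i (φ i) * w i (φ i) j).det := by
    rw [hrow]
    exact (Matrix.detRowAlternating (n := ι) (R := ℝ)).toMultilinearMap.map_sum
      (fun i o => fun j => c i o * w i o j)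
  have hw : ∀ i o j, |w i o j| ≤ η := by
    intro i o j
    cases o with
    | none =>
      simp only [w, Option.elim]
      rw [abs_div, abs_of_pos hκ]
      exact ((div_le_one hκ).2 (hM i j)).trans hη
    | some s => exact hU s s.2 j
  have hm : ∀ o, 1 ≤ m o := by
    intro o
    cases o with
    | none => exact le_rfl
    | some s => exact le_max_left _ _
  have hc : ∀ i o, |c i o| ≤ κ * η * m o := by
    intro i o
    cases o with
    | none =>
      simp only [c, m, Option.elim]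
      rw [abs_of_pos hκ, mul_one]
      exact le_mul_of_one_le_right hκ.le hη
    | some s =>
      simp only [c, m, Option.elim]
      rw [abs_mul]
      have h1 : |g s| ≤ κ * max 1 (|g s| / κ) := by
        have := mul_le_mul_of_nonneg_left (le_max_right 1 (|g s| / κ)) hκ.le
        rwa [mul_div_cancel₀ _ hκ.ne'] at this
      calc |g s| * |U s i| ≤ (κ * max 1 (|g s| / κ)) * η :=
            mul_le_mul h1 (hU s s.2 i) (abs_nonneg _) ((abs_nonneg _).trans h1)
        _ = _ := by ring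
  have hP : 0 ≤ ∏ s ∈ S, max 1 (|g s| / κ) :=
    Finset.prod_nonneg fun s _ => zero_le_one.trans (le_max_left _ _)
  have hterm : ∀ φ : ι → Option S, |(Matrix.of fun i j => c i (φ i) * w i (φ i) j).det| ≤
      (Fintype.card ι).factorial * (κ * η ^ 2) ^ Fintype.card ι *
        ∏ s ∈ S, max 1 (|g s| / κ) := by
    intro φ
    have e : (Matrix.of fun i j => c i (φ i) * w i (φ i) j).det =
        (∏ i, c i (φ i)) * (Matrix.of fun i j => w i (φ i) j).det :=
      Matrix.det_mul_column (fun i => c i (φ i)) (Matrix.of fun i j => w i (φ i) j)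
    rw [e]
    by_cases hφ : ∀ i i', φ i ≠ none → φ i = φ i' → i = i'
    · have d1 : |(Matrix.of fun i j => w i (φ i) j).det| ≤
          (Fintype.card ι).factorial * η ^ Fintype.card ι := by
        have := Matrix.det_le (A := Matrix.of fun i j => w i (φ i) j) (abv := AbsoluteValue.abs)
          (x := η) (fun i j => hw i (φ i) j)
        simpa [nsmul_eq_mul] using this
      have d2 : |∏ i, c i (φ i)| ≤ (κ * η) ^ Fintype.card ι * ∏ s ∈ S, max 1 (|g s| / κ) := by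
        rw [Finset.abs_prod]
        calc ∏ i, |c i (φ i)| ≤ ∏ i, (κ * η * m (φ i)) :=
              Finset.prod_le_prod (fun i _ => abs_nonneg _) fun i _ => hc i (φ i)
          _ = (κ * η) ^ Fintype.card ι * ∏ i, m (φ i) := by
              rw [Finset.prod_mul_distrib, Finset.prod_const, Finset.card_univ]
          _ ≤ (κ * η) ^ Fintype.card ι * ∏ s : S, m (some s) :=
              mul_le_mul_of_nonneg_left (DRJ.prod_le m rfl hm φ hφ) (by positivity)
          _ = _ := by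
              rw [← Finset.prod_coe_sort S]
              rfl
      rw [abs_mul]
      calc _ ≤ ((κ * η) ^ Fintype.card ι * ∏ s ∈ S, max 1 (|g s| / κ)) *
            ((Fintype.card ι).factorial * η ^ Fintype.card ι) :=
            mul_le_mul d2 d1 (abs_nonneg _) ((abs_nonneg _).trans d2)
        _ = _ := by
            rw [show κ * η ^ 2 = κ * η * η by ring, mul_pow (κ * η) η]
            ring
    · push Not at hφ
      obtain ⟨i, i', h1, h2, h3⟩ := hφ
      obtain ⟨s, hs⟩ := Option.ne_none_iff_exists'.1 h1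
      have z : (Matrix.of fun i j => w i (φ i) j).det = 0 := by
        refine Matrix.det_zero_of_row_eq h3 ?_
        funext j
        simp only [Matrix.of_apply]
        rw [← h2, hs]
        rfl
      rw [z, mul_zero, abs_zero]
      positivity
  rw [hdet]
  calc _ ≤ ∑ φ : ι → Option S, |(Matrix.of fun i j => c i (φ i) * w i (φ i) j).det| :=
        Finset.abs_sum_le_sum_abs _ _
    _ ≤ ∑ _φ : ι → Option S, ((Fintype.card ι).factorial * (κ * η ^ 2) ^ Fintype.card ι *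
        ∏ s ∈ S, max 1 (|g s| / κ)) := Finset.sum_le_sum fun φ _ => hterm φ
    _ = _ := by
        rw [Finset.sum_const, Finset.card_univ, Fintype.card_fun, Fintype.card_option,
          Fintype.card_coe, nsmul_eq_mul]
        push_cast
        ring

end Pool.Agent.MP_760060_nt.W

end

section

/-! Enclosures on a cell. -/

open Finset Polynomial Filter Topology

namespace Pool.Agent.MP_760060_nt.W

namespace EncJ

theorem key (hMono : StMono) (hEN : StEN) {x x' : ℕ} {ξ : ℝ} (h1 : (x : ℝ) ≤ ξ) (h2 : ξ ≤ x')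
    (h3 : x' ≤ 14500) (β : ℕ) (hβ : β ≤ 5500) :
    (2000000000000 * (Er ξ 0 β + 2 * β) ≤ EN x' 0 β + 30000000000 ∧
      (EN x 0 β : ℝ) ≤ 2000000000000 * (Er ξ 0 β + 2 * β) + 30000000000) ∧
    2000000000000 * (Er 0 ξ β + 2 * β) ≤ EN 0 x' β + 30000000000 ∧
      (EN 0 x β : ℝ) ≤ 2000000000000 * (Er 0 ξ β + 2 * β) + 30000000000 := by
  have h4 : x ≤ x' := by exact_mod_cast h1.trans h2
  have m1 := hMono β x ξ (Nat.cast_nonneg _) (Nat.cast_nonneg _) h1
  have m2 := hMono β ξ x' (Nat.cast_nonneg _) ((Nat.cast_nonneg _).trans h1) h2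
  have e1 := abs_le.1 (hEN x 0 β (by omega) (by omega))
  have e2 := abs_le.1 (hEN x' 0 β (by omega) (by omega))
  have e3 := abs_le.1 (hEN 0 x β (by omega) (by omega))
  have e4 := abs_le.1 (hEN 0 x' β (by omega) (by omega))
  rw [Nat.cast_zero] at e1 e2 e3 e4
  refine ⟨⟨?_, ?_⟩, ?_, ?_⟩
  · linarith [m2.1, e2.2]
  · linarith [m1.1, e1.1]
  · linarith [m2.2, e4.2]
  · linarith [m1.2, e3.1]

end EncJ

theorem stEnc (hMono : StMono) (hEN : StEN) : StEnc := by
  intro x x' ξ h1 h2 h3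
  have k := EncJ.key hMono hEN h1 h2 h3
  have k200 := k 200 (by norm_num)
  have k600 := k 600 (by norm_num)
  have k500 := k 500 (by norm_num)
  have k1000 := k 1000 (by norm_num)
  have k2300 := k 2300 (by norm_num)
  have k460 := k 460 (by norm_num)
  have k400 := k 400 (by norm_num)
  have k1840 := k 1840 (by norm_num)
  have k5440 := k 5440 (by norm_num)
  simp only [Nat.cast_ofNat] at k200 k600 k500 k1000 k2300 k460 k400 k1840 k5440
  simp only [ph, ZX, UU, phP, phM, uP, uM]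
  push_cast
  refine ⟨?_, ?_, ?_, ?_⟩
  · linarith [k200.1.1, k600.1.1, k500.1.1, k1000.1.1, k1840.2.1, k5440.2.1, k2300.1.2, k460.1.2,
      k400.2.2]
  · linarith [k200.2.1, k600.2.1, k500.2.1, k1000.2.1, k1840.1.1, k5440.1.1, k2300.2.2, k460.2.2,
      k400.1.2]
  · linarith [k460.1.1, k400.2.1, k1000.1.2, k1840.2.2, k5440.2.2]
  · linarith [k460.2.1, k400.1.1, k1000.2.2, k1840.1.2, k5440.1.2]

end Pool.Agent.MP_760060_nt.W

end

section

/-! The integral along the line. -/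

open Finset Polynomial Filter Topology MeasureTheory

namespace Pool.Agent.MP_760060_nt.W

namespace IntJ

/-- the real part of `1 / (zl ξ - a)` -/
noncomputable def P (a : ℤ) (ξ : ℝ) : ℝ := (1 / 2 - (a : ℝ))⁻¹ * (1 + (ξ / (1 / 2 - a)) ^ 2)⁻¹

theorem al_ne (a : ℤ) : (1 / 2 - (a : ℝ)) ≠ 0 := by
  intro h
  have h1 : ((2 * a : ℤ) : ℝ) = (1 : ℤ) := by push_cast; linarith
  have h2 : 2 * a = 1 := by exact_mod_cast h1
  omega

theorem P_int (a : ℤ) : Integrable (P a) :=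
  (integrable_inv_one_add_sq.comp_div (al_ne a)).const_mul _

theorem P_val (a : ℤ) : ∫ ξ, P a ξ = Real.pi * sg a := by
  unfold P
  rw [integral_const_mul, Measure.integral_comp_div (fun x : ℝ => (1 + x ^ 2)⁻¹),
    integral_univ_inv_one_add_sq, smul_eq_mul, sg]
  have h0 := al_ne a
  split_ifs with h
  · have : (a : ℝ) ≤ 0 := by exact_mod_cast h
    rw [abs_of_pos (by linarith), inv_mul_cancel_left₀ h0, mul_one]
  · have : (1 : ℝ) ≤ a := by exact_mod_cast (by omega : 1 ≤ a)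
    rw [abs_of_neg (by linarith), neg_mul, mul_neg, inv_mul_cancel_left₀ h0, mul_neg, mul_one]

theorem zl_ne (ξ : ℝ) (a : ℤ) : zl ξ - a ≠ 0 := by
  intro h
  have := congrArg Complex.re h
  apply al_ne a
  simpa [zl] using this

theorem re_inv (ξ : ℝ) (a : ℤ) : ((zl ξ - a)⁻¹).re = P a ξ := by
  have h0 := al_ne a
  have h1 : (zl ξ - a).re = 1 / 2 - a := by simp [zl]
  have h2 : (zl ξ - a).im = ξ := by simp [zl]
  rw [Complex.inv_re, Complex.normSq_apply, h1, h2, P]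
  generalize (1 / 2 - (a : ℝ)) = b at h0
  field_simp

theorem re_prod {S T : Finset ℤ} (g w : ℤ → ℝ) (c : ℝ) (h : Disjoint S T) (ξ : ℝ) :
    ((∑ x ∈ S, (g x : ℂ) / (zl ξ - x)) * (∑ t ∈ T, (w t : ℂ) / (zl ξ - t) + c)).re =
      ∑ x ∈ S, g x * (∑ t ∈ T, w t / (x - t) * (P x ξ - P t ξ) + c * P x ξ) := by
  rw [sum_mul, Complex.re_sum]
  refine sum_congr rfl fun x hx => ?_
  have e : (g x : ℂ) / (zl ξ - x) * (∑ t ∈ T, (w t : ℂ) / (zl ξ - t) + c) =
      g x * (∑ t ∈ T, ((w t / (x - t) : ℝ) : ℂ) * ((zl ξ - x)⁻¹ - (zl ξ - t)⁻¹) +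
        c * (zl ξ - x)⁻¹) := by
    rw [div_eq_mul_inv, mul_assoc, mul_add, mul_sum, mul_comm _ (c : ℂ)]
    congr 2
    refine sum_congr rfl fun t ht => ?_
    have h1 : (x : ℂ) - t ≠ 0 := by
      rw [sub_ne_zero]
      intro e
      obtain rfl : x = t := by exact_mod_cast e
      exact disjoint_left.1 h hx ht
    have h2 := zl_ne ξ x
    have h3 := zl_ne ξ t
    push_cast
    field_simp
    ring
  rw [e, Complex.re_ofReal_mul, Complex.add_re, Complex.re_ofReal_mul, Complex.re_sum, re_inv]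
  congr 2
  exact sum_congr rfl fun t _ => by rw [Complex.re_ofReal_mul, Complex.sub_re, re_inv, re_inv]

end IntJ

open IntJ in
theorem stInt : StInt := by
  intro S T g w c κ h hb
  have i1 : ∀ x t : ℤ, Integrable fun ξ => w t / (x - t) * (P x ξ - P t ξ) := fun x t =>
    ((P_int x).sub (P_int t)).const_mul _
  have i2 : ∀ x : ℤ, Integrable fun ξ => ∑ t ∈ T, w t / (x - t) * (P x ξ - P t ξ) := fun x =>
    integrable_finsetSum _ fun t _ => i1 x t
  have i3 : ∀ x : ℤ, Integrable fun ξ =>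
      g x * (∑ t ∈ T, w t / (x - t) * (P x ξ - P t ξ) + c * P x ξ) := fun x =>
    ((i2 x).add ((P_int x).const_mul c)).const_mul _
  have h1 := norm_integral_le_of_norm_le (μ := volume) (f := fun ξ : ℝ =>
      ∑ x ∈ S, g x * (∑ t ∈ T, w t / (x - t) * (P x ξ - P t ξ) + c * P x ξ))
    (integrable_inv_one_add_sq.const_mul κ) (Eventually.of_forall fun ξ => by
      rw [← re_prod g w c h ξ, ← div_eq_mul_inv]
      exact (Complex.abs_re_le_norm _).trans (hb ξ))
  have h2 : ∫ ξ : ℝ, ∑ x ∈ S, g x * (∑ t ∈ T, w t / (x - t) * (P x ξ - P t ξ) + c * P x ξ) =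
      Real.pi * ∑ x ∈ S, g x * (∑ t ∈ T, w t * (sg x - sg t) / (x - t) + c * sg x) := by
    rw [integral_finsetSum _ fun x _ => i3 x, mul_sum]
    refine sum_congr rfl fun x _ => ?_
    rw [integral_const_mul, integral_add (i2 x) ((P_int x).const_mul c), integral_const_mul, P_val,
      integral_finsetSum _ fun t _ => i1 x t, mul_left_comm Real.pi, mul_add Real.pi, mul_sum,
      mul_left_comm c]
    congr 2
    refine sum_congr rfl fun t _ => ?_
    rw [integral_const_mul, integral_sub (P_int x) (P_int t), P_val, P_val]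
    ring
  rw [h2, integral_const_mul, integral_univ_inv_one_add_sq, Real.norm_eq_abs, abs_mul,
    abs_of_pos Real.pi_pos, mul_comm] at h1
  exact le_of_mul_le_mul_right h1 Real.pi_pos

end Pool.Agent.MP_760060_nt.W

end

section

open Finset Polynomial Filter Topology

namespace Pool.Agent.MP_760060_nt.W

namespace K0J

theorem zl_ne (ξ : ℝ) (x : ℤ) : zl ξ ≠ x := fun h => by
  have h1 := congrArg Complex.re h
  simp [zl] at h1
  have h2 : (2 * x : ℝ) = 1 := by rw [← h1]; norm_num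
  have h3 : 2 * x = 1 := by exact_mod_cast h2
  omega

theorem pf (hPfr : StPfr) (v : ℕ) (f : ℚ[X]) (hf : f.natDegree + 3 ≤ 40 * v) :
    ∑ x ∈ XX v, ((cf v x * f.eval (x : ℚ) : ℚ) : ℝ) = 0 ∧ ∀ ξ : ℝ,
      ∑ x ∈ XX v, (((cf v x * f.eval (x : ℚ) : ℚ) : ℝ) : ℂ) / (zl ξ - x) =
        (∏ t ∈ ZZ v, (zl ξ - t)) * aeval (zl ξ) f / ∏ x ∈ XX v, (zl ξ - x) := by
  have hd : ((∏ t ∈ ZZ v, (X - C (t : ℚ))) * f).natDegree + 2 ≤ #(XX v) := by
    have h1 : (∏ t ∈ ZZ v, (X - C (t : ℚ))).natDegree = #(ZZ v) :=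
      natDegree_finsetProd_X_sub_C_eq_card _ _
    have h2 := natDegree_mul_le (p := ∏ t ∈ ZZ v, (X - C (t : ℚ))) (q := f)
    rw [h1, card_ZZ] at h2
    rw [card_XX]
    omega
  have e : ∀ x : ℤ, cf v x * f.eval (x : ℚ) =
      ((∏ t ∈ ZZ v, (X - C (t : ℚ))) * f).eval (x : ℚ) / om (XX v) x := fun x => by
    simp only [cf, Zf, eval_mul, eval_prod, eval_sub, eval_X, eval_C]
    ring
  refine ⟨?_, fun ξ => ?_⟩
  · have h1 := dd_zero _ _ hd
    rw [← Rat.cast_sum]
    simp only [e]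
    exact Rat.cast_eq_zero.2 h1
  · have h1 := hPfr (XX v) ((∏ t ∈ ZZ v, (X - C (t : ℚ))) * f) (zl ξ)
      (degree_le_natDegree.trans_lt (by exact_mod_cast (by omega))) fun x _ => zl_ne ξ x
    simp only [e, Complex.ofReal_ratCast]
    rw [h1]
    simp only [map_mul, map_prod, map_sub, aeval_X, aeval_C, eq_ratCast, Rat.cast_intCast]

end K0J

theorem stK0 (hRep : StRep) (hPfr : StPfr) (hLine : StLine) (hUs : StUs) : StK0 := by
  obtain ⟨K, hK1, hK⟩ := hRep
  obtain ⟨K', hL⟩ := hLine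
  refine ⟨K' + 1, ?_⟩
  filter_upwards [hL, eventually_ge_atTop 1,
    tendsto_natCast_atTop_atTop.eventually_ge_atTop (K + 1)] with u hL h1 h2 y hy
  let g : Fin (90 * u) × Fin 2 → Fin (90 * u) × Fin 2 → ℤ → ℝ := fun i j x =>
    ((cf (10 * u) x * (zt y * Bs u i * Bs u j).eval (x : ℚ) : ℚ) : ℝ)
  let κ := Real.exp (u * t0 - 40 * u * Real.log u + K' * Real.log u)
  have hκ : 0 < κ := Real.exp_pos _
  let S : ℝ := ∑ i, ∑ j, ∑ x ∈ XX (10 * u), |g i j x|
  have hS : ∀ i j, ∑ x ∈ XX (10 * u), |g i j x| ≤ S := fun i j =>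
    (single_le_sum (f := fun j => ∑ x ∈ XX (10 * u), |g i j x|)
      (fun _ _ => by positivity) (mem_univ j)).trans
      (single_le_sum (f := fun i => ∑ j, ∑ x ∈ XX (10 * u), |g i j x|)
        (fun _ _ => by positivity) (mem_univ i))
  have hS0 : 0 ≤ S := by positivity
  obtain ⟨a, ha, hb⟩ := hK (10 * u) (κ / (1 + S)) (by positivity)
  have hu : (0 : ℝ) < u := by exact_mod_cast h1
  have h0 : (0 : ℤ) ∈ XA (10 * u) := mem_XA.2 (by omega)
  refine ⟨Matrix.of fun i j => (KK (10 * u) y (Bs u) i j : ℝ) - ∑ s ∈ XA (10 * u), a s * g i j s,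
    a, fun s => (ha s).trans (by linarith), fun i j => ?_, fun i j => ?_⟩
  · have d1 := (hUs u 0 i h0).2.2
    have d2 := (hUs u 0 j h0).2.2
    have d3 := natDegree_mul_le (p := zt y * Bs u i) (q := Bs u j)
    have d4 := natDegree_mul_le (p := zt y) (q := Bs u i)
    rw [natDegree_zt] at d4
    obtain ⟨p1, p2⟩ := K0J.pf hPfr (10 * u) (zt y * Bs u i * Bs u j) (by omega)
    have p3 := hb (g i j) κ p1 fun ξ => by
      rw [p2 ξ]
      exact hL y hy i j ξ
    have e : (KK (10 * u) y (Bs u) i j : ℝ) = ∑ x ∈ XX (10 * u), (lam x : ℝ) * g i j x := by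
      simp only [KK, LL, Matrix.of_apply, g, Rat.cast_sum, Rat.cast_mul, mul_assoc]
    rw [Matrix.of_apply, e]
    refine p3.trans ?_
    have p4 : κ / (1 + S) * ∑ x ∈ XX (10 * u), |g i j x| ≤ κ := by
      rw [div_mul_eq_mul_div, div_le_iff₀ (by positivity)]
      exact mul_le_mul_of_nonneg_left (by linarith [hS i j]) hκ.le
    calc _ ≤ (K + 1) * κ := by linarith
      _ ≤ u * κ := mul_le_mul_of_nonneg_right h2 hκ.le
      _ = _ := by
        rw [add_mul K', one_mul, ← add_assoc, Real.exp_add, Real.exp_log hu, mul_comm]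
  · rw [Matrix.of_apply, sub_add, ← sum_sub_distrib, sum_eq_zero, sub_zero]
    intro s hs
    simp only [g, gA, eval_mul, (hUs u s i hs).1, (hUs u s j hs).1]
    push_cast
    ring

end Pool.Agent.MP_760060_nt.W

end

section

/-! The change from the monomial basis to the Lagrange basis. -/

open Finset Polynomial

namespace Pool.Agent.MP_760060_nt.W

namespace LagJ

noncomputable def WP (n : ℕ) (w : ℕ → ℚ) (k : ℕ) : ℚ[X] := ∏ l ∈ (range n).erase k, (X - C (w l))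

theorem natDegree_W {n k : ℕ} (w : ℕ → ℚ) (hk : k < n) : (WP n w k).natDegree = n - 1 := by
  rw [WP, natDegree_prod_of_monic _ _ fun l _ => monic_X_sub_C _]
  simp only [natDegree_X_sub_C]
  simp [card_erase_of_mem (mem_range.2 hk)]

noncomputable def Cm (n : ℕ) (w : ℕ → ℚ) : Matrix (Fin n) (Fin n) ℚ :=
  Matrix.of fun k j => (WP n w k).coeff j

theorem Cm_mul (n : ℕ) (w : ℕ → ℚ) :
    Cm n w * (Matrix.vandermonde fun i : Fin n => w i).transpose =
      Matrix.diagonal fun k : Fin n => ∏ l ∈ (range n).erase k, (w k - w l) := by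
  ext k m
  have h1 : (WP n w k).natDegree < n := by
    rw [natDegree_W w k.2]
    have := k.2
    omega
  have h2 : (Cm n w * (Matrix.vandermonde fun i : Fin n => w i).transpose) k m =
      (WP n w k).eval (w m) := by
    rw [eval_eq_sum_range' h1, Matrix.mul_apply, ← Fin.sum_univ_eq_sum_range
      (fun j => (WP n w k).coeff j * w m ^ j)]
    rfl
  rw [h2, WP, eval_prod]
  simp only [eval_sub, eval_X, eval_C]
  rcases eq_or_ne k m with rfl | h
  · rw [Matrix.diagonal_apply_eq]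
  · rw [Matrix.diagonal_apply_ne _ h]
    exact prod_eq_zero (i := (m : ℕ))
      (mem_erase.2 ⟨fun e => h (Fin.ext e.symm), mem_range.2 m.2⟩) (sub_self _)

theorem prod_erase_fin (n : ℕ) (k : Fin n) (f : ℕ → ℚ) :
    ∏ l ∈ (range n).erase k, f l = ∏ l ∈ ({k} : Finset (Fin n))ᶜ, f l := by
  symm
  refine prod_bij (fun l _ => (l : ℕ)) (fun l hl => ?_) (fun a _ b _ h => Fin.ext h)
    (fun l hl => ?_) fun _ _ => rfl
  · rw [mem_compl, mem_singleton] at hl
    exact mem_erase.2 ⟨fun e => hl (Fin.ext e), mem_range.2 l.2⟩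
  · rw [mem_erase, mem_range] at hl
    refine ⟨⟨l, hl.2⟩, ?_, rfl⟩
    rw [mem_compl, mem_singleton]
    exact fun e => hl.1 (congrArg Fin.val e)

theorem prod_abs (n : ℕ) (w : ℕ → ℚ) :
    ∏ k ∈ range n, ∏ l ∈ (range n).erase k, |w k - w l| =
      (Matrix.vandermonde fun i : Fin n => w i).det ^ 2 := by
  rw [← Fin.prod_univ_eq_prod_range (fun k => ∏ l ∈ (range n).erase k, |w k - w l|),
    prod_congr rfl fun k _ => prod_erase_fin n k fun l => |w k - w l|,
    ← prod_prod_Ioi_mul_eq_prod_prod_off_diag (fun j i : Fin n => |w i - w j|),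
    Matrix.det_vandermonde, ← prod_pow]
  refine prod_congr rfl fun i _ => ?_
  rw [← prod_pow]
  refine prod_congr rfl fun j _ => ?_
  rw [abs_sub_comm (w i), abs_mul_abs_self, sq]

theorem det_Cm (n : ℕ) (w : ℕ → ℚ) (hw : Function.Injective w) :
    (Cm n w).det ^ 2 = ∏ k ∈ range n, ∏ l ∈ (range n).erase k, |w k - w l| := by
  have h0 : (Matrix.vandermonde fun i : Fin n => w i).det ≠ 0 :=
    Matrix.det_vandermonde_ne_zero_iff.2 fun a b h => Fin.ext (hw h)
  have h1 := congrArg Matrix.det (Cm_mul n w)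
  rw [Matrix.det_mul, Matrix.det_transpose, Matrix.det_diagonal] at h1
  have h2 : |(Cm n w).det * (Matrix.vandermonde fun i : Fin n => w i).det| =
      (Matrix.vandermonde fun i : Fin n => w i).det ^ 2 := by
    rw [h1, ← prod_abs, abs_prod, ← Fin.prod_univ_eq_prod_range
      (fun k => ∏ l ∈ (range n).erase k, |w k - w l|)]
    exact prod_congr rfl fun k _ => abs_prod _ _
  rw [prod_abs]
  have h3 := congrArg (· ^ 2) h2
  simp only [sq_abs, mul_pow] at h3
  apply mul_right_cancel₀ (pow_ne_zero 2 h0)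
  rw [h3]
  ring

theorem Om_eq (u k : ℕ) : Om u k = expand ℚ 2 (WP (90 * u) (wk u) k) := by
  simp [Om, WP, map_prod]

theorem coeff_Bs (u : ℕ) (a b : Fin (90 * u) × Fin 2) :
    (Bs u a).coeff ((b.2 : ℕ) + 2 * b.1) =
      Matrix.blockDiagonal (fun _ : Fin 2 => Cm (90 * u) (wk u)) a b := by
  obtain ⟨k, c⟩ := a
  obtain ⟨j, c'⟩ := b
  rw [Matrix.blockDiagonal_apply', Bs, coeff_X_pow_mul', Om_eq, coeff_expand two_pos]
  have hc := c.2
  have hc' := c'.2
  simp only [Fin.ext_iff]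
  by_cases h : (c : ℕ) = c'
  · rw [if_pos h, if_pos (by omega), if_pos (by omega),
      show ((c' : ℕ) + 2 * j - c) / 2 = j by omega]
    rfl
  · rw [if_neg h]
    split_ifs <;> first | rfl | omega

theorem natDegree_Bs (u : ℕ) (a : Fin (90 * u) × Fin 2) : (Bs u a).natDegree < 18 * (10 * u) := by
  have h1 := a.1.2
  have h2 := a.2.2
  have h3 : (Bs u a).natDegree ≤ (a.2 : ℕ) + (90 * u - 1) * 2 := by
    rw [Bs, Om_eq]
    refine natDegree_mul_le.trans ?_
    rw [natDegree_X_pow, natDegree_expand, natDegree_W _ h1]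
  omega

end LagJ

open LagJ

theorem stLag (hChg : StChg) : StLag := by
  intro u y hu
  let e : Fin (90 * u) × Fin 2 ≃ Fin (18 * (10 * u)) :=
    finProdFinEquiv.trans (finCongr (by ring))
  have he : ∀ a, (e a : ℕ) = (a.2 : ℕ) + 2 * a.1 := fun a => rfl
  have h1 : (KK (10 * u) y (Bs u)).det = (KK (10 * u) y fun i => Bs u (e.symm i)).det := by
    rw [← Matrix.det_submatrix_equiv_self e.symm]
    rfl
  have h2 : (Matrix.of fun i j : Fin (18 * (10 * u)) => (Bs u (e.symm i)).coeff j).det =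
      (Cm (90 * u) (wk u)).det ^ 2 := by
    rw [← Matrix.det_submatrix_equiv_self e]
    have h3 : (Matrix.of fun i j : Fin (18 * (10 * u)) =>
        (Bs u (e.symm i)).coeff j).submatrix e e =
        Matrix.blockDiagonal fun _ : Fin 2 => Cm (90 * u) (wk u) := by
      ext a b
      rw [Matrix.submatrix_apply, Matrix.of_apply, Equiv.symm_apply_apply, he, coeff_Bs]
    rw [h3, Matrix.det_blockDiagonal]
    simp
  rw [h1, (hChg (10 * u) y _).1 fun i => natDegree_Bs u _, h2, det_Cm _ _ (wk_inj hu), abs_mul,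
    abs_sq, mul_comm]

end Pool.Agent.MP_760060_nt.W

end

section

/-! The cost of a class is bounded by the value computed by the checker. -/

open Finset Polynomial Filter Topology

namespace Pool.Agent.MP_760060_nt.W

namespace MuJ

/-- the points of the family in the class -/
def Par (p m s : ℕ) (u : ℤ) : Prop :=
  ∀ t : ℤ, ((p : ℤ) ∣ t - 10 * m ∧ (t + u) % 10 = 0) ↔ ∃ i : ℤ, t = 10 * m + p * (s + 10 * i)

/-- outer bounds -/
def Up (p m s h a b : ℕ) (u : ℤ) : Prop :=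
  Par p m s u ∧ ∀ i : ℤ, 10 * m + p * (s + 10 * i) ∈ AP u h → -(a : ℤ) ≤ i ∧ i + 2 ≤ b

/-- inner bounds -/
def Dn (p m s h a b : ℕ) (u : ℤ) : Prop :=
  Par p m s u ∧ ∀ i : ℤ, (-(a : ℤ) ≤ i → -(10 * (h : ℤ)) ≤ 10 * m + p * (s + 10 * i) + u) ∧
    (i + 2 ≤ b → 10 * m + p * (s + 10 * i) + u ≤ 10 * (h : ℤ))

variable {p m s h a b : ℕ} {u : ℤ}

theorem dn_card (hCnt : StCnt) (hp : 0 < p) (H : Dn p m s h a b u) :
    a + b - 1 ≤ #(cl p m (AP u h)) :=
  (hCnt p m s h a b u 0 hp H.1).2 fun i h1 h2 =>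
    mem_AP.2 ⟨((H.1 _).2 ⟨i, rfl⟩).2, (H.2 i).1 h1, (H.2 i).2 h2⟩

theorem lt_iff (hp : 0 < p) (c x y : ℤ) : c + p * x < c + p * y ↔ x < y := by
  have hp' : (0 : ℤ) < p := by exact_mod_cast hp
  rw [add_lt_add_iff_left, mul_lt_mul_iff_right₀ hp']

theorem dn_cut (hp : 0 < p) (H : Dn p m s h a b u) (hs : s ≤ 9) (h0 : 0 ≤ u) (h9 : u ≤ 9) {j : ℤ}
    (h1 : j + 1 ≤ b) (h2 : -(a : ℤ) ≤ j) {t : ℤ} (t1 : (p : ℤ) ∣ t - 10 * m)
    (t2 : (t + u) % 10 = 0) (t3 : t ∉ AP u h) :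
    t < 10 * m + p * (((0 : ℕ) : ℤ) + 10 * j) ↔ t < 0 := by
  obtain ⟨i, hi⟩ := (H.1 t).1 ⟨t1, t2⟩
  have k := H.2 i
  have l := lt_iff hp (10 * m) (s + 10 * i) (((0 : ℕ) : ℤ) + 10 * j)
  rw [← hi] at k l
  rw [mem_AP] at t3
  rw [l]
  obtain ⟨k1, k2⟩ := k
  omega

theorem par_np (hp : 0 < p) (H : Par p m s u) {s1 e : ℕ} (hs : s ≤ 9) (hs1 : s1 ≤ 9)
    (he : (e = 0 ∧ s1 < s) ∨ (e = 1 ∧ s < s1)) (j : ℤ) {t : ℤ} (t1 : (p : ℤ) ∣ t - 10 * m)
    (t2 : (t + u) % 10 = 0) :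
    t < 10 * m + p * (s1 + 10 * (j - e)) ↔ t < 10 * m + p * (((0 : ℕ) : ℤ) + 10 * j) := by
  obtain ⟨i, rfl⟩ := (H t).1 ⟨t1, t2⟩
  rw [lt_iff hp, lt_iff hp]
  omega

theorem up_cnt (hCnt : StCnt) (hp : 0 < p) (H : Up p m s h a b u) (j : ℤ) :
    #((cl p m (AP u h)).erase (10 * m + p * (s + 10 * j))) +
      (if -(a : ℤ) ≤ j ∧ j + 2 ≤ b then 1 else 0) ≤ a + b - 1 ∧
    #((cl p m (AP u h)).filter (· = 10 * m + p * (s + 10 * j))) ≤
      if -(a : ℤ) ≤ j ∧ j + 2 ≤ b then 1 else 0 := by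
  refine ⟨((hCnt p m s h a b u j hp H.1).1 H.2).2, ?_⟩
  rw [filter_eq']
  split_ifs with h1 h2
  · simp
  · exact absurd (H.2 j (mem_cl.1 h1).1) h2
  · simp
  · simp

theorem fin_cost (hPhi : StPhi) {v a ρ n z : ℕ} {ξ : ℤ} {N : Finset ℤ} (hG : Good v p m ξ N)
    (h1 : #(cl p m (XX v)) - #N ≤ ρ) (h2 : #N ≤ n) (h3 : z ≤ #(cl p m (ZZ v))) :
    Cost v p m (-(a : ℤ)) (phN a ρ n z : ℕ) := by
  refine ⟨ξ, N, hG, ?_⟩
  have := (hPhi.2.1 (-(a : ℤ)) _ _ _ ρ n z (by omega) h1 h2 h3).trans (hPhi.1 a ρ n z)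
  exact_mod_cast this

theorem cut (hPhi : StPhi) (hCnt : StCnt) {v s1 s3 s9 e a aA bA aB bB a3 b3 a5 b5 a9 b9 z : ℕ}
    (hp : 0 < p) (hc : Cls (p % 10) s1 s3 s9 e) (FA : Up p m 0 (10 * v) aA bA 0)
    (FB : Up p m s1 (23 * v) aB bB 1) (F3 : Dn p m s3 (2 * v) a3 b3 3)
    (F5 : Dn p m 5 (6 * v) a5 b5 5) (F9 : Dn p m s9 (5 * v) a9 b9 9)
    (hz : z ≤ #(cl p m (ZZ v))) (j : ℤ) (h1 : j + 1 ≤ b3 ∧ j + 1 ≤ b5 ∧ j + 1 ≤ b9)
    (h2 : -(a3 : ℤ) ≤ j ∧ -(a5 : ℤ) ≤ j ∧ -(a9 : ℤ) ≤ j) (n : ℕ)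
    (hn : n = (if -(aA : ℤ) ≤ j ∧ j + 2 ≤ bA then 1 else 0) +
      if -(aB : ℤ) ≤ j - e ∧ j - e + 2 ≤ bB then 1 else 0) :
    Cost v p m (-(a : ℤ)) (phN a (aA + bA - 1 + (aB + bB - 1) - n) n z : ℕ) := by
  obtain ⟨A1, A2⟩ := up_cnt hCnt hp FA j
  obtain ⟨B1, B2⟩ := up_cnt hCnt hp FB (j - e)
  have hs : s1 ≤ 9 ∧ s3 ≤ 9 ∧ s9 ≤ 9 ∧ ((e = 0 ∧ s1 < s3) ∨ (e = 1 ∧ s3 < s1)) ∧
      ((e = 0 ∧ s1 < 5) ∨ (e = 1 ∧ 5 < s1)) ∧ ((e = 0 ∧ s1 < s9) ∨ (e = 1 ∧ s9 < s1)) := by
    unfold Cls at hc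
    omega
  obtain ⟨c1, c3, c9, e3, e5, e9⟩ := hs
  have hX : cl p m (XX v) = cl p m (AP 0 (10 * v)) ∪ cl p m (AP 1 (23 * v)) := cl_union _ _ _ _
  have hN : (cl p m (AP 0 (10 * v))).filter (· = 10 * m + p * (((0 : ℕ) : ℤ) + 10 * j)) ∪
      (cl p m (AP 1 (23 * v))).filter (· = 10 * m + p * (s1 + 10 * (j - e))) ⊆ cl p m (XX v) := by
    rw [hX]
    exact union_subset_union (filter_subset _ _) (filter_subset _ _)
  refine fin_cost hPhi (ξ := 10 * m + p * (((0 : ℕ) : ℤ) + 10 * j))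
    ⟨hN, fun t t1 t2 t3 => ?_, fun x hx t t1 t2 => ?_⟩ ?_ ?_ hz
  · rw [ZZ, mem_union, mem_union, not_or, not_or] at t3
    rcases wt_ne.1 t2 with h | h | h
    · exact dn_cut hp F3 c3 (by decide) (by decide) h1.1 h2.1 t1 (by omega) t3.1.1
    · exact dn_cut hp F5 (by decide) (by decide) (by decide) h1.2.1 h2.2.1 t1 (by omega) t3.1.2
    · exact dn_cut hp F9 c9 (by decide) (by decide) h1.2.2 h2.2.2 t1 (by omega) t3.2
  · have t3 : (p : ℤ) ∣ t - 10 * m := by
      have := dvd_sub (mem_cl.1 (hN hx)).2 t1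
      rwa [show x - 10 * m - (x - t) = t - 10 * m by ring] at this
    rcases mem_union.1 hx with hx | hx
    · rw [(mem_filter.1 hx).2]
    · rw [(mem_filter.1 hx).2]
      rcases wt_ne.1 t2 with h | h | h
      · exact par_np hp F3.1 c3 c1 e3 j t3 (by omega)
      · exact par_np hp F5.1 (by decide) c1 e5 j t3 (by omega)
      · exact par_np hp F9.1 c9 c1 e9 j t3 (by omega)
  · rw [← card_sdiff_of_subset hN]
    refine le_trans (card_le_card (t := (cl p m (AP 0 (10 * v))).erase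
      (10 * m + p * (((0 : ℕ) : ℤ) + 10 * j)) ∪
      (cl p m (AP 1 (23 * v))).erase (10 * m + p * (s1 + 10 * (j - e)))) fun x hx => ?_)
      ((card_union_le _ _).trans (by omega))
    rw [Finset.mem_sdiff, hX, mem_union, mem_union, not_or] at hx
    rcases hx.1 with h | h
    · exact mem_union_left _ (mem_erase.2 ⟨fun e => hx.2.1 (mem_filter.2 ⟨h, e⟩), h⟩)
    · exact mem_union_right _ (mem_erase.2 ⟨fun e => hx.2.2 (mem_filter.2 ⟨h, e⟩), h⟩)
  · exact (card_union_le _ _).trans (by omega)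

end MuJ

open MuJ in
theorem stMu (hPhi : StPhi) (hFam : StFam) (hCnt : StCnt) : StMu := by
  intro v p m s1 s3 s9 e a HA HB H3 H5 H9 M₁ M₂ hc m1 m2 m3 m4 hA hB h3 h5 h9
  have hcop : Cop p := by
    unfold Cls at hc
    unfold Cop
    omega
  have hp : 0 < p := by
    unfold Cop at hcop
    omega
  have hs : s1 ≤ 9 ∧ s3 ≤ 9 ∧ s9 ≤ 9 ∧ ((p : ℤ) * s1 + 1) % 10 = 0 ∧ ((p : ℤ) * s3 + 3) % 10 = 0 ∧
      ((p : ℤ) * (5 : ℕ) + 5) % 10 = 0 ∧ ((p : ℤ) * s9 + 9) % 10 = 0 := by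
    rcases hc with ⟨h, rfl, rfl, rfl, -⟩ | ⟨h, rfl, rfl, rfl, -⟩ | ⟨h, rfl, rfl, rfl, -⟩ |
      ⟨h, rfl, rfl, rfl, -⟩ <;> omega
  obtain ⟨c1, c3, c9, r1, r3, r5, r9⟩ := hs
  have GA := hFam p m 0 (10 * v) HA M₁ M₂ 0 hcop le_rfl (by decide) (by decide) (by simp) m1 m2 m3 m4
  have GB := hFam p m s1 (23 * v) HB M₁ M₂ 1 hcop (by decide) (by decide) c1 r1 m1 m2 m3 m4
  have G3 := hFam p m s3 (2 * v) H3 M₁ M₂ 3 hcop (by decide) (by decide) c3 r3 m1 m2 m3 m4
  have G5 := hFam p m 5 (6 * v) H5 M₁ M₂ 5 hcop (by decide) (by decide) (by decide) r5 m1 m2 m3 m4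
  have G9 := hFam p m s9 (5 * v) H9 M₁ M₂ 9 hcop (by decide) (by decide) c9 r9 m1 m2 m3 m4
  have FA : Up p m 0 (10 * v) (lo HA M₂ 0) (hi HA M₁ 0) 0 := ⟨GA.1, GA.2.1 (by omega)⟩
  have FB : Up p m s1 (23 * v) (lo HB M₂ s1) (hi HB M₁ s1) 1 := ⟨GB.1, GB.2.1 (by omega)⟩
  have F3 : Dn p m s3 (2 * v) (lo H3 M₁ s3) (hi H3 M₂ s3) 3 := ⟨G3.1, G3.2.2 (by omega)⟩
  have F5 : Dn p m 5 (6 * v) (lo H5 M₁ 5) (hi H5 M₂ 5) 5 := ⟨G5.1, G5.2.2 (by omega)⟩
  have F9 : Dn p m s9 (5 * v) (lo H9 M₁ s9) (hi H9 M₂ s9) 9 := ⟨G9.1, G9.2.2 (by omega)⟩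
  unfold mu muC
  generalize lo HA M₂ 0 = aA, hi HA M₁ 0 = bA, lo HB M₂ s1 = aB, hi HB M₁ s1 = bB,
    lo H3 M₁ s3 = a3, hi H3 M₂ s3 = b3, lo H5 M₁ 5 = a5, hi H5 M₂ 5 = b5, lo H9 M₁ s9 = a9,
    hi H9 M₂ s9 = b9 at FA FB F3 F5 F9 ⊢
  have hz : a3 + b3 - 1 + (a5 + b5 - 1) + (a9 + b9 - 1) ≤ #(cl p m (ZZ v)) := by
    rw [card_cl_ZZ]
    exact add_le_add (add_le_add (dn_card hCnt hp F3) (dn_card hCnt hp F5)) (dn_card hCnt hp F9)
  by_cases k1 : 1 ≤ b3 ∧ 1 ≤ b5 ∧ 1 ≤ b9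
  · refine cut hPhi hCnt hp hc FA FB F3 F5 F9 hz 0 (by omega) (by omega) _ ?_
    rw [np, if_pos k1]
    split_ifs <;> omega
  by_cases k2 : 1 ≤ a3 ∧ 1 ≤ a5 ∧ 1 ≤ a9
  · refine cut hPhi hCnt hp hc FA FB F3 F5 F9 hz (-1) (by omega) (by omega) _ ?_
    rw [np, if_neg k1, if_pos k2]
    split_ifs <;> omega
  rw [np, if_neg k1, if_neg k2]
  refine fin_cost hPhi (ξ := 0) (N := ∅) ⟨empty_subset _, fun _ _ _ _ => Iff.rfl, by simp⟩ ?_
    (by simp) hz
  rw [card_empty, card_cl_XX]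
  exact add_le_add ((hCnt p m 0 _ aA bA 0 0 hp FA.1).1 FA.2).1
    ((hCnt p m s1 _ aB bB 1 0 hp FB.1).1 FB.2).1

end Pool.Agent.MP_760060_nt.W

end
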