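import Pool.Agent.MP_760060_nt.W.Stm
import Pool.Agent.MP_384f6f_nt.PI.Sm
import Pool.Agent.Mg.F760060.Ge167db
import Pool.Agent.Mg.F760060a.G126fce
import Pool.Agent.Mg.F760060a.G1c6943
import Pool.Agent.Mg.F760060a.G888291
import Pool.Agent.MP_760060_nt.W.J.Ana
import Pool.Agent.Mg.F760060a.G1c1c86
import Pool.Agent.Mg.F760060a.G7770ac
import Pool.Agent.MP_760060_nt.W.J.Blk
import Pool.Agent.MP_760060_nt.W.J.BlkD
import Pool.Agent.Mg.F760060a.G92b171
import Pool.Agent.Mg.F760060a.Geb1601
import Pool.Agent.Mg.F760060a.G0fcc09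
import Pool.Agent.MP_760060_nt.W.J.LemD
import Pool.Agent.MP_760060_nt.W.J.N1
import Pool.Agent.MP_760060_nt.W.J.N3
import Pool.Agent.MP_760060_nt.W.J.N5
import Pool.Agent.MP_760060_nt.W.J.Newt
import Pool.Agent.MP_760060_nt.W.J.PF

section

open Finset Polynomial Filter Topology

namespace Pool.Agent.MP_760060_nt.W

namespace BigJ

theorem inv {p : ℕ} [Fact p.Prime] {x t : ℤ} (h1 : -(p : ℤ) < x - t) (h2 : x - t < p) :
    Vb p 0 ((x : ℚ) - t)⁻¹ := by
  simpa using vb_inv_lt (p := p) (k := 0) (n := x - t) (by simpa using abs_lt.2 ⟨h1, h2⟩)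

theorem vlam {p : ℕ} [Fact p.Prime] {x : ℤ} (h1 : -(p : ℤ) < x) (h2 : x < p) :
    Vb p 0 (lam x) := by
  rw [lam]
  refine Vb.sub (Vb.sum fun t ht => ?_) (Vb.sum fun t ht => ?_) <;>
  · rw [mem_Ioo] at ht
    rw [div_eq_mul_inv]
    exact (vb_int _).mul0 (inv (by omega) (by omega))

end BigJ

theorem stBig : StBig := by
  intro v p _ y hv hp
  have hb : ∀ x ∈ XX v, -(230 * (v : ℤ)) - 1 ≤ x ∧ x ≤ 230 * v := fun x hx => by
    rw [mem_XX, mem_XA, mem_XB] at hx
    omega
  have h := vb_det (p := p) (KK v y fun i : Fin (18 * v) => X ^ (i : ℕ)) (fun _ => 0) (fun _ => 0)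
    fun i j => by
      rw [add_zero, KK, Matrix.of_apply, LL]
      refine Vb.sum fun x hx => ?_
      have h1 := hb x hx
      refine Vb.mul0 (Vb.mul0 (BigJ.vlam (by omega) (by omega)) ?_) ?_
      · rw [cf, div_eq_mul_inv, om, ← prod_inv_distrib, Zf]
        refine Vb.mul0 (Vb.prod0 fun t _ => (vb_int x).sub (vb_int t)) (Vb.prod0 fun t ht => ?_)
        have := hb t (mem_of_mem_erase ht)
        exact BigJ.inv (by omega) (by omega)
      · rw [eval_mul, eval_mul, eval_pow, eval_pow, eval_X, ← Int.cast_pow, ← Int.cast_pow]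
        exact ((vb_zt y x).mul0 (vb_int _)).mul0 (vb_int _)
  simpa [HH] using h

end Pool.Agent.MP_760060_nt.W

end

section

/-! The block of two points whose polar parts cancel. -/

open Finset Polynomial Filter Topology

namespace Pool.Agent.MP_760060_nt.W

theorem stBlkW : StBlkW := by
  intro p _ d x x' c hx hd h1 h0
  choose q hq using fun s : ℕ => sub_dvd_pow_sub_pow x' x s
  have hq' : ∀ s : ℕ, (x' : ℚ) ^ s = (x : ℚ) ^ s + ((x' - x : ℤ) : ℚ) * q s := fun s => by
    have := congrArg (Int.cast (R := ℚ)) (hq s)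
    push_cast at this ⊢
    linarith
  have hδ : Vb p (-1) ((x' - x : ℤ) : ℚ) := vb_dvd (dvd_sub_comm.1 hd)
  have b1 : Vb p 0 (c x' * ((x' - x : ℤ) : ℚ)) := by simpa using h1.mul hδ
  have b2 : Vb p 0 (c x' * ((x' - x : ℤ) : ℚ) * ((x' - x : ℤ) : ℚ)) := by
    simpa using b1.mul (vb_int (x' - x))
  refine ⟨fun i s => if i = 0 then (x : ℚ) ^ (s : ℕ) else q s,
    fun i j => if i = 0 then (if j = 0 then c x + c x' else c x' * ((x' - x : ℤ) : ℚ))
      else (if j = 0 then c x' * ((x' - x : ℤ) : ℚ)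
        else c x' * ((x' - x : ℤ) : ℚ) * ((x' - x : ℤ) : ℚ)), fun i s => ?_, fun i _ j _ => ?_,
    fun s t => ?_⟩
  · dsimp only
    split_ifs
    · simpa using vb_int (p := p) (x ^ (s : ℕ))
    · exact vb_int _
  · have e : (-((0 : ℝ) + 0) / 2) = 0 := by norm_num
    rw [e]
    dsimp only
    split_ifs
    exacts [h0, b1, b1, b2]
  · dsimp only
    rw [sum_pair hx, hq' s, hq' t]
    simp only [sum_range_succ, range_zero, sum_empty, if_true, one_ne_zero, if_false]
    ring

end Pool.Agent.MP_760060_nt.W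

end

section

/-! The size of `cf v x` on a class mod `p`. -/

open Finset Polynomial Filter Topology

namespace Pool.Agent.MP_760060_nt.W

namespace CfJ

theorem sum_ind (p m : ℕ) (S : Finset ℤ) :
    ∑ t ∈ S, (if (p : ℤ) ∣ t - 10 * m then (1 : ℝ) else 0) = #(cl p m S) := by
  rw [sum_boole]
  rfl

theorem vb_Zf (v p m : ℕ) [Fact p.Prime] {x : ℤ} (hx : (p : ℤ) ∣ x - 10 * m) :
    Vb p (-(#(cl p m (ZZ v)) : ℝ)) (Zf v x) := by
  rw [← sum_ind, ← sum_neg_distrib, Zf]
  refine Vb.prod fun t _ => ?_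
  have e : (x : ℚ) - t = ((x - t : ℤ) : ℚ) := by push_cast; ring
  rw [e]
  split_ifs with h
  · refine vb_dvd ?_
    rw [show x - t = x - 10 * m - (t - 10 * m) by ring]
    exact dvd_sub hx h
  · simpa using vb_int (p := p) (x - t)

theorem abs_lt_sq {v p : ℕ} (hv : 1 ≤ v) (hp : 500 * v < p ^ 2) {x y : ℤ} (hx : x ∈ XX v)
    (hy : y ∈ XX v) : |x - y| < (p : ℤ) ^ (1 + 1) := by
  have h : (500 * v : ℤ) < (p : ℤ) ^ 2 := by exact_mod_cast hp
  rw [mem_XX, mem_XA, mem_XB] at hx hy
  rw [show (1 + 1 : ℕ) = 2 from rfl, abs_lt]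
  constructor <;> omega

theorem vb_om (v p m : ℕ) [Fact p.Prime] {x : ℤ} (hv : 1 ≤ v) (hp : 500 * v < p ^ 2)
    (hx : x ∈ cl p m (XX v)) : Vb p ((#(cl p m (XX v)) : ℝ) - 1) (om (XX v) x)⁻¹ := by
  obtain ⟨h1, h2⟩ := mem_cl.1 hx
  have e0 : (#(cl p m (XX v)) : ℝ) - 1 =
      ∑ t ∈ (XX v).erase x, (if (p : ℤ) ∣ t - 10 * m then (1 : ℝ) else 0) := by
    rw [← sum_ind, ← add_sum_erase _ _ h1, if_pos h2]
    ring
  rw [e0, om, ← prod_inv_distrib]
  refine Vb.prod fun t ht => ?_
  have e : (x : ℚ) - t = ((x - t : ℤ) : ℚ) := by push_cast; ring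
  rw [e]
  split_ifs with h
  · have := vb_inv_lt (p := p) (k := 1) (abs_lt_sq hv hp h1 (mem_of_mem_erase ht))
    rwa [Nat.cast_one] at this
  · refine vb_inv_unit fun hd => h ?_
    rw [show t - 10 * m = x - 10 * m - (x - t) by ring]
    exact dvd_sub h2 hd

end CfJ

theorem stCf : StCf := by
  intro v p m _ x hv hp hx
  have h := (CfJ.vb_Zf v p m (mem_cl.1 hx).2).mul (CfJ.vb_om v p m hv hp hx)
  rw [cf, div_eq_mul_inv]
  exact h.mono (le_of_eq (by ring))

end Pool.Agent.MP_760060_nt.W

end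

section

/-! Change of the basis of polynomials. -/

open Finset Polynomial

namespace Pool.Agent.MP_760060_nt.W

namespace ChgJ

theorem expand {n : ℕ} {f : ℚ[X]} (h : f.natDegree < n) :
    f = ∑ j : Fin n, f.coeff j • (X : ℚ[X]) ^ (j : ℕ) := by
  conv_lhs => rw [f.as_sum_range' n h]
  rw [← Fin.sum_univ_eq_sum_range (fun j => monomial j (f.coeff j))]
  exact sum_congr rfl fun j _ => by rw [← C_mul_X_pow_eq_monomial, smul_eq_C_mul]

theorem main (v : ℕ) (y : Fin 4 → ℕ) (B : Fin (18 * v) → ℚ[X])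
    (h : ∀ i, (B i).natDegree < 18 * v) : (KK v y B).det =
    (Matrix.of fun i j : Fin (18 * v) => (B i).coeff j).det ^ 2 * HH v y := by
  have e : KK v y B = (Matrix.of fun i j : Fin (18 * v) => (B i).coeff j) *
      (KK v y (fun i : Fin (18 * v) => X ^ (i : ℕ)) *
        (Matrix.of fun i j : Fin (18 * v) => (B i).coeff j).transpose) := by
    ext a b
    simp only [KK, Matrix.mul_apply, Matrix.of_apply, Matrix.transpose_apply, ← LLl_apply]
    conv_lhs => rw [expand (h a), expand (h b)]
    simp only [mul_sum, sum_mul, map_sum, mul_smul_comm, smul_mul_assoc, map_smul, smul_eq_mul]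
    rw [sum_comm]
    exact sum_congr rfl fun i _ => sum_congr rfl fun j _ => by ring
  rw [e, Matrix.det_mul, Matrix.det_mul, Matrix.det_transpose, HH]
  ring

end ChgJ

theorem stChg : StChg := by
  refine fun v y B => ⟨ChgJ.main v y B, fun h => ?_⟩
  rw [ChgJ.main v y B fun i => (h i).2 ▸ i.2, ← Matrix.det_transpose]
  have := Matrix.det_matrixOfPolynomials B (fun i => (h i).2) fun i => (h i).1
  rw [show (Matrix.of fun i j : Fin (18 * v) => (B i).coeff j).transpose =
    Matrix.of fun i j : Fin (18 * v) => (B j).coeff i from rfl, this, one_pow, one_mul]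

end Pool.Agent.MP_760060_nt.W

end

section

/-! Counting in one family. -/

open Finset Polynomial Filter Topology

namespace Pool.Agent.MP_760060_nt.W

theorem stCnt : StCnt := by
  intro p m s h a b u j hp H
  have hi : Function.Injective fun i : ℤ => 10 * (m : ℤ) + p * (s + 10 * i) := fun i k e => by
    have := mul_left_cancel₀ (by exact_mod_cast hp.ne' : (p : ℤ) ≠ 0) (add_left_cancel e)
    omega
  have hc : #(Icc (-(a : ℤ)) (b - 2)) = a + b - 1 := by
    rw [Int.card_Icc]
    omega
  refine ⟨fun h1 => ?_, fun h1 => ?_⟩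
  · have h2 : cl p m (AP u h) ⊆
        (Icc (-(a : ℤ)) (b - 2)).image fun i : ℤ => 10 * (m : ℤ) + p * (s + 10 * i) := by
      intro t ht
      obtain ⟨h3, h4⟩ := mem_cl.1 ht
      obtain ⟨i, rfl⟩ := (H t).1 ⟨h4, (mem_AP.1 h3).1⟩
      have := h1 i h3
      exact mem_image_of_mem _ (mem_Icc.2 ⟨this.1, by omega⟩)
    have h3 := (card_le_card h2).trans (card_image_le.trans hc.le)
    refine ⟨h3, ?_⟩
    split_ifs with hj
    · have h4 := card_le_card (erase_subset_erase (10 * (m : ℤ) + p * (s + 10 * j)) h2)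
      rw [← image_erase hi, card_image_of_injective _ hi,
        card_erase_of_mem (mem_Icc.2 ⟨hj.1, by omega⟩), hc] at h4
      omega
    · exact card_erase_le.trans h3
  · rw [← hc, ← card_image_of_injective _ hi]
    refine card_le_card fun t ht => ?_
    obtain ⟨i, h2, rfl⟩ := mem_image.1 ht
    rw [mem_Icc] at h2
    exact mem_cl.2 ⟨h1 i h2.1 (by omega), ((H _).2 ⟨i, rfl⟩).1⟩

end Pool.Agent.MP_760060_nt.W

end

section

open Finset Polynomial Filter Topology

namespace Pool.Agent.MP_760060_nt.W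

namespace LamIJ

theorem vb_num (p : ℕ) [Fact p.Prime] (t : ℤ) (P Q : Prop) [Decidable P] [Decidable Q] :
    Vb p 0 ((wt t : ℚ) * ((if P then 1 else 0) - if Q then 1 else 0)) := by
  refine (vb_int _).mul0 (Vb.sub ?_ ?_) <;> split_ifs <;> first | exact vb_one | exact vb_zero _

end LamIJ

open LamIJ in
theorem stLamI : StLamI := by
  intro v p _ ξ x hv hp hx
  have hp' : 500 * (v : ℤ) < (p : ℤ) ^ (1 + 1) := by exact_mod_cast hp
  rw [mem_XX, mem_XA, mem_XB] at hx
  refine ⟨Vb.sum fun t ht => ?_, fun hnp => Vb.sum fun t _ => ?_⟩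
  · rw [mem_Icc] at ht
    have h1 : |x - t| < (p : ℤ) ^ (1 + 1) :=
      lt_of_le_of_lt (abs_le.2 ⟨by omega, by omega⟩) hp'
    have h2 := vb_inv_lt (p := p) h1
    rw [div_eq_mul_inv]
    refine (vb_num p t _ _).mul0 ?_
    simpa using h2
  · by_cases hd : (p : ℤ) ∣ x - t
    · by_cases hw : wt t = 0
      · simpa [hw] using vb_zero (p := p) 0
      · rw [if_congr (hnp t hd hw) rfl rfl, sub_self, mul_zero, zero_div]
        exact vb_zero _
    · have h2 := vb_inv_unit (p := p) hd
      rw [div_eq_mul_inv]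
      refine (vb_num p t _ _).mul0 ?_
      simpa using h2

end Pool.Agent.MP_760060_nt.W

end

section

/-! The crude `p`-adic size of `lam`. -/

open Finset Polynomial Filter Topology

namespace Pool.Agent.MP_760060_nt.W

theorem stLamL : StLamL := by
  intro v p _ x hv hx
  rw [mem_XX, mem_XA, mem_XB] at hx
  have key : ∀ t : ℤ, |x - t| ≤ (500 * v : ℕ) →
      Vb p (Nat.log p (500 * v)) ((wt t : ℚ) / (x - t)) := fun t ht => by
    have h := (vb_int (p := p) (wt t)).mul0 (vb_inv_log ht)
    rwa [Int.cast_sub, ← div_eq_mul_inv] at h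
  rw [lam]
  refine (Vb.sum fun t ht => key t ?_).sub (Vb.sum fun t ht => key t ?_) <;>
    rw [mem_Ioo] at ht <;> exact abs_le.2 ⟨by omega, by omega⟩

end Pool.Agent.MP_760060_nt.W

end

section

/-! Moving the cut does not change the functional. -/

open Finset Polynomial Filter Topology

namespace Pool.Agent.MP_760060_nt.W

namespace ModJ

theorem inner {v : ℕ} (hv : 1 ≤ v) {f : ℚ[X]} (hf : f.natDegree ≤ 36 * v + 2) {t : ℤ}
    (ht : t ∈ ZZ v) : ∑ x ∈ XX v, cf v x * f.eval (x : ℚ) / (x - t) = 0 := by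
  rw [← dd_zero (XX v) ((∏ s ∈ (ZZ v).erase t, (X - C (s : ℚ))) * f) (by
    have h1 := natDegree_mul_le (p := ∏ s ∈ (ZZ v).erase t, (X - C (s : ℚ))) (q := f)
    rw [natDegree_prod_of_monic _ _ fun s _ => monic_X_sub_C _] at h1
    simp only [natDegree_X_sub_C, sum_const, smul_eq_mul, mul_one, card_erase_of_mem ht,
      card_ZZ] at h1
    rw [card_XX]
    omega)]
  refine sum_congr rfl fun x hx => ?_
  have h1 : (x : ℚ) - t ≠ 0 := sub_ne_zero.2 fun e =>
    XX_not_ZZ hx ((by exact_mod_cast e : x = t) ▸ ht)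
  simp only [cf, Zf, ← mul_prod_erase _ _ ht, eval_mul, eval_prod, eval_sub, eval_X, eval_C]
  field_simp

end ModJ

theorem stMod : StMod := by
  intro v ξ f hv hξ hf
  rw [LL, ← sub_eq_zero, ← sum_sub_distrib]
  have e : ∀ x ∈ XX v, lam x * cf v x * f.eval (x : ℚ) - lamS v ξ x * cf v x * f.eval (x : ℚ) =
      ∑ t ∈ Icc (-(231 * v : ℤ)) (231 * v),
        (wt t : ℚ) * ((if t < ξ t then 1 else 0) - if t < 0 then 1 else 0) *
          (cf v x * f.eval (x : ℚ) / (x - t)) := fun x hx => by
    rw [lam_eq_lamS hv hx, ← sub_mul, ← sub_mul, lamS, lamS, ← sum_sub_distrib, sum_mul, sum_mul]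
    exact sum_congr rfl fun t _ => by ring
  rw [sum_congr rfl e, sum_comm]
  refine sum_eq_zero fun t _ => ?_
  rw [← mul_sum]
  by_cases ht : t ∈ ZZ v
  · rw [ModJ.inner hv hf ht, mul_zero]
  by_cases hw : wt t = 0
  · simp [hw]
  · simp [hξ t hw ht]

end Pool.Agent.MP_760060_nt.W

end

section

/-! The determinant does not vanish for a suitable choice of four points. -/

open Finset Polynomial Filter Topology

namespace Pool.Agent.MP_760060_nt.W

namespace NZJ

/-- the pairing twisted by `g` has no left kernel -/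
def Ok (v k : ℕ) (g : ℚ[X]) : Prop := ∀ f : ℚ[X], f.degree < (18 * v : ℕ) →
  (∀ j < 18 * v + k, LL v (g * (f * X ^ j)) = 0) → f = 0

theorem step (hN5 : StN5) {v k : ℕ} {g : ℚ[X]} (h : Ok v (k + 1) g) :
    ∃ y : ℕ, y ≤ 18 * v ∧ Ok v k (g * (X - C (y : ℚ))) := by
  obtain ⟨y, hy, h1⟩ := hN5 ((LLl v).comp (LinearMap.mulLeft ℚ g)) (18 * v) k h
  refine ⟨y, hy, fun f hf h2 => h1 f hf fun j hj => ?_⟩
  have h3 := h2 j hj
  rw [mul_assoc, ← mul_assoc _ f] at h3
  exact h3

end NZJ

theorem stNZ (hN4 : StN4) (hN5 : StN5) : StNZ := by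
  intro v hv
  have h4 : NZJ.Ok v (3 + 1) 1 := fun f hf h => hN4 v hv f hf fun j hj => by
    simpa using h j hj
  obtain ⟨y0, b0, h3⟩ := NZJ.step hN5 h4
  obtain ⟨y1, b1, h2⟩ := NZJ.step hN5 (k := 2) h3
  obtain ⟨y2, b2, h1⟩ := NZJ.step hN5 (k := 1) h2
  obtain ⟨y3, b3, h0⟩ := NZJ.step hN5 (k := 0) h1
  refine ⟨![y0, y1, y2, y3], fun k => by fin_cases k <;> simpa, fun hd => ?_⟩
  have ez : zt ![y0, y1, y2, y3] =
      1 * (X - C (y0 : ℚ)) * (X - C (y1 : ℚ)) * (X - C (y2 : ℚ)) * (X - C (y3 : ℚ)) := by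
    rw [zt, Fin.prod_univ_four, one_mul]
    rfl
  rw [← ez] at h0
  obtain ⟨c, hc, hM⟩ := Matrix.exists_vecMul_eq_zero_iff.2 hd
  have hf := h0 _ (degree_sum_fin_lt c) fun j hj => by
    have h5 := congrFun hM ⟨j, hj⟩
    simp only [Matrix.vecMul, dotProduct, KK, Matrix.of_apply, Pi.zero_apply] at h5
    rw [sum_mul, mul_sum, ← LLl_apply, map_sum, ← h5]
    refine sum_congr rfl fun i _ => ?_
    rw [LLl_apply, ← LL_C_mul]
    congr 1
    ring
  refine hc (funext fun i => ?_)
  have h6 := congrArg (fun f : ℚ[X] => f.coeff i) hf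
  simpa [Fin.val_inj, coeff_X_pow, finsetSum_coeff] using h6

end Pool.Agent.MP_760060_nt.W

end

section

open Finset Polynomial Filter Topology

namespace Pool.Agent.MP_760060_nt.W

theorem stPfr : StPfr := by
  intro S G z hG hz
  have h := Lagrange.eq_interpolate (s := S) (v := fun x : ℤ => (x : ℚ))
    Int.cast_injective.injOn hG
  have hp : ∏ x ∈ S, (z - x) ≠ 0 := prod_ne_zero_iff.2 fun x hx => sub_ne_zero.2 (hz x hx)
  rw [eq_div_iff hp, congrArg (aeval z) h, Lagrange.interpolate_apply, map_sum, sum_mul]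
  refine sum_congr rfl fun x hx => ?_
  rw [← mul_prod_erase S _ hx, ← mul_assoc, div_mul_cancel₀ _ (sub_ne_zero.2 (hz x hx))]
  simp only [Lagrange.basis, Lagrange.basisDivisor, om, map_mul, map_prod, map_sub, aeval_C,
    aeval_X, eq_ratCast, Rat.cast_intCast, Rat.cast_prod, Rat.cast_inv,
    prod_mul_distrib, prod_inv_distrib, div_eq_mul_inv, Rat.cast_mul, mul_assoc]

end Pool.Agent.MP_760060_nt.W

end

section

/-! The real size of the determinant. -/

open Finset Polynomial Filter Topology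

namespace Pool.Agent.MP_760060_nt.W

namespace RealJ

theorem key {H P A B : ℝ} (hH : 0 < H) (h1 : H * P ^ 2 ≤ Real.exp A) (h2 : Real.exp B ≤ P) :
    Real.log H ≤ A - 2 * B := by
  have h3 : Real.exp B ^ 2 ≤ P ^ 2 := pow_le_pow_left₀ (Real.exp_pos B).le h2 2
  have h4 : H * Real.exp B ^ 2 ≤ Real.exp A := (mul_le_mul_of_nonneg_left h3 hH.le).trans h1
  have h5 := Real.log_le_log (by positivity) h4
  rw [Real.log_mul hH.ne' (by positivity), Real.log_pow, Real.log_exp, Real.log_exp] at h5
  push_cast at h5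
  linarith

end RealJ

theorem stReal (hLag : StLag) (hDK : StDK) (hVY : StVY) : StReal := by
  obtain ⟨K₁, h1⟩ := hDK
  obtain ⟨K₂, h2⟩ := hVY
  refine ⟨K₁ + 2 * K₂, ?_⟩
  filter_upwards [h1, h2, eventually_ge_atTop 1] with u a1 a2 hu y hy h0
  have h3 := congrArg (fun q : ℚ => (q : ℝ)) (hLag u y hu)
  simp only [Rat.cast_mul, Rat.cast_pow, Rat.cast_abs] at h3
  have h4 : (0 : ℝ) < |(HH (10 * u) y : ℝ)| := abs_pos.2 (by exact_mod_cast h0)
  have h5 := RealJ.key h4 (h3.le.trans (a1 y hy)) a2
  linarith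

end Pool.Agent.MP_760060_nt.W

end

section

/-! The number of points of a progression in a class mod `p`. -/

open Finset Polynomial Filter Topology

namespace Pool.Agent.MP_760060_nt.W

theorem stWin : StWin := by
  intro p m h c hp
  have hp0 : 0 < p := by unfold Cop at hp; omega
  obtain ⟨μ, hμ⟩ := exists_cls hp
  obtain ⟨h1, h2⟩ := hμ (10 * h + c + 10 * m)
  obtain ⟨v, hv⟩ : ∃ v, v = μ (10 * h + c + 10 * m) := ⟨_, rfl⟩
  rw [← hv] at h1 h2
  have h3 := (h2 v h1).2 rfl
  have key : ∀ j : ℕ, ((p : ℤ) ∣ -(10 * (h : ℤ)) - c + 10 * j - 10 * m) ↔ j ≡ v [MOD p] := by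
    intro j
    rw [Nat.modEq_iff_dvd]
    constructor
    · intro h4
      refine hp.isCoprime.dvd_of_dvd_mul_right ?_
      rw [show ((v : ℤ) - j) * 10 = -(-(10 * (h : ℤ)) - c + 10 * j - 10 * m) -
        (10 * h + c + 10 * m - 10 * v) by ring]
      exact dvd_sub h4.neg_right h3
    · intro h4
      rw [show -(10 * (h : ℤ)) - c + 10 * j - 10 * m = -(((v : ℤ) - j) * 10) -
        (10 * h + c + 10 * m - 10 * v) by ring]
      exact dvd_sub (h4.mul_right 10).neg_right h3
  have e : #(cl p m (AP c h)) = Nat.count (· ≡ v [MOD p]) (2 * h + 1) := by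
    rw [cl, card_filter, sum_AP, Nat.count_eq_card_filter_range, card_filter]
    exact sum_congr rfl fun j _ => if_congr (key j) rfl rfl
  rw [e, Nat.count_modEq_card _ hp0]
  split_ifs <;> omega

end Pool.Agent.MP_760060_nt.W

end

section

/-! The prime number theorem in the forms that are used. -/

open Finset Filter Topology

namespace Pool.Agent.MP_760060_nt.W

namespace Pnt

open MP_384f6f_nt.PI

/-- the weight `w` on the primes has natural density `d` -/
def ND (w : ℕ → ℝ) (d : ℝ) : Prop := Tendsto (fun x : ℝ =>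
  (∑ p ∈ (Ioc 0 ⌊x⌋₊).filter Nat.Prime, w p * Real.log p) / x) atTop (𝓝 d)

theorem nd_one : ND (fun _ => 1) 1 := by
  simpa [ND, Chebyshev.theta] using theta_lim one_pos

open ArithmeticFunction.vonMangoldt in
theorem nd_class {q : ℕ} [NeZero q] {a : ZMod q} (ha : IsUnit a) :
    ND (fun p => if (p : ZMod q) = a then 1 else 0) (q.totient : ℝ)⁻¹ := by
  have t1 : (1 : ℝ) ≤ q.totient := by exact_mod_cast Nat.totient_pos.2 (NeZero.pos q)
  unfold ND
  simp only [sum_filter]
  refine sharp _ _ (fun n => ?_) (fun n => ?_) (by positivity) (inv_le_one_of_one_le₀ t1)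
    fun κ hκ hc => ?_
  · split_ifs <;> simp [Real.log_natCast_nonneg]
  · split_ifs <;> simp [Real.log_natCast_nonneg]
  obtain ⟨M, hM⟩ := hc.exists_bound_of_continuous hκ
  have h1 := summable_residueClass_non_primes_div a
  have h2 : ∀ (u : ℝ) (n : ℕ),
      ‖(if n.Prime then 0 else residueClass a n) / n * κ (Real.log n - u)‖ ≤
        (if n.Prime then 0 else residueClass a n) / n * M := by
    intro u n
    have : 0 ≤ (if n.Prime then 0 else residueClass a n) / (n : ℝ) := by
      refine div_nonneg ?_ n.cast_nonneg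
      split_ifs
      · exact le_rfl
      · exact residueClass_nonneg a n
    rw [norm_mul, Real.norm_of_nonneg this]
    exact mul_le_mul_of_nonneg_left (hM _) this
  have h3 : ∀ n : ℕ, ∀ᶠ u : ℝ in atTop, κ (Real.log n - u) = 0 := fun n =>
    ((tendsto_atBot_add_const_left _ (Real.log n) tendsto_neg_atTop_atBot).mono_right
      (atBot_le_cocompact.trans cocompact_le_coclosedCompact)).eventually
      (hasCompactSupport_iff_eventuallyEq.1 hc)
  have h4 := tendsto_tsum_of_dominated_convergence (𝓕 := atTop) (g := fun _ => (0 : ℝ))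
    (h1.mul_right M) (fun n => tendsto_const_nhds.congr' (by
      filter_upwards [h3 n] with u hu
      rw [hu, mul_zero])) (Eventually.of_forall h2)
  have h5 := (MP_357fb4_an.PNT_smooth ha κ hκ hc).sub h4
  rw [tsum_zero, sub_zero] at h5
  refine h5.congr fun u => ?_
  have h6 : ∀ᶠ n : ℕ in cofinite, κ (Real.log n - u) = 0 := by
    rw [Nat.cofinite_eq_atTop]
    exact ((tendsto_atTop_add_const_right _ (-u)
      (Real.tendsto_log_atTop.comp tendsto_natCast_atTop_atTop)).mono_right
      (atTop_le_cocompact.trans cocompact_le_coclosedCompact)).eventually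
      (hasCompactSupport_iff_eventuallyEq.1 hc)
  have h7 : ∀ c : ℕ → ℝ, Summable fun n => c n * κ (Real.log n - u) := fun c =>
    summable_of_hasFiniteSupport (h6.subset fun n hn => right_ne_zero_of_mul hn)
  rw [← (h7 _).tsum_sub (h7 _)]
  refine tsum_congr fun n => ?_
  rw [← sub_mul, ← sub_div]
  congr 2
  by_cases hp : n.Prime
  · by_cases hn : (n : ZMod q) = a <;>
      simp [hp, hn, residueClass, ArithmeticFunction.vonMangoldt_apply_prime hp]
  · simp [hp]

/-- summation by parts against a function with increments `h` -/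
theorem parts (c g : ℕ → ℝ) (N : ℕ) : ∑ n ∈ Ioc 0 N, c n * g n =
    (∑ n ∈ Ioc 0 N, c n) * g N - ∑ k ∈ range N, (∑ n ∈ Ioc 0 k, c n) * (g (k + 1) - g k) := by
  induction N with
  | zero => simp
  | succ N ih =>
    rw [sum_Ioc_succ_top (Nat.zero_le N), ih, sum_range_succ, sum_Ioc_succ_top (Nat.zero_le N)]
    ring

theorem ND.nat {w : ℕ → ℝ} {d : ℝ} (h : ND w d) : Tendsto (fun N : ℕ =>
    (∑ n ∈ Ioc 0 N, if n.Prime then w n * Real.log n else 0) / N) atTop (𝓝 d) := by
  simpa [Function.comp_def, sum_filter] using Tendsto.comp h tendsto_natCast_atTop_atTop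

theorem ND.scale {w : ℕ → ℝ} {d : ℝ} (h : ND w d) {a : ℝ} (ha : 0 < a) : Tendsto (fun x : ℝ =>
    (∑ p ∈ (Ioc 0 ⌊a * x⌋₊).filter Nat.Prime, w p * Real.log p) / x) atTop (𝓝 (d * a)) := by
  refine ((Tendsto.comp h (tendsto_id.const_mul_atTop ha)).mul_const a).congr' ?_
  filter_upwards [eventually_gt_atTop 0] with x hx
  simp only [Function.comp, id]
  field_simp

theorem ND.nat1 {w : ℕ → ℝ} {d : ℝ} (h : ND w d) : Tendsto (fun N : ℕ =>
    (∑ p ∈ (Ioc 0 N).filter Nat.Prime, w p * Real.log p * p) / (N : ℝ) ^ 2) atTop (𝓝 (d / 2)) := by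
  set C : ℕ → ℝ := fun N => ∑ n ∈ Ioc 0 N, if n.Prime then w n * Real.log n else 0 with hC
  have h1 : Tendsto (fun N : ℕ => C N / N) atTop (𝓝 d) := h.nat
  have e0 : ∀ N : ℕ, ∑ n ∈ range N, (n : ℝ) = (N : ℝ) * (N - 1) / 2 := fun N => by
    induction N with
    | zero => simp
    | succ N ih => rw [sum_range_succ, ih]; push_cast; ring
  have h0 : (fun n : ℕ => C n - d * n) =o[atTop] (fun n : ℕ => (n : ℝ)) := by
    rw [Asymptotics.isLittleO_iff_tendsto']
    · have h2 := h1.sub_const d
      rw [sub_self] at h2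
      refine h2.congr' ?_
      filter_upwards [eventually_gt_atTop 0] with N hN
      have : (N : ℝ) ≠ 0 := by exact_mod_cast hN.ne'
      field_simp
    · filter_upwards [eventually_gt_atTop 0] with N hN h
      exact absurd (by exact_mod_cast h) hN.ne'
  have hg : Tendsto (fun N : ℕ => ∑ n ∈ range N, (n : ℝ)) atTop atTop := by
    refine tendsto_atTop_mono' atTop ?_ (tendsto_natCast_atTop_atTop (R := ℝ))
    filter_upwards [eventually_ge_atTop 3] with N hN
    have : (3 : ℝ) ≤ N := by exact_mod_cast hN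
    rw [e0]; nlinarith
  have h2 : (fun N : ℕ => ∑ n ∈ range N, (n : ℝ)) =O[atTop] (fun N : ℕ => (N : ℝ) ^ 2) := by
    refine Asymptotics.IsBigO.of_bound 1 (Eventually.of_forall fun N => ?_)
    have hN : (0 : ℝ) ≤ N := Nat.cast_nonneg N
    rw [Real.norm_of_nonneg (sum_nonneg fun n _ => Nat.cast_nonneg n),
      Real.norm_of_nonneg (by positivity), e0]
    nlinarith
  have h3 := ((h0.sum_range (fun n => Nat.cast_nonneg n) hg).trans_isBigO h2).tendsto_div_nhds_zero
  have h4 := (h1.sub h3).sub ((tendsto_const_nhds (x := d / 2)).sub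
    ((tendsto_inv_atTop_nhds_zero_nat (𝕜 := ℝ)).const_mul (d / 2)))
  rw [show d - 0 - (d / 2 - d / 2 * 0) = d / 2 by ring] at h4
  refine h4.congr' ?_
  filter_upwards [eventually_gt_atTop 0] with N hN
  have : (N : ℝ) ≠ 0 := by exact_mod_cast hN.ne'
  have e := parts (fun n => if n.Prime then w n * Real.log n else 0) (fun n => (n : ℝ)) N
  simp only [Nat.cast_add, Nat.cast_one, add_sub_cancel_left, mul_one, ite_mul, zero_mul] at e
  rw [sum_filter, e, sum_sub_distrib, ← mul_sum, e0]
  simp only [hC]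
  field_simp
  ring

theorem ND.scale1 {w : ℕ → ℝ} {d : ℝ} (h : ND w d) {a : ℝ} (ha : 0 < a) : Tendsto (fun x : ℝ =>
    (∑ p ∈ (Ioc 0 ⌊a * x⌋₊).filter Nat.Prime, w p * Real.log p * p) / x ^ 2) atTop
      (𝓝 (d / 2 * a ^ 2)) := by
  refine ((h.nat1.comp (MP_357fb4_an.PNT_floor ha)).mul ((floor_lim ha).pow 2)).congr' ?_
  filter_upwards [(MP_357fb4_an.PNT_floor ha).eventually_gt_atTop 0] with x hx
  have : (⌊a * x⌋₊ : ℝ) ≠ 0 := by exact_mod_cast hx.ne'
  simp only [Function.comp]
  field_simp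

end Pnt

open Pnt

theorem stTh : StTh := fun _ h => MP_384f6f_nt.PI.theta_lim h

theorem stThC : StThC := by
  intro r P hr h10
  rcases Nat.eq_zero_or_pos P with rfl | hP
  · simp
  have hu : IsUnit ((r : ℕ) : ZMod 10) := by
    rw [ZMod.isUnit_iff_coprime]
    unfold Cop at hr
    interval_cases r <;> simp_all <;> decide
  have h := ((nd_class hu).scale (a := (P : ℝ) / 1000) (by positivity)).comp
    tendsto_natCast_atTop_atTop
  rw [show ((Nat.totient 10 : ℕ) : ℝ)⁻¹ * ((P : ℝ) / 1000) = P / 4000 by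
    rw [show Nat.totient 10 = 4 by decide]; push_cast; ring] at h
  refine h.congr fun v => ?_
  have e : ⌊(P : ℝ) / 1000 * v⌋₊ = P * v / 1000 := by
    rw [show (P : ℝ) / 1000 * v = ((P * v : ℕ) : ℝ) / (1000 : ℕ) by push_cast; ring,
      Nat.floor_div_eq_div]
  simp only [Function.comp, e, sum_filter]
  congr 1
  refine sum_congr rfl fun p _ => ?_
  have e2 : ((p : ZMod 10) = (r : ℕ)) ↔ p % 10 = r := by
    rw [ZMod.natCast_eq_natCast_iff', Nat.mod_eq_of_lt h10]
  by_cases h1 : p.Prime <;> by_cases h2 : p % 10 = r <;> simp [h1, h2, e2]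

theorem stThL : StThL := by
  have h1 := (nd_one.scale (a := 5) (by norm_num)).comp tendsto_natCast_atTop_atTop
  have h2 := (nd_one.scale1 (a := 5) (by norm_num)).comp tendsto_natCast_atTop_atTop
  have h := (h1.const_mul 18).add (h2.const_mul (13 / 8))
  rw [show (18 : ℝ) * (1 * 5) + 13 / 8 * (1 / 2 * 5 ^ 2) = 1765 / 16 by norm_num] at h
  refine h.congr' ?_
  filter_upwards [eventually_gt_atTop 0] with v hv
  have h0 : (v : ℝ) ≠ 0 := by exact_mod_cast hv.ne'
  have e : ⌊(5 : ℝ) * v⌋₊ = 5 * v := by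
    rw [show (5 : ℝ) * v = ((5 * v : ℕ) : ℝ) by push_cast; ring, Nat.floor_natCast]
  have e2 : ∀ p : ℕ, (18 * (v : ℝ) + 13 * p / 8) * Real.log p =
      18 * v * Real.log p + 13 / 8 * (Real.log p * p) := fun p => by ring
  simp only [Function.comp, e, one_mul, e2, sum_add_distrib, ← mul_sum]
  field_simp

end Pool.Agent.MP_760060_nt.W

end

section

/-! From the primes that are not Wieferich primes to the density of `T` in `S`. -/

open Finset Filter Topology

namespace Pool.Agent.MP_760060_nt.W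

theorem fin (h : StNW) : Tendsto (fun N : ℕ =>
    ((T ∩ Set.Icc 1 N).ncard : ℝ) / (S ∩ Set.Icc 1 N).ncard) atTop (𝓝 0) := by
  obtain ⟨c, K, hc, h⟩ := h
  have hl : Tendsto (fun M : ℕ => √(Real.log (Real.log M))) atTop atTop :=
    Real.tendsto_sqrt_atTop.comp (Real.tendsto_log_atTop.comp
      (Real.tendsto_log_atTop.comp tendsto_natCast_atTop_atTop))
  refine tendsto_order.2 ⟨fun a ha => Eventually.of_forall fun N => ha.trans_le (by positivity),
    fun ε hε => ?_⟩
  obtain ⟨K', M₀, hM⟩ := main (ε / 2) (by positivity)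
  filter_upwards [h, eventually_ge_atTop M₀, hl.eventually_ge_atTop 1,
    hl.eventually_ge_atTop ((|K'| + |K|) / c)] with M h1 h2 h3 h4
  have h5 : 0 ≤ Real.log (Real.log M) := by
    by_contra h5
    rw [Real.sqrt_eq_zero_of_nonpos (not_le.1 h5).le] at h3
    linarith
  have h6 := Real.mul_self_sqrt h5
  rw [div_le_iff₀ hc] at h4
  have h7 := hM M h2 (by
    refine le_trans ?_ h1
    set s := √(Real.log (Real.log M))
    rw [← h6]
    nlinarith [le_abs_self K, le_abs_self K', abs_nonneg K, abs_nonneg K'])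
  refine lt_of_le_of_lt (div_le_of_le_mul₀ (by positivity) (by positivity) h7) (by linarith)

end Pool.Agent.MP_760060_nt.W

end

section

/-! All lemmas put together. -/

namespace Pool.Agent.MP_760060_nt.W

theorem allN1 : StN1 := stN1

theorem allN3 : StN3 := stN3

theorem allN4 : StN4 := stN4 allN1 allN3

theorem allN5 : StN5 := stN5

theorem allNZ : StNZ := stNZ allN4 allN5

theorem allBig : StBig := stBig

theorem allNewt : StNewt := stNewt

theorem allBlk : StBlk := stBlk allNewt

theorem allBlkW : StBlkW := stBlkW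

theorem allLamI : StLamI := stLamI

theorem allLamC : StLamC := stLamC

theorem allCf : StCf := stCf

theorem allCfW : StCfW := stCfW

theorem allPair : StPair := stPair

theorem allLer : StLer := stLer

theorem allHs : StHs := stHs

theorem allHres : StHres := stHres

theorem allKap : StKap := stKap allLer allHs allHres

theorem allPhi : StPhi := stPhi

theorem allCls : StCls := stCls allBlk allBlkW allLamI allLamC allCf allCfW allPair allKap allPhi

theorem allMod : StMod := stMod

theorem allLemD : StLemD := stLemD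

theorem allBlkD : StBlkD := stBlkD allLemD

theorem allLoc : StLoc := stLoc allCls allMod allBlkD

theorem allFam : StFam := stFam

theorem allCnt : StCnt := stCnt

theorem allMu : StMu := stMu allPhi allFam allCnt

theorem allGo : StGo := stGo

theorem allCell : StCell := stCell allLoc allMu allGo

theorem allThC : StThC := stThC

theorem allRg : StRg := stRg allCell allThC

theorem allCh : StCh := stCh allBig allRg

theorem allHigh : StHigh := stHigh allCh

theorem allPF : StPF := stPF

theorem allWin : StWin := stWin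

theorem allMid : StMid := stMid allLoc allPhi allWin

theorem allPl : StPl := stPl

theorem allPu : StPu := stPu

theorem allChg : StChg := stChg

theorem allLamL : StLamL := stLamL

theorem allSmall : StSmall := stSmall allPl allPu allChg allLamL

theorem allAna : StAna := stAna

theorem allTwo : StTwo := stTwo allPl allPu allChg allLamL allAna

theorem allFive : StFive := stFive allPl allPu allChg allLamL allAna

theorem allThL : StThL := stThL

theorem allTh : StTh := stTh

theorem allMert : StMert := stMert allTh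

theorem allErr : StErr := stErr

theorem allLow : StLow := stLow allMid allSmall allTwo allFive allThL allMert allErr

theorem allLag : StLag := stLag allChg

theorem allDR : StDR := stDR

theorem allInt : StInt := stInt

theorem allJT : StJT := stJT

theorem allCst : StCst := stCst

theorem allRep : StRep := stRep allInt allJT allCst

theorem allPfr : StPfr := stPfr

theorem allFaA : StFaA := stFaA

theorem allFaB : StFaB := stFaB

theorem allLip : StLip := stLip allFaA allFaB

theorem allSum : StSum := stSum allFaA allFaB allLip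

theorem allZX : StZX := stZX allFaA allSum

theorem allOm : StOm := stOm allFaA allSum

theorem allMono : StMono := stMono allFaA allFaB

theorem allLn : StLn := stLn

theorem allAt : StAt := stAt

theorem allEN : StEN := stEN allFaA allLn allAt

theorem allEnc : StEnc := stEnc allMono allEN

theorem allUB : StUB := stUB

theorem allAcc : StAcc := stAcc allUB

theorem allCL : StCL := stCL allEnc allAcc

theorem allTail : StTail := stTail allFaA allFaB

theorem allLine : StLine := stLine allZX allOm allCL allTail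

theorem allUs : StUs := stUs

theorem allK0 : StK0 := stK0 allRep allPfr allLine allUs

theorem allApt : StApt := stApt allZX allOm

theorem allCA : StCA := stCA allEnc allAcc

theorem allSA : StSA := stSA allCA

theorem allDK : StDK := stDK allDR allK0 allApt allSA allUs

theorem allCY : StCY := stCY allEnc allAcc

theorem allVY : StVY := stVY allOm allCY

theorem allReal : StReal := stReal allLag allDK allVY

theorem allMain : StMain := stMain allNZ allBig allHigh allPF allLow allReal

theorem allNW : StNW := stNW allMain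

end Pool.Agent.MP_760060_nt.W

end
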